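import Mathlib
import Pool.Agent.Lib.Pf72953m.Defs
import Pool.Agent.Lib.Pf72953b.Defs

/-!
Families of curves of genus one over a constant variety: definitions.

`B ⊆ E ⊆ L ⊆ N` are finitely generated fields over `k`, `M` is a smooth complete variety with function field
`Y ⊆ L`, `Z ⊆ L` is the compositum of `B` and `Y` (the function field of `M` over `B`), `P/Z` is finite,
`P ⊆ N` and `N = P(u, v)` is the function field of a curve `v² = u³ + a u + b` over `P`.
-/

set_option autoImplicit false
set_option linter.style.haveILetI false

open scoped WithZero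
open Pf72953 Pf72953.Mov

namespace Pf72953.Ell

variable {k Y : Type*} [Field k] [Field Y] [Algebra k Y]

/-- A section `∑ a_l s_l` of the line bundle `A^w` on `M × Spec B'`, `B' ⊆ P` algebraic over `B`: the `s_l`
are linearly independent global sections of `A^w` on `M`. -/
structure MovingSection (M : SmoothModel k Y) (A : LineBundle M) (w : ℕ) (B P : Type*) [Field B]
    [Field P] [Algebra B P] [Algebra Y P] where
  /-- the number of the sections -/
  r : ℕ
  /-- the sections -/
  s : Fin r → Y
  /-- the coefficients -/
  a : Fin r → P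
  s_mem : ∀ l i, ∃ f ∈ M.A i, s l = f * A.gen i ^ w
  s_indep : LinearIndependent k s
  a_alg : ∀ l, IsAlgebraic B (a l)

/-- the section `∑ a_l s_l` -/
def MovingSection.sec {M : SmoothModel k Y} {A : LineBundle M} {w : ℕ} {B P : Type*} [Field B]
    [Field P] [Algebra B P] [Algebra Y P] (σ : MovingSection M A w B P) : P :=
  ∑ l, σ.a l * algebraMap Y P (σ.s l)

section weier

variable {M : SmoothModel k Y} {A : LineBundle M} {B P : Type*} [Field B] [Field P] [Algebra B P]
  [Algebra Y P]

/-- the monomials of weight 12 in the coefficients of `a` (weight 4) and `b` (weight 6) -/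
def weightTwelve (a : MovingSection M A 4 B P) (b : MovingSection M A 6 B P) : Set P :=
  {θ | ∃ l, θ = a.a l ^ 3} ∪ {θ | ∃ l, θ = b.a l ^ 2}

/-- the quotients of the monomials of weight 12 in the coefficients of `a` and `b`; they generate (up to
algebraic extensions) the field of all rational functions of weight `0` in the coefficients -/
def weightRatios (a : MovingSection M A 4 B P) (b : MovingSection M A 6 B P) : Set P :=
  {θ | ∃ α ∈ weightTwelve a b, ∃ β ∈ weightTwelve a b, θ = α / β}

/-- `N` is the function field of the curve `v² = u³ + a u + b` over `P`, `a`, `b` sections of `A⁴`, `A⁶` on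
`M` over `B'`, and this Weierstrass equation is minimal at all prime divisors of `M` over `B`: if `w` is a
valuation of `P` over such a divisor and `t ∈ Z` vanishes on it, then `a`, `b` are not divisible by `t⁴`, `t⁶`. -/
structure IsWeierstrass (k : Type*) {Y : Type*} [Field k] [Field Y] [Algebra k Y]
    {M : SmoothModel k Y} {A : LineBundle M} {B P N : Type*} (Z : Type*) [Field B] [Field Z]
    [Field P] [Field N] [Algebra k P] [Algebra B Z] [Algebra B P] [Algebra Y Z] [Algebra Y P]
    [Algebra Z P] [Algebra P N] (a : MovingSection M A 4 B P) (b : MovingSection M A 6 B P)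
    (u v : N) : Prop where
  eqn : v ^ 2 = u ^ 3 + algebraMap P N a.sec * u + algebraMap P N b.sec
  disc : 4 * a.sec ^ 3 + 27 * b.sec ^ 2 ≠ 0
  gen : ∀ z : N, z ∈ IntermediateField.adjoin P {u, v}
  minimal : ∀ (i : M.I) (w : Valuation P ℤᵐ⁰), IsDivisorial k P w →
    (∀ c : B, c ≠ 0 → w (algebraMap B P c) = 1) → Br.PrimeAt M B Z i w →
    ∀ t : Z, w (algebraMap Z P t) < 1 →
      ¬ (w a.sec ≤ (w (algebraMap Y P (A.gen i)) * w (algebraMap Z P t)) ^ 4 ∧
        w b.sec ≤ (w (algebraMap Y P (A.gen i)) * w (algebraMap Z P t)) ^ 6)

end weier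

section forms

/-- the differential `du / v` of `N/Z` is `g ds` with `g, s ∈ L` -/
def DefinedOver (Z : Type*) {L N : Type*} [Field Z] [Field L] [Field N] [Algebra Z N] [Algebra L N]
    (u v : N) (s g : L) : Prop :=
  ∀ D : Derivation Z N N, D u = v * algebraMap L N g * D (algebraMap L N s)

variable {M : SmoothModel k Y} {B P N J : Type*} [Field B] [Field P] [Field N] [Algebra B P]
  [Algebra B N] [Algebra Y P] [Algebra Y N] [Algebra P N]

/-- `Spec L` over the generic point of `M × Spec B'` is ramified along all divisors lying over the divisor `D`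
(multiple fibres): the form `dx_{i1} ∧ ⋯ ∧ dx_{in}` of `L/B` vanishes at every divisorial valuation of `N/k` trivial
on `B` and centred on the divisor. -/
def RamifiedOver (k' L : Type*) [Field k'] [Field L] [Algebra k' N] [Algebra L N]
    [Algebra B L] [Algebra Y L] (D : MovingDivisor M B P) : Prop :=
  ∀ w : Valuation N ℤᵐ⁰, IsDivisorial k' N w → (∀ c : B, c ≠ 0 → w (algebraMap B N c) = 1) →
    ∀ i, (∀ f ∈ M.A i, w (algebraMap Y N f) ≤ 1) →
      w (algebraMap P N D.sec) < w (algebraMap Y N (D.S.gen i)) →
      ∀ d : Fin (dimension k Y) → Derivation B L L,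
        (∀ a z, w (algebraMap L N z) ≤ 1 → w (algebraMap L N (d a z)) ≤ 1) →
        w (algebraMap L N (Matrix.det (Matrix.of fun a b => d a (algebraMap Y L (M.x i b))))) < 1

/-- Outside the divisors `D_j` the line bundle `A` is the direct image of the relative canonical bundle: over
every prime divisor of `M` over `B` not contained in one of the `D_j` there is a divisor of `Spec L` at which the form
`gen_A dx_{i1} ∧ ⋯ ∧ dx_{in} ∧ g ds` of `L/B` does not vanish. -/
def GeneratedOutside (k' Z : Type*) {L : Type*} (N : Type*) [Field k'] [Field Z] [Field L] [Field N]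
    [Algebra k' P] [Algebra k' N] [Algebra B Z] [Algebra B L] [Algebra Y Z] [Algebra Y L]
    [Algebra Y N] [Algebra Z P] [Algebra P N] [Algebra L N] (A : LineBundle M)
    (D : J → MovingDivisor M B P) (s g : L) : Prop :=
  ∀ (i : M.I) (T : Valuation P ℤᵐ⁰), IsDivisorial k' P T →
    (∀ c : B, c ≠ 0 → T (algebraMap B P c) = 1) → Br.PrimeAt M B Z i T →
    (∀ j, T (D j).sec = T (algebraMap Y P ((D j).S.gen i))) →
    ∃ w : Valuation N ℤᵐ⁰, IsDivisorial k' N w ∧
      (∀ p : P, w (algebraMap P N p) ≤ 1 ↔ T p ≤ 1) ∧
      ∃ d : Fin (dimension k Y) ⊕ Unit → Derivation B L L,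
        (∀ a z, w (algebraMap L N z) ≤ 1 → w (algebraMap L N (d a z)) ≤ 1) ∧
        1 ≤ w (algebraMap Y N (A.gen i)) * w (algebraMap L N (g * Matrix.det (Matrix.of fun a b =>
          d a (Sum.elim (fun c => algebraMap Y L (M.x i c)) (fun _ => s) b))))

/-- Every element of `L` algebraic over the function field `Z` of `M` over `B` is in the function field of `M`
over `B'`, `B' ⊆ P` the algebraic closure of `B`: the fibres of `Spec L → M × Spec B'` are connected. -/
def ConnectedFibres (k' B Y Z P L N : Type*) [Field k'] [Field B] [Field Y] [Field Z] [Field P]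
    [Field L] [Field N] [Algebra k' P] [Algebra B P] [Algebra Y P] [Algebra Z L] [Algebra P N]
    [Algebra L N] : Prop :=
  ∀ z : L, IsAlgebraic Z z → ∃ t ∈ IntermediateField.adjoin k'
    ({p : P | IsAlgebraic B p} ∪ Set.range (algebraMap Y P)), algebraMap P N t = algebraMap L N z

/-- the line bundles `A` and `S_j` -/
def bundles (A : LineBundle M) (S : J → LineBundle M) : Option J → LineBundle M :=
  fun o => o.elim A S

end forms

/-- the variation of the family: the transcendence degree of the field generated by the rational functions of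
weight `0` in the coefficients of the Weierstrass equation, and the quotients of the coefficients of the divisors -/
noncomputable def variation (k' : Type*) {M : SmoothModel k Y} {A : LineBundle M} {B P J : Type*}
    [Field k'] [Field B] [Field P] [Algebra k' P] [Algebra B P] [Algebra Y P]
    (a : MovingSection M A 4 B P) (b : MovingSection M A 6 B P) (D : J → MovingDivisor M B P) : ℕ :=
  dimension k' (IntermediateField.adjoin k' (weightRatios a b ∪ ⋃ j, (D j).ratios))

end Pf72953.Ell
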