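import Mathlib
import Pool.Agent.Lib.Pf72953.Core
import Pool.Agent.Lib.Pf72953u.Inst
import Pool.Agent.Lib.Pf72953t.Defs
import Pool.Agent.Lib.Pf72953e.Defs

/-!
Transcendence bases of `Z`, `P`, `N`.
-/

set_option autoImplicit false
set_option linter.style.haveILetI false

open scoped WithZero
open Pf72953 Pf72953.Mov Pf72953.Twr

namespace Pf72953.Ell

theorem dimension_le_card {k K ι : Type*} [Field k] [Field K] [Algebra k K] [Fintype ι] {s : ι → K}
    (h : ∀ a : K, IsAlgebraic (Algebra.adjoin k (Set.range s)) a) :
    dimension k K ≤ Fintype.card ι := by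
  haveI : Algebra.IsAlgebraic (Algebra.adjoin k (Set.range s)) K := ⟨h⟩
  have h1 := Algebra.IsAlgebraic.trdeg_le_cardinalMk k (Set.range s)
  have h2 : Cardinal.mk (Set.range s) < Cardinal.aleph0 := Cardinal.lt_aleph0_of_finite _
  have h3 := Cardinal.toNat_le_toNat h1 h2
  rw [dimension]
  refine h3.trans ?_
  have h4 := Finite.card_range_le s
  rwa [Nat.card_eq_fintype_card (α := ι)] at h4

theorem tb_of_alg {k K ι : Type*} [Field k] [Field K] [Algebra k K] [FinTrdeg k K] [Fintype ι]
    {s : ι → K} (h : ∀ a : K, IsAlgebraic (Algebra.adjoin k (Set.range s)) a)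
    (hcard : Fintype.card ι = dimension k K) : IsTranscendenceBasis k s := by
  haveI : Algebra.IsAlgebraic (Algebra.adjoin k (Set.range s)) K := ⟨h⟩
  refine Algebra.IsAlgebraic.isTranscendenceBasis_of_lift_le_trdeg_of_finite k s ?_
  rw [← trdeg_eq_dimension, Cardinal.mk_fintype, hcard]
  simp

section

variable {k B E Y Z P N : Type*} [Field k] [Field B] [Field E] [Field Y] [Field Z] [Field P]
  [Field N]
  [Algebra k B] [Algebra k E] [Algebra k Y] [Algebra k Z] [Algebra k P] [Algebra k N]
  [Algebra B Z] [Algebra E N] [Algebra Y Z] [Algebra Z P] [Algebra P N]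
  [IsScalarTower k B Z] [IsScalarTower k Y Z] [IsScalarTower k Z P]
  [IsScalarTower k P N] [IsScalarTower k E N]
  [Algebra.EssFiniteType k B] [Algebra.EssFiniteType k Y] [Algebra.EssFiniteType k E]
  [FiniteDimensional E N] [FiniteDimensional Z P]

omit [Field E] [Field N] [Field P] [Algebra k E] [Algebra k P] [Algebra k N]
  [Algebra E N] [Algebra Z P] [Algebra P N]
  [IsScalarTower k Z P] [IsScalarTower k P N]
  [IsScalarTower k E N]
  [Algebra.EssFiniteType k E] [FiniteDimensional E N] [FiniteDimensional Z P] in
theorem essFinite_Z (hcomp : IsCompositum k B Y Z) : Algebra.EssFiniteType k Z := by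
  have hgen : ∀ z : Z, z ∈ IntermediateField.adjoin B (Set.range (algebraMap Y Z)) := by
    intro z
    have h1 : IntermediateField.adjoin k (Set.range (algebraMap B Z) ∪ Set.range (algebraMap Y Z)) ≤
        (IntermediateField.adjoin B (Set.range (algebraMap Y Z))).restrictScalars k := by
      rw [IntermediateField.adjoin_le_iff]
      rintro _ (⟨b, rfl⟩ | ⟨b, rfl⟩)
      · exact (IntermediateField.adjoin B (Set.range (algebraMap Y Z))).algebraMap_mem b
      · exact IntermediateField.subset_adjoin B _ ⟨b, rfl⟩
    exact h1 (hcomp z)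
  haveI : Algebra.EssFiniteType B Z := Up.essFiniteType_of_gen (k := k) (Y := Y) hgen
  exact Algebra.EssFiniteType.comp k B Z

/-- transcendence bases -/
theorem bases (hcomp : IsCompositum k B Y Z)
    (hdim : dimension k B + dimension k Y + 1 = dimension k E) {u : N}
    (halg : ∀ z : N, IsAlgebraic (IntermediateField.adjoin P {u}) z) :
    dimension k Z = dimension k B + dimension k Y ∧ dimension k P = dimension k Z ∧
    dimension k N = dimension k E ∧
    (∀ {x : Fin (dimension k B) → B} {y : Fin (dimension k Y) → Y},
      IsTranscendenceBasis k x → IsTranscendenceBasis k y → IsTranscendenceBasis k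
        (Sum.elim (fun i => algebraMap B Z (x i)) (fun j => algebraMap Y Z (y j)))) ∧
    (∀ {z : Fin (dimension k B) ⊕ Fin (dimension k Y) → P}, IsTranscendenceBasis k z →
      IsTranscendenceBasis k (Sum.elim (fun j => algebraMap P N (z j)) (fun _ : Unit => u))) := by
  classical
  haveI := essFinite_Z hcomp
  haveI : Algebra.EssFiniteType k P := Algebra.EssFiniteType.comp k Z P
  haveI : Algebra.EssFiniteType k N := Algebra.EssFiniteType.comp k E N
  have halgZ : ∀ a : Z, IsAlgebraic (Algebra.adjoin k
      (Set.range (algebraMap B Z) ∪ Set.range (algebraMap Y Z))) a := by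
    intro a
    rw [← IntermediateField.isAlgebraic_adjoin_iff]
    exact isAlgebraic_algebraMap (⟨a, hcomp a⟩ : IntermediateField.adjoin k
      (Set.range (algebraMap B Z) ∪ Set.range (algebraMap Y Z)))
  have halgN : ∀ a : N, IsAlgebraic (Algebra.adjoin k
      (Set.range (algebraMap P N) ∪ {u})) a := by
    intro a
    have h1 : IsAlgebraic (IntermediateField.adjoin k (Set.range (algebraMap P N) ∪ {u})) a := by
      letI : Algebra P (IntermediateField.adjoin k (Set.range (algebraMap P N) ∪ {u})) :=
        ((algebraMap P N).codRestrict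
          (IntermediateField.adjoin k (Set.range (algebraMap P N) ∪ {u})).toSubring
          (fun p => IntermediateField.subset_adjoin k _ (Or.inl ⟨p, rfl⟩))).toAlgebra
      haveI : IsScalarTower P (IntermediateField.adjoin k (Set.range (algebraMap P N) ∪ {u})) N :=
        IsScalarTower.of_algebraMap_eq fun _ => rfl
      have hle : ∀ b ∈ IntermediateField.adjoin P ({u} : Set N),
          b ∈ IntermediateField.adjoin k (Set.range (algebraMap P N) ∪ {u}) := by
        intro b hb
        induction hb using IntermediateField.adjoin_induction with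
        | mem x hx => exact IntermediateField.subset_adjoin k _ (Or.inr hx)
        | algebraMap r => exact IntermediateField.subset_adjoin k _ (Or.inl ⟨r, rfl⟩)
        | add x y _ _ hx hy => exact add_mem hx hy
        | inv x _ hx => exact inv_mem hx
        | mul x y _ _ hx hy => exact mul_mem hx hy
      letI : Algebra (IntermediateField.adjoin P ({u} : Set N))
          (IntermediateField.adjoin k (Set.range (algebraMap P N) ∪ {u})) :=
        (((IntermediateField.adjoin P ({u} : Set N)).val.toRingHom).codRestrict
          (IntermediateField.adjoin k (Set.range (algebraMap P N) ∪ {u})).toSubring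
          (fun p => hle p p.2)).toAlgebra
      haveI : IsScalarTower (IntermediateField.adjoin P ({u} : Set N))
          (IntermediateField.adjoin k (Set.range (algebraMap P N) ∪ {u})) N :=
        IsScalarTower.of_algebraMap_eq fun _ => rfl
      exact (halg a).extendScalars (algebraMap (IntermediateField.adjoin P ({u} : Set N))
          (IntermediateField.adjoin k (Set.range (algebraMap P N) ∪ {u}))).injective
    rwa [IntermediateField.isAlgebraic_adjoin_iff] at h1
  obtain ⟨xB, hxB⟩ := exists_tb k B
  obtain ⟨y, hy⟩ := exists_tb k Y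
  obtain ⟨zE, hzE⟩ := exists_tb k E
  obtain ⟨xZ, hxZ⟩ := exists_tb k Z
  obtain ⟨xP, hxP⟩ := exists_tb k P
  have hdimN : dimension k E = dimension k N := by
    have h1 : IsTranscendenceBasis k (algebraMap E N ∘ zE) := hzE.algebraMap_comp
    have h2 := card_eq_of_isTranscendenceBasis h1
    rwa [Fintype.card_fin] at h2
  have hdimP : dimension k Z = dimension k P := by
    have h1 : IsTranscendenceBasis k (algebraMap Z P ∘ xZ) := hxZ.algebraMap_comp
    have h2 := card_eq_of_isTranscendenceBasis h1
    rwa [Fintype.card_fin] at h2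
  have halgZ' : ∀ {x : Fin (dimension k B) → B} {y : Fin (dimension k Y) → Y},
      IsTranscendenceBasis k x → IsTranscendenceBasis k y → ∀ a : Z, IsAlgebraic (Algebra.adjoin k
        (Set.range (Sum.elim (fun i => algebraMap B Z (x i)) (fun j => algebraMap Y Z (y j))))) a := by
    intro x y hx hy a
    refine (halgZ a).adjoin_of_forall_isAlgebraic ?_
    rintro _ ⟨⟨b, rfl⟩ | ⟨b, rfl⟩, -⟩
    · exact isAlgebraic_transport hx (Set.range _) (fun i => ⟨Sum.inl i, rfl⟩) b
    · exact isAlgebraic_transport hy (Set.range _) (fun i => ⟨Sum.inr i, rfl⟩) b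
  have halgN' : ∀ {ι : Type} {z : ι → P}, IsTranscendenceBasis k z → ∀ a : N, IsAlgebraic
      (Algebra.adjoin k (Set.range (Sum.elim (fun j => algebraMap P N (z j))
        (fun _ : Unit => u)))) a := by
    intro ι z hz a
    refine (halgN a).adjoin_of_forall_isAlgebraic ?_
    rintro _ ⟨⟨b, rfl⟩ | h, h'⟩
    · exact isAlgebraic_transport hz (Set.range _) (fun i => ⟨Sum.inl i, rfl⟩) b
    · exact absurd ⟨Sum.inr (), (Set.mem_singleton_iff.mp h).symm⟩ h'
  have hZ1 : dimension k Z ≤ dimension k B + dimension k Y := by
    simpa using dimension_le_card (halgZ' hxB hy)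
  have hN1 : dimension k N ≤ dimension k P + 1 := by
    simpa using dimension_le_card (halgN' hxP)
  have hZ2 : dimension k Z = dimension k B + dimension k Y := by omega
  refine ⟨hZ2, hdimP.symm, hdimN.symm, fun hx hy => ?_, fun {z} hz => ?_⟩
  · exact tb_of_alg (halgZ' hx hy) (by simp [hZ2])
  · exact tb_of_alg (halgN' hz) (by
      simp only [Fintype.card_sum, Fintype.card_fin, Fintype.card_unit]
      omega)

end

end Pf72953.Ell
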