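import Mathlib
import Pool.Agent.Lib.Pf72953.Estimate
import Pool.Agent.Lib.Pf72953.Extend

/-!
MODULE Pf72953e.ExtE: extension of discrete valuations to finite extensions; a transcendental element has a pole.

PROOF of `exists_extend`.  `O = v.valuationSubring` is a discrete valuation ring (the library shows this: Pf72953u/Dvr.lean, or `Valuation` API for values in `ℤᵐ⁰`), `S` its integral closure in `P`,
a Dedekind domain with fraction field `P` (`integralClosure.isDedekindDomain`), not a field; choose a maximal ideal `Q` of `S` lying over the maximal ideal of `O`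
(`Ideal.exists_ideal_over_maximal_of_isIntegral` or so) and let `w` be its valuation (`IsDedekindDomain.HeightOneSpectrum.valuation`, with values in `ℤᵐ⁰`).  For `a ∈ K`: if `v a ≤ 1` then `a ∈ S` and
`w a ≤ 1`; if `v a > 1` then `v a⁻¹ < 1`, `a⁻¹ ∈ Q`, `w a⁻¹ < 1`.
PROOF of `exists_pole`.  `N` is algebraic over `P(f)` (`dimension P N = 1`) and finitely generated, so finite over `K = IntermediateField.adjoin P {f}` (`Algebra.finite_of_essFiniteType_of_isAlgebraic`).  `K` has the
valuation `v` trivial on `P` with `v f > 1` (the degree valuation: e.g. transport `FunctionField.inftyValuation` / the `X`-adic valuation of `RatFunc P` through the isomorphism `RatFunc P ≃ K`, `X ↦ 1/f`; or apply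
`exists_extend`-like arguments to the subring `P[1/f]`, a polynomial ring, localized at the prime `(1/f)`).  Extend `v` by `exists_extend`; for `p ∈ P`, `p ≠ 0`: `w p ≤ 1` and `w p⁻¹ ≤ 1`.
-/

set_option autoImplicit false
set_option linter.style.haveILetI false

open scoped WithZero
open Pf72953

namespace Pf72953.Ell

theorem exists_extend {K P : Type*} [Field K] [CharZero K] [Field P] [Algebra K P]
    [FiniteDimensional K P] {v : Valuation K ℤᵐ⁰} (hv : ∃ a : K, a ≠ 0 ∧ v a ≠ 1) :
    ∃ w : Valuation P ℤᵐ⁰, ∀ a : K, w (algebraMap K P a) ≤ 1 ↔ v a ≤ 1 := by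
  exact Pf72953.exists_extension v hv

theorem exists_pole {P N : Type*} [Field P] [CharZero P] [Field N] [Algebra P N]
    [Algebra.EssFiniteType P N] (hdim : dimension P N = 1) {f : N} (hf : Transcendental P f) :
    ∃ w : Valuation N ℤᵐ⁰, (∀ p : P, p ≠ 0 → w (algebraMap P N p) = 1) ∧ 1 < w f := by
  classical
  have hf0 : f ≠ 0 := by
    rintro rfl
    exact hf isAlgebraic_zero
  have hfi : Transcendental P f⁻¹ := fun h => hf (by simpa using h.inv)
  -- `f⁻¹` is a transcendence basis
  have htb : IsTranscendenceBasis P (fun _ : Fin 1 => f⁻¹) := by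
    refine isTranscendenceBasis_of_card (by rw [Fintype.card_fin, hdim]) ?_
    exact algebraicIndependent_unique_type_iff.2 hfi
  have halg0 := htb.isAlgebraic_field
  have hrange : Set.range (fun _ : Fin 1 => f⁻¹) = {f⁻¹} := Set.range_const
  rw [hrange] at halg0
  have hess : Algebra.EssFiniteType (IntermediateField.adjoin P {f⁻¹}) N :=
    Algebra.EssFiniteType.of_comp P _ N
  have hfin : Module.Finite (IntermediateField.adjoin P {f⁻¹}) N :=
    Algebra.finite_of_essFiniteType_of_isAlgebraic
  have hchar : CharZero (IntermediateField.adjoin P {f⁻¹}) :=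
    charZero_of_injective_algebraMap (algebraMap P _).injective
  let e := RatFunc.algEquivOfTranscendental f⁻¹ hfi
  let v0 : Valuation (RatFunc P) ℤᵐ⁰ := (Polynomial.idealX P).valuation (RatFunc P)
  let v : Valuation (IntermediateField.adjoin P {f⁻¹}) ℤᵐ⁰ :=
    v0.comap (e.symm : IntermediateField.adjoin P {f⁻¹} →+* RatFunc P)
  have hvX : v (IntermediateField.AdjoinSimple.gen P f⁻¹) = WithZero.exp (-1 : ℤ) := by
    change v0 (e.symm (IntermediateField.AdjoinSimple.gen P f⁻¹)) = _
    rw [RatFunc.algEquivOfTranscendental_symm_gen]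
    exact Polynomial.valuation_X_eq_neg_one P
  have hvP : ∀ p : P, v (algebraMap P _ p) ≤ 1 := by
    intro p
    change v0 (e.symm (algebraMap P _ p)) ≤ 1
    rw [e.symm.commutes, IsScalarTower.algebraMap_apply P (Polynomial P) (RatFunc P)]
    exact (Polynomial.idealX P).valuation_le_one _
  have hlt : WithZero.exp (-1 : ℤ) < (1 : ℤᵐ⁰) := by
    rw [← WithZero.exp_zero, WithZero.exp_lt_exp]
    norm_num
  have hgen : (IntermediateField.AdjoinSimple.gen P f⁻¹ :
      IntermediateField.adjoin P {f⁻¹}) ≠ 0 := by
    intro h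
    rw [h, map_zero] at hvX
    exact WithZero.exp_ne_zero hvX.symm
  obtain ⟨w, hw⟩ := exists_extend (K := IntermediateField.adjoin P {f⁻¹}) (P := N) (v := v)
    ⟨_, hgen, by rw [hvX]; exact hlt.ne⟩
  refine ⟨w, ?_, ?_⟩
  · have h1 : ∀ p : P, w (algebraMap P N p) ≤ 1 := by
      intro p
      rw [IsScalarTower.algebraMap_apply P (IntermediateField.adjoin P {f⁻¹}) N]
      exact (hw _).2 (hvP p)
    intro p hp
    refine le_antisymm (h1 p) ?_
    have h2 := h1 p⁻¹
    rw [map_inv₀, map_inv₀] at h2
    have h3 : w (algebraMap P N p) ≠ 0 := by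
      rw [Valuation.ne_zero_iff]
      simpa using hp
    exact (inv_le_one₀ (zero_lt_iff.2 h3)).1 h2
  · by_contra hle
    rw [not_lt] at hle
    have h4 := (hw (IntermediateField.AdjoinSimple.gen P f⁻¹)⁻¹).1 (by
      rw [map_inv₀, IntermediateField.AdjoinSimple.algebraMap_gen, inv_inv]
      exact hle)
    rw [map_inv₀, hvX] at h4
    rw [inv_le_one₀ (zero_lt_iff.2 WithZero.exp_ne_zero)] at h4
    exact absurd hlt (not_lt.2 h4)

end Pf72953.Ell
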