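import Mathlib
import Pool.Agent.Lib.Pf72953m.Est
import Pool.Agent.Lib.Pf72953m.Fin
import Pool.Agent.Lib.Pf72953e.Defs

/-!
MODULE Pf72953e.KeyE: the estimate for the part of the form coming from `M` over `B` and from the coefficients of the
Weierstrass equation.

`μ = relvol M i cB hc`; `σ` is (in the application) the logarithmic norm of `du / v`.
PROOF.
`exists_secCost`: if all `a.a l` are `0` take `C = 0` (the left hand side is `0`).  Otherwise `a.r ≠ 0`, `a.r = r' + 1`; let `D : MovingDivisor M B P` have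
the line bundle `S` with `S.gen i = A.gen i ^ wt` (`ne`: `pow_ne_zero`; `compat`: `map_pow`, `A.compat`), the sections `a.s` and the coefficients
`a.a` (index `Fin (r' + 1)`, by `subst`/`Fin.cast`), so `D.sec = a.sec`; `exists_cert D` gives `C`, and `sec_bound D hC hcB hz hA hc`
(Pf72953m/Est.lean) for an index `l₀` with `w (a.a l₀)` maximal gives the claim (for every `l`, `w (a.a l) ≤ w (a.a l₀)`).
`NumA.mul`, `NumA.pow`, `mem_NumA`: direct.  For `mem_NumA_twelve`: `s ^ 12 * w (a_l ^ 3) = (s ^ 4 * w a_l) ^ 3 ≤ 1`.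
`sec_le`: `a.sec / gen ^ wt = ∑ a_l f_l` with `f_l ∈ M.A i`.
`key`: put `σ' = σ * gen * μ ^ Ce` (`gen = w (A.gen i)`).  `σ' ^ 4 * w (a_l) = σ ^ 4 * gen ^ 4 * μ ^ (4 Ce) * w (a_l) ≤
σ ^ 4 * (μ ^ Ce * (w (a_l) * gen ^ 4)) ≤ σ ^ 4 * w a.sec ≤ 1` (`μ ≤ 1`: `relvol_le_one`), similarly `σ' ^ 6 * w (b_l) ≤ 1`; so `σ' ^ qA * w ν ≤ 1` by `hν`.
For every `j`: `w (β j / sec ^ q j) * μ ^ (C j * q j) * w (gen_j) ^ q j ≤ 1` (`hsec` in the proof of `Mov.mem_GoodL`, Pf72953m/Est.lean: `sec_bound` with a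
maximal coefficient, `Num`).  `w g * w (jac) ^ m ≤ gen ^ qA * ∏ w (gen_j) ^ q j` (`hg i`, `M.A i` has values `≤ 1`; the product over `Option J`:
`Fintype.prod_option`).  `(σ ^ 4 * w a.sec) ^ r₁ ≤ 1`, `(σ ^ 6 * w b.sec) ^ r₂ ≤ 1`.  Now
`σ ^ m = σ ^ qA * σ ^ (4 r₁) * σ ^ (6 r₂)`, `μ ^ m = μ ^ (m - ..) * (∏ μ ^ (C j * q j)) * μ ^ (Ce * qA)`; collect the factors (compare the `calc` in
`Mov.mem_GoodL`).
`key2`: `w (β j) ≤ 1` (`Num` and `hD`), `w (β j / sec ^ q j) * gen_j ^ q j ≤ 1` (`hlt`), `w ν ≤ 1` (`NumA` with `s = 1`), `w a.sec ≤ gen ^ 4`, `w b.sec ≤ gen ^ 6`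
(`sec_le`), and `w g * w (jac) ^ m ≤ gen ^ qA * ∏ gen_j ^ q j`; the powers of `gen` add up to `m`.
-/

set_option autoImplicit false
set_option linter.style.haveILetI false

open scoped WithZero
open Pf72953 Pf72953.Var Pf72953.Mov

namespace Pf72953.Ell

variable {k B Y P J : Type*} [Field k] [CharZero k] [Field B] [Field Y] [Field P] [Algebra k B]
  [Algebra k Y] [Algebra k P] [Algebra B P] [Algebra Y P] [IsScalarTower k B P]
  [IsScalarTower k Y P] {M : SmoothModel k Y} {A : LineBundle M}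

/-- the cost of passing from a coefficient to the section -/
def SecCost (k : Type*) {B Y P : Type*} [Field k] [CharZero k] [Field B] [Field Y] [Field P]
    [Algebra k B] [Algebra k Y] [Algebra k P] [Algebra B P] [Algebra Y P]
    {M : SmoothModel k Y} {A : LineBundle M} {wt : ℕ}
    (a : MovingSection M A wt B P) (C : ℕ) : Prop :=
  ∀ (i : M.I) (cB : Fin (dimension k B) → B) (_ : IsTranscendenceBasis k cB)
    (_ : IsTranscendenceBasis k (zfam (L := P) M i cB)) (w : Valuation P ℤᵐ⁰)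
    (_ : ∀ f ∈ M.A i, w (algebraMap Y P f) ≤ 1)
    (c : Fin (dimension k B) ⊕ Fin (dimension k Y) → P) (hc : LogBasis k w c) (l : Fin a.r),
    relvol M i cB hc ^ C * (w (a.a l) * w (algebraMap Y P (A.gen i)) ^ wt) ≤ w a.sec

/-- forms of weight `q` in the coefficients of `a` (weight 4) and `b` (weight 6) -/
def NumA (a : MovingSection M A 4 B P) (b : MovingSection M A 6 B P) (q : ℕ) : Set P :=
  {ν | ∀ (w : Valuation P ℤᵐ⁰) (s : ℤᵐ⁰), (∀ l, s ^ 4 * w (a.a l) ≤ 1) →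
    (∀ l, s ^ 6 * w (b.a l) ≤ 1) → s ^ q * w ν ≤ 1}

omit [CharZero k] [Algebra k B] [Algebra k P] [IsScalarTower k B P] [IsScalarTower k Y P] in
theorem NumA.mul {a : MovingSection M A 4 B P} {b : MovingSection M A 6 B P} {p q : ℕ} {μ ν : P}
    (hμ : μ ∈ NumA a b p) (hν : ν ∈ NumA a b q) : μ * ν ∈ NumA a b (p + q) := by
  intro w s h4 h6
  have h1 := hμ w s h4 h6
  have h2 := hν w s h4 h6
  calc s ^ (p + q) * w (μ * ν) = (s ^ p * w μ) * (s ^ q * w ν) := by
        rw [map_mul, pow_add]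
        simp only [mul_comm, mul_left_comm, mul_assoc]
    _ ≤ 1 * 1 := mul_le_mul' h1 h2
    _ = 1 := one_mul _

omit [CharZero k] [Algebra k B] [Algebra k P] [IsScalarTower k B P] [IsScalarTower k Y P] in
theorem NumA.pow {a : MovingSection M A 4 B P} {b : MovingSection M A 6 B P} {p : ℕ} {μ : P}
    (hμ : μ ∈ NumA a b p) (n : ℕ) : μ ^ n ∈ NumA a b (p * n) := by
  intro w s h4 h6
  have h1 := hμ w s h4 h6
  rw [map_pow, pow_mul, ← mul_pow]
  exact pow_le_one' h1 n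

omit [CharZero k] [Algebra k B] [Algebra k P] [IsScalarTower k B P] [IsScalarTower k Y P] in
theorem mem_NumA_twelve {a : MovingSection M A 4 B P} {b : MovingSection M A 6 B P} {θ : P}
    (hθ : θ ∈ weightTwelve a b) : θ ∈ NumA a b 12 := by
  intro w s h4 h6
  rcases hθ with ⟨l, rfl⟩ | ⟨l, rfl⟩
  · have h1 : s ^ 12 * w (a.a l ^ 3) = (s ^ 4 * w (a.a l)) ^ 3 := by
      rw [map_pow, mul_pow, ← pow_mul]
    rw [h1]
    exact pow_le_one' (h4 l) 3
  · have h1 : s ^ 12 * w (b.a l ^ 2) = (s ^ 6 * w (b.a l)) ^ 2 := by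
      rw [map_pow, mul_pow, ← pow_mul]
    rw [h1]
    exact pow_le_one' (h6 l) 2

theorem exists_secCost [IsAlgClosed k] {wt : ℕ} (a : MovingSection M A wt B P) :
    ∃ C, SecCost k a C := by
  classical
  by_cases hall : ∀ l, a.a l = 0
  · refine ⟨0, ?_⟩
    intro i cB _ _ w _ c hc l
    rw [hall l, map_zero, zero_mul, mul_zero]
    exact zero_le
  · push Not at hall
    rcases a with ⟨r, s, a, h1, h2, h3⟩
    simp only at hall
    rcases r with _ | r
    · obtain ⟨l, -⟩ := hall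
      exact l.elim0
    · let S : LineBundle M :=
        { gen := fun i => A.gen i ^ wt
          ne := fun i => pow_ne_zero _ (A.ne i)
          compat := fun i j v hi hj => by
            rw [map_pow, map_pow, A.compat i j v hi hj] }
      let D : MovingDivisor M B P :=
        { S := S
          r := r
          s := s
          a := a
          s_mem := fun l i => h1 l i
          s_indep := h2
          a_alg := h3
          a_ne := hall }
      obtain ⟨C, hC⟩ := exists_cert D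
      refine ⟨C, ?_⟩
      intro i cB hcB hz w hA c hc l
      obtain ⟨l₀, -, hl₀⟩ := Finset.exists_max_image Finset.univ (fun l => w (D.a l))
        Finset.univ_nonempty
      have hb := sec_bound D hC hcB hz hA hc (l₀ := l₀) (fun l => hl₀ l (Finset.mem_univ l))
      have h4 : w (D.a l) ≤ w (D.a l₀) := hl₀ l (Finset.mem_univ l)
      have h5 : w (algebraMap Y P (D.S.gen i)) = w (algebraMap Y P (A.gen i)) ^ wt := by
        change w (algebraMap Y P (A.gen i ^ wt)) = _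
        rw [map_pow, map_pow]
      rw [h5] at hb
      refine le_trans ?_ hb
      gcongr

omit [CharZero k] [Algebra k B] [Algebra k P] [IsScalarTower k B P] [IsScalarTower k Y P] in
theorem sec_le {wt : ℕ} (a : MovingSection M A wt B P) {w : Valuation P ℤᵐ⁰} {i : M.I}
    (hA : ∀ f ∈ M.A i, w (algebraMap Y P f) ≤ 1) (ha : ∀ l, w (a.a l) ≤ 1) :
    w a.sec ≤ w (algebraMap Y P (A.gen i)) ^ wt := by
  refine Valuation.map_sum_le w fun l _ => ?_
  obtain ⟨f, hf, hs⟩ := a.s_mem l i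
  rw [map_mul, hs, map_mul, map_mul, map_pow, map_pow]
  calc w (a.a l) * (w (algebraMap Y P f) * w (algebraMap Y P (A.gen i)) ^ wt) ≤
      1 * (1 * w (algebraMap Y P (A.gen i)) ^ wt) := by
        gcongr
        · exact ha l
        · exact hA f hf
    _ = _ := by rw [one_mul, one_mul]

theorem key [Fintype J] (D : J → MovingDivisor M B P) {C : J → ℕ} (hC : ∀ j, Cert (D j) (C j))
    {a : MovingSection M A 4 B P} {b : MovingSection M A 6 B P} {Ce : ℕ} (hCa : SecCost k a Ce)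
    (hCb : SecCost k b Ce) {m qA r₁ r₂ : ℕ} {q : J → ℕ} (hm : qA + 4 * r₁ + 6 * r₂ = m)
    (hq : ∑ j, C j * q j + Ce * qA ≤ m) {y : Fin (dimension k Y) → Y} {g : Y}
    (hg : g ∈ CoefSec M (bundles A fun j => (D j).S) y m (fun o => o.elim qA q)) {β : J → P}
    (hβ : ∀ j, β j ∈ Num (D j) (q j)) (hsec : ∀ j, (D j).sec ≠ 0) {ν : P} (hν : ν ∈ NumA a b qA)
    {i : M.I} {cB : Fin (dimension k B) → B} (hcB : IsTranscendenceBasis k cB)
    (hz : IsTranscendenceBasis k (zfam (L := P) M i cB)) {w : Valuation P ℤᵐ⁰}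
    (hA : ∀ f ∈ M.A i, w (algebraMap Y P f) ≤ 1)
    {c : Fin (dimension k B) ⊕ Fin (dimension k Y) → P} (hc : LogBasis k w c) {σ : ℤᵐ⁰}
    (hσa : σ ^ 4 * w a.sec ≤ 1) (hσb : σ ^ 6 * w b.sec ≤ 1) {h p α : ℤᵐ⁰}
    (hα : h * p ^ m ≤ α) :
    h * w (algebraMap Y P g) *
        w ((∏ j, β j / (D j).sec ^ q j) * ν * (a.sec ^ r₁ * b.sec ^ r₂)) *
        (σ * (relvol M i cB hc * p * w (algebraMap Y P (jac (M.tb i) y)))) ^ m ≤
      α * relvol M i cB hc ^ (m - (∑ j, C j * q j + Ce * qA)) := by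
  classical
  set μ := relvol M i cB hc with hμ
  have hμ1 : μ ≤ 1 := relvol_le_one hcB hA hc
  set gn := w (algebraMap Y P (A.gen i)) with hgn
  have hwsec : ∀ j, w (D j).sec ≠ 0 := fun j => (Valuation.ne_zero_iff w).mpr (hsec j)
  -- the sections of `A`
  have hA4 : ∀ l, (σ * gn * μ ^ Ce) ^ 4 * w (a.a l) ≤ 1 := by
    intro l
    have h1 := hCa i cB hcB hz w hA c hc l
    calc (σ * gn * μ ^ Ce) ^ 4 * w (a.a l) =
          σ ^ 4 * ((μ ^ Ce) ^ 4 * (w (a.a l) * gn ^ 4)) := by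
          rw [mul_pow, mul_pow]
          simp only [mul_comm, mul_left_comm, mul_assoc]
      _ ≤ σ ^ 4 * ((μ ^ Ce) ^ 1 * (w (a.a l) * gn ^ 4)) := by
          gcongr σ ^ 4 * (?_ * _)
          exact pow_le_pow_right_of_le_one' (pow_le_one' hμ1 _) (by omega)
      _ ≤ σ ^ 4 * w a.sec := by
          rw [pow_one]
          gcongr
      _ ≤ 1 := hσa
  have hA6 : ∀ l, (σ * gn * μ ^ Ce) ^ 6 * w (b.a l) ≤ 1 := by
    intro l
    have h1 := hCb i cB hcB hz w hA c hc l
    calc (σ * gn * μ ^ Ce) ^ 6 * w (b.a l) =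
          σ ^ 6 * ((μ ^ Ce) ^ 6 * (w (b.a l) * gn ^ 6)) := by
          rw [mul_pow, mul_pow]
          simp only [mul_comm, mul_left_comm, mul_assoc]
      _ ≤ σ ^ 6 * ((μ ^ Ce) ^ 1 * (w (b.a l) * gn ^ 6)) := by
          gcongr σ ^ 6 * (?_ * _)
          exact pow_le_pow_right_of_le_one' (pow_le_one' hμ1 _) (by omega)
      _ ≤ σ ^ 6 * w b.sec := by
          rw [pow_one]
          gcongr
      _ ≤ 1 := hσb
  have hνb : (σ * gn * μ ^ Ce) ^ qA * w ν ≤ 1 := hν w _ hA4 hA6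
  -- the divisors
  have hsb : ∀ j, w (β j / (D j).sec ^ q j) * μ ^ (C j * q j) *
      w (algebraMap Y P ((D j).S.gen i)) ^ q j ≤ 1 := by
    intro j
    obtain ⟨l₀, -, hl₀'⟩ := Finset.exists_max_image Finset.univ (fun l => w ((D j).a l))
      Finset.univ_nonempty
    have hl₀ : ∀ l, w ((D j).a l) ≤ w ((D j).a l₀) := fun l => hl₀' l (Finset.mem_univ l)
    have h3 := sec_bound (D j) (hC j) hcB hz hA hc hl₀
    have h4 := hβ j w l₀ hl₀
    have h5 : 0 < w (D j).sec ^ q j := pow_pos (zero_lt_iff.mpr (hwsec j)) _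
    rw [map_div₀, map_pow, div_mul_eq_mul_div, div_mul_eq_mul_div, div_le_one₀ h5]
    calc w (β j) * μ ^ (C j * q j) * w (algebraMap Y P ((D j).S.gen i)) ^ q j
        ≤ w ((D j).a l₀) ^ q j * μ ^ (C j * q j) *
          w (algebraMap Y P ((D j).S.gen i)) ^ q j := by gcongr
      _ = (μ ^ C j * (w ((D j).a l₀) * w (algebraMap Y P ((D j).S.gen i)))) ^ q j := by
        rw [mul_pow, mul_pow, pow_mul]
        simp only [mul_comm, mul_left_comm, mul_assoc]
      _ ≤ w (D j).sec ^ q j := pow_le_pow_left' h3 _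
  -- the section on `M`
  obtain ⟨f, hf, hgf⟩ := hg i
  have hgf' : w (algebraMap Y P g) * w (algebraMap Y P (jac (M.tb i) y)) ^ m ≤
      gn ^ qA * ∏ j, w (algebraMap Y P ((D j).S.gen i)) ^ q j := by
    rw [← map_pow, ← map_pow, ← map_mul, ← map_mul, hgf, map_mul, map_mul, Fintype.prod_option,
      map_mul, map_mul, map_prod, map_prod]
    simp only [map_pow]
    refine (mul_le_of_le_one_left' (hA f hf)).trans (le_of_eq ?_)
    rfl
  have hμm : μ ^ m = μ ^ (m - (∑ j, C j * q j + Ce * qA)) *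
      ((∏ j, μ ^ (C j * q j)) * (μ ^ Ce) ^ qA) := by
    rw [Finset.prod_pow_eq_pow_sum, ← pow_mul, ← pow_add, ← pow_add]
    congr 1
    omega
  have hσm : σ ^ m = σ ^ qA * (σ ^ 4) ^ r₁ * (σ ^ 6) ^ r₂ := by
    rw [← pow_mul, ← pow_mul, ← pow_add, ← pow_add]
    congr 1
    omega
  set R := μ ^ (m - (∑ j, C j * q j + Ce * qA)) with hR
  calc _ = (h * p ^ m) * (w (algebraMap Y P g) * w (algebraMap Y P (jac (M.tb i) y)) ^ m) *
        (∏ j, w (β j / (D j).sec ^ q j)) * w ν * (w a.sec ^ r₁ * w b.sec ^ r₂) *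
        (σ ^ m * μ ^ m) := by
        simp only [map_mul, map_prod, map_pow, mul_pow]
        simp only [mul_comm, mul_left_comm, mul_assoc]
    _ ≤ α * (gn ^ qA * ∏ j, w (algebraMap Y P ((D j).S.gen i)) ^ q j) *
        (∏ j, w (β j / (D j).sec ^ q j)) * w ν * (w a.sec ^ r₁ * w b.sec ^ r₂) *
        (σ ^ m * μ ^ m) := by gcongr
    _ = (∏ j, w (β j / (D j).sec ^ q j) * μ ^ (C j * q j) *
          w (algebraMap Y P ((D j).S.gen i)) ^ q j) *
        ((σ * gn * μ ^ Ce) ^ qA * w ν) * (σ ^ 4 * w a.sec) ^ r₁ * (σ ^ 6 * w b.sec) ^ r₂ *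
        (α * R) := by
        rw [hμm, hσm, Finset.prod_mul_distrib, Finset.prod_mul_distrib, mul_pow, mul_pow, mul_pow,
          mul_pow]
        simp only [mul_comm, mul_left_comm, mul_assoc]
    _ ≤ 1 * 1 * 1 * 1 * (α * R) := by
        gcongr
        · exact Finset.prod_le_one' fun j _ => hsb j
        · exact pow_le_one' hσa _
        · exact pow_le_one' hσb _
    _ = α * R := by simp only [one_mul]

omit [Algebra k B] [Algebra k P] [IsScalarTower k B P] [IsScalarTower k Y P] in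
theorem key2 [Fintype J] (D : J → MovingDivisor M B P) {a : MovingSection M A 4 B P}
    {b : MovingSection M A 6 B P} {m qA r₁ r₂ : ℕ} {q : J → ℕ} (hm : qA + 4 * r₁ + 6 * r₂ = m)
    {y : Fin (dimension k Y) → Y} {g : Y}
    (hg : g ∈ CoefSec M (bundles A fun j => (D j).S) y m (fun o => o.elim qA q)) {β : J → P}
    (hβ : ∀ j, β j ∈ Num (D j) (q j)) (hsec : ∀ j, (D j).sec ≠ 0) {ν : P} (hν : ν ∈ NumA a b qA)
    {i : M.I} {w : Valuation P ℤᵐ⁰} (hA : ∀ f ∈ M.A i, w (algebraMap Y P f) ≤ 1)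
    (hD : ∀ j l, w ((D j).a l) ≤ 1) (ha : ∀ l, w (a.a l) ≤ 1) (hb : ∀ l, w (b.a l) ≤ 1)
    (hlt : ∀ j, w (algebraMap Y P ((D j).S.gen i)) ≤ w (D j).sec) {σ μ h : ℤᵐ⁰} (hh : h ≤ 1) :
    h * w (algebraMap Y P g) *
        w ((∏ j, β j / (D j).sec ^ q j) * ν * (a.sec ^ r₁ * b.sec ^ r₂)) *
        (σ * (μ * w (algebraMap Y P (jac (M.tb i) y)))) ^ m ≤
      (μ * σ * w (algebraMap Y P (A.gen i))) ^ m := by
  classical
  set gn := w (algebraMap Y P (A.gen i)) with hgn
  have hwsec : ∀ j, w (D j).sec ≠ 0 := fun j => (Valuation.ne_zero_iff w).mpr (hsec j)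
  have hνb : w ν ≤ 1 := by
    have h1 := hν w 1 (fun l => by rw [one_pow, one_mul]; exact ha l)
      (fun l => by rw [one_pow, one_mul]; exact hb l)
    rwa [one_pow, one_mul] at h1
  have hsa : w a.sec ≤ gn ^ 4 := sec_le a hA ha
  have hsb : w b.sec ≤ gn ^ 6 := sec_le b hA hb
  have hdiv : ∀ j, w (β j / (D j).sec ^ q j) * w (algebraMap Y P ((D j).S.gen i)) ^ q j ≤ 1 := by
    intro j
    obtain ⟨l₀, -, hl₀'⟩ := Finset.exists_max_image Finset.univ (fun l => w ((D j).a l))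
      Finset.univ_nonempty
    have h4 := hβ j w l₀ (fun l => hl₀' l (Finset.mem_univ l))
    have h5 : 0 < w (D j).sec ^ q j := pow_pos (zero_lt_iff.mpr (hwsec j)) _
    rw [map_div₀, map_pow, div_mul_eq_mul_div, div_le_one₀ h5]
    calc w (β j) * w (algebraMap Y P ((D j).S.gen i)) ^ q j
        ≤ w ((D j).a l₀) ^ q j * w (D j).sec ^ q j := by
          gcongr
          exact hlt j
      _ ≤ 1 * w (D j).sec ^ q j := by
          gcongr
          exact pow_le_one' (hD j _) _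
      _ = _ := one_mul _
  obtain ⟨f, hf, hgf⟩ := hg i
  have hgf' : w (algebraMap Y P g) * w (algebraMap Y P (jac (M.tb i) y)) ^ m ≤
      gn ^ qA * ∏ j, w (algebraMap Y P ((D j).S.gen i)) ^ q j := by
    rw [← map_pow, ← map_pow, ← map_mul, ← map_mul, hgf, map_mul, map_mul, Fintype.prod_option,
      map_mul, map_mul, map_prod, map_prod]
    simp only [map_pow]
    refine (mul_le_of_le_one_left' (hA f hf)).trans (le_of_eq ?_)
    rfl
  have hgm : gn ^ m = gn ^ qA * (gn ^ 4) ^ r₁ * (gn ^ 6) ^ r₂ := by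
    rw [← pow_mul, ← pow_mul, ← pow_add, ← pow_add]
    congr 1
    omega
  calc _ = h * (w (algebraMap Y P g) * w (algebraMap Y P (jac (M.tb i) y)) ^ m) *
        (∏ j, w (β j / (D j).sec ^ q j)) * w ν * (w a.sec ^ r₁ * w b.sec ^ r₂) *
        (μ * σ) ^ m := by
        simp only [map_mul, map_prod, map_pow, mul_pow]
        simp only [mul_comm, mul_left_comm, mul_assoc]
    _ ≤ 1 * (gn ^ qA * ∏ j, w (algebraMap Y P ((D j).S.gen i)) ^ q j) *
        (∏ j, w (β j / (D j).sec ^ q j)) * 1 * ((gn ^ 4) ^ r₁ * (gn ^ 6) ^ r₂) *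
        (μ * σ) ^ m := by gcongr
    _ = (∏ j, w (β j / (D j).sec ^ q j) * w (algebraMap Y P ((D j).S.gen i)) ^ q j) *
        ((μ * σ) ^ m * gn ^ m) := by
        rw [hgm, Finset.prod_mul_distrib, one_mul, mul_one]
        simp only [mul_comm, mul_left_comm, mul_assoc]
    _ ≤ 1 * ((μ * σ) ^ m * gn ^ m) := by
        gcongr
        exact Finset.prod_le_one' fun j _ => hdiv j
    _ = _ := by rw [one_mul, ← mul_pow]

end Pf72953.Ell
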