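import Mathlib
import Pool.Agent.Lib.Pf72953m.Est
import Pool.Agent.Lib.Pf72953m.Over
import Pool.Agent.Lib.Pf72953f.RelW
import Pool.Agent.Lib.Pf72953b.Defs

/-!
MODULE Pf72953e.VolP: the relative logarithmic volume of the coordinates of `M` on `P`, `P/Z` finite, at a valuation trivial
on `B`.

PROOF of `relvol_le`.  (This is `Twr.rv_le`, MODULE Pf72953t.Vol, without the factor `G`; compare its header.)  Let `u` be the restriction of `w`
to `Z`; `P/Z` is algebraic, so `u` is not trivial (`val_eq_one_of_isIntegral`), divisorial over `k` (`IsDivisorial.restrict`), trivial on `B`, hence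
divisorial over `B` (`Mov.IsDivisorial.over`, Pf72953m/Over.lean).  `dimension B Z = dimension k Y` (from `hZ`, as in the proof of
`Mov.jac_lt_one`).  `exists_adapted` over `B` gives `c₁ : Fin _ → Z` and a uniformizer `t` of `u`; by `Fib.Adapted_rel` (Pf72953f/RelW.lean) the family
`cZ = Sum.elim (image of x) c₁` is adapted over `k` with the same `t`; its image in `P` is adapted to `w` (`Adapted.map`), hence a log
basis of `P/k` (`Adapted.logBasis`, `dimension k P = dimension k Z`).  `LogBasis.vol_eq` for `c` and this basis: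
`w (jac hc.tb z) * ∏ w c = w (image of jac_Z cZ z) * w t` for the family `z = zfam M i x` (in `P` it is the image of the family
`(x, x_i)` of `Z`; `jac_algebraMap`, `Adapted.prod`), `∏ w x = 1` (`w` is trivial on `B`) and `jac_Z cZ (x, x_i) = jac_B c₁ x_i` (`Fib.jac_rel`,
Pf72953f/Rel.lean, and `jac_self`).  So `relvol = w (jac_B c₁ x_i) * w t`, and `w (jac_B c₁ x_i) ≤ 1` by `RegBasis.jac_le` over `B` (`hA`, `M.mem`).
PROOF of `prime_of_jac`.  `c₁` is a regular basis of `Z/B` for the restriction of `w` (`Adapted.regBasis`; `dimension B Z = card` from `htb`,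
`card_eq_of_isTranscendenceBasis`).  Let `d ∈ Der_B(Z)`, `w (d x_a) ≤ 1` for all `a`.  `d x_a = ∑_b pd htb b (x_a) * d (c₁ b)` (`der_eq_sum`);
the matrix `(pd htb b (x_a))` has entries of value `≤ 1` (`RegBasis.der`, `hA`) and its determinant (`jac_eq_det`) has value `1`, so its inverse
(adjugate over determinant) has entries of value `≤ 1`, hence `w (d (c₁ b)) ≤ 1`, and `d z = ∑_b pd htb b z * d (c₁ b)` has value `≤ 1` if
`w z ≤ 1`.
-/

set_option autoImplicit false
set_option linter.style.haveILetI false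

open scoped WithZero
open Pf72953 Pf72953.Var Pf72953.Mov

namespace Pf72953.Ell

variable {k B Y Z P K : Type*} [Field k] [CharZero k] [Field B] [CharZero B] [Field Y] [Field Z]
  [Field P] [Field K]
  [Algebra k B] [Algebra k Y] [Algebra k Z] [Algebra k P] [Algebra B Z] [Algebra B P]
  [Algebra Y Z] [Algebra Y P] [Algebra Z P] [IsScalarTower k B Z] [IsScalarTower k Y Z]
  [IsScalarTower k Z P] [IsScalarTower k B P] [IsScalarTower k Y P] [IsScalarTower B Z P]
  [IsScalarTower Y Z P] {M : SmoothModel k Y}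

theorem relvol_le [Algebra.EssFiniteType k B] [Algebra.EssFiniteType k Z] [FiniteDimensional Z P]
    (hZ : ∀ {x : Fin (dimension k B) → B} {y : Fin (dimension k Y) → Y},
      IsTranscendenceBasis k x → IsTranscendenceBasis k y → IsTranscendenceBasis k
        (Sum.elim (fun i => algebraMap B Z (x i)) (fun j => algebraMap Y Z (y j))))
    {w : Valuation P ℤᵐ⁰} (hw : IsDivisorial k P w)
    (htriv : ∀ b : B, b ≠ 0 → w (algebraMap B P b) = 1) {i : M.I}
    (hA : ∀ f ∈ M.A i, w (algebraMap Y P f) ≤ 1) {x : Fin (dimension k B) → B}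
    (hx : IsTranscendenceBasis k x) {c : Fin (dimension k B) ⊕ Fin (dimension k Y) → P}
    (hc : LogBasis k w c) :
    ∃ (c₁ : Fin (dimension k Y) → Z) (t : Z) (htb : IsTranscendenceBasis B c₁),
      Adapted B (w.comap (algebraMap Z P)) c₁ t ∧ IsUnif (w.comap (algebraMap Z P)) t ∧
      relvol M i x hc =
        w (algebraMap Z P (jac htb (fun a => algebraMap Y Z (M.x i a)))) * w (algebraMap Z P t) ∧
      w (algebraMap Z P (jac htb (fun a => algebraMap Y Z (M.x i a)))) ≤ 1 := by
  classical
  haveI : Algebra.EssFiniteType B Z := Algebra.EssFiniteType.of_comp k B Z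
  haveI : Algebra.EssFiniteType k P := Algebra.EssFiniteType.comp k Z P
  have hZt : ∀ b : B, b ≠ 0 → (w.comap (algebraMap Z P)) (algebraMap B Z b) = 1 := by
    intro b hb
    rw [Valuation.comap_apply, ← IsScalarTower.algebraMap_apply B Z P]
    exact htriv b hb
  have hnt : ∃ s : Z, s ≠ 0 ∧ w (algebraMap Z P s) ≠ 1 := by
    by_contra hcon
    push Not at hcon
    obtain ⟨a, ha0, ha⟩ := hw.nontrivial
    exact ha (val_eq_one_of_isIntegral hcon ha0 (Algebra.IsIntegral.isIntegral a))
  have huk : IsDivisorial k Z (w.comap (algebraMap Z P)) := hw.restrict hnt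
  have huB : IsDivisorial B Z (w.comap (algebraMap Z P)) := IsDivisorial.over huk hZt
  have hdim : Fintype.card (Fin (dimension k Y)) = dimension B Z := by
    obtain ⟨s, hs⟩ := exists_isTranscendenceBasis B Z
    haveI := finite_of_isTranscendenceBasis hs
    haveI := Fintype.ofFinite s
    have h1 := hx.sumElim_comp hs
    have h2 := card_eq_of_isTranscendenceBasis h1
    have h3 := card_eq_of_isTranscendenceBasis hs
    have h4 := card_eq_of_isTranscendenceBasis (hZ hx (M.tb i))
    rw [Fintype.card_sum] at h2 h4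
    omega
  obtain ⟨c₁, t, ht, hc₁⟩ := huB.exists_adapted hdim
  have hreg := hc₁.regBasis hdim ht
  have hcZ := Fib.Adapted_rel (k := k) hx.1 hc₁
  have htbZ := Fib.tb_rel hx hreg.tb
  have hcP := hcZ.map
  have hlog := hcP.logBasis (card_eq_of_isTranscendenceBasis hc.tb)
  refine ⟨c₁, t, hreg.tb, hc₁, ht, ?_, ?_⟩
  · have h1 := hc.vol_eq hlog (zfam M i x)
    rw [hcP.prod] at h1
    have h2 : (zfam M i x : Fin (dimension k B) ⊕ Fin (dimension k Y) → P) =
        fun j => algebraMap Z P ((Sum.elim (fun a => algebraMap B Z (x a))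
          (fun a => algebraMap Y Z (M.x i a))) j) := by
      funext a
      rcases a with a | a
      · simp only [zfam, Sum.elim_inl, ← IsScalarTower.algebraMap_apply B Z P]
      · simp only [zfam, Sum.elim_inr, ← IsScalarTower.algebraMap_apply Y Z P]
    have h3 : jac hlog.tb (zfam M i x) =
        algebraMap Z P (jac hreg.tb (fun a => algebraMap Y Z (M.x i a))) := by
      rw [h2, jac_algebraMap htbZ hlog.tb, Fib.jac_rel hx hreg.tb htbZ x, jac_self, map_one,
        one_mul]
    have hP : ∏ j, w (algebraMap B P (x j)) = 1 :=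
      Finset.prod_eq_one fun j _ => htriv _ (hx.1.ne_zero j)
    rw [relvol, hP, inv_one, mul_one, h1, h3]
  · have h1 := hreg.jac_le (fun a => algebraMap Y Z (M.x i a)) (fun a => by
      rw [Valuation.comap_apply, ← IsScalarTower.algebraMap_apply Y Z P]
      exact hA _ (M.mem i a))
    exact h1

namespace VolPAux

theorem det_le_one {F ι : Type*} [Field F] [Fintype ι] [DecidableEq ι] (u : Valuation F ℤᵐ⁰)
    (A : Matrix ι ι F) (h : ∀ i j, u (A i j) ≤ 1) : u A.det ≤ 1 := by
  rw [Matrix.det_apply]
  refine Valuation.map_sum_le _ fun σ _ => ?_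
  rw [Units.smul_def, zsmul_eq_mul, map_mul]
  refine mul_le_one' ?_ ?_
  · rcases Int.units_eq_one_or (Equiv.Perm.sign σ) with h | h <;> simp [h, Valuation.map_neg]
  rw [map_prod]
  exact Finset.prod_le_one' fun i _ => h _ _

end VolPAux

omit [Algebra k B] [Algebra k Z] [IsScalarTower k B Z] [IsScalarTower k Y Z] [CharZero k] in
theorem prime_of_jac [Algebra.EssFiniteType B Z] [Algebra Z K] [Algebra Y K]
    [IsScalarTower Y Z K] {w : Valuation K ℤᵐ⁰} {i : M.I}
    (hA : ∀ f ∈ M.A i, w (algebraMap Y K f) ≤ 1) {c₁ : Fin (dimension k Y) → Z} {t : Z}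
    (htb : IsTranscendenceBasis B c₁) (hc : Adapted B (w.comap (algebraMap Z K)) c₁ t)
    (ht : IsUnif (w.comap (algebraMap Z K)) t)
    (hj : w (algebraMap Z K (jac htb (fun a => algebraMap Y Z (M.x i a)))) = 1) :
    Br.PrimeAt M B Z i w := by
  classical
  have hreg := hc.regBasis (card_eq_of_isTranscendenceBasis htb) ht
  refine ⟨hA, fun d hd z hz => ?_⟩
  set u := w.comap (algebraMap Z K) with hu
  set A : Matrix (Fin (dimension k Y)) (Fin (dimension k Y)) Z :=
    Matrix.of fun a b => pd htb a (algebraMap Y Z (M.x i b)) with hAdef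
  have hA1 : ∀ a b, u (A a b) ≤ 1 := fun a b => hreg.der a _ (by
    rw [hu, Valuation.comap_apply, ← IsScalarTower.algebraMap_apply Y Z K]
    exact hA _ (M.mem i b))
  have hdet : u A.det = 1 := hj
  have hrow : (fun b => d (algebraMap Y Z (M.x i b))) = ∑ a, d (c₁ a) • A a := by
    funext b
    rw [der_eq_sum htb d, Finset.sum_apply]
    refine Finset.sum_congr rfl fun a _ => ?_
    rw [Pi.smul_apply, smul_eq_mul, mul_comm]
    rfl
  have hv : ∀ a, u (d (c₁ a)) ≤ 1 := by
    intro a
    have h1 := Matrix.det_updateRow_sum A a (fun a => d (c₁ a))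
    rw [← hrow] at h1
    have h2 : u (Matrix.det (A.updateRow a (fun b => d (algebraMap Y Z (M.x i b))))) ≤ 1 := by
      refine VolPAux.det_le_one u _ fun p q => ?_
      by_cases hp : p = a
      · subst hp
        rw [Matrix.updateRow_self]
        exact hd q
      · rw [Matrix.updateRow_ne hp]
        exact hA1 p q
    rw [h1, smul_eq_mul, map_mul, hdet, mul_one] at h2
    exact h2
  change u (d z) ≤ 1
  rw [der_eq_sum htb d z]
  refine Valuation.map_sum_le _ fun a _ => ?_
  rw [map_mul]
  exact mul_le_one' (hreg.der a z hz) (hv a)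

end Pf72953.Ell
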