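import Mathlib
import Pool.Agent.Lib.Pf72953t.Ram
import Pool.Agent.Lib.Pf72953e.VolP

/-!
MODULE Pf72953e.SqE: at the multiple fibres and at the exceptional divisors the relative logarithmic volume is at most the square of
a uniformizer.

PROOF.  `w` is nontrivial on `P` and on `Z` (`hnt`), so its restriction `w_P = w.comap (algebraMap P N)` is divisorial over `k`
(`IsDivisorial.restrict`), and `relvol_le` (VolP.lean) applies: `c₁, t, htb` with `relvol = w j * w t`, `j = jac htb x_i ∈ Z`, `w j ≤ 1`.
(All elements are considered in `N` by the towers; `w.comap (algebraMap Z N) = w_P.comap (algebraMap Z P)`.)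
`relvol_le_unif`: `relvol ≤ w t`.
`relvol_le_sq`: `w t ≤ w τ` since `t ∈ Z ⊆ L` has `w t < 1` and `τ` is a uniformizer of `L`.
 First case (`h` left): the restriction `w_L` of `w` to `L` is divisorial over `k` (`IsDivisorial.restrict`), hence over `B` (`Mov.IsDivisorial.over`);
 `Twr.ram_core` (Pf72953t/Ram.lean, with `Z`, `L`, `w := w_L`, `c := c₁`, `x := x_i`; `Algebra.EssFiniteType B L` from `.of_comp k B L`) gives `w j * w t < w τ`; the element `j t / τ` of `L` has value `< 1`, hence
 `≤ w τ`, i.e. `w j * w t ≤ w τ ^ 2`.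
 Second case: `w j < 1` (otherwise `w j = 1` and `prime_of_jac` contradicts `h`), so `w j ≤ w τ` (`j ∈ Z ⊆ L`) and `w j * w t ≤ w τ ^ 2`.
-/

set_option autoImplicit false
set_option linter.style.haveILetI false

open scoped WithZero
open Pf72953 Pf72953.Var Pf72953.Mov

namespace Pf72953.Ell

variable {k B Y Z P L N : Type*} [Field k] [CharZero k] [Field B] [CharZero B] [Field Y] [Field Z]
  [Field P] [Field L] [Field N]
  [Algebra k B] [Algebra k Y] [Algebra k Z] [Algebra k P] [Algebra k L] [Algebra k N]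
  [Algebra B Z] [Algebra B P] [Algebra B L] [Algebra B N]
  [Algebra Y Z] [Algebra Y P] [Algebra Y L] [Algebra Y N] [Algebra Z P] [Algebra Z L] [Algebra Z N]
  [Algebra P N] [Algebra L N] [IsScalarTower k B Z] [IsScalarTower k Y Z]
  [IsScalarTower k Z P] [IsScalarTower k B P] [IsScalarTower k Y P] [IsScalarTower k B L]
  [IsScalarTower k Y L] [IsScalarTower k Z L] [IsScalarTower k Z N] [IsScalarTower k P N]
  [IsScalarTower k L N] [IsScalarTower k B N] [IsScalarTower k Y N]
  [IsScalarTower B Z P] [IsScalarTower B Z L] [IsScalarTower B Z N] [IsScalarTower B P N]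
  [IsScalarTower B L N]
  [IsScalarTower Y Z P] [IsScalarTower Y Z L] [IsScalarTower Y Z N] [IsScalarTower Y P N]
  [IsScalarTower Y L N] [IsScalarTower Z P N] [IsScalarTower Z L N] {M : SmoothModel k Y}
  [Algebra.EssFiniteType k B] [Algebra.EssFiniteType k Z] [FiniteDimensional Z P]
  [Algebra.EssFiniteType k L] [Algebra.EssFiniteType k N]

theorem relvol_le_unif
    (hZ : ∀ {x : Fin (dimension k B) → B} {y : Fin (dimension k Y) → Y},
      IsTranscendenceBasis k x → IsTranscendenceBasis k y → IsTranscendenceBasis k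
        (Sum.elim (fun i => algebraMap B Z (x i)) (fun j => algebraMap Y Z (y j))))
    {w : Valuation N ℤᵐ⁰} (hw : IsDivisorial k N w)
    (htriv : ∀ b : B, b ≠ 0 → w (algebraMap B N b) = 1)
    (hnt : ∃ s : Z, s ≠ 0 ∧ w (algebraMap Z N s) ≠ 1) {i : M.I}
    (hA : ∀ f ∈ M.A i, w (algebraMap Y N f) ≤ 1) {x : Fin (dimension k B) → B}
    (hx : IsTranscendenceBasis k x) {cP : Fin (dimension k B) ⊕ Fin (dimension k Y) → P}
    (hcP : LogBasis k (w.comap (algebraMap P N)) cP) :
    ∃ t : Z, t ≠ 0 ∧ w (algebraMap Z N t) < 1 ∧ relvol M i x hcP ≤ w (algebraMap Z N t) := by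
  have hZP : ∀ z : Z, w.comap (algebraMap P N) (algebraMap Z P z) = w (algebraMap Z N z) := by
    intro z
    rw [Valuation.comap_apply, ← IsScalarTower.algebraMap_apply Z P N]
  obtain ⟨s, hs0, hs⟩ := hnt
  have hwP : IsDivisorial k P (w.comap (algebraMap P N)) :=
    hw.restrict ⟨algebraMap Z P s, by simpa using hs0, by
      rw [← IsScalarTower.algebraMap_apply Z P N]; exact hs⟩
  have htrivP : ∀ b : B, b ≠ 0 → (w.comap (algebraMap P N)) (algebraMap B P b) = 1 := by
    intro b hb
    rw [Valuation.comap_apply, ← IsScalarTower.algebraMap_apply B P N]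
    exact htriv b hb
  have hAP : ∀ f ∈ M.A i, (w.comap (algebraMap P N)) (algebraMap Y P f) ≤ 1 := by
    intro f hf
    rw [Valuation.comap_apply, ← IsScalarTower.algebraMap_apply Y P N]
    exact hA f hf
  obtain ⟨c₁, t, htb, hc, ht, hrel, hj⟩ := relvol_le hZ hwP htrivP hAP hx hcP
  refine ⟨t, ht.ne_zero, ?_, ?_⟩
  · have := ht.lt_one
    rwa [Valuation.comap_apply, hZP] at this
  · rw [hrel, hZP, hZP]
    rw [hZP] at hj
    exact mul_le_of_le_one_left' hj


theorem relvol_le_sq
    (hZ : ∀ {x : Fin (dimension k B) → B} {y : Fin (dimension k Y) → Y},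
      IsTranscendenceBasis k x → IsTranscendenceBasis k y → IsTranscendenceBasis k
        (Sum.elim (fun i => algebraMap B Z (x i)) (fun j => algebraMap Y Z (y j))))
    {w : Valuation N ℤᵐ⁰} (hw : IsDivisorial k N w)
    (htriv : ∀ b : B, b ≠ 0 → w (algebraMap B N b) = 1)
    (hnt : ∃ s : Z, s ≠ 0 ∧ w (algebraMap Z N s) ≠ 1) {i : M.I}
    (hA : ∀ f ∈ M.A i, w (algebraMap Y N f) ≤ 1) {τ : L}
    (hτ : IsUnif (w.comap (algebraMap L N)) τ) {x : Fin (dimension k B) → B}
    (hx : IsTranscendenceBasis k x) {cP : Fin (dimension k B) ⊕ Fin (dimension k Y) → P}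
    (hcP : LogBasis k (w.comap (algebraMap P N)) cP)
    (h : (∀ d : Fin (dimension k Y) → Derivation B L L,
        (∀ a z, w (algebraMap L N z) ≤ 1 → w (algebraMap L N (d a z)) ≤ 1) →
        w (algebraMap L N (Matrix.det (Matrix.of fun a b => d a (algebraMap Y L (M.x i b))))) < 1) ∨
      ¬ Br.PrimeAt M B Z i (w.comap (algebraMap P N))) :
    relvol M i x hcP ≤ w (algebraMap L N τ) ^ 2 := by
  have hZP : ∀ z : Z, w.comap (algebraMap P N) (algebraMap Z P z) = w (algebraMap Z N z) := by
    intro z
    rw [Valuation.comap_apply, ← IsScalarTower.algebraMap_apply Z P N]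
  obtain ⟨s, hs0, hs⟩ := hnt
  have hwP : IsDivisorial k P (w.comap (algebraMap P N)) :=
    hw.restrict ⟨algebraMap Z P s, by simpa using hs0, by
      rw [← IsScalarTower.algebraMap_apply Z P N]; exact hs⟩
  have htrivP : ∀ b : B, b ≠ 0 → (w.comap (algebraMap P N)) (algebraMap B P b) = 1 := by
    intro b hb
    rw [Valuation.comap_apply, ← IsScalarTower.algebraMap_apply B P N]
    exact htriv b hb
  have hAP : ∀ f ∈ M.A i, (w.comap (algebraMap P N)) (algebraMap Y P f) ≤ 1 := by
    intro f hf
    rw [Valuation.comap_apply, ← IsScalarTower.algebraMap_apply Y P N]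
    exact hA f hf
  obtain ⟨c₁, t, htb, hc, ht, hrel, hj⟩ := relvol_le hZ hwP htrivP hAP hx hcP
  rw [hrel]
  simp only [hZP] at hj ⊢
  have hZL : ∀ z : Z, w (algebraMap L N (algebraMap Z L z)) = w (algebraMap Z N z) := by
    intro z
    rw [← IsScalarTower.algebraMap_apply Z L N]
  have htτ : w (algebraMap Z N t) ≤ w (algebraMap L N τ) := by
    have h1 := ht.lt_one
    rw [Valuation.comap_apply, hZP] at h1
    have h2 := hτ.le (algebraMap Z L t) (by rw [Valuation.comap_apply, hZL]; exact h1)
    rwa [Valuation.comap_apply, Valuation.comap_apply, hZL] at h2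
  have hcomap : (w.comap (algebraMap P N)).comap (algebraMap Z P) =
      (w.comap (algebraMap L N)).comap (algebraMap Z L) := by
    ext z
    rw [Valuation.comap_apply, hZP, Valuation.comap_apply, Valuation.comap_apply, hZL]
  rcases h with h | h
  · haveI : Algebra.EssFiniteType B Z := Algebra.EssFiniteType.of_comp k B Z
    haveI : Algebra.EssFiniteType B L := Algebra.EssFiniteType.of_comp k B L
    have hwL : IsDivisorial k L (w.comap (algebraMap L N)) :=
      hw.restrict ⟨algebraMap Z L s, by simpa using hs0, by rw [hZL]; exact hs⟩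
    have htrivL : ∀ b : B, b ≠ 0 → (w.comap (algebraMap L N)) (algebraMap B L b) = 1 := by
      intro b hb
      rw [Valuation.comap_apply, ← IsScalarTower.algebraMap_apply B L N]
      exact htriv b hb
    have hwLB : IsDivisorial B L (w.comap (algebraMap L N)) :=
      Pf72953.Mov.IsDivisorial.over hwL htrivL
    rw [hcomap] at hc
    have h1 := Pf72953.Twr.ram_core hwLB hc htb hτ (fun a => algebraMap Y Z (M.x i a)) (by
      intro d hd
      have h2 := h d (fun a z hz => hd a z hz)
      simpa only [Valuation.comap_apply, ← IsScalarTower.algebraMap_apply Y Z L] using h2)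
    rw [← map_mul, ← map_mul] at h1
    have hτ0 : w.comap (algebraMap L N) τ ≠ 0 := (Valuation.ne_zero_iff _).mpr hτ.ne_zero
    have h2 := hτ.le (algebraMap Z L (jac htb (fun a => algebraMap Y Z (M.x i a)) * t) / τ) (by
      rw [map_div₀]
      exact (div_lt_one₀ (zero_lt_iff.mpr hτ0)).mpr h1)
    rw [map_div₀, div_le_iff₀ (zero_lt_iff.mpr hτ0), Valuation.comap_apply, Valuation.comap_apply,
      hZL, map_mul, map_mul] at h2
    rw [sq]
    exact h2
  · have hj1 : w (algebraMap Z N (jac htb (fun a => algebraMap Y Z (M.x i a)))) < 1 := by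
      refine lt_of_le_of_ne hj fun h1 => h ?_
      haveI : Algebra.EssFiniteType B Z := Algebra.EssFiniteType.of_comp k B Z
      exact prime_of_jac hAP htb hc ht (by rw [hZP]; exact h1)
    have hjτ : w (algebraMap Z N (jac htb (fun a => algebraMap Y Z (M.x i a)))) ≤
        w (algebraMap L N τ) := by
      have h2 := hτ.le (algebraMap Z L (jac htb (fun a => algebraMap Y Z (M.x i a))))
        (by rw [Valuation.comap_apply, hZL]; exact hj1)
      rwa [Valuation.comap_apply, Valuation.comap_apply, hZL] at h2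
    rw [sq]
    exact mul_le_mul' hjτ htτ


end Pf72953.Ell
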