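import Mathlib
import Pool.Agent.Lib.Pf72953u.Main
import Pool.Agent.Lib.Pf72953e.Defs

/-!
MODULE Pf72953e.CountE: sections of `m (K + A + ∑ S_j)` over the field `κ` of constants.

This is `Up.nf_mem` and `Up.upper` (Pf72953u/Main.lean; copy the two proofs) in the case `L = Ω = K` (no norm), with the local bounds `LocBd` as hypothesis and the additional line bundle
`A`.
PROOF.  For `F ∈ LocBd` put `nf F = F * ∏ j, s j ^ m` and `u i = gen_A ^ m * (∏ j, gen_j ^ m) / jac (M.tb i) y ^ m ∈ Y`.  Then `nf F / u i ∈ bc κ K (M.A i)` for every chart: otherwise Hartogs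
(`((chart_of_model M i).baseChange (htb _ (M.tb i)) hgen).hartogs`) gives a divisorial `v` with `RegBasis κ v x_i`, `v ≤ 1` on `bc κ K (M.A i)` and `v (nf F / u i) > 1`, which contradicts `hF v hv i ..`
(`nf F / u i = F * jac ^ m * ∏ (s j / gen_j) ^ m / gen_A ^ m`).  By `descent` (as in `upper`, `hexp`) `nf F = ∑ b_g p_g` with `b` a basis of `κ/k`, `p_g ∈ V = CoefSec M (bundles A S) y m (fun _ => m)`
(`hVu` in `upper`; the product over `Option J`: `Fintype.prod_option`).
The rest is as in `upper` with `Ω = K`, `nf` instead of the norm: `v₀ ∈ V` nonzero, `T = {p / v₀}`, `F₀ = adjoin κ T ⊆ K`; `f i = nf (f i * f₀) / nf f₀ ∈ F₀`, so `f i` is algebraic over `Algebra.adjoin κ T`, and `exists_indep_in_set`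
gives `c` elements of `T` algebraically independent over `κ`, etc.
-/

set_option autoImplicit false
set_option linter.style.haveILetI false

open scoped WithZero
open Pf72953 Pf72953.Mov Pf72953.Up

namespace Pf72953.Ell

variable {k κ Y K J : Type*} [Field k] [CharZero k] [IsAlgClosed k] [Field κ] [CharZero κ]
  [Field Y] [Field K] [Algebra k κ] [Algebra k Y] [Algebra k K] [Algebra κ K] [Algebra Y K]
  [IsScalarTower k κ K] [IsScalarTower k Y K] [Algebra.EssFiniteType k Y]
  [Algebra.EssFiniteType κ K] [Fintype J] {M : SmoothModel k Y}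

/-- the local bounds for the coefficients of the relative forms -/
def LocBd (κ : Type*) {K : Type*} [Field κ] [CharZero κ] [Field K] [Algebra κ K] [Algebra Y K]
    (A : LineBundle M) (S : J → LineBundle M) (s : J → K) (y : Fin (dimension k Y) → Y) (m : ℕ) :
    Set K :=
  {F | ∀ v : Valuation K ℤᵐ⁰, IsDivisorial κ K v → ∀ i,
    RegBasis κ v (fun a => algebraMap Y K (M.x i a)) → (∀ f ∈ bc κ K (M.A i), v f ≤ 1) →
    v (F * algebraMap Y K (jac (M.tb i) y) ^ m *
      ∏ j, (s j / algebraMap Y K ((S j).gen i)) ^ m) ≤ v (algebraMap Y K (A.gen i)) ^ m}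

theorem locBd_mem {A : LineBundle M} {S : J → LineBundle M} {s : J → K}
    (htb : ∀ y : Fin (dimension k Y) → Y, IsTranscendenceBasis k y →
      IsTranscendenceBasis κ (fun i => algebraMap Y K (y i)))
    (hgen : ∀ z : K, z ∈ IntermediateField.adjoin κ (Set.range (algebraMap Y K)))
    {y : Fin (dimension k Y) → Y} (hy : IsTranscendenceBasis k y) {m : ℕ} {F : K}
    (hF : F ∈ LocBd κ A S s y m) (i : M.I) :
    ∃ f ∈ bc κ K (M.A i), F * ∏ j, s j ^ m = f * algebraMap Y K
      ((A.gen i ^ m * ∏ j, (S j).gen i ^ m) * (jac (M.tb i) y ^ m)⁻¹) := by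
  classical
  set u : Y := (A.gen i ^ m * ∏ j, (S j).gen i ^ m) * (jac (M.tb i) y ^ m)⁻¹ with hu
  have hjac : jac (M.tb i) y ≠ 0 := jac_ne_zero hy (M.tb i)
  have hA0 : A.gen i ≠ 0 := A.ne i
  have hS0 : ∏ j, (S j).gen i ^ m ≠ 0 :=
    Finset.prod_ne_zero_iff.mpr fun j _ => pow_ne_zero _ ((S j).ne i)
  have hu0 : u ≠ 0 := mul_ne_zero (mul_ne_zero (pow_ne_zero _ hA0) hS0)
    (inv_ne_zero (pow_ne_zero _ hjac))
  have huK : algebraMap Y K u ≠ 0 := by simpa using hu0
  refine ⟨(F * ∏ j, s j ^ m) / algebraMap Y K u, ?_, by rw [div_mul_cancel₀ _ huK]⟩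
  by_contra hcon
  have hxK := htb _ (M.tb i)
  obtain ⟨v, hv, hvx, hvA, hvF⟩ := ((chart_of_model M i).baseChange hxK hgen).hartogs hcon
  refine absurd hvF (not_lt.mpr ?_)
  have h1 := hF v hv i hvx hvA
  have hAK : algebraMap Y K (A.gen i) ≠ 0 := by simpa using hA0
  have hjK : algebraMap Y K (jac (M.tb i) y) ≠ 0 := by simpa using hjac
  have e1 : (F * ∏ j, s j ^ m) / algebraMap Y K u =
      (F * algebraMap Y K (jac (M.tb i) y) ^ m *
        ∏ j, (s j / algebraMap Y K ((S j).gen i)) ^ m) / algebraMap Y K (A.gen i) ^ m := by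
    have h2 : ∏ j, (s j / algebraMap Y K ((S j).gen i)) ^ m =
        (∏ j, s j ^ m) / ∏ j, algebraMap Y K ((S j).gen i) ^ m := by
      rw [← Finset.prod_div_distrib]
      exact Finset.prod_congr rfl fun j _ => div_pow _ _ _
    have h3 : ∏ j, algebraMap Y K ((S j).gen i) ^ m ≠ 0 :=
      Finset.prod_ne_zero_iff.mpr fun j _ => pow_ne_zero _ (by simpa using (S j).ne i)
    rw [h2, hu]
    simp only [map_mul, map_inv₀, map_pow, map_prod]
    field_simp
  rw [e1, map_div₀, map_pow]
  have hvA0 : v (algebraMap Y K (A.gen i)) ≠ 0 := by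
    rw [Ne, map_eq_zero]
    exact hAK
  exact div_le_one_of_le₀ h1 zero_le

theorem countE [Nonempty M.I] (A : LineBundle M) (S : J → LineBundle M) {s : J → K}
    (hs : ∀ j, s j ≠ 0)
    (htb : ∀ y : Fin (dimension k Y) → Y, IsTranscendenceBasis k y →
      IsTranscendenceBasis κ (fun i => algebraMap Y K (y i)))
    (hgen : ∀ z : K, z ∈ IntermediateField.adjoin κ (Set.range (algebraMap Y K)))
    {y : Fin (dimension k Y) → Y} (hy : IsTranscendenceBasis k y) {m c : ℕ} (hm : 1 ≤ m) {f₀ : K}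
    (hf₀ : f₀ ∈ LocBd κ A S s y m) (hne : f₀ ≠ 0) {f : Fin c → K}
    (hf : AlgebraicIndependent κ f) (hff : ∀ i, f i * f₀ ∈ LocBd κ A S s y m) :
    LogKodairaGE M (bundles A S) c := by
  classical
  let b : Module.Basis _ k κ := Module.Basis.ofVectorSpace k κ
  have hlin : LinearIndependent Y (fun g => algebraMap κ K (b g)) :=
    linearIndependent_const hy (htb y hy) b.linearIndependent
  set u : M.I → Y := fun i => (A.gen i ^ m * ∏ j, (S j).gen i ^ m) * (jac (M.tb i) y ^ m)⁻¹ with hu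
  -- the space of sections
  set V : Set Y := CoefSec M (bundles A S) y m (fun _ => m) with hV
  have hVu : ∀ p : Y, (∀ i, ∃ f ∈ M.A i, p = f * u i) → p ∈ V := by
    intro p hp i
    obtain ⟨f, hf, h⟩ := hp i
    refine ⟨f, hf, ?_⟩
    have hjac : jac (M.tb i) y ≠ 0 := jac_ne_zero hy (M.tb i)
    rw [h, hu, Fintype.prod_option]
    simp only [bundles, Option.elim_none, Option.elim_some]
    field_simp
  have hexp : ∀ F ∈ LocBd κ A S s y m, ∃ p : _ →₀ Y,
      (F * ∏ j, s j ^ m = p.sum fun g y => algebraMap κ K (b g) * algebraMap Y K y) ∧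
        ∀ g, p g ∈ V := by
    intro F hF
    obtain ⟨p, hp, hpu⟩ := descent b hlin M.A u (P := F * ∏ j, s j ^ m)
      (fun i => locBd_mem htb hgen hy hF i)
    exact ⟨p, hp, fun g => hVu _ fun i => hpu i g⟩
  -- the base section
  have hs0 : ∏ j, s j ^ m ≠ 0 := Finset.prod_ne_zero_iff.mpr fun j _ => pow_ne_zero _ (hs j)
  obtain ⟨v₀, hv₀, hv₀ne⟩ : ∃ v₀ ∈ V, v₀ ≠ 0 := by
    obtain ⟨p, hp, hpV⟩ := hexp f₀ hf₀
    by_contra hcon
    push Not at hcon
    apply mul_ne_zero hne hs0
    rw [hp]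
    refine Finset.sum_eq_zero fun g _ => ?_
    change algebraMap κ K (b g) * algebraMap Y K (p g) = 0
    rw [hcon _ (hpV g), map_zero, mul_zero]
  -- the ratios of sections
  set T : Set K := {θ | ∃ p ∈ V, θ = algebraMap Y K (p / v₀)} with hT
  set F₀ := IntermediateField.adjoin κ T with hF₀
  have hmemF : ∀ F ∈ LocBd κ A S s y m, (F * ∏ j, s j ^ m) / algebraMap Y K v₀ ∈ F₀ := by
    intro F hF
    obtain ⟨p, hp, hpV⟩ := hexp F hF
    rw [hp, Finsupp.sum, Finset.sum_div]
    refine F₀.sum_mem fun q _ => ?_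
    rw [mul_div_assoc, ← map_div₀]
    exact F₀.mul_mem (F₀.algebraMap_mem _) (IntermediateField.subset_adjoin κ T ⟨_, hpV q, rfl⟩)
  have hratio : ∀ i, f i ∈ F₀ := by
    intro i
    have h2 := F₀.div_mem (hmemF _ (hff i)) (hmemF _ hf₀)
    have h6 : algebraMap Y K v₀ ≠ 0 := by simpa using hv₀ne
    have h3 : (f i * f₀ * ∏ j, s j ^ m) / algebraMap Y K v₀ /
        ((f₀ * ∏ j, s j ^ m) / algebraMap Y K v₀) = f i := by
      field_simp
    rwa [h3] at h2
  have halg : ∀ i, IsAlgebraic (Algebra.adjoin κ T) (f i) := by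
    intro i
    rw [← IntermediateField.isAlgebraic_adjoin_iff]
    exact isAlgebraic_algebraMap (⟨f i, hratio i⟩ : F₀)
  obtain ⟨ψ, hψ, hψT⟩ := exists_indep_in_set T _ hf halg
  choose p hp hpψ using hψT
  have hp' : AlgebraicIndependent k (fun i => p i / v₀) := by
    have h1 : AlgebraicIndependent k ψ := hψ.restrictScalars (algebraMap k κ).injective
    have h2 : ψ = fun i => (IsScalarTower.toAlgHom k Y K) (p i / v₀) := funext hpψ
    rw [h2] at h1
    exact AlgebraicIndependent.of_comp _ h1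
  refine ⟨m, hm, v₀ • pureForm k (fun _ => y), ?_, ?_, fun i => p i / v₀, hp', fun i => ?_⟩
  · rw [mem_pluriSections_iff hy, map_smul, coef_self, smul_eq_mul, mul_one]
    exact hv₀
  · intro h
    have := congrArg (coef hy m) h
    rw [map_smul, coef_self, smul_eq_mul, mul_one, map_zero] at this
    exact hv₀ne this
  · rw [mem_pluriSections_iff hy, map_smul, map_smul, coef_self, smul_eq_mul, smul_eq_mul,
      mul_one, div_mul_cancel₀ _ hv₀ne]
    exact hp i

end Pf72953.Ell
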