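import Mathlib
import Pool.Agent.Lib.Pf72953.Estimate
import Pool.Agent.Lib.Pf72953f.ExtV

/-!
MODULE Pf72953e.GaussE: the Gauss valuation of the function field of an integral Weierstrass equation.

Put `u' = u / G²`, `v' = v / G³`, `a' = a / G⁴`, `b' = b / G⁶`: `v'² = f(u')`, `f = X³ + a' X + b'`, `T a' ≤ 1`, `T b' ≤ 1`.
PROOF of `exists_gaussE`.  For `p ∈ P[X]` let `|p|` be the largest value `T` of a coefficient; `|p q| = |p| |q|` (Gauss; the library has several proofs, or do it directly:
for `|p| = |q| = 1` look at the first coefficients of value `1`; values are in `ℤᵐ⁰`), `|p + q| ≤ max`.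
`v' ∉ P(u')` since `f` has odd degree, so `N = P(u') ⊕ P(u') v'` and the elements `r₀(u') + r₁(u') v'`, `r₀, r₁ ∈ P[X]`, form a ring `R` with
fraction field `N` (it is `Algebra.adjoin P {u', v'}`; or use the ring `AdjoinRoot (Y² - f)` over `P[X]`); the representation is unique.
Put `W₀ (r₀ + r₁ v') = max |r₀| |r₁|`.  The norm `n(r₀ + r₁ v') = r₀² - r₁² f ∈ P[X]` is multiplicative and `|n(z)| = W₀(z) ^ 2`: `≤` is clear; for `≥` one may assume
`W₀ z = 1` (scale by an element of `P`); reduce modulo the maximal ideal of `T` (over the residue field `κ`): `r̄₀² - r̄₁² f̄ ≠ 0`, because `r̄₀²` is `0` or has even degree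
and `r̄₁² f̄` is `0` or has odd degree (`f̄` is monic of degree 3), and not both are `0`.  (Without residue fields: let `d₀`, `d₁` be the largest exponents such that the coefficient of `r₀`,
`r₁` has value `1`; the coefficient of `r₀² - r₁² f` at `max (2 d₀) (2 d₁ + 3)` has value `1`.)  Hence `W₀ (z z') ^ 2 = |n(z) n(z')| = (W₀ z * W₀ z') ^ 2`, and `W₀` is multiplicative (squares are
injective in `ℤᵐ⁰`).  Extend `W₀` to `N` by `Fib.exists_ext` (Pf72953f/ExtV.lean).  `w v' = 1` so `w v = T G ^ 3`, `w u' = 1`.  Every value is a value of `T` (`max` of values of `T`, quotients).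
PROOF of `gaussE_adapted`.  `hc`: `e : ι ≃ Option (Fin r)`, `ξ : Fin r → P` residually independent, `c = (t, ξ) ∘ e`.  The family `(ξ, u')` is residually independent for `w`: a nonzero polynomial
`p(ξ, X)` with coefficients in `k` (`MvPolynomial.optionEquivLeft` / `finSuccEquiv`-type isomorphism; in the variable `X` its coefficients are polynomials `p_n(ξ)`, not all zero) has
`T (p_n(ξ)) = 1` for the nonzero `p_n`, so `1 ≤ w (p(ξ, u'))` by `hG`, and `≤ 1` is clear (`w u' = 1`, `w ξ = 1`, constants have value `≤ 1`: the nonzero constants `p_n` have value `1`).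
Index bookkeeping: `ι ⊕ Unit ≃ Option (Fin (r + 1))`.
PROOF of `gaussE_divisorial`: `exists_adapted`-like: `hT` gives `ξ : Fin (dimension k P - 1) → P` residually independent and (nontrivial) some `t`, `T t < 1`; apply `gaussE_adapted` to the family `(t, ξ)`,
and read off the residually independent family `(ξ, u')` of `dimension k P = dimension k N - 1` elements (`dimension k P ≥ 1`, since `T` is nontrivial).
-/

set_option autoImplicit false
set_option linter.style.haveILetI false

open scoped WithZero
open Pf72953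

namespace Pf72953.Ell

namespace GaussAux

section gaussv

variable {P : Type*} [Field P] (T : Valuation P ℤᵐ⁰)

/-- the Gauss value of a polynomial -/
noncomputable def gvf (p : Polynomial P) : ℤᵐ⁰ := p.support.sup fun i => T (p.coeff i)

theorem coeff_le_gvf (p : Polynomial P) (n : ℕ) : T (p.coeff n) ≤ gvf T p := by
  by_cases h : n ∈ p.support
  · exact Finset.le_sup (f := fun i => T (p.coeff i)) h
  · rw [Polynomial.notMem_support_iff.mp h]; simp

theorem gvf_le {p : Polynomial P} {c : ℤᵐ⁰} (h : ∀ n, T (p.coeff n) ≤ c) : gvf T p ≤ c :=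
  Finset.sup_le fun n _ => h n

theorem gvf_zero : gvf T 0 = 0 := by simp [gvf]

theorem exists_eq_gvf (p : Polynomial P) : ∃ n, T (p.coeff n) = gvf T p := by
  rcases eq_or_ne p 0 with rfl | hp
  · exact ⟨0, by simp [gvf_zero]⟩
  · obtain ⟨i, hi, h⟩ := Finset.exists_mem_eq_sup p.support (Polynomial.support_nonempty.mpr hp)
      (fun i => T (p.coeff i))
    exact ⟨i, h.symm⟩

theorem gvf_eq_zero {p : Polynomial P} : gvf T p = 0 ↔ p = 0 := by
  constructor
  · intro h
    ext n
    have := coeff_le_gvf T p n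
    rw [h, le_zero_iff, map_eq_zero] at this
    simpa using this
  · rintro rfl; exact gvf_zero T

/-- `d` is the last index at which the value `M` is attained -/
structure Top (p : Polynomial P) (d : ℕ) (M : ℤᵐ⁰) : Prop where
  eq : T (p.coeff d) = M
  lt : ∀ a, d < a → T (p.coeff a) < M
  le : ∀ a, T (p.coeff a) ≤ M

theorem exists_top {p : Polynomial P} (hp : p ≠ 0) : ∃ d, Top T p d (gvf T p) := by
  classical
  have hne : gvf T p ≠ 0 := fun h => hp ((gvf_eq_zero T).mp h)
  set s := p.support.filter (fun i => T (p.coeff i) = gvf T p) with hs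
  have hs1 : s.Nonempty := by
    obtain ⟨n, hn⟩ := exists_eq_gvf T p
    refine ⟨n, ?_⟩
    rw [hs, Finset.mem_filter, Polynomial.mem_support_iff]
    refine ⟨fun h => hne ?_, hn⟩
    rw [← hn, h, map_zero]
  refine ⟨s.max' hs1, ?_, ?_, coeff_le_gvf T p⟩
  · exact (Finset.mem_filter.mp (s.max'_mem hs1)).2
  · intro a ha
    refine lt_of_le_of_ne (coeff_le_gvf T p a) fun h => ?_
    have : a ∈ s := by
      rw [hs, Finset.mem_filter, Polynomial.mem_support_iff]
      refine ⟨fun h' => hne ?_, h⟩
      rw [← h, h', map_zero]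
    exact absurd (Finset.le_max' s a this) (not_le.mpr ha)

theorem Top.mul {p q : Polynomial P} {d e : ℕ} {M M' : ℤᵐ⁰} (hp : Top T p d M)
    (hq : Top T q e M') (hM : M ≠ 0) (hM' : M' ≠ 0) : Top T (p * q) (d + e) (M * M') := by
  classical
  have hMpos : 0 < M := zero_lt_iff.mpr hM
  have hMpos' : 0 < M' := zero_lt_iff.mpr hM'
  have hlt : ∀ a b : ℕ, d < a → T (p.coeff a * q.coeff b) < M * M' := by
    intro a b h
    rw [map_mul]
    calc T (p.coeff a) * T (q.coeff b) ≤ T (p.coeff a) * M' := mul_le_mul_right (hq.le b) _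
      _ < M * M' := mul_lt_mul_of_pos_right (hp.lt a h) hMpos'
  have hlt' : ∀ a b : ℕ, e < b → T (p.coeff a * q.coeff b) < M * M' := by
    intro a b h
    rw [map_mul]
    calc T (p.coeff a) * T (q.coeff b) ≤ M * T (q.coeff b) := mul_le_mul_left (hp.le a) _
      _ < M * M' := mul_lt_mul_of_pos_left (hq.lt b h) hMpos
  refine ⟨?_, ?_, ?_⟩
  · rw [Polynomial.coeff_mul]
    have hmem : (d, e) ∈ Finset.HasAntidiagonal.antidiagonal (d + e) := by simp
    rw [← Finset.add_sum_erase _ _ hmem]
    have h1 : T (p.coeff d * q.coeff e) = M * M' := by rw [map_mul, hp.eq, hq.eq]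
    rw [Valuation.map_add_eq_of_lt_left]
    · exact h1
    · rw [h1]
      refine Valuation.map_sum_lt _ (mul_ne_zero hM hM') fun x hx => ?_
      rw [Finset.mem_erase, Finset.HasAntidiagonal.mem_antidiagonal] at hx
      rcases lt_trichotomy x.1 d with h | h | h
      · exact hlt' _ _ (by omega)
      · exact absurd (Prod.ext h (by omega)) hx.1
      · exact hlt _ _ h
  · intro a ha
    rw [Polynomial.coeff_mul]
    refine Valuation.map_sum_lt _ (mul_ne_zero hM hM') fun x hx => ?_
    rw [Finset.HasAntidiagonal.mem_antidiagonal] at hx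
    rcases le_or_gt x.1 d with h | h
    · exact hlt' _ _ (by omega)
    · exact hlt _ _ h
  · intro a
    rw [Polynomial.coeff_mul]
    refine Valuation.map_sum_le _ fun x hx => ?_
    rw [map_mul]
    exact mul_le_mul' (hp.le _) (hq.le _)

theorem Top.gvf {p : Polynomial P} {d : ℕ} {M : ℤᵐ⁰} (hp : Top T p d M) : gvf T p = M :=
  le_antisymm (gvf_le T hp.le) (hp.eq ▸ coeff_le_gvf T p d)

/-- the Gauss valuation -/
noncomputable def gv : Valuation (Polynomial P) ℤᵐ⁰ where
  toFun := gvf T
  map_zero' := gvf_zero T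
  map_one' := by
    refine le_antisymm (gvf_le T fun n => ?_) ?_
    · rw [Polynomial.coeff_one]
      split_ifs <;> simp
    · have := coeff_le_gvf T (1 : Polynomial P) 0
      simpa using this
  map_mul' := by
    intro p q
    rcases eq_or_ne p 0 with rfl | hp
    · simp [gvf_zero]
    rcases eq_or_ne q 0 with rfl | hq
    · simp [gvf_zero]
    obtain ⟨d, hd⟩ := exists_top T hp
    obtain ⟨e, he⟩ := exists_top T hq
    exact (hd.mul T he (fun h => hp ((gvf_eq_zero T).mp h))
      (fun h => hq ((gvf_eq_zero T).mp h))).gvf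
  map_add_le_max' := by
    intro p q
    refine gvf_le T fun n => ?_
    rw [Polynomial.coeff_add]
    exact (T.map_add _ _).trans (max_le_max (coeff_le_gvf T p n) (coeff_le_gvf T q n))

theorem gv_apply (p : Polynomial P) : gv T p = gvf T p := rfl

theorem gv_C (c : P) : gv T (Polynomial.C c) = T c := by
  rw [gv_apply]
  refine le_antisymm (gvf_le T fun n => ?_) ?_
  · rw [Polynomial.coeff_C]
    split_ifs <;> simp
  · have := coeff_le_gvf T (Polynomial.C c) 0
    simpa using this

theorem gv_X : gv T Polynomial.X = 1 := by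
  rw [gv_apply]
  refine le_antisymm (gvf_le T fun n => ?_) ?_
  · rw [Polynomial.coeff_X]
    split_ifs <;> simp
  · have := coeff_le_gvf T (Polynomial.X : Polynomial P) 1
    simpa using this

theorem gv_mem_range (p : Polynomial P) : ∃ c : P, gv T p = T c := by
  obtain ⟨n, hn⟩ := exists_eq_gvf T p
  exact ⟨_, hn.symm⟩

/-- the cubic -/
noncomputable def cubic (a b : P) : Polynomial P :=
  Polynomial.X ^ 3 + Polynomial.C a * Polynomial.X + Polynomial.C b

theorem top_cubic {a b : P} (ha : T a ≤ 1) (hb : T b ≤ 1) : Top T (cubic a b) 3 1 := by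
  have hc : ∀ n, (cubic a b).coeff n = (if n = 3 then 1 else 0) + (if n = 1 then a else 0) +
      (if n = 0 then b else 0) := by
    intro n
    rw [cubic, Polynomial.coeff_add, Polynomial.coeff_add, Polynomial.coeff_X_pow,
      Polynomial.coeff_C_mul, Polynomial.coeff_X, Polynomial.coeff_C]
    simp [eq_comm]
  refine ⟨?_, ?_, ?_⟩
  · rw [hc]; simp
  · intro n hn
    rw [hc, if_neg (by omega), if_neg (by omega), if_neg (by omega)]
    simp
  · intro n
    rw [hc]
    refine (T.map_add _ _).trans (max_le ((T.map_add _ _).trans (max_le ?_ ?_)) ?_)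
    · split_ifs <;> simp
    · split_ifs
      · exact ha
      · simp
    · split_ifs
      · exact hb
      · simp

theorem gv_norm {a b : P} (ha : T a ≤ 1) (hb : T b ≤ 1) (r s : Polynomial P) :
    gv T (r * r - cubic a b * (s * s)) = max (gv T r) (gv T s) ^ 2 := by
  have hf : gv T (cubic a b) = 1 := (top_cubic T ha hb).gvf
  have h1 : gv T (r * r) = gv T r ^ 2 := by rw [map_mul, sq]
  have h2 : gv T (cubic a b * (s * s)) = gv T s ^ 2 := by rw [map_mul, map_mul, hf, one_mul, sq]
  rcases lt_trichotomy (gv T r) (gv T s) with h | h | h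
  · rw [max_eq_right h.le, Valuation.map_sub_eq_of_lt_right, h2]
    rw [h1, h2]
    exact pow_lt_pow_left₀ h zero_le (by norm_num)
  · rw [h, max_self]
    rcases eq_or_ne s 0 with rfl | hs
    · have hr : r = 0 := by
        rw [map_zero] at h
        exact (gvf_eq_zero T).mp h
      subst hr
      simp
    have hM : gv T s ≠ 0 := fun h => hs ((gvf_eq_zero T).mp h)
    have hr : r ≠ 0 := by
      rintro rfl
      rw [map_zero] at h
      exact hM h.symm
    obtain ⟨d, hd⟩ := exists_top T hr
    obtain ⟨e, he⟩ := exists_top T hs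
    rw [← gv_apply, h] at hd
    rw [← gv_apply] at he
    have t1 := hd.mul T hd hM hM
    have t2 := (top_cubic T ha hb).mul T (he.mul T he hM hM) one_ne_zero (mul_ne_zero hM hM)
    rw [one_mul] at t2
    rw [sq]
    refine le_antisymm ?_ ?_
    · refine (Valuation.map_sub _ _ _).trans ?_
      rw [h1, h2, h, max_self, sq]
    · rcases lt_or_gt_of_ne (show d + d ≠ 3 + (e + e) by omega) with hlt | hlt
      · have h3 := coeff_le_gvf T (r * r - cubic a b * (s * s)) (3 + (e + e))
        rw [Polynomial.coeff_sub, Valuation.map_sub_eq_of_lt_right, t2.eq] at h3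
        · exact h3
        · rw [t2.eq]; exact t1.lt _ hlt
      · have h3 := coeff_le_gvf T (r * r - cubic a b * (s * s)) (d + d)
        rw [Polynomial.coeff_sub, Valuation.map_sub_eq_of_lt_left, t1.eq] at h3
        · exact h3
        · rw [t1.eq]; exact t2.lt _ hlt
  · rw [max_eq_left h.le, Valuation.map_sub_eq_of_lt_left, h1]
    rw [h1, h2]
    exact pow_lt_pow_left₀ h zero_le (by norm_num)

/-- the Gauss valuation of the ring `P[X][Y] / (Y² - f)` -/
noncomputable def gq {a b : P} (ha : T a ≤ 1) (hb : T b ≤ 1) :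
    Valuation (QuadraticAlgebra (Polynomial P) (cubic a b) 0) ℤᵐ⁰ where
  toFun z := max (gv T z.re) (gv T z.im)
  map_zero' := by simp
  map_one' := by
    rw [QuadraticAlgebra.re_one, QuadraticAlgebra.im_one]
    simp
  map_mul' := by
    intro z w
    have key : ∀ z : QuadraticAlgebra (Polynomial P) (cubic a b) 0,
        max (gv T z.re) (gv T z.im) ^ 2 = gv T (QuadraticAlgebra.norm z) := by
      intro z
      rw [← gv_norm T ha hb, QuadraticAlgebra.norm_def]
      congr 1
      ring
    have h2 := key (z * w)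
    rw [map_mul, map_mul, ← key z, ← key w, ← mul_pow] at h2
    exact (pow_left_inj₀ zero_le zero_le (by norm_num)).mp h2
  map_add_le_max' := by
    intro z w
    rw [QuadraticAlgebra.re_add, QuadraticAlgebra.im_add]
    refine max_le ((Valuation.map_add _ _ _).trans ?_) ((Valuation.map_add _ _ _).trans ?_)
    · exact max_le_max (le_max_left _ _) (le_max_left _ _)
    · exact max_le_max (le_max_right _ _) (le_max_right _ _)

theorem gq_apply {a b : P} (ha : T a ≤ 1) (hb : T b ≤ 1)
    (z : QuadraticAlgebra (Polynomial P) (cubic a b) 0) :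
    gq T ha hb z = max (gv T z.re) (gv T z.im) := rfl

theorem gq_ne_zero {a b : P} (ha : T a ≤ 1) (hb : T b ≤ 1)
    {z : QuadraticAlgebra (Polynomial P) (cubic a b) 0} (hz : z ≠ 0) : gq T ha hb z ≠ 0 := by
  intro h
  rw [gq_apply] at h
  have h1 : gv T z.re ≤ 0 := h ▸ le_max_left _ _
  have h2 : gv T z.im ≤ 0 := h ▸ le_max_right _ _
  rw [le_zero_iff] at h1 h2
  refine hz (QuadraticAlgebra.ext ?_ ?_)
  · exact (gvf_eq_zero T).mp h1
  · exact (gvf_eq_zero T).mp h2

theorem gq_mem_range {a b : P} (ha : T a ≤ 1) (hb : T b ≤ 1)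
    (z : QuadraticAlgebra (Polynomial P) (cubic a b) 0) : ∃ c : P, gq T ha hb z = T c := by
  rw [gq_apply]
  rcases max_choice (gv T z.re) (gv T z.im) with h | h
  · rw [h]; exact gv_mem_range T _
  · rw [h]; exact gv_mem_range T _

end gaussv

/-- evaluation of `r + s v` -/
noncomputable def evq {P N : Type*} [Field P] [Field N] [Algebra P N] {u v : N} {a b : P}
    (heq : v ^ 2 = Polynomial.aeval u (cubic a b)) :
    QuadraticAlgebra (Polynomial P) (cubic a b) 0 →+* N where
  toFun z := Polynomial.aeval u z.re + Polynomial.aeval u z.im * v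
  map_zero' := by simp
  map_one' := by
    rw [QuadraticAlgebra.re_one, QuadraticAlgebra.im_one]
    simp
  map_add' := by
    intro z w
    rw [QuadraticAlgebra.re_add, QuadraticAlgebra.im_add, map_add, map_add]
    ring
  map_mul' := by
    intro z w
    rw [QuadraticAlgebra.re_mul, QuadraticAlgebra.im_mul]
    simp only [map_add, map_mul, zero_mul, add_zero, ← heq]
    ring

theorem evq_apply {P N : Type*} [Field P] [Field N] [Algebra P N] {u v : N} {a b : P}
    (heq : v ^ 2 = Polynomial.aeval u (cubic a b))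
    (z : QuadraticAlgebra (Polynomial P) (cubic a b) 0) :
    evq heq z = Polynomial.aeval u z.re + Polynomial.aeval u z.im * v := rfl

theorem exists_gaussE' {P N : Type*} [Field P] [Field N] [Algebra P N] {u v : N} {a b : P}
    (hu : Transcendental P u) (hgen : ∀ z : N, z ∈ IntermediateField.adjoin P {u, v})
    (heq : v ^ 2 = Polynomial.aeval u (cubic a b))
    {T : Valuation P ℤᵐ⁰} (ha : T a ≤ 1) (hb : T b ≤ 1) :
    ∃ w : Valuation N ℤᵐ⁰, (∀ p, w (algebraMap P N p) = T p) ∧
      w u = 1 ∧ w v = 1 ∧
      (∀ (q : Polynomial P) (n : ℕ), T (q.coeff n) ≤ w (Polynomial.aeval u q)) ∧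
      ∀ z : N, ∃ p : P, w z = T p := by
  classical
  have hinj : ∀ p : Polynomial P, Polynomial.aeval u p = 0 → p = 0 := by
    intro p hp
    by_contra h
    exact hu ⟨p, h, hp⟩
  have hφ : Function.Injective (evq heq) := by
    rw [injective_iff_map_eq_zero]
    intro z hz
    by_contra hz0
    refine gq_ne_zero T ha hb hz0 ?_
    have h1 : Polynomial.aeval u (z.re * z.re - cubic a b * (z.im * z.im)) = 0 := by
      rw [evq_apply] at hz
      simp only [map_sub, map_mul, ← heq]
      linear_combination (Polynomial.aeval u z.re - Polynomial.aeval u z.im * v) * hz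
    have h2 := gv_norm T ha hb z.re z.im
    rw [hinj _ h1, map_zero] at h2
    rw [gq_apply]
    exact eq_zero_of_pow_eq_zero h2.symm
  have hfrac : ∀ z : N, ∃ p q : QuadraticAlgebra (Polynomial P) (cubic a b) 0,
      evq heq q ≠ 0 ∧ z = evq heq p / evq heq q := by
    intro z
    refine IntermediateField.adjoin_induction (F := P)
      (p := fun z _ => ∃ p q : QuadraticAlgebra (Polynomial P) (cubic a b) 0,
      evq heq q ≠ 0 ∧ z = evq heq p / evq heq q) ?_ ?_ ?_ ?_ ?_ (hgen z)
    · intro x hx
      refine ⟨if x = u then ⟨Polynomial.X, 0⟩ else ⟨0, 1⟩, 1, by rw [map_one]; exact one_ne_zero, ?_⟩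
      rw [map_one, div_one]
      split_ifs with h
      · rw [evq_apply, h]; simp
      · rcases hx with h' | h'
        · exact absurd h' h
        · rw [Set.mem_singleton_iff] at h'
          rw [evq_apply, h']; simp
    · intro x
      refine ⟨⟨Polynomial.C x, 0⟩, 1, by rw [map_one]; exact one_ne_zero, ?_⟩
      rw [map_one, div_one, evq_apply]
      simp
    · rintro x y _ _ ⟨p, q, hq, rfl⟩ ⟨p', q', hq', rfl⟩
      refine ⟨p * q' + p' * q, q * q', by rw [map_mul]; exact mul_ne_zero hq hq', ?_⟩
      rw [map_add, map_mul, map_mul, map_mul]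
      field_simp
    · rintro x _ ⟨p, q, hq, rfl⟩
      rcases eq_or_ne (evq heq p) 0 with h | h
      · exact ⟨0, 1, by rw [map_one]; exact one_ne_zero, by rw [h]; simp⟩
      · exact ⟨q, p, h, by rw [inv_div]⟩
    · rintro x y _ _ ⟨p, q, hq, rfl⟩ ⟨p', q', hq', rfl⟩
      refine ⟨p * p', q * q', by rw [map_mul]; exact mul_ne_zero hq hq', ?_⟩
      rw [map_mul, map_mul]
      field_simp
  obtain ⟨W, hW⟩ := Pf72953.Fib.exists_ext (evq heq) hφ hfrac (gq T ha hb)
    (fun p hp => gq_ne_zero T ha hb hp)
  refine ⟨W, ?_, ?_, ?_, ?_, ?_⟩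
  · intro p
    have h := hW ⟨Polynomial.C p, 0⟩
    rw [evq_apply, gq_apply] at h
    simpa [gv_C] using h
  · have h := hW ⟨Polynomial.X, 0⟩
    rw [evq_apply, gq_apply] at h
    simpa [gv_X] using h
  · have h := hW ⟨0, 1⟩
    rw [evq_apply, gq_apply] at h
    simpa using h
  · intro q n
    have h := hW ⟨q, 0⟩
    rw [evq_apply, gq_apply] at h
    have h' : W (Polynomial.aeval u q) = gv T q := by simpa using h
    rw [h']
    exact coeff_le_gvf T q n
  · intro z
    obtain ⟨p, q, hq, rfl⟩ := hfrac z
    obtain ⟨c, hc⟩ := gq_mem_range T ha hb p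
    obtain ⟨d, hd⟩ := gq_mem_range T ha hb q
    exact ⟨c / d, by rw [map_div₀, map_div₀, hW, hW, hc, hd]⟩

end GaussAux

open GaussAux in
theorem exists_gaussE {P N : Type*} [Field P] [Field N] [Algebra P N] {u v : N} {a b G : P}
    (hu : Transcendental P u) (hgen : ∀ z : N, z ∈ IntermediateField.adjoin P {u, v})
    (heq : v ^ 2 = u ^ 3 + algebraMap P N a * u + algebraMap P N b) (hG : G ≠ 0)
    {T : Valuation P ℤᵐ⁰} (ha : T a ≤ T G ^ 4) (hb : T b ≤ T G ^ 6) :
    ∃ w : Valuation N ℤᵐ⁰, (∀ p, w (algebraMap P N p) = T p) ∧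
      w (u / algebraMap P N (G ^ 2)) = 1 ∧ w v = T G ^ 3 ∧
      (∀ (q : Polynomial P) (n : ℕ),
        T (q.coeff n) ≤ w (Polynomial.aeval (u / algebraMap P N (G ^ 2)) q)) ∧
      ∀ z : N, ∃ p : P, w z = T p := by
  have hTG : T G ≠ 0 := (Valuation.ne_zero_iff T).mpr hG
  have hTGpos : 0 < T G := zero_lt_iff.mpr hTG
  have hg : algebraMap P N G ≠ 0 := (map_ne_zero _).mpr hG
  set u' : N := u / algebraMap P N (G ^ 2) with hu'
  set v' : N := v / algebraMap P N (G ^ 3) with hv'
  have huu : u = algebraMap P N (G ^ 2) * u' := by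
    rw [hu', map_pow]; field_simp
  have hvv : v = algebraMap P N (G ^ 3) * v' := by
    rw [hv', map_pow]; field_simp
  have hut : Transcendental P u' := by
    intro h
    refine hu ?_
    rw [huu]
    exact (isAlgebraic_algebraMap _).mul h
  have hgen' : ∀ z : N, z ∈ IntermediateField.adjoin P {u', v'} := by
    intro z
    have hle : IntermediateField.adjoin P {u, v} ≤ IntermediateField.adjoin P {u', v'} := by
      rw [IntermediateField.adjoin_le_iff]
      rintro x (rfl | rfl)
      · rw [huu]
        exact mul_mem (IntermediateField.algebraMap_mem _ _)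
          (IntermediateField.subset_adjoin _ _ (by simp))
      · rw [hvv]
        exact mul_mem (IntermediateField.algebraMap_mem _ _)
          (IntermediateField.subset_adjoin _ _ (by simp))
    exact hle (hgen z)
  have heq' : v' ^ 2 = Polynomial.aeval u' (cubic (a / G ^ 4) (b / G ^ 6)) := by
    rw [cubic]
    simp only [map_add, map_mul, map_pow, Polynomial.aeval_X, Polynomial.aeval_C, map_div₀]
    rw [hv', hu', map_pow, map_pow, div_pow, heq]
    field_simp
  have ha' : T (a / G ^ 4) ≤ 1 := by
    rw [map_div₀, map_pow]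
    exact div_le_one_of_le₀ ha zero_le
  have hb' : T (b / G ^ 6) ≤ 1 := by
    rw [map_div₀, map_pow]
    exact div_le_one_of_le₀ hb zero_le
  obtain ⟨w, h1, h2, h3, h4, h5⟩ := exists_gaussE' hut hgen' heq' ha' hb'
  refine ⟨w, h1, h2, ?_, h4, h5⟩
  rw [hvv, map_mul, h1, h3, map_pow, mul_one]

section

namespace GaussAux

theorem resIndep_comp {k K ι κ Γ : Type*} [Field k] [Field K] [Algebra k K]
    [LinearOrderedCommGroupWithZero Γ] {w : Valuation K Γ} {x : ι → K} (hx : ResIndep k w x)
    (e : κ → ι) (he : Function.Injective e) : ResIndep k w (x ∘ e) := by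
  intro p hp
  have h := hx (MvPolynomial.rename e p) (by
    rw [Ne, map_eq_zero_iff _ (MvPolynomial.rename_injective e he)]
    exact hp)
  rwa [MvPolynomial.aeval_rename] at h

end GaussAux

variable {k P N ι : Type*} [Field k] [Field P] [Field N] [Algebra k P] [Algebra k N]
  [Algebra P N] [IsScalarTower k P N]

namespace GaussAux

theorem gaussE_resIndep {w : Valuation N ℤᵐ⁰} {T : Valuation P ℤᵐ⁰} {u' : N}
    (hP : ∀ p, w (algebraMap P N p) = T p) (hu1 : w u' = 1)
    (hG : ∀ (q : Polynomial P) (n : ℕ), T (q.coeff n) ≤ w (Polynomial.aeval u' q))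
    {x : ι → P} (hx : ResIndep k T x) :
    ResIndep k w (fun o : Option ι => o.elim u' (fun i => algebraMap P N (x i))) := by
  intro Q hQ
  rw [← eval₂_option]
  set F := MvPolynomial.optionEquivLeft k ι Q with hF
  have hF0 : F ≠ 0 := by
    rw [hF, Ne, map_eq_zero_iff _ (MvPolynomial.optionEquivLeft k ι).injective]
    exact hQ
  have hxa : ∀ p : MvPolynomial ι k, MvPolynomial.aeval (fun i => algebraMap P N (x i)) p =
      algebraMap P N (MvPolynomial.aeval x p) := by
    intro p
    exact MvPolynomial.aeval_algebraMap_apply _ x p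
  have h1 : F.eval₂ (MvPolynomial.aeval (fun i => algebraMap P N (x i)) :
      MvPolynomial ι k →ₐ[k] N).toRingHom u' =
      Polynomial.aeval u' (F.map (MvPolynomial.aeval x : MvPolynomial ι k →ₐ[k] P).toRingHom) := by
    rw [Polynomial.aeval_def, Polynomial.eval₂_map]
    congr 1
    ext p
    · simpa using IsScalarTower.algebraMap_apply k P N p
    · simp
  refine le_antisymm ?_ ?_
  · rw [Polynomial.eval₂_eq_sum_range]
    refine Valuation.map_sum_le _ fun i _ => ?_
    rw [map_mul, map_pow, hu1, one_pow, mul_one]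
    change w (MvPolynomial.aeval _ _) ≤ 1
    rw [hxa, hP]
    exact hx.aeval_le _
  · rw [h1]
    have h2 := hG (F.map (MvPolynomial.aeval x : MvPolynomial ι k →ₐ[k] P).toRingHom) F.natDegree
    rw [Polynomial.coeff_map] at h2
    refine le_trans (le_of_eq ?_) h2
    exact (hx _ (by
      rw [Polynomial.coeff_natDegree]
      exact Polynomial.leadingCoeff_ne_zero.mpr hF0)).symm

/-- index bookkeeping -/
def optEquiv (α : Type*) : Option α ⊕ Unit ≃ Option (Option α) where
  toFun := Sum.elim (Option.map some) (fun _ => some none)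
  invFun
    | none => Sum.inl none
    | some none => Sum.inr ()
    | some (some i) => Sum.inl (some i)
  left_inv := by
    rintro ((_ | i) | _) <;> rfl
  right_inv := by
    rintro (_ | _ | i) <;> rfl

end GaussAux

open GaussAux in
theorem gaussE_adapted {w : Valuation N ℤᵐ⁰} {T : Valuation P ℤᵐ⁰} {u' : N}
    (hP : ∀ p, w (algebraMap P N p) = T p) (hu1 : w u' = 1)
    (hG : ∀ (q : Polynomial P) (n : ℕ), T (q.coeff n) ≤ w (Polynomial.aeval u' q))
    {c : ι → P} {t : P} (hc : Adapted k T c t) :
    Adapted k w (Sum.elim (fun i => algebraMap P N (c i)) (fun _ : Unit => u'))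
      (algebraMap P N t) := by
  obtain ⟨r, e, x, hx, ht0, ht, rfl⟩ := hc
  refine ⟨r + 1, (Equiv.sumCongr e (Equiv.refl Unit)).trans ((optEquiv (Fin r)).trans
    (Equiv.optionCongr (finSuccEquiv r).symm)),
    (fun o : Option (Fin r) => o.elim u' (fun i => algebraMap P N (x i))) ∘ finSuccEquiv r,
    resIndep_comp (gaussE_resIndep hP hu1 hG hx) _ (finSuccEquiv r).injective,
    (map_ne_zero _).mpr ht0, by rw [hP]; exact ht, ?_⟩
  funext i
  rcases i with i | i
  · simp only [Sum.elim_inl, Function.comp_apply, Equiv.trans_apply, Equiv.sumCongr_apply,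
      Sum.map_inl]
    rcases e i with _ | j
    · rfl
    · change algebraMap P N (x j) = (fun o : Option (Fin r) => o.elim u'
        (fun i => algebraMap P N (x i))) (finSuccEquiv r ((finSuccEquiv r).symm (some j)))
      rw [Equiv.apply_symm_apply]
      rfl
  · change u' = (fun o : Option (Fin r) => o.elim u'
        (fun i => algebraMap P N (x i))) (finSuccEquiv r ((finSuccEquiv r).symm none))
    rw [Equiv.apply_symm_apply]
    rfl

open GaussAux in
theorem gaussE_divisorial (hdim : dimension k N = dimension k P + 1) {w : Valuation N ℤᵐ⁰}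
    {T : Valuation P ℤᵐ⁰} {u' : N} (hP : ∀ p, w (algebraMap P N p) = T p) (hu1 : w u' = 1)
    (hG : ∀ (q : Polynomial P) (n : ℕ), T (q.coeff n) ≤ w (Polynomial.aeval u' q))
    [FinTrdeg k P] (hT : IsDivisorial k P T) : IsDivisorial k N w := by
  have hpos : 1 ≤ dimension k P := by
    obtain ⟨t, ht⟩ := exists_unif T hT.nontrivial
    by_contra h
    have h0 : dimension k P = 0 := by omega
    have h1 : AlgebraicIndependent k
        (fun o : Option (Fin 0) => o.elim t (Fin.elim0 : Fin 0 → P)) := by
      refine ResIndep.algebraicIndependent (w := T) ?_ ht.ne_zero ht.lt_one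
      intro p hp
      obtain ⟨c, rfl⟩ : ∃ c, p = MvPolynomial.C c := ⟨_, MvPolynomial.eq_C_of_isEmpty p⟩
      simp only [MvPolynomial.algHom_C]
      exact hT.const c (by rintro rfl; simp at hp)
    have h2 := h1.lift_cardinalMk_le_trdeg
    rw [← trdeg_eq_dimension, h0] at h2
    simp at h2
  obtain ⟨x, hx⟩ := hT.resid
  have hx' : ResIndep k T x := hx
  have e : Fin (dimension k N - 1) ≃ Option (Fin (dimension k P - 1)) :=
    Fintype.equivOfCardEq (by
      rw [Fintype.card_option, Fintype.card_fin, Fintype.card_fin]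
      omega)
  refine ⟨?_, ?_, _, resIndep_comp (gaussE_resIndep hP hu1 hG hx') e e.injective⟩
  · intro c hc
    rw [IsScalarTower.algebraMap_apply k P N, hP]
    exact hT.const c hc
  · obtain ⟨a, ha0, ha⟩ := hT.nontrivial
    exact ⟨algebraMap P N a, (map_ne_zero _).mpr ha0, by rw [hP]; exact ha⟩

end

end Pf72953.Ell
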