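import Mathlib
import Pool.Agent.Lib.Pf72953u.Inst
import Pool.Agent.Lib.Pf72953e.Defs
import Pool.Agent.Lib.Pf72953e.GaussE
import Pool.Agent.Lib.Pf72953e.ExtE

/-!
MODULE Pf72953e.LocalE: the local bounds for the coefficients of the regular relative forms.

`κ ⊆ K ⊆ P` is the algebraic closure of `B` in `P` and `K = κ·Y`; `G (dy ∧ ds)^m` is a regular relative form of `L/B`, and `f = G / g ^ m ∈ K`.
PROOF.  Let `T` be an extension of `v` to `P` (`exists_extend`, ExtE.lean; `P/K` is finite), `T z ≤ 1 ↔ v z ≤ 1` for `z ∈ K`; so `T` restricted to `K` and `v` are equivalent and it suffices to prove the claim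
with `T` in place of `v` (`Valuation.isEquiv_of_val_le_one`, or rewrite the claim as `v (F) ≤ 1` for the quotient `F ∈ K` of the two sides, `A.gen i ≠ 0`).  `T` is divisorial over `κ` (`IsDivisorial.of_comap`: the restriction to `K` is equivalent
to `v`, see `hv'div` in the proof of `nf_mem`, Pf72953u/Main.lean), hence over `k` (`IsDivisorial.under`, Pf72953u/Inst.lean), trivial on `κ`, hence on `B`.
`PrimeAt M B Z i T`: `center` from `hvA`; `der`: let `d ∈ Der_B(Z)`, `T (d x_a) ≤ 1`, `z ∈ Z`, `T z ≤ 1`; `d z = ∑_a pd_a z * d x_a` for the transcendence basis `x_i` of `Z/B` (`der_eq_sum`), and `pd_a z` (over `Z/B`) is equal in `K`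
to `pd_a z` for the transcendence basis `x_i` of `K/κ` (`pd_base`-type lemma, Pf72953u/BaseCh.lean; or: both are restrictions of derivations of `K/κ`), of value `≤ 1` by `hvx.der`.
All coefficients of `a`, `b` and of the `D j` are algebraic over `B`, so have `T ≤ 1` (`val_eq_one_of_isIntegral`); `T a.sec ≤ (T gen) ^ 4`, `T b.sec ≤ (T gen) ^ 6` (`gen = A.gen i`; the sections are `f_l gen ^ wt`, `f_l ∈ M.A i`),
`T (sK j) ≤ T (gen_j)`.
Let `t_K ∈ K` be a uniformizer of `v` (`exists_unif`), and `c_K : Fin n → K`, adapted to `v` over `κ` with `t_K` (`exists_adapted`); `jac c_K x_i` has value `1` (`hvx` and the adapted basis are both regular bases: `RegBasis.jac_le` in both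
directions and `jac_mul_jac`).
CASE A: `T (D j).sec = T (gen_j)` for all `j`.  `hout i T` gives `w` on `N` and derivations `d`.  `w` restricted to `P` is equivalent to `T`.  The restriction `w_L` of `w` to `L` is divisorial over `B` (`IsDivisorial.restrict`; it is nontrivial since `N/L` is
algebraic; `Mov.IsDivisorial.over`).  Take a regular basis `c` of `L/B` for `w_L` (`exists_adapted`, `Adapted.regBasis`; index `Fin n ⊕ Unit`), `hG`: `w G * w (jac c (y, s)) ^ m ≤ 1`.
`(jac c (y, s)) = jac c (x_i, s) * jac (M.tb i) y` (`jac_chain`, block matrix).  `det (d_a (x_i, s)_b) = det (d_a c_b) * jac c (x_i, s)` (chain rule `der_eq_sum`) and `w (det (d_a c_b)) ≤ 1`; so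
`1 ≤ w gen * w g * w (jac c (x_i, s))`.  Hence `w (f * jac y ^ m) = w G / w g ^ m * w (jac y) ^ m ≤ (w g * w (jac c (x_i, s))) ^ (-m) ≤ w gen ^ m`, and all factors `w (sK j / gen_j)` are `1`.
CASE B: `T (D j₀).sec < T (gen_j₀)` for some `j₀` (`≤` holds always).  `exists_gaussE` (GaussE.lean; `G := A.gen i` in `P`) gives `w` on `N` extending `T` with `w (u') = 1`, `u' = u / gen²`, `w v = T gen ^ 3`; it is divisorial over `κ` (`gaussE_divisorial`) and
over `B`; `(c_K, u')` is adapted to `w` over `κ` with `t_K` (`Adapted.map`, `gaussE_adapted`), hence also over `B` (a polynomial over `B` is one over `κ`).  Let `c`, `t` be adapted to `w_L` over `B` with `t` a uniformizer, as in case A.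
`LogBasis.vol_eq` in `N/B` for the family `(x_i, s)`: `w (jac c (x_i, s)) * w t = w (jac (c_K, u') (x_i, s)) * w t_K`.
`D₁ = pd (c_K, u') (inr ())` vanishes on `K` and `P`; `jac (c_K, u') (x_i, s) = jac c_K x_i * D₁ s` (block triangular), `D₁ u = gen ^ 2` (`u = gen² u'`), and `hdef`: `gen ^ 2 = v * g * D₁ s`, so
`w g * w (D₁ s) = w gen ^ 2 / w v = (w gen)⁻¹`.  Together: `w g * w (jac c (x_i, s)) * w t = w t_K / w gen`, so by `hG` (as in case A) `w (f * jac y ^ m) * (w t_K / (w gen * w t)) ^ m ≤ 1`, `w (f * jac y ^ m) * w t_K ^ m ≤ w gen ^ m`.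
Finally `w (sK j₀ / gen_j₀) ≤ w t_K` (an element of `K` of value `< 1`) and `w (sK j / gen_j) ≤ 1`.
-/

set_option autoImplicit false
set_option linter.style.haveILetI false

open scoped WithZero
open Pf72953 Pf72953.Mov Pf72953.Up

namespace Pf72953.Ell

namespace LocalEAux

theorem det_le_one {L ι : Type*} [Field L] [Fintype ι] [DecidableEq ι] {w : Valuation L ℤᵐ⁰}
    (A : Matrix ι ι L) (h : ∀ i j, w (A i j) ≤ 1) : w A.det ≤ 1 := by
  rw [Matrix.det_apply]
  refine Valuation.map_sum_le _ fun σ _ => ?_
  rw [Units.smul_def, zsmul_eq_mul, map_mul]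
  refine mul_le_one' ?_ ?_
  · rcases Int.units_eq_one_or (Equiv.Perm.sign σ) with h | h <;> simp [h, Valuation.map_neg]
  rw [map_prod]
  exact Finset.prod_le_one' fun i _ => h _ _

section

variable {k K ι : Type*} [Field k] [CharZero k] [Field K] [Algebra k K] [Fintype ι]
  [DecidableEq ι]

theorem jac_tri {x : ι → K} {u : K} (hz : IsTranscendenceBasis k (Sum.elim x (fun _ : Unit => u)))
    (y : ι → K) (s : K) (h0 : ∀ b, pd hz (Sum.inr ()) (y b) = 0) :
    jac hz (Sum.elim y (fun _ : Unit => s)) =
      Matrix.det (Matrix.of fun a b => pd hz (Sum.inl a) (y b)) * pd hz (Sum.inr ()) s := by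
  rw [jac_eq_det]
  have h1 : (Matrix.of fun i j => pd hz i ((Sum.elim y (fun _ : Unit => s)) j)) =
      Matrix.fromBlocks (Matrix.of fun a b => pd hz (Sum.inl a) (y b))
        (Matrix.of fun a (_ : Unit) => pd hz (Sum.inl a) s) 0
        (Matrix.of fun (_ : Unit) (_ : Unit) => pd hz (Sum.inr ()) s) := by
    ext i j
    rcases i with i | i <;> rcases j with j | j <;> simp [h0]
  rw [h1, Matrix.det_fromBlocks_zero₂₁]
  congr 1
  rw [Matrix.det_unique]
  rfl

theorem jac_right {x : ι → K} {s : K} (hz : IsTranscendenceBasis k (Sum.elim x (fun _ : Unit => s)))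
    (y : ι → K) : jac hz (Sum.elim y (fun _ : Unit => s)) =
      Matrix.det (Matrix.of fun a b => pd hz (Sum.inl a) (y b)) := by
  rw [jac_eq_det]
  have h2 : ∀ a : ι, pd hz (Sum.inl a) s = 0 := by
    intro a
    have := pd_self hz (Sum.inl a) (Sum.inr ())
    simpa using this
  have h3 : pd hz (Sum.inr ()) s = 1 := by
    have := pd_self hz (Sum.inr ()) (Sum.inr ())
    simpa using this
  have h1 : (Matrix.of fun i j => pd hz i ((Sum.elim y (fun _ : Unit => s)) j)) =
      Matrix.fromBlocks (Matrix.of fun a b => pd hz (Sum.inl a) (y b)) 0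
        (Matrix.of fun (_ : Unit) b => pd hz (Sum.inr ()) (y b)) 1 := by
    ext i j
    rcases i with i | i <;> rcases j with j | j <;> simp [h2, h3]
  rw [h1, Matrix.det_fromBlocks_zero₁₂, Matrix.det_one, mul_one]

end

/-- the coordinates of the chart -/
theorem jac_chart {k B Y L ι : Type*} [Field k] [CharZero k] [Field B] [CharZero B] [Field Y]
    [Field L] [Algebra k B] [Algebra k Y] [Algebra k L] [Algebra B L] [Algebra Y L]
    [IsScalarTower k B L] [IsScalarTower k Y L] [Fintype ι] [DecidableEq ι] {x : ι → Y}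
    (hx : IsTranscendenceBasis k x) {s : L}
    (hz : IsTranscendenceBasis B (Sum.elim (fun i => algebraMap Y L (x i)) (fun _ : Unit => s)))
    (y : ι → Y) :
    jac hz (Sum.elim (fun i => algebraMap Y L (y i)) (fun _ : Unit => s)) =
      algebraMap Y L (jac hx y) := by
  rw [jac_right]
  have h1 := det_der_algebraMap (E := L) hx (fun a => (pd hz (Sum.inl a)).restrictScalars k) y
  have h2 : Matrix.of (fun i j => (pd hz (Sum.inl i)).restrictScalars k (algebraMap Y L (x j))) =
      1 := by
    ext a b
    rw [Matrix.of_apply, Matrix.one_apply]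
    have := pd_self hz (Sum.inl a) (Sum.inl b)
    simp only [Sum.elim_inl, Sum.inl.injEq] at this
    exact this
  rw [h2, Matrix.det_one, mul_one] at h1
  exact h1

theorem comm_aux {M : Type*} [CommMonoid M] (F α Yj Jc γ : M) (m : ℕ) :
    F * Yj ^ m * (γ * α * Jc) ^ m = F * α ^ m * (Jc * Yj) ^ m * γ ^ m := by
  rw [mul_pow, mul_pow, mul_pow]
  generalize α ^ m = a, Yj ^ m = b, Jc ^ m = c, γ ^ m = d
  ac_rfl

/-- the arithmetic of the values -/
theorem final {F α GG Yj Jc γ τ Q : ℤᵐ⁰} {m : ℕ} (h1 : F * α ^ m = GG)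
    (h2 : GG * (Jc * Yj) ^ m ≤ 1) (h3 : τ ≤ γ * α * Jc) (h4 : Q ≤ τ) :
    F * Yj ^ m * Q ^ m ≤ γ ^ m := by
  calc F * Yj ^ m * Q ^ m ≤ F * Yj ^ m * (γ * α * Jc) ^ m :=
        mul_le_mul' le_rfl (pow_le_pow_left' (h4.trans h3) m)
    _ = GG * (Jc * Yj) ^ m * γ ^ m := by
        rw [← h1, comm_aux]
    _ ≤ 1 * γ ^ m := mul_le_mul' h2 le_rfl
    _ = γ ^ m := one_mul _

/-- a subfield of a finitely generated field over which the latter is algebraic is finitely generated -/
theorem essFinite_sub {B K P ι : Type*} [Field B] [Field K] [Field P] [Algebra B K] [Algebra B P]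
    [Algebra K P] [IsScalarTower B K P] [Algebra.IsAlgebraic K P] [Algebra.EssFiniteType B P]
    [Finite ι] {x : ι → K} (hx : IsTranscendenceBasis B x) : Algebra.EssFiniteType B K := by
  classical
  haveI := Fintype.ofFinite ι
  set F := IntermediateField.adjoin B (Set.range x) with hF
  haveI : Algebra.IsAlgebraic F K := hx.isAlgebraic_field
  haveI : IsScalarTower F K P := inferInstance
  haveI : IsScalarTower B F P := IsScalarTower.of_algebraMap_eq fun c => by
    rw [IsScalarTower.algebraMap_apply F K P, ← IsScalarTower.algebraMap_apply B F K,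
      ← IsScalarTower.algebraMap_apply B K P]
  haveI : Algebra.IsAlgebraic F P := Algebra.IsAlgebraic.trans F K P
  haveI : Algebra.EssFiniteType F P := Algebra.EssFiniteType.of_comp B F P
  haveI : FiniteDimensional F P := by
    obtain ⟨s, hs⟩ := IntermediateField.fg_top F P
    haveI : FiniteDimensional F (IntermediateField.adjoin F (s : Set P)) :=
      IntermediateField.finiteDimensional_adjoin fun x _ =>
        (Algebra.IsAlgebraic.isAlgebraic (R := F) x).isIntegral
    rw [hs] at this
    exact IntermediateField.topEquiv.toLinearEquiv.finiteDimensional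
  haveI : FiniteDimensional F K :=
    FiniteDimensional.of_injective (IsScalarTower.toAlgHom F K P).toLinearMap
      (algebraMap K P).injective
  haveI : Algebra.EssFiniteType B F := by
    rw [hF, IntermediateField.essFiniteType_iff]
    refine ⟨Finset.univ.image x, ?_⟩
    simp
  exact Algebra.EssFiniteType.comp B F K

end LocalEAux

open LocalEAux

variable {k B κ Y Z K P L N J : Type*} [Field k] [CharZero k] [Field B] [CharZero B] [Field κ]
  [CharZero κ] [Field Y] [Field Z] [Field K] [Field P] [Field L] [Field N]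
  [Algebra k B] [Algebra k κ] [Algebra k Y] [Algebra k Z] [Algebra k K] [Algebra k P] [Algebra k L]
  [Algebra k N]
  [Algebra B κ] [Algebra B Z] [Algebra B K] [Algebra B P] [Algebra B L] [Algebra B N]
  [Algebra κ K] [Algebra κ P] [Algebra κ N]
  [Algebra Y Z] [Algebra Y K] [Algebra Y P] [Algebra Y L] [Algebra Y N]
  [Algebra Z K] [Algebra Z P] [Algebra Z N] [Algebra K P] [Algebra K N] [Algebra P N]
  [Algebra L N]
  [IsScalarTower k B κ] [IsScalarTower k B Z] [IsScalarTower k B P] [IsScalarTower k B L]
  [IsScalarTower k B N] [IsScalarTower k κ K] [IsScalarTower k κ P] [IsScalarTower k κ N]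
  [IsScalarTower k Y Z] [IsScalarTower k Y K] [IsScalarTower k Y P] [IsScalarTower k Y L]
  [IsScalarTower k Y N] [IsScalarTower k Z P] [IsScalarTower k K P] [IsScalarTower k P N]
  [IsScalarTower k L N] [IsScalarTower k K N]
  [IsScalarTower B κ K] [IsScalarTower B κ P] [IsScalarTower B κ N] [IsScalarTower B Z K]
  [IsScalarTower B Z P] [IsScalarTower B K P] [IsScalarTower B K N] [IsScalarTower B P N]
  [IsScalarTower B L N] [IsScalarTower B Z N]
  [IsScalarTower κ K P] [IsScalarTower κ K N] [IsScalarTower κ P N]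
  [IsScalarTower Y Z K] [IsScalarTower Y Z P] [IsScalarTower Y Z N] [IsScalarTower Y K P]
  [IsScalarTower Y K N] [IsScalarTower Y P N] [IsScalarTower Y L N]
  [IsScalarTower Z K P] [IsScalarTower Z K N] [IsScalarTower Z P N] [IsScalarTower K P N]
  [Algebra.IsAlgebraic B κ] [FiniteDimensional K P] [FiniteDimensional Z P]
  [FiniteDimensional L N] [Algebra.EssFiniteType k N] [Algebra.EssFiniteType k P]
  [Algebra.EssFiniteType k L]
  [Fintype J] {M : SmoothModel k Y} {A : LineBundle M}

theorem local_bound {a : MovingSection M A 4 B P} {b : MovingSection M A 6 B P} {u v : N}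
    (hW : IsWeierstrass k Z a b u v) {s g : L} (hdef : DefinedOver Z u v s g)
    (D : J → MovingDivisor M B P) (hout : GeneratedOutside k Z N A D s g)
    (hu : Transcendental P u)
    (hyZ : ∀ y : Fin (dimension k Y) → Y, IsTranscendenceBasis k y →
      IsTranscendenceBasis B (fun i => algebraMap Y Z (y i)))
    (hyK : ∀ y : Fin (dimension k Y) → Y, IsTranscendenceBasis k y →
      IsTranscendenceBasis κ (fun i => algebraMap Y K (y i)))
    (hyL : ∀ y : Fin (dimension k Y) → Y, IsTranscendenceBasis k y →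
      IsTranscendenceBasis B (Sum.elim (fun i => algebraMap Y L (y i)) (fun _ : Unit => s)))
    {sK : J → K} (hsK : ∀ j, algebraMap K P (sK j) = (D j).sec) (hsec : ∀ j, (D j).sec ≠ 0)
    {y : Fin (dimension k Y) → Y} (hy : IsTranscendenceBasis k y) {m : ℕ} {G : L}
    (hG : G ∈ WReg B (Sum.elim (fun i => algebraMap Y L (y i)) (fun _ : Unit => s)) m) {f : K}
    (hf : algebraMap K N f = algebraMap L N (G / g ^ m)) {v : Valuation K ℤᵐ⁰}
    (hv : IsDivisorial κ K v) {i : M.I} (hvx : RegBasis κ v (fun c => algebraMap Y K (M.x i c)))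
    (hvA : ∀ f ∈ bc κ K (M.A i), v f ≤ 1) :
    v (f * algebraMap Y K (jac (M.tb i) y) ^ m *
        ∏ j, (sK j / algebraMap Y K ((D j).S.gen i)) ^ m) ≤
      v (algebraMap Y K (A.gen i)) ^ m := by
  classical
  haveI : CharZero K := charZero_of_injective_algebraMap (algebraMap κ K).injective
  -- the extension to `P`
  obtain ⟨T, hTv⟩ := exists_extend (P := P) hv.nontrivial
  set TK := T.comap (algebraMap K P) with hTK
  have hTv1 : ∀ a : K, TK a = 1 ↔ v a = 1 := by
    have := (Valuation.isEquiv_iff_val_le_one (v := TK) (v' := v)).mpr (fun {a} => hTv a)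
    intro a
    exact (Valuation.isEquiv_iff_val_eq_one.mp this)
  have hTKκ : IsDivisorial κ K TK := by
    refine ⟨fun c hc => (hTv1 _).mpr (hv.const c hc), ?_, ?_⟩
    · obtain ⟨a, ha0, ha⟩ := hv.nontrivial
      exact ⟨a, ha0, fun h => ha ((hTv1 a).mp h)⟩
    · obtain ⟨ξ, hξ⟩ := hv.resid
      exact ⟨ξ, fun p hp => (hTv1 _).mpr (hξ p hp)⟩
  have hTKx : RegBasis κ TK (fun a => algebraMap Y K (M.x i a)) :=
    ⟨hvx.tb, fun a => (hTv _).mpr (hvx.le_one a),
      fun a z hz => (hTv _).mpr (hvx.der a z ((hTv z).mp hz))⟩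
  have hTKA : ∀ a ∈ bc κ K (M.A i), TK a ≤ 1 := fun a ha => (hTv a).mpr (hvA a ha)
  -- dimensions
  haveI : Algebra.IsAlgebraic Z K := Algebra.IsAlgebraic.tower_bot Z K P
  have hyB : ∀ y : Fin (dimension k Y) → Y, IsTranscendenceBasis k y →
      IsTranscendenceBasis B (fun i => algebraMap Y K (y i)) := by
    intro y hy
    have h1 := (hyZ y hy).algebraMap_comp (A := K)
    refine (iff_of_eq (congrArg _ ?_)).mp h1
    funext i
    change algebraMap Z K (algebraMap Y Z (y i)) = _
    rw [← IsScalarTower.algebraMap_apply Y Z K]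
  have hyP : ∀ y : Fin (dimension k Y) → Y, IsTranscendenceBasis k y →
      IsTranscendenceBasis B (fun i => algebraMap Y P (y i)) := by
    intro y hy
    have h1 := (hyZ y hy).algebraMap_comp (A := P)
    refine (iff_of_eq (congrArg _ ?_)).mp h1
    funext i
    change algebraMap Z P (algebraMap Y Z (y i)) = _
    rw [← IsScalarTower.algebraMap_apply Y Z P]
  have hyκP : ∀ y : Fin (dimension k Y) → Y, IsTranscendenceBasis k y →
      IsTranscendenceBasis κ (fun i => algebraMap Y P (y i)) := by
    intro y hy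
    have h1 := (hyK y hy).algebraMap_comp (A := P)
    refine (iff_of_eq (congrArg _ ?_)).mp h1
    funext i
    change algebraMap K P (algebraMap Y K (y i)) = _
    rw [← IsScalarTower.algebraMap_apply Y K P]
  have hdimκ : dimension κ P = dimension κ K := by
    rw [← card_eq_of_isTranscendenceBasis (hyκP y hy), ← card_eq_of_isTranscendenceBasis (hyK y hy)]
  haveI : Algebra.EssFiniteType B P := Algebra.EssFiniteType.of_comp k B P
  haveI : Algebra.EssFiniteType B L := Algebra.EssFiniteType.of_comp k B L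
  haveI : Algebra.EssFiniteType B N := Algebra.EssFiniteType.of_comp k B N
  haveI : Algebra.EssFiniteType κ P := Algebra.EssFiniteType.of_comp k κ P
  haveI : Algebra.EssFiniteType B K := essFinite_sub (P := P) (hyB y hy)
  have hTκ : IsDivisorial κ P T := IsDivisorial.of_comap hdimκ hTKκ
  have hTk : IsDivisorial k P T := Up.IsDivisorial.under (κ := κ) hTκ
  have hTB : ∀ c : B, c ≠ 0 → T (algebraMap B P c) = 1 := by
    intro c hc
    rw [IsScalarTower.algebraMap_apply B κ P]
    exact hTκ.const _ (by simpa using hc)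
  have hTBdiv : IsDivisorial B P T := Mov.IsDivisorial.over hTk hTB
  have hTK1 : ∀ z : K, T (algebraMap K P z) = TK z := fun _ => rfl
  have hTZ : ∀ z : Z, T (algebraMap Z P z) = TK (algebraMap Z K z) := fun z => by
    rw [IsScalarTower.algebraMap_apply Z K P, hTK1]
  have hTY : ∀ z : Y, T (algebraMap Y P z) = TK (algebraMap Y K z) := fun z => by
    rw [IsScalarTower.algebraMap_apply Y K P, hTK1]
  have hTKB : IsDivisorial B K TK := hTBdiv.restrict hTKκ.nontrivial
  have hTKxB : RegBasis B TK (fun a => algebraMap Y K (M.x i a)) := by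
    refine ⟨hyB _ (M.tb i), hTKx.le_one, fun a z hz => ?_⟩
    have h1 : pd hTKx.tb a z = pd (hyB _ (M.tb i)) a z :=
      pd_base (κ := κ) (K := K) (hyB _ (M.tb i)) hTKx.tb a z
    rw [← h1]
    exact hTKx.der a z hz
  have hprime : Br.PrimeAt M B Z i T := by
    refine ⟨fun f hf => ?_, fun d hd z hz => ?_⟩
    · rw [hTY]
      exact hTKA _ (Algebra.subset_adjoin ⟨f, hf, rfl⟩)
    · rw [hTZ, der_eq_sum (hyZ _ (M.tb i)) d z, map_sum]
      refine Valuation.map_sum_le _ fun b _ => ?_
      rw [map_mul, map_mul]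
      refine mul_le_one' ?_ ?_
      · have hxK' : IsTranscendenceBasis κ
            (fun a => algebraMap Z K (algebraMap Y Z (M.x i a))) := by
          have h1 := hTKx.tb
          simp only [IsScalarTower.algebraMap_apply Y Z K] at h1
          exact h1
        have h2 := pd_base (hyZ _ (M.tb i)) hxK' b z
        rw [← h2]
        have h3 : ∀ (z' z'' : Fin (dimension k Y) → K) (hz1 : IsTranscendenceBasis κ z')
            (hz2 : IsTranscendenceBasis κ z''), z' = z'' → ∀ b a, pd hz1 b a = pd hz2 b a := by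
          rintro z' z'' hz1 hz2 rfl b a
          rfl
        rw [h3 _ _ hxK' hTKx.tb (by
          funext a
          rw [← IsScalarTower.algebraMap_apply Y Z K]) b]
        refine hTKx.der b _ ?_
        rw [hTZ] at hz
        exact hz
      · have := hd b
        rwa [hTZ] at this
  -- the sections
  have hcoef : ∀ c : P, IsAlgebraic B c → T c ≤ 1 := by
    intro c hc
    rcases eq_or_ne c 0 with rfl | h0
    · simp
    · exact (val_eq_one_of_isIntegral hTB h0 hc.isIntegral).le
  have hgenP : algebraMap Y P (A.gen i) ≠ 0 := by simpa using A.ne i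
  have ha : T a.sec ≤ T (algebraMap Y P (A.gen i)) ^ 4 := by
    rw [MovingSection.sec]
    refine Valuation.map_sum_le _ fun l _ => ?_
    obtain ⟨f, hf, hfl⟩ := a.s_mem l i
    rw [map_mul, hfl, map_mul, map_pow, map_mul, map_pow]
    refine (mul_le_mul' (hcoef _ (a.a_alg l)) (mul_le_mul' (hprime.center f hf) le_rfl)).trans ?_
    rw [one_mul, one_mul]
  have hb : T b.sec ≤ T (algebraMap Y P (A.gen i)) ^ 6 := by
    rw [MovingSection.sec]
    refine Valuation.map_sum_le _ fun l _ => ?_
    obtain ⟨f, hf, hfl⟩ := b.s_mem l i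
    rw [map_mul, hfl, map_mul, map_pow, map_mul, map_pow]
    refine (mul_le_mul' (hcoef _ (b.a_alg l)) (mul_le_mul' (hprime.center f hf) le_rfl)).trans ?_
    rw [one_mul, one_mul]
  have hgenj : ∀ j, algebraMap Y P ((D j).S.gen i) ≠ 0 := fun j => by simpa using (D j).S.ne i
  have hD : ∀ j, T (D j).sec ≤ T (algebraMap Y P ((D j).S.gen i)) := by
    intro j
    rw [MovingDivisor.sec]
    refine Valuation.map_sum_le _ fun l _ => ?_
    have h1 := hprime.center _ ((D j).local_mem i l)
    rw [map_div₀, map_div₀] at h1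
    have h2 : 0 < T (algebraMap Y P ((D j).S.gen i)) :=
      zero_lt_iff.mpr ((Valuation.ne_zero_iff T).mpr (hgenj j))
    rw [div_le_one₀ h2] at h1
    rw [map_mul]
    refine (mul_le_mul' (hcoef _ ((D j).a_alg l)) h1).trans ?_
    rw [one_mul]
  -- reduction to a valuation of `N`
  set F₀ : K := f * algebraMap Y K (jac (M.tb i) y) ^ m *
        ∏ j, (sK j / algebraMap Y K ((D j).S.gen i)) ^ m with hF₀
  have hgK : algebraMap Y K (A.gen i) ≠ 0 := by simpa using A.ne i
  have hred : ∀ w : Valuation N ℤᵐ⁰, (∀ p : P, w (algebraMap P N p) ≤ 1 ↔ T p ≤ 1) →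
      w (algebraMap K N F₀) ≤ w (algebraMap Y N (A.gen i)) ^ m →
      v F₀ ≤ v (algebraMap Y K (A.gen i)) ^ m := by
    intro w hw h
    have h1 : w (algebraMap P N (algebraMap K P (F₀ / algebraMap Y K (A.gen i) ^ m))) ≤ 1 := by
      rw [← IsScalarTower.algebraMap_apply K P N, map_div₀, map_div₀, map_pow,
        ← IsScalarTower.algebraMap_apply Y K N, map_pow]
      refine div_le_one_of_le₀ h zero_le
    have h2 := (hTv _).mp ((hw _).mp h1)
    rw [map_div₀, map_pow] at h2
    have h3 : 0 < v (algebraMap Y K (A.gen i)) ^ m :=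
      pow_pos (zero_lt_iff.mpr ((Valuation.ne_zero_iff v).mpr hgK)) m
    rwa [div_le_one₀ h3] at h2
  -- the basis `(x_i, s)` of `L/B`
  set xL : Fin (dimension k Y) ⊕ Unit → L :=
    Sum.elim (fun c => algebraMap Y L (M.x i c)) (fun _ : Unit => s) with hxL
  have hxLtb : IsTranscendenceBasis B xL := hyL _ (M.tb i)
  have hcardL : Fintype.card (Fin (dimension k Y) ⊕ Unit) = dimension B L :=
    card_eq_of_isTranscendenceBasis hxLtb
  haveI : Algebra.IsAlgebraic L N := inferInstance
  have hxNtb : IsTranscendenceBasis B (fun c => algebraMap L N (xL c)) :=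
    hxLtb.algebraMap_comp (A := N)
  have hcardN : Fintype.card (Fin (dimension k Y) ⊕ Unit) = dimension B N :=
    card_eq_of_isTranscendenceBasis hxNtb
  -- a bound from a valuation of `N`
  have hmain : ∀ w : Valuation N ℤᵐ⁰, (∀ p : P, w (algebraMap P N p) ≤ 1 ↔ T p ≤ 1) →
      IsDivisorial B N w → g ≠ 0 →
      ∀ (c : Fin (dimension k Y) ⊕ Unit → L) (hc : RegBasis B (w.comap (algebraMap L N)) c)
        (τ : ℤᵐ⁰),
      IsDivisorial B L (w.comap (algebraMap L N)) →
      τ ≤ w (algebraMap Y N (A.gen i)) * w (algebraMap L N g) *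
        w (algebraMap L N (jac hc.tb xL)) →
      ∏ j, w (algebraMap K N (sK j / algebraMap Y K ((D j).S.gen i))) ≤ τ →
      v F₀ ≤ v (algebraMap Y K (A.gen i)) ^ m := by
    intro w hwT hwdiv hg c hc τ hwL hτ hle
    refine hred w hwT ?_
    have h1 := hG _ hwL c hc
    have h2 : jac hc.tb (Sum.elim (fun i => algebraMap Y L (y i)) (fun _ : Unit => s)) =
        jac hc.tb xL * algebraMap Y L (jac (M.tb i) y) := by
      rw [jac_chain hxLtb hc.tb, jac_chart (M.tb i) hxLtb y]
    rw [h2] at h1
    change w (algebraMap L N G) * w (algebraMap L N _) ^ m ≤ 1 at h1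
    rw [map_mul, map_mul, ← IsScalarTower.algebraMap_apply Y L N] at h1
    have h3 : w (algebraMap K N f) * w (algebraMap L N g) ^ m = w (algebraMap L N G) := by
      rw [hf, ← map_pow, ← map_pow, ← map_mul, ← map_mul, div_mul_cancel₀ _ (pow_ne_zero m hg)]
    have h4 := final h3 h1 hτ hle
    refine le_trans (le_of_eq ?_) h4
    rw [hF₀, map_mul, map_mul, map_mul, map_mul, map_pow, map_pow, map_prod, map_prod,
      ← IsScalarTower.algebraMap_apply Y K N]
    congr 1
    rw [← Finset.prod_pow]
    refine Finset.prod_congr rfl fun j _ => ?_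
    rw [map_pow, map_pow]
  have hL : ∀ w : Valuation N ℤᵐ⁰, IsDivisorial B N w →
      ∃ (c : Fin (dimension k Y) ⊕ Unit → L) (t : L), IsUnif (w.comap (algebraMap L N)) t ∧
        Adapted B (w.comap (algebraMap L N)) c t ∧
        IsDivisorial B L (w.comap (algebraMap L N)) := by
    intro w hw
    have hntL : ∃ a : L, a ≠ 0 ∧ w (algebraMap L N a) ≠ 1 := by
      obtain ⟨a, ha0, ha1⟩ := hw.nontrivial
      by_contra hcon
      push Not at hcon
      exact ha1 (val_eq_one_of_isIntegral (B := L) hcon ha0 (Algebra.IsIntegral.isIntegral a))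
    have hwL : IsDivisorial B L (w.comap (algebraMap L N)) := hw.restrict hntL
    obtain ⟨c, t, ht, hc⟩ := hwL.exists_adapted hcardL
    exact ⟨c, t, ht, hc, hwL⟩
  have hfac : ∀ j, T (algebraMap K P (sK j / algebraMap Y K ((D j).S.gen i))) =
      T (D j).sec / T (algebraMap Y P ((D j).S.gen i)) := by
    intro j
    rw [map_div₀, map_div₀, hsK, ← IsScalarTower.algebraMap_apply Y K P]
  by_cases hcase : ∀ j, T (D j).sec = T (algebraMap Y P ((D j).S.gen i))
  · obtain ⟨w, hwdiv, hwT, d, hd, hdet⟩ := hout i T hTk hTB hprime hcase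
    have hwT1 : ∀ p : P, w (algebraMap P N p) = 1 ↔ T p = 1 := by
      have := (Valuation.isEquiv_iff_val_le_one (v := w.comap (algebraMap P N))
        (v' := T)).mpr (fun {p} => hwT p)
      intro p
      exact (Valuation.isEquiv_iff_val_eq_one.mp this)
    have hwB : ∀ c : B, c ≠ 0 → w (algebraMap B N c) = 1 := by
      intro c hc
      rw [IsScalarTower.algebraMap_apply B P N]
      exact (hwT1 _).mpr (hTB c hc)
    have hwBdiv : IsDivisorial B N w := Mov.IsDivisorial.over hwdiv hwB
    obtain ⟨c, t, ht, hc, hwL⟩ := hL w hwBdiv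
    have hcreg := hc.regBasis hcardL ht
    have hg : g ≠ 0 := by
      rintro rfl
      rw [zero_mul, map_zero, map_zero, mul_zero] at hdet
      exact absurd hdet (by simp)
    refine hmain w hwT hwBdiv hg c hcreg 1 hwL ?_ ?_
    · have h1 := det_der_algebraMap (k := B) (B := L) (E := L) hcreg.tb d xL
      simp only [Algebra.algebraMap_self_apply] at h1
      have h2 : w (algebraMap L N (Matrix.det (Matrix.of fun i j => d i (c j)))) ≤ 1 :=
        det_le_one (w := w.comap (algebraMap L N)) _ fun a b => hd a _ (hcreg.le_one b)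
      refine hdet.trans ?_
      rw [h1, map_mul, map_mul, map_mul, map_mul, mul_assoc]
      refine mul_le_mul' le_rfl (mul_le_mul' le_rfl ?_)
      exact mul_le_of_le_one_right' h2
    · refine le_of_eq (Finset.prod_eq_one fun j _ => ?_)
      rw [IsScalarTower.algebraMap_apply K P N]
      refine (hwT1 _).mpr ?_
      rw [hfac, hcase j, div_self]
      exact (Valuation.ne_zero_iff T).mpr (hgenj j)
  · push Not at hcase
    obtain ⟨j₀, hj₀⟩ := hcase
    obtain ⟨w, hwP, hwu, hwv, hwlow, -⟩ := exists_gaussE hu hW.gen hW.eqn hgenP ha hb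
    set gP := algebraMap Y P (A.gen i) with hgP
    set u' := u / algebraMap P N (gP ^ 2) with hu'
    have hwT : ∀ p : P, w (algebraMap P N p) ≤ 1 ↔ T p ≤ 1 := fun p => by rw [hwP]
    have hdimN : dimension B N = dimension B P + 1 := by
      rw [← hcardN, ← card_eq_of_isTranscendenceBasis (hyP y hy), Fintype.card_sum,
        Fintype.card_unit]
    have hwBdiv : IsDivisorial B N w := gaussE_divisorial hdimN hwP hwu hwlow hTBdiv
    obtain ⟨c, t, ht, hc, hwL⟩ := hL w hwBdiv
    have hcreg := hc.regBasis hcardL ht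
    -- the side of `K`
    have hcardK : Fintype.card (Fin (dimension k Y)) = dimension B K :=
      card_eq_of_isTranscendenceBasis (hyB y hy)
    obtain ⟨cK, tK, htK, hcK⟩ := hTKB.exists_adapted (ι := Fin (dimension k Y)) hcardK
    have hcKreg := hcK.regBasis hcardK htK
    have hjac1 : TK (jac hcKreg.tb (fun a => algebraMap Y K (M.x i a))) = 1 := by
      have h1 := hcKreg.jac_le _ hTKxB.le_one
      have h2 := hTKxB.jac_le cK hcK.le_one
      have h3 := congrArg TK (jac_mul_jac hTKxB.tb hcKreg.tb)
      rw [map_mul, map_one] at h3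
      refine le_antisymm h1 ?_
      rw [← h3]
      exact mul_le_of_le_one_right' h2
    have hcP := Adapted.map (L := P) hcK
    have hcN := gaussE_adapted hwP hwu hwlow hcP
    have hlog2 := hcN.logBasis hcardN
    have hlog1 := (Adapted.map (L := N) hc).logBasis hcardN
    have hvol := hlog1.vol_eq hlog2 (fun c => algebraMap L N (xL c))
    rw [(Adapted.map (L := N) hc).prod, hcN.prod, jac_algebraMap hcreg.tb hlog1.tb xL] at hvol
    have htbP : IsTranscendenceBasis B (fun a => algebraMap K P (cK a)) :=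
      hcKreg.tb.algebraMap_comp (A := P)
    have hkillP : ∀ p : P, pd hlog2.tb (Sum.inr ()) (algebraMap P N p) = 0 := fun p =>
      pd_algebraMap_of_notMem htbP hlog2.tb Sum.inl (fun _ => rfl) (Sum.inr ())
        (fun _ h => by cases h) p
    have hkillZ : ∀ z : Z, pd hlog2.tb (Sum.inr ()) (algebraMap Z N z) = 0 := fun z => by
      rw [IsScalarTower.algebraMap_apply Z P N]
      exact hkillP _
    have hxN : (fun c => algebraMap L N (xL c)) =
        Sum.elim (fun c => algebraMap Y N (M.x i c)) (fun _ : Unit => algebraMap L N s) := by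
      funext c
      rcases c with c | c
      · simp [hxL, ← IsScalarTower.algebraMap_apply Y L N]
      · simp [hxL]
    have hjac2 : jac hlog2.tb (fun c => algebraMap L N (xL c)) =
        algebraMap K N (jac hcKreg.tb (fun a => algebraMap Y K (M.x i a))) *
          pd hlog2.tb (Sum.inr ()) (algebraMap L N s) := by
      rw [hxN, jac_tri hlog2.tb _ _ (fun b => by
        rw [IsScalarTower.algebraMap_apply Y P N]
        exact hkillP _)]
      congr 1
      rw [jac_eq_det, RingHom.map_det]
      congr 1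
      ext a b
      rw [Matrix.of_apply, RingHom.mapMatrix_apply, Matrix.map_apply, Matrix.of_apply,
        IsScalarTower.algebraMap_apply Y K N]
      exact pd_algebraMap hcKreg.tb hlog2.tb Sum.inl Sum.inl_injective (fun i => by
        rw [Sum.elim_inl, ← IsScalarTower.algebraMap_apply K P N]) a _
    have hDu : pd hlog2.tb (Sum.inr ()) u = algebraMap P N gP ^ 2 := by
      have h0 : algebraMap P N (gP ^ 2) ≠ 0 := by
        rw [map_pow]
        exact pow_ne_zero 2 (by simpa using hgenP)
      have h1 : u = algebraMap P N (gP ^ 2) * u' := by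
        rw [hu', mul_div_cancel₀ _ h0]
      have h2 := pd_self hlog2.tb (Sum.inr ()) (Sum.inr ())
      rw [if_pos rfl, Sum.elim_inr] at h2
      conv_lhs => rw [h1]
      rw [Derivation.leibniz, hkillP, smul_zero, add_zero, h2, smul_eq_mul, mul_one, map_pow]
    have h5 := hdef (derOver (pd hlog2.tb (Sum.inr ())) hkillZ)
    rw [derOver_apply, derOver_apply, hDu] at h5
    have hg0 : algebraMap P N gP ≠ 0 := by simpa using hgenP
    have hg : g ≠ 0 := by
      rintro rfl
      rw [map_zero, mul_zero, zero_mul] at h5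
      exact pow_ne_zero 2 hg0 h5
    have h6 := congrArg w h5
    rw [map_pow, map_mul, map_mul, hwP, hwv] at h6
    have hγ : T gP ≠ 0 := (Valuation.ne_zero_iff T).mpr hgenP
    have h7 : T gP * w (algebraMap L N g) *
        w (pd hlog2.tb (Sum.inr ()) (algebraMap L N s)) = 1 := by
      have h8 : T gP ^ 2 * (T gP * w (algebraMap L N g) *
        w (pd hlog2.tb (Sum.inr ()) (algebraMap L N s))) = T gP ^ 2 * 1 := by
        rw [mul_one]
        refine Eq.trans ?_ h6.symm
        rw [pow_succ (T gP) 2]
        simp only [mul_assoc]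
      exact mul_left_cancel₀ (pow_ne_zero 2 hγ) h8
    have hgN : w (algebraMap Y N (A.gen i)) = T gP := by
      rw [IsScalarTower.algebraMap_apply Y P N, hwP]
    rw [hjac2, map_mul, hwP, IsScalarTower.algebraMap_apply K P N, hwP, hTK1, hTK1, hjac1,
      one_mul] at hvol
    refine hmain w hwT hwBdiv hg c hcreg (TK tK) hwL ?_ ?_
    · rw [hgN]
      have h8 : TK tK = T gP * w (algebraMap L N g) * (w (algebraMap L N (jac hcreg.tb xL)) *
          w (algebraMap L N t)) := by
        rw [hvol, ← mul_assoc, h7, one_mul]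
      rw [h8]
      refine mul_le_mul' le_rfl ?_
      exact mul_le_of_le_one_right' ht.lt_one.le
    · have h9 : ∀ j, w (algebraMap K N (sK j / algebraMap Y K ((D j).S.gen i))) =
          TK (sK j / algebraMap Y K ((D j).S.gen i)) := fun j => by
        rw [IsScalarTower.algebraMap_apply K P N, hwP, hTK1]
      have h10 : ∀ j, TK (sK j / algebraMap Y K ((D j).S.gen i)) ≤ 1 := fun j => by
        rw [← hTK1, hfac]
        exact div_le_one_of_le₀ (hD j) zero_le
      simp only [h9]
      rw [← Finset.mul_prod_erase Finset.univ _ (Finset.mem_univ j₀)]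
      refine (mul_le_of_le_one_right' (Finset.prod_le_one' fun j _ => h10 j)).trans ?_
      refine htK.le _ ?_
      rw [← hTK1, hfac]
      have h11 : 0 < T (algebraMap Y P ((D j₀).S.gen i)) :=
        zero_lt_iff.mpr ((Valuation.ne_zero_iff T).mpr (hgenj j₀))
      rw [div_lt_one₀ h11]
      exact lt_of_le_of_ne (hD j₀) hj₀

end Pf72953.Ell
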