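import Mathlib
import Pool.Agent.Lib.Pf72953.Unram
import Pool.Agent.Lib.Pf72953.Estimate

/-!
MODULE Pf72953e.DeltaE: the invariant differential has no zeros.

`w` is a nontrivial valuation of `N = P(u, v)`, trivial on `P`; `v² = f(u)`, `f = X³ + a X + b`, `4 a³ + 27 b² ≠ 0`; `f' = 3 u² + a`.  `δ = v D` satisfies
`δ u = v`, `δ v = f' / 2` (from `2 v D v = f'`).  To find a uniformizer `z` of `w` with `w (δ z) = 1`.
Every `z ∈ N` is `r₀ + r₁ v`, `r₀, r₁ ∈ P(u)` (`v² ∈ P(u)`).
Case 1, `w u > 1`: `w v ^ 2 = w u ^ 3`.  `z = u / v`: `w z ^ 2 = (w u)⁻¹ < 1`.  On `P(u)` the values are powers of `w u` (`w (p(u)) = w u ^ deg p`), so `w (r₀)` is an even power of `w z`, and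
 `w (r₁ v)` is an odd power of `w z` (`w v = (w z)⁻³`); hence `w (r₀ + r₁ v)` is the maximum of the two, a power of `w z`: `z` is a uniformizer.
 `δ z = 1 - u f' / (2 v²) = (-u³ + a u + 2 b) / (2 v²)` (use `v² = u³ + a u + b`), of value `w u ^ 3 / w v ^ 2 = 1`.
Case 2, `w u ≤ 1`.  There is an irreducible (or minimal degree) `p ∈ P[X]` with `w (p(u)) < 1` (see the header of Pf72953e/Place.lean): all polynomials `q` in `u` have `w (q(u)) ≤ 1`, and
 `w (q(u)) = 1` if `p ∤ q` (Bezout), `w` on `P(u)` has values powers of `w (p(u))`.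
 2a, `w v < 1`: `w f' = 1` (header of Place.lean), so `p` divides `f` exactly once, `f = p h`, `w (h(u)) = 1` (if `p² ∣ f` then `p ∣ f'`, contradiction).  So `w v ^ 2 = w (p(u))`; as in case 1 (even and odd powers of `w v`) `z = v` is a uniformizer,
 `δ v = f' / 2` has value `1`.
 2b, `w v = 1`: `z = p(u)`; `δ z = p'(u) v` has value `1` (`p' ≠ 0` has smaller degree, characteristic zero).  `z` is a uniformizer: `D` preserves the valuation ring of `w` restricted to `P(u)` (its elements are `q₁(u) / q₂(u)` with
 `w (q₂(u)) = 1`), hence that of `w` by `der_le_one_of_etale` (Unram.lean, with `E := P(u)`, `β := v`: if `v ∉ P(u)` (it is not, `f` has odd degree) its minimal polynomial is `X² - f(u)`, the derivative is `2 v`, a unit), and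
 `isUnif_of_der` (Unram.lean) for `(p'(u))⁻¹ • D` and `π = p(u)`.
 (Alternative for all cases: any other proof that the local ring `O_w` is the localization of `P[u, v]`, resp. `P[1/u, u/v]`..)
-/

set_option autoImplicit false
set_option linter.style.haveILetI false

open scoped WithZero
open Pf72953

namespace Pf72953.Ell

namespace DeltaAux

open Polynomial

section

variable {P N : Type*} [Field P] [Field N] [Algebra P N] {w : Valuation N ℤᵐ⁰}

theorem coeff_le (htriv : ∀ p : P, p ≠ 0 → w (algebraMap P N p) = 1) (c : P) :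
    w (algebraMap P N c) ≤ 1 := by
  rcases eq_or_ne c 0 with h | h
  · simp [h]
  · exact (htriv _ h).le

theorem aeval_le (htriv : ∀ p : P, p ≠ 0 → w (algebraMap P N p) = 1) {t : N} (ht : w t ≤ 1)
    (q : P[X]) : w (aeval t q) ≤ 1 := by
  rw [aeval_eq_sum_range]
  refine Valuation.map_sum_le _ fun i _ => ?_
  rw [Algebra.smul_def, map_mul, map_pow]
  exact mul_le_one' (coeff_le htriv _) (pow_le_one' ht _)

theorem exists_unit_denom (htriv : ∀ p : P, p ≠ 0 → w (algebraMap P N p) = 1) {t : N}
    (ht : w t ≤ 1) {r : N} (hr : r ∈ IntermediateField.adjoin P {t}) (hwr : w r ≤ 1) :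
    ∃ q₁ q₂ : P[X], w (aeval t q₂) = 1 ∧ aeval t q₂ * r = aeval t q₁ := by
  classical
  obtain ⟨p, q, h⟩ := (IntermediateField.mem_adjoin_simple_iff P r).mp hr
  rcases eq_or_ne r 0 with hr0 | hr0
  · exact ⟨0, 1, by simp, by simp [hr0]⟩
  have hqt : aeval t q ≠ 0 := by
    intro h0
    rw [h0, div_zero] at h
    exact hr0 h
  have hq : q ≠ 0 := by
    rintro rfl
    simp at hqt
  have hcop := isCoprime_div_gcd_div_gcd (p := p) (q := q) hq
  set g := GCDMonoid.gcd p q with hg
  have hg0 : g ≠ 0 := gcd_ne_zero_of_right hq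
  have hp' : g * (p / g) = p := EuclideanDomain.mul_div_cancel' hg0 (gcd_dvd_left _ _)
  have hq' : g * (q / g) = q := EuclideanDomain.mul_div_cancel' hg0 (gcd_dvd_right _ _)
  have hgt : aeval t g ≠ 0 := by
    intro h0
    rw [← hq', map_mul, h0, zero_mul] at hqt
    exact hqt rfl
  have hqt' : aeval t (q / g) ≠ 0 := by
    intro h0
    rw [← hq', map_mul, h0, mul_zero] at hqt
    exact hqt rfl
  have hrel : aeval t (q / g) * r = aeval t (p / g) := by
    have h1 : aeval t q * r = aeval t p := by
      rw [h, mul_div_cancel₀ _ hqt]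
    rw [← hp', ← hq', map_mul, map_mul, mul_assoc] at h1
    exact mul_left_cancel₀ hgt h1
  refine ⟨p / g, q / g, ?_, hrel⟩
  refine le_antisymm (aeval_le htriv ht _) ?_
  by_contra hlt
  rw [not_le] at hlt
  have h2 : w (aeval t (p / g)) < 1 := by
    rw [← hrel, map_mul]
    calc _ ≤ w (aeval t (q / g)) * 1 := by gcongr
      _ = w (aeval t (q / g)) := mul_one _
      _ < 1 := hlt
  obtain ⟨α, β, hαβ⟩ := hcop
  have h3 : w (aeval t (α * (p / g) + β * (q / g))) < 1 := by
    rw [map_add, map_mul, map_mul]
    refine (w.map_add _ _).trans_lt (max_lt ?_ ?_)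
    · rw [map_mul]
      calc _ ≤ 1 * w (aeval t (p / g)) := by
            gcongr
            exact aeval_le htriv ht _
        _ = _ := one_mul _
        _ < 1 := h2
    · rw [map_mul]
      calc _ ≤ 1 * w (aeval t (q / g)) := by
            gcongr
            exact aeval_le htriv ht _
        _ = _ := one_mul _
        _ < 1 := hlt
  rw [hαβ, map_one, map_one] at h3
  exact lt_irrefl _ h3

theorem der_aeval (D : Derivation P N N) (t : N) (q : P[X]) :
    D (aeval t q) = aeval t (derivative q) * D t := by
  rw [Derivation.map_aeval]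
  rfl

/-- a derivation is regular if the field is étale over the line with coordinate `t` at `w` -/
theorem der_le [CharZero P] (htriv : ∀ p : P, p ≠ 0 → w (algebraMap P N p) = 1) {t β : N}
    (ht : w t ≤ 1) (hgen : ∀ z : N, z ∈ IntermediateField.adjoin P {t, β})
    (D : Derivation P N N) (hD : w (D t) ≤ 1) (E : IntermediateField P N)
    (hE : E = IntermediateField.adjoin P {t})
    (g : (w.comap (algebraMap E N)).valuationSubring[X])
    (hg : g.Monic) (hgβ : aeval β g = 0) (hgd : w (aeval β (derivative g)) = 1) {a : N}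
    (ha : w a ≤ 1) : w (D a) ≤ 1 := by
  classical
  have hint : IsIntegral (w.comap (algebraMap E N)).valuationSubring β :=
    ⟨g, hg, by rw [← aeval_def]; exact hgβ⟩
  have hβ : IntermediateField.adjoin E {β} = ⊤ := by
    rw [eq_top_iff]
    intro z _
    have h1 := hgen z
    rw [← IntermediateField.adjoin_simple_adjoin_simple] at h1
    subst hE
    exact h1
  haveI : FiniteDimensional E N := by
    haveI h1 : FiniteDimensional E (IntermediateField.adjoin E {β}) :=
      IntermediateField.adjoin.finiteDimensional (hint.tower_top)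
    have h2 : FiniteDimensional E (⊤ : IntermediateField E N) := by
      rw [← hβ]; exact h1
    exact IntermediateField.topEquiv.toLinearEquiv.finiteDimensional
  haveI : CharZero E := charZero_of_injective_algebraMap (algebraMap P E).injective
  have hmin : minpoly E β = (minpoly (w.comap (algebraMap E N)).valuationSubring β).map
      (algebraMap (w.comap (algebraMap E N)).valuationSubring E) :=
    minpoly.isIntegrallyClosed_eq_field_fractions' E hint
  have hder' : aeval β (derivative (minpoly E β)) =
      aeval β (derivative (minpoly (w.comap (algebraMap E N)).valuationSubring β)) := by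
    rw [hmin, derivative_map, aeval_map_algebraMap]
  obtain ⟨q, hq⟩ : minpoly (w.comap (algebraMap E N)).valuationSubring β ∣ g :=
    minpoly.isIntegrallyClosed_dvd hint hgβ
  have hprod : aeval β (derivative g) =
      aeval β (derivative (minpoly (w.comap (algebraMap E N)).valuationSubring β)) *
        aeval β q := by
    rw [hq, derivative_mul, map_add, map_mul, map_mul, minpoly.aeval, zero_mul, add_zero]
  have hle : ∀ p : (w.comap (algebraMap E N)).valuationSubring[X], w (aeval β p) ≤ 1 := by
    intro p
    exact val_le_one_of_isIntegral w (by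
      refine IsIntegral.of_mem_of_fg (Algebra.adjoin (w.comap (algebraMap E N)).valuationSubring
        {β}) hint.fg_adjoin_singleton _ ?_
      exact aeval_mem_adjoin_singleton _ β)
  have hder : w (aeval β (derivative (minpoly E β))) = 1 := by
    rw [hder']
    refine le_antisymm (hle _) ?_
    rw [← hgd, hprod, map_mul]
    exact (mul_le_mul_right (hle q) _).trans (mul_one _).le
  refine der_le_one_of_etale w D ?_ β hβ hint hder ha
  intro r hr
  have hDP : ∀ p : P, w (algebraMap P N p) ≤ 1 → w (D (algebraMap P N p)) ≤ 1 := fun p _ => by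
    rw [Derivation.map_algebraMap, map_zero]
    exact zero_le_one
  have hmem : ∀ q : P[X], aeval t q ∈ regAlg w D hDP := fun q => by
    rw [mem_regAlg]
    refine ⟨aeval_le htriv ht q, ?_⟩
    rw [der_aeval, map_mul]
    exact mul_le_one' (aeval_le htriv ht _) hD
  obtain ⟨q₁, q₂, h1, h2⟩ := exists_unit_denom htriv ht (r := algebraMap E N r)
    (by rw [← hE]; exact r.2) hr
  exact (regAlg_div w D hDP (hmem q₂) h1 (by rw [h2]; exact hmem q₁)).2

end

section

variable {P N : Type*} [Field P] [Field N] [Algebra P N] {w : Valuation N ℤᵐ⁰}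

/-- elements of `P(u)(v)`, `v ^ 2 ∈ P(u)` -/
theorem exists_pair {u v : N} (hgen : ∀ z : N, z ∈ IntermediateField.adjoin P {u, v})
    (hv : v ^ 2 ∈ IntermediateField.adjoin P {u}) (z : N) :
    ∃ r₀ ∈ IntermediateField.adjoin P {u}, ∃ r₁ ∈ IntermediateField.adjoin P {u},
      z = r₀ + r₁ * v := by
  classical
  set E := IntermediateField.adjoin P {u} with hE
  have h1 := hgen z
  rw [← IntermediateField.adjoin_simple_adjoin_simple] at h1
  have h1' : z ∈ IntermediateField.adjoin E {v} := h1
  set c : E := ⟨v ^ 2, hv⟩ with hc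
  set g : E[X] := X ^ 2 - C c with hg
  have hgm : g.Monic := monic_X_pow_sub_C _ (by norm_num)
  have hgv : aeval v g = 0 := by
    rw [hg, map_sub, map_pow, aeval_X, aeval_C]
    exact sub_self _
  have hint : IsIntegral E v := ⟨g, hgm, by rw [← aeval_def]; exact hgv⟩
  have h2 : z ∈ Algebra.adjoin E {v} := by
    rw [← IntermediateField.adjoin_simple_toSubalgebra_of_isAlgebraic hint.isAlgebraic]
    exact h1'
  rw [Algebra.adjoin_singleton_eq_range_aeval] at h2
  obtain ⟨Q, hQ⟩ := h2
  have h3 : aeval v (Q %ₘ g) = z := by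
    rw [aeval_modByMonic_eq_self_of_root hgv]
    exact hQ
  have h4 : (Q %ₘ g).natDegree ≤ 1 := by
    have h5 := natDegree_modByMonic_lt Q hgm (by
      intro h6
      have h7 : g.natDegree = 2 := natDegree_X_pow_sub_C
      rw [h6, natDegree_one] at h7
      omega)
    have h7 : g.natDegree = 2 := natDegree_X_pow_sub_C
    omega
  obtain ⟨a, b, hab⟩ := exists_eq_X_add_C_of_natDegree_le_one h4
  refine ⟨b, b.2, a, a.2, ?_⟩
  rw [← h3, hab, map_add, map_mul, aeval_C, aeval_C, aeval_X, add_comm]
  rfl

theorem val_aeval_of_lt (htriv : ∀ p : P, p ≠ 0 → w (algebraMap P N p) = 1) {u : N}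
    (hu : 1 < w u) {q : P[X]} (hq : q ≠ 0) : w (aeval u q) = w u ^ q.natDegree := by
  have hb0 : w u ≠ 0 := (zero_lt_one.trans hu).ne'
  have hlc : w (algebraMap P N q.leadingCoeff) = 1 := htriv _ (leadingCoeff_ne_zero.mpr hq)
  rw [aeval_eq_sum_range, Finset.sum_range_succ, coeff_natDegree, Algebra.smul_def,
    Valuation.map_add_eq_of_lt_right, map_mul, hlc, one_mul, map_pow]
  rw [map_mul, hlc, one_mul, map_pow]
  refine Valuation.map_sum_lt _ (pow_ne_zero _ hb0) fun i hi => ?_
  rw [Finset.mem_range] at hi
  rw [Algebra.smul_def, map_mul, map_pow]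
  calc _ ≤ 1 * w u ^ i := by
        gcongr
        exact coeff_le htriv _
    _ = w u ^ i := one_mul _
    _ < w u ^ q.natDegree := pow_lt_pow_right₀ hu hi

theorem val_rat (htriv : ∀ p : P, p ≠ 0 → w (algebraMap P N p) = 1) {u : N}
    (hu : 1 < w u) {r : N} (hr : r ∈ IntermediateField.adjoin P {u}) (hr0 : r ≠ 0) :
    ∃ n : ℤ, w r = w u ^ n := by
  have hb0 : w u ≠ 0 := (zero_lt_one.trans hu).ne'
  obtain ⟨p, q, h⟩ := (IntermediateField.mem_adjoin_simple_iff P r).mp hr
  have hq : q ≠ 0 := by
    rintro rfl
    rw [map_zero, div_zero] at h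
    exact hr0 h
  have hp : p ≠ 0 := by
    rintro rfl
    rw [map_zero, zero_div] at h
    exact hr0 h
  refine ⟨(p.natDegree : ℤ) - q.natDegree, ?_⟩
  rw [h, map_div₀, val_aeval_of_lt htriv hu hp, val_aeval_of_lt htriv hu hq,
    zpow_sub₀ hb0, zpow_natCast, zpow_natCast]

/-- the place at infinity -/
theorem isUnif_inf (htriv : ∀ p : P, p ≠ 0 → w (algebraMap P N p) = 1) {u v : N}
    (hgen : ∀ z : N, z ∈ IntermediateField.adjoin P {u, v})
    (hv : v ^ 2 ∈ IntermediateField.adjoin P {u}) (hu : 1 < w u) (huv : w v ^ 2 = w u ^ 3) :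
    IsUnif w (u / v) := by
  have hu0 : w u ≠ 0 := (zero_lt_one.trans hu).ne'
  have hv0 : w v ≠ 0 := by
    intro h
    rw [h, zero_pow two_ne_zero] at huv
    exact pow_ne_zero 3 hu0 huv.symm
  set γ := w (u / v) with hγ
  have hγ' : γ = w u / w v := map_div₀ _ _ _
  have hγ0 : γ ≠ 0 := by rw [hγ']; exact div_ne_zero hu0 hv0
  have hγ2 : γ ^ 2 = (w u)⁻¹ := by
    rw [hγ', div_pow, huv]
    field_simp
  have hwu : w u = γ ^ (-2 : ℤ) := by
    rw [zpow_neg, ← inv_inv (w u), ← hγ2]
    norm_cast
  have hwv : w v = γ ^ (-3 : ℤ) := by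
    have h1 : w v = w u / γ := by
      rw [hγ']
      field_simp
    rw [h1, hwu, show (-3 : ℤ) = -2 - 1 by norm_num, zpow_sub₀ hγ0, zpow_one]
  have hγ1 : γ < 1 := by
    have h1 : γ ^ 2 < 1 := by
      rw [hγ2]
      exact inv_lt_one_of_one_lt₀ hu
    by_contra h2
    rw [not_lt] at h2
    exact absurd h1 (not_lt.mpr (one_le_pow₀ h2))
  have hpos : 0 < γ := zero_lt_iff.mpr hγ0
  have hanti : StrictAnti (fun n : ℤ => γ ^ n) := zpow_right_strictAnti₀ hpos hγ1
  have key : ∀ a : N, a ≠ 0 → ∃ n : ℤ, w a = γ ^ n := by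
    intro a ha0
    obtain ⟨r₀, hr₀, r₁, hr₁, rfl⟩ := exists_pair hgen hv a
    have e0 : r₀ ≠ 0 → ∃ n : ℤ, w r₀ = γ ^ (2 * n) := by
      intro h
      obtain ⟨n, hn⟩ := val_rat htriv hu hr₀ h
      refine ⟨-n, ?_⟩
      rw [hn, hwu, ← zpow_mul]
      congr 1
      ring
    have e1 : r₁ ≠ 0 → ∃ n : ℤ, w (r₁ * v) = γ ^ (2 * n + 1) := by
      intro h
      obtain ⟨n, hn⟩ := val_rat htriv hu hr₁ h
      refine ⟨-n - 2, ?_⟩
      rw [map_mul, hn, hwu, hwv, ← zpow_mul, ← zpow_add₀ hγ0]
      congr 1
      ring
    rcases eq_or_ne r₀ 0 with h0 | h0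
    · rcases eq_or_ne r₁ 0 with h1 | h1
      · exact absurd (by rw [h0, h1, zero_mul, add_zero]) ha0
      · obtain ⟨n, hn⟩ := e1 h1
        exact ⟨_, by rw [h0, zero_add, hn]⟩
    · obtain ⟨n, hn⟩ := e0 h0
      rcases eq_or_ne r₁ 0 with h1 | h1
      · exact ⟨_, by rw [h1, zero_mul, add_zero, hn]⟩
      · obtain ⟨m, hm⟩ := e1 h1
        rcases lt_trichotomy (w r₀) (w (r₁ * v)) with h | h | h
        · exact ⟨_, by rw [Valuation.map_add_eq_of_lt_right w h, hm]⟩
        · rw [hn, hm] at h
          have := hanti.injective h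
          omega
        · exact ⟨_, by rw [Valuation.map_add_eq_of_lt_left w h, hn]⟩
  refine ⟨?_, hγ1, ?_⟩
  · intro h
    rw [h, map_zero] at hγ
    exact hγ0 hγ
  · intro a ha
    rcases eq_or_ne a 0 with rfl | ha0
    · rw [map_zero]; exact bot_le
    obtain ⟨n, hn⟩ := key a ha0
    rw [hn] at ha ⊢
    have h1 : 0 < n := by
      by_contra h2
      rw [not_lt] at h2
      have h3 := hanti.antitone h2
      simp only [zpow_zero] at h3
      exact absurd ha (not_lt.mpr h3)
    have h4 := hanti.antitone (show (1 : ℤ) ≤ n by omega)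
    simp only [zpow_one] at h4
    exact h4

end

end DeltaAux

theorem exists_unif_delta {P N : Type*} [Field P] [CharZero P] [Field N] [Algebra P N]
    {w : Valuation N ℤᵐ⁰} (htriv : ∀ p : P, p ≠ 0 → w (algebraMap P N p) = 1)
    (hnt : ∃ z : N, z ≠ 0 ∧ w z ≠ 1) {u v : N} {a b : P} (hu : Transcendental P u)
    (hgen : ∀ z : N, z ∈ IntermediateField.adjoin P {u, v})
    (heq : v ^ 2 = u ^ 3 + algebraMap P N a * u + algebraMap P N b)
    (hdisc : 4 * a ^ 3 + 27 * b ^ 2 ≠ 0) (D : Derivation P N N) (hD : D u = 1) :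
    ∃ z : N, IsUnif w z ∧ w (v * D z) = 1 := by
  classical
  have h2 : w (2 : N) = 1 := by
    have := htriv 2 two_ne_zero
    rwa [map_ofNat] at this
  have hP : ∀ c : P, w (algebraMap P N c) ≤ 1 := DeltaAux.coeff_le htriv
  have hv0 : v ≠ 0 := by
    intro h0
    rw [h0, zero_pow two_ne_zero] at heq
    apply hu
    refine ⟨Polynomial.X ^ 3 + Polynomial.C a * Polynomial.X + Polynomial.C b, ?_, ?_⟩
    · intro h1
      have h3 := congrArg (fun q => Polynomial.coeff q 3) h1
      simp [Polynomial.coeff_X, Polynomial.coeff_C] at h3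
    · simp only [map_add, map_mul, map_pow, Polynomial.aeval_X, Polynomial.aeval_C]
      exact heq.symm
  -- the derivative of `v`
  have hDv : 2 * (v * D v) = 3 * u ^ 2 + algebraMap P N a := by
    have h3 := congrArg D heq
    rw [map_add, map_add, Derivation.map_algebraMap, Derivation.leibniz, Derivation.leibniz_pow,
      Derivation.leibniz_pow, Derivation.map_algebraMap, hD] at h3
    simp only [smul_eq_mul, nsmul_eq_mul, Nat.cast_ofNat, mul_one, mul_zero, add_zero] at h3
    norm_num at h3
    linear_combination h3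
  have hv2 : v ^ 2 ∈ IntermediateField.adjoin P {u} := by
    rw [heq]
    have h3 := IntermediateField.mem_adjoin_simple_self P u
    exact add_mem (add_mem (pow_mem h3 3) (mul_mem (IntermediateField.algebraMap_mem _ a) h3))
      (IntermediateField.algebraMap_mem _ b)
  rcases lt_or_ge 1 (w u) with hwu | hwu
  · -- the place at infinity
    have hwu0 : w u ≠ 0 := (zero_lt_one.trans hwu).ne'
    have hdom : ∀ c d : N, w c ≤ w u → w d ≤ 1 → w (u ^ 3 + c + d) = w u ^ 3 := by
      intro c d hc hd
      have h13 : w u ^ 1 < w u ^ 3 := pow_lt_pow_right₀ hwu (by norm_num)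
      have h03 : w u ^ 0 < w u ^ 3 := pow_lt_pow_right₀ hwu (by norm_num)
      rw [pow_one] at h13
      rw [pow_zero] at h03
      rw [Valuation.map_add_eq_of_lt_left, Valuation.map_add_eq_of_lt_left, map_pow]
      · rw [map_pow]; exact hc.trans_lt h13
      · rw [Valuation.map_add_eq_of_lt_left, map_pow]
        · exact hd.trans_lt h03
        · rw [map_pow]; exact hc.trans_lt h13
    have hau : w (algebraMap P N a * u) ≤ w u := by
      rw [map_mul]
      exact (mul_le_mul_left (hP a) _).trans (one_mul _).le
    have hvu : w v ^ 2 = w u ^ 3 := by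
      rw [← map_pow, heq, hdom _ _ hau (hP b)]
    refine ⟨u / v, DeltaAux.isUnif_inf htriv hgen hv2 hwu hvu, ?_⟩
    have h3 : v * D (u / v) = -((u ^ 3 + -(algebraMap P N a * u) +
        -(2 * algebraMap P N b)) / (2 * v ^ 2)) := by
      have h4 : D (u / v) = (v * D u - u * D v) / v ^ 2 := by
        rw [Derivation.leibniz_div]
        simp only [smul_eq_mul]
        field_simp
      rw [h4, hD]
      have h20 : (2 : N) ≠ 0 := by
        intro h; rw [h, map_zero] at h2; exact zero_ne_one h2
      field_simp
      linear_combination (-u) * hDv + 2 * heq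
    rw [h3, Valuation.map_neg, map_div₀, hdom, map_mul, h2, one_mul, map_pow, hvu, div_self
      (pow_ne_zero 3 hwu0)]
    · rw [Valuation.map_neg]; exact hau
    · rw [Valuation.map_neg, map_mul, h2, one_mul]; exact hP b
  have hf' : w (3 * u ^ 2 + algebraMap P N a) ≤ 1 := by
    refine (w.map_add _ _).trans (max_le ?_ (hP a))
    rw [map_mul, map_pow]
    have h3 : w (3 : N) = 1 := by
      have := htriv 3 three_ne_zero
      rwa [map_ofNat] at this
    rw [h3, one_mul]
    exact pow_le_one' hwu 2
  have hwv : w v ≤ 1 := by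
    have h3 : w v ^ 2 ≤ 1 := by
      rw [← map_pow, heq]
      refine (w.map_add _ _).trans (max_le ((w.map_add _ _).trans (max_le ?_ ?_)) (hP b))
      · rw [map_pow]; exact pow_le_one' hwu 3
      · rw [map_mul]; exact mul_le_one' (hP a) hwu
    by_contra h4
    rw [not_le] at h4
    exact absurd h3 (not_le.mpr (one_lt_pow₀ h4 two_ne_zero))
  have hδ : w (v * D v) = w (3 * u ^ 2 + algebraMap P N a) := by
    rw [← hDv, map_mul w 2 (v * D v), h2, one_mul]
  rcases lt_or_eq_of_le hwv with hwv1 | hwv1
  · -- a point of order two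
    have hunit : w (3 * u ^ 2 + algebraMap P N a) = 1 := by
      refine le_antisymm hf' ?_
      by_contra hlt
      rw [not_le] at hlt
      have h3 : (27 * algebraMap P N b - 18 * algebraMap P N a * u) * v ^ 2 +
          (4 * algebraMap P N a ^ 2 - 9 * algebraMap P N b * u + 6 * algebraMap P N a * u ^ 2) *
            (3 * u ^ 2 + algebraMap P N a) = algebraMap P N (4 * a ^ 3 + 27 * b ^ 2) := by
        rw [heq]
        simp only [map_add, map_mul, map_pow, map_ofNat]
        ring
      have h4 := htriv _ hdisc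
      rw [← h3] at h4
      have hc1 : w (27 * algebraMap P N b - 18 * algebraMap P N a * u) ≤ 1 := by
        have h5 := DeltaAux.aeval_le htriv hwu
          (Polynomial.C (27 * b) - Polynomial.C (18 * a) * Polynomial.X)
        simpa only [map_sub, map_mul, Polynomial.aeval_C, Polynomial.aeval_X, map_ofNat] using h5
      have hc2 : w (4 * algebraMap P N a ^ 2 - 9 * algebraMap P N b * u +
          6 * algebraMap P N a * u ^ 2) ≤ 1 := by
        have h5 := DeltaAux.aeval_le htriv hwu
          (Polynomial.C (4 * a ^ 2) - Polynomial.C (9 * b) * Polynomial.X +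
            Polynomial.C (6 * a) * Polynomial.X ^ 2)
        simpa only [map_sub, map_add, map_mul, map_pow, Polynomial.aeval_C, Polynomial.aeval_X,
          map_ofNat] using h5
      have h6 : w ((27 * algebraMap P N b - 18 * algebraMap P N a * u) * v ^ 2 +
          (4 * algebraMap P N a ^ 2 - 9 * algebraMap P N b * u + 6 * algebraMap P N a * u ^ 2) *
            (3 * u ^ 2 + algebraMap P N a)) < 1 := by
        refine (w.map_add _ _).trans_lt (max_lt ?_ ?_)
        · rw [map_mul, map_pow]
          have h7 : w v ^ 2 < 1 := pow_lt_one' hwv1 two_ne_zero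
          exact (mul_le_mul_left hc1 _).trans_lt (by rwa [one_mul])
        · rw [map_mul]
          exact (mul_le_mul_left hc2 _).trans_lt (by rwa [one_mul])
      rw [h4] at h6
      exact lt_irrefl _ h6
    have hvD : w (v * D v) = 1 := hδ.trans hunit
    have hvD0 : v * D v ≠ 0 := by
      intro h0
      rw [h0, map_zero] at hvD
      exact zero_ne_one hvD
    have hreg : ∀ z : N, w z ≤ 1 → w ((v • D) z) ≤ 1 := by
      intro z hz
      set E := IntermediateField.adjoin P {v} with hE
      have haR : algebraMap P E a ∈ (w.comap (algebraMap E N)).valuationSubring := hP a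
      have hbR : algebraMap P E b ∈ (w.comap (algebraMap E N)).valuationSubring := hP b
      have hvR : (⟨v, IntermediateField.mem_adjoin_simple_self P v⟩ : E) ∈
        (w.comap (algebraMap E N)).valuationSubring := hwv
      set aR : (w.comap (algebraMap E N)).valuationSubring := ⟨_, haR⟩ with haRd
      set bR : (w.comap (algebraMap E N)).valuationSubring := ⟨_, hbR⟩ with hbRd
      set vR : (w.comap (algebraMap E N)).valuationSubring := ⟨_, hvR⟩ with hvRd
      have e1 : algebraMap (w.comap (algebraMap E N)).valuationSubring N aR = algebraMap P N a := rfl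
      have e2 : algebraMap (w.comap (algebraMap E N)).valuationSubring N bR = algebraMap P N b := rfl
      have e3 : algebraMap (w.comap (algebraMap E N)).valuationSubring N vR = v := rfl
      refine DeltaAux.der_le htriv hwv (β := u) ?_ (v • D) ?_ E hE
        (Polynomial.X ^ 3 + (Polynomial.C aR * Polynomial.X + Polynomial.C (bR - vR ^ 2))) ?_ ?_ ?_ hz
      · intro z
        rw [Set.pair_comm]
        exact hgen z
      · rw [Derivation.smul_apply, smul_eq_mul]
        exact hvD.le
      · refine Polynomial.monic_X_pow_add ?_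
        exact (Polynomial.degree_linear_le).trans_lt (by norm_num)
      · simp only [map_add, map_mul, map_pow, Polynomial.aeval_X, Polynomial.aeval_C, e1, e2, e3,
          map_sub]
        linear_combination -heq
      · have e4 : Polynomial.aeval u (Polynomial.derivative (Polynomial.X ^ 3 +
            (Polynomial.C aR * Polynomial.X + Polynomial.C (bR - vR ^ 2)))) =
            3 * u ^ 2 + algebraMap P N a := by
          simp only [Polynomial.derivative_add, Polynomial.derivative_X_pow,
            Polynomial.derivative_mul, Polynomial.derivative_C, Polynomial.derivative_X,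
            zero_mul, zero_add, mul_one, add_zero, map_add, map_mul, map_pow,
            Polynomial.aeval_X, Polynomial.aeval_C, e1]
          norm_num
          left
          exact map_ofNat _ 3
        rw [e4, hunit]
    refine ⟨v, ?_, hvD⟩
    refine isUnif_of_der w ((v * D v)⁻¹ • (v • D)) (fun z hz => ?_) hv0 hwv1 ?_
    · rw [Derivation.smul_apply, smul_eq_mul, map_mul, map_inv₀, hvD, inv_one, one_mul]
      exact hreg z hz
    · rw [Derivation.smul_apply, Derivation.smul_apply, smul_eq_mul, smul_eq_mul,
        inv_mul_cancel₀ hvD0]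
  · -- other points
    have hreg : ∀ z : N, w z ≤ 1 → w (D z) ≤ 1 := by
      intro z hz
      set E := IntermediateField.adjoin P {u} with hE
      have hvR : (⟨v ^ 2, hv2⟩ : E) ∈ (w.comap (algebraMap E N)).valuationSubring := by
        change w (v ^ 2) ≤ 1
        rw [map_pow]; exact pow_le_one' hwv 2
      set vR : (w.comap (algebraMap E N)).valuationSubring := ⟨_, hvR⟩ with hvRd
      have e3 : algebraMap (w.comap (algebraMap E N)).valuationSubring N vR = v ^ 2 := rfl
      refine DeltaAux.der_le htriv hwu (β := v) hgen D ?_ E hE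
        (Polynomial.X ^ 2 - Polynomial.C vR) ?_ ?_ ?_ hz
      · rw [hD, map_one]
      · exact Polynomial.monic_X_pow_sub_C _ two_ne_zero
      · rw [map_sub, map_pow, Polynomial.aeval_X, Polynomial.aeval_C, e3, sub_self]
      · have e4 : Polynomial.aeval v (Polynomial.derivative (Polynomial.X ^ 2 -
            Polynomial.C vR)) = 2 * v := by
          simp only [Polynomial.derivative_sub, Polynomial.derivative_X_pow,
            Polynomial.derivative_C, sub_zero, map_mul, map_pow, Polynomial.aeval_X]
          norm_num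
          left
          exact map_ofNat _ 2
        rw [e4, map_mul, h2, one_mul, hwv1]
    -- a polynomial of minimal degree with small value
    have hex : ∃ p : Polynomial P, p ≠ 0 ∧ w (Polynomial.aeval u p) < 1 := by
      by_contra hcon
      push Not at hcon
      have hall : ∀ p : Polynomial P, p ≠ 0 → w (Polynomial.aeval u p) = 1 := fun p hp =>
        le_antisymm (DeltaAux.aeval_le htriv hwu p) (hcon p hp)
      obtain ⟨z, hz0, hz1⟩ := hnt
      apply hz1
      have htrivE : ∀ e : IntermediateField.adjoin P {u}, e ≠ 0 →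
          w (algebraMap (IntermediateField.adjoin P {u}) N e) = 1 := by
        intro e he
        obtain ⟨p, q, h⟩ := (IntermediateField.mem_adjoin_simple_iff P (e : N)).mp e.2
        have he' : (e : N) ≠ 0 := by simpa using he
        have hq : q ≠ 0 := by
          rintro rfl
          rw [map_zero, div_zero] at h
          exact he' h
        have hp : p ≠ 0 := by
          rintro rfl
          rw [map_zero, zero_div] at h
          exact he' h
        change w (e : N) = 1
        rw [h, map_div₀, hall p hp, hall q hq, div_one]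
      have hvint : IsIntegral (IntermediateField.adjoin P {u}) v := by
        refine ⟨Polynomial.X ^ 2 - Polynomial.C ⟨v ^ 2, hv2⟩,
          Polynomial.monic_X_pow_sub_C _ two_ne_zero, ?_⟩
        rw [← Polynomial.aeval_def, map_sub, map_pow, Polynomial.aeval_X, Polynomial.aeval_C]
        exact sub_self _
      obtain ⟨r₀, hr₀, r₁, hr₁, hzz⟩ := DeltaAux.exists_pair hgen hv2 z
      refine val_eq_one_of_isIntegral htrivE hz0 ?_
      rw [hzz]
      have i0 : IsIntegral (IntermediateField.adjoin P {u}) r₀ :=
        isIntegral_algebraMap (x := (⟨r₀, hr₀⟩ : IntermediateField.adjoin P {u}))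
      have i1 : IsIntegral (IntermediateField.adjoin P {u}) r₁ :=
        isIntegral_algebraMap (x := (⟨r₁, hr₁⟩ : IntermediateField.adjoin P {u}))
      exact i0.add (i1.mul hvint)
    obtain ⟨p, hp, hmin⟩ := WellFounded.has_min
      (InvImage.wf (fun p : Polynomial P => p.natDegree) (Nat.lt_wfRel.wf))
      {p : Polynomial P | p ≠ 0 ∧ w (Polynomial.aeval u p) < 1} hex
    have hpd : Polynomial.derivative p ≠ 0 := by
      intro h0
      have h3 : p.natDegree = 0 := Polynomial.natDegree_eq_zero_of_derivative_eq_zero h0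
      obtain ⟨c, hc⟩ := Polynomial.natDegree_eq_zero.mp h3
      have h4 : c ≠ 0 := by
        rintro rfl
        rw [map_zero] at hc
        exact hp.1 hc.symm
      have h5 := hp.2
      rw [← hc, Polynomial.aeval_C, htriv c h4] at h5
      exact lt_irrefl _ h5
    have hpd1 : w (Polynomial.aeval u (Polynomial.derivative p)) = 1 := by
      refine le_antisymm (DeltaAux.aeval_le htriv hwu _) ?_
      by_contra hlt
      rw [not_le] at hlt
      refine hmin _ ⟨hpd, hlt⟩ ?_
      refine Polynomial.natDegree_derivative_lt ?_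
      intro h3
      apply hpd
      rw [Polynomial.eq_C_of_natDegree_eq_zero h3, Polynomial.derivative_C]
    have hDp : D (Polynomial.aeval u p) = Polynomial.aeval u (Polynomial.derivative p) := by
      rw [DeltaAux.der_aeval, hD, mul_one]
    have hd0 : Polynomial.aeval u (Polynomial.derivative p) ≠ 0 := by
      intro h0
      rw [h0, map_zero] at hpd1
      exact zero_ne_one hpd1
    have hp0 : Polynomial.aeval u p ≠ 0 := by
      intro h0
      exact hp.1 ((transcendental_iff.mp hu) p h0)
    refine ⟨Polynomial.aeval u p, ?_, ?_⟩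
    · refine isUnif_of_der w ((Polynomial.aeval u (Polynomial.derivative p))⁻¹ • D)
        (fun z hz => ?_) hp0 hp.2 ?_
      · rw [Derivation.smul_apply, smul_eq_mul, map_mul, map_inv₀, hpd1, inv_one, one_mul]
        exact hreg z hz
      · rw [Derivation.smul_apply, smul_eq_mul, hDp, inv_mul_cancel₀ hd0]
    · rw [map_mul, hwv1, one_mul, hDp, hpd1]

end Pf72953.Ell
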