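import Mathlib
import Pool.Agent.Lib.Pf72953.Core
import Pool.Agent.Lib.Pf72953m.Over
import Pool.Agent.Lib.Pf72953e.Defs
import Pool.Agent.Lib.Pf72953e.DeltaE
import Pool.Agent.Lib.Pf72953e.ExtE

/-!
MODULE Pf72953e.ConstE: a regular relative form is constant on the curves of genus one.

`f = G / g ^ m` is the coefficient of the form `G (dy ∧ ds)^m = f (dy ∧ g ds)^m`, and `du / v = g ds` modulo `dZ`.
PROOF.  Suppose that `f` is transcendental over `P`.  `exists_pole` (ExtE.lean) gives `w` on `N`, trivial on `P`, with `w f > 1`.  `w` is divisorial over `B`: nontrivial, trivial on `B`, and a transcendence basis of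
`P/B` (of `dimension B P = dimension B N - 1` elements) is residually independent because `w` is trivial on `P`.  The restriction `w_L` to `L` is divisorial over `B` (`IsDivisorial.restrict`; nontrivial as `N/L` is algebraic).
Take `c, t` adapted to `w_L` over `B` with `t` a uniformizer (`exists_adapted`; index `Fin n ⊕ Unit`), a regular basis; by `hG`
(1) `w G * w (jac c (y, s)) ^ m ≤ 1`.
Let `D` be the `P`-derivation of `N` with `D u = 1` (`pd` of the transcendence basis `u` of `N/P`) and `z` from `exists_unif_delta` (DeltaE.lean): a uniformizer of `w` with `w (v * D z) = 1`.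
`(y, z)` is adapted to `w` over `B` with `t := z` (`y` in `P` is a transcendence basis `hyP` of `P/B`, residually independent as `w` is trivial on `P`), so it is a log basis of `N/B` with product of values `w z`; the image of `c` is one with
product `w t` (`Adapted.map`).  `LogBasis.vol_eq` for the family `(y, s)`:
(2) `w (jac c (y, s)) * w t = w (jac (y, z) (y, s)) * w z`.
`jac (y, z) (y, s) = D₁ s` with `D₁ = pd (y, z) (inr ())` (the other columns are unit vectors); `D₁` vanishes on `y`, hence on `P`, in particular it is a derivation over `P` and over `Z`; `D₁ z = 1`; two derivations of `N/P`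
are proportional, so `D = (D z) • D₁` (both sides agree on `z`, or use `der_eq_sum` for the transcendence basis `z` of `N/P`), `1 = D u = D z * D₁ u`, and `hdef` for `D₁`: `D₁ u = v * g * D₁ s`.  So `v * g * D z * D₁ s = 1`, i.e.
`w g * w (D₁ s) = 1`.  With (2): `w g * w (jac c (y, s)) = w z / w t ≥ 1` (`w t < 1`, `z` is a uniformizer of `w`, so `w t ≤ w z`).  Then (1) gives `w G ≤ w g ^ m`, `w f ≤ 1`, a contradiction.
-/

set_option autoImplicit false
set_option linter.style.haveILetI false

open scoped WithZero
open Pf72953 Pf72953.Mov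

namespace Pf72953.Ell

namespace ConstAux

/-- additivity of the dimension -/
theorem dim_add {B P N : Type*} [Field B] [Field P] [Field N] [Algebra B P] [Algebra B N]
    [Algebra P N] [IsScalarTower B P N] [FinTrdeg B P] [FinTrdeg P N] [FinTrdeg B N] :
    dimension B P + dimension P N = dimension B N := by
  have h := lift_trdeg_add_eq B P N
  rw [← trdeg_eq_dimension, ← trdeg_eq_dimension, ← trdeg_eq_dimension] at h
  simp only [Cardinal.lift_natCast] at h
  exact_mod_cast h

/-- the jacobian of a family which differs from a transcendence basis in one element -/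
theorem jac_last {B N ι : Type*} [Field B] [CharZero B] [Field N] [Algebra B N] [Fintype ι]
    [DecidableEq ι] {y : ι → N} {z s : N}
    (hd : IsTranscendenceBasis B (Sum.elim y (fun _ : Unit => z))) :
    jac hd (Sum.elim y (fun _ : Unit => s)) = pd hd (Sum.inr ()) s := by
  rw [jac_eq_det]
  have h1 : (Matrix.of fun i j => pd hd i (Sum.elim y (fun _ : Unit => s) j)) =
      Matrix.fromBlocks (1 : Matrix ι ι N) (Matrix.of fun i (_ : Unit) => pd hd (Sum.inl i) s) 0
        (Matrix.of fun (_ _ : Unit) => pd hd (Sum.inr ()) s) := by
    ext i j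
    rcases i with i | i <;> rcases j with j | j
    · have := pd_self hd (Sum.inl i) (Sum.inl j)
      simp only [Sum.elim_inl, Sum.inl.injEq] at this
      simp only [Matrix.of_apply, Sum.elim_inl, Matrix.fromBlocks_apply₁₁, Matrix.one_apply]
      exact this
    · rfl
    · have := pd_self hd (Sum.inr i) (Sum.inl j)
      simp only [Sum.elim_inl, reduceCtorEq, if_false] at this
      simp only [Matrix.of_apply, Sum.elim_inl, Matrix.fromBlocks_apply₂₁, Matrix.zero_apply]
      exact this
    · rfl
  rw [h1, Matrix.det_fromBlocks_zero₂₁, Matrix.det_one, one_mul, Matrix.det_unique]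
  rfl

/-- divisorial valuations trivial on `P` -/
theorem divisorial_of_trivial {B P N ι : Type*} [Field B] [Field P] [Field N] [Algebra B P]
    [Algebra B N] [Algebra P N] [IsScalarTower B P N] [Fintype ι] {w : Valuation N ℤᵐ⁰}
    (htriv : ∀ p : P, p ≠ 0 → w (algebraMap P N p) = 1) (hnt : ∃ a : N, a ≠ 0 ∧ w a ≠ 1)
    {y : ι → P} (hy : AlgebraicIndependent B y) (hι : Fintype.card ι + 1 = dimension B N) :
    IsDivisorial B N w ∧ ResIndep B w (fun i => algebraMap P N (y i)) := by
  have hinj : Function.Injective (algebraMap P N) := (algebraMap P N).injective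
  have hres : ResIndep B w (fun i => algebraMap P N (y i)) := by
    intro p hp
    have h1 : MvPolynomial.aeval (fun i => algebraMap P N (y i)) p =
        algebraMap P N (MvPolynomial.aeval y p) := by
      have := MvPolynomial.aeval_algebraMap_apply (A := P) N y p
      exact this
    rw [h1]
    refine htriv _ fun h0 => hp ?_
    exact (algebraicIndependent_iff.1 hy) p h0
  refine ⟨⟨?_, hnt, ?_⟩, hres⟩
  · intro c hc
    rw [IsScalarTower.algebraMap_apply B P N]
    exact htriv _ (by simpa using hc)
  · have hcard : Fintype.card ι = dimension B N - 1 := by omega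
    obtain ⟨e⟩ : Nonempty (Fin (dimension B N - 1) ≃ ι) := by
      rw [← hcard]
      exact ⟨(Fintype.equivFin ι).symm⟩
    refine ⟨fun j => algebraMap P N (y (e j)), fun p hp => ?_⟩
    have h2 := hres (MvPolynomial.rename e p) (by
      intro h0
      exact hp ((MvPolynomial.rename_injective e e.injective) (by rw [h0, map_zero])))
    rw [MvPolynomial.aeval_rename] at h2
    exact h2

theorem adapted_of_res {B N ι : Type*} [Field B] [Field N] [Algebra B N] [Fintype ι]
    {w : Valuation N ℤᵐ⁰} {y : ι → N} {z : N} (hy : ResIndep B w y) (hz : IsUnif w z) :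
    Adapted B w (Sum.elim y (fun _ : Unit => z)) z := by
  classical
  refine ⟨Fintype.card ι, (Equiv.sumComm ι Unit).trans ((Equiv.sumCongr (Equiv.refl Unit)
    (Fintype.equivFin ι)).trans ((Equiv.sumComm Unit _).trans
      (Equiv.optionEquivSumPUnit (Fin (Fintype.card ι))).symm)),
    fun j => y ((Fintype.equivFin ι).symm j), ?_, hz.ne_zero, hz.lt_one, ?_⟩
  · intro p hp
    have h2 := hy (MvPolynomial.rename (Fintype.equivFin ι).symm p) (by
      intro h0
      exact hp ((MvPolynomial.rename_injective _ (Fintype.equivFin ι).symm.injective)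
        (by rw [h0, map_zero])))
    rw [MvPolynomial.aeval_rename] at h2
    exact h2
  · funext i
    rcases i with i | i
    · simp
    · simp

end ConstAux

open ConstAux

theorem const_alg {B Y Z P L N ι : Type*} [Field B] [CharZero B] [Field Y] [Field Z] [Field P]
    [Field L] [Field N] [Algebra B Z] [Algebra B P] [Algebra B L] [Algebra B N] [Algebra Y P]
    [Algebra Y L] [Algebra Y N] [Algebra Z P] [Algebra Z N] [Algebra P N] [Algebra L N]
    [IsScalarTower B Z P] [IsScalarTower B P N] [IsScalarTower B L N] [IsScalarTower B Z N]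
    [IsScalarTower Y P N] [IsScalarTower Y L N] [IsScalarTower Z P N]
    [Algebra.EssFiniteType B P] [Algebra.EssFiniteType B L] [Algebra.EssFiniteType B N]
    [FiniteDimensional L N] [FiniteDimensional Z P] [Fintype ι] [DecidableEq ι]
    {u v : N} {a b : P} (hu : Transcendental P u)
    (hgen : ∀ z : N, z ∈ IntermediateField.adjoin P {u, v})
    (heq : v ^ 2 = u ^ 3 + algebraMap P N a * u + algebraMap P N b)
    (hdisc : 4 * a ^ 3 + 27 * b ^ 2 ≠ 0) {s g : L} (hdef : DefinedOver Z u v s g) {y : ι → Y}
    (hyP : IsTranscendenceBasis B (fun i => algebraMap Y P (y i)))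
    (hys : IsTranscendenceBasis B (Sum.elim (fun i => algebraMap Y L (y i)) (fun _ : Unit => s)))
    {m : ℕ} {G : L}
    (hG : G ∈ WReg B (Sum.elim (fun i => algebraMap Y L (y i)) (fun _ : Unit => s)) m) :
    IsAlgebraic P (algebraMap L N (G / g ^ m)) := by
  classical
  by_contra hf
  have hf' : Transcendental P (algebraMap L N (G / g ^ m)) := hf
  haveI : CharZero P := charZero_of_injective_algebraMap (algebraMap B P).injective
  haveI : CharZero L := charZero_of_injective_algebraMap (algebraMap B L).injective
  haveI : CharZero N := charZero_of_injective_algebraMap (algebraMap B N).injective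
  haveI : Algebra.EssFiniteType P N := Algebra.EssFiniteType.of_comp B P N
  have hcP : Fintype.card ι = dimension B P := card_eq_of_isTranscendenceBasis hyP
  have hcL : Fintype.card (ι ⊕ Unit) = dimension B L := card_eq_of_isTranscendenceBasis hys
  have hysN : IsTranscendenceBasis B (fun i => algebraMap L N
      (Sum.elim (fun i => algebraMap Y L (y i)) (fun _ : Unit => s) i)) :=
    hys.algebraMap_comp (A := N)
  have hcN : Fintype.card (ι ⊕ Unit) = dimension B N := card_eq_of_isTranscendenceBasis hysN
  have hcN' : Fintype.card ι + 1 = dimension B N := by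
    rw [← hcN, Fintype.card_sum, Fintype.card_unit]
  have hdim : dimension P N = 1 := by
    have := dim_add (B := B) (P := P) (N := N)
    omega
  obtain ⟨w, htriv, hwf⟩ := exists_pole hdim hf'
  have hf0 : algebraMap L N (G / g ^ m) ≠ 0 := by
    intro h0
    rw [h0, map_zero] at hwf
    exact absurd hwf (by simp)
  have hnt : ∃ a : N, a ≠ 0 ∧ w a ≠ 1 := ⟨_, hf0, hwf.ne'⟩
  obtain ⟨hw, hres⟩ := divisorial_of_trivial htriv hnt hyP.1 hcN'
  -- restriction to `L`
  have hwL : IsDivisorial B L (w.comap (algebraMap L N)) := by
    refine hw.restrict (F := L) ⟨G / g ^ m, ?_, hwf.ne'⟩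
    intro h0
    exact hf0 (by rw [h0, map_zero])
  obtain ⟨c, t, ht, hc⟩ := hwL.exists_adapted hcL
  have hreg := hc.regBasis hcL ht
  have h1 := hG _ hwL c hreg
  rw [Valuation.comap_apply, Valuation.comap_apply] at h1
  have hcN2 := hc.map
  have hlogN := hcN2.logBasis hcN
  -- the derivation
  have huI : AlgebraicIndependent P (fun _ : Unit => u) :=
    algebraicIndependent_unique_type_iff.2 hu
  have hub : IsTranscendenceBasis P (fun _ : Unit => u) :=
    isTranscendenceBasis_of_card (by rw [hdim]; rfl) huI
  set D : Derivation P N N := pd hub () with hD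
  have hDu : D u = 1 := by
    have := pd_self hub () ()
    rw [if_pos rfl] at this
    exact this
  obtain ⟨z, hz, hvz⟩ := exists_unif_delta htriv hnt hu hgen heq hdisc D hDu
  -- the second basis
  have hyz : Adapted B w (Sum.elim (fun i => algebraMap P N (algebraMap Y P (y i)))
      (fun _ : Unit => z)) z := adapted_of_res hres hz
  have hlogz := hyz.logBasis hcN
  -- comparison
  have hvol := hlogN.vol_eq hlogz (Sum.elim (fun i => algebraMap P N (algebraMap Y P (y i)))
      (fun _ : Unit => algebraMap L N s))
  rw [hcN2.prod, hyz.prod, jac_last hlogz.tb] at hvol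
  have hj : jac hlogN.tb (Sum.elim (fun i => algebraMap P N (algebraMap Y P (y i)))
      (fun _ : Unit => algebraMap L N s)) = algebraMap L N (jac hreg.tb
        (Sum.elim (fun i => algebraMap Y L (y i)) (fun _ : Unit => s))) := by
    rw [← jac_algebraMap hreg.tb hlogN.tb]
    congr 1
    funext i
    rcases i with i | i
    · show algebraMap P N (algebraMap Y P (y i)) = algebraMap L N (algebraMap Y L (y i))
      rw [← IsScalarTower.algebraMap_apply, ← IsScalarTower.algebraMap_apply]
    · rfl
  rw [hj] at hvol
  -- the derivations are proportional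
  have hDD : ∀ x : N, D x = pd hlogz.tb (Sum.inr ()) x * D z := by
    intro x
    have h2 := der_eq_sum hlogz.tb (D.restrictScalars B) x
    rw [Fintype.sum_sum_type] at h2
    simp only [Sum.elim_inl, Sum.elim_inr, Derivation.coe_restrictScalars, Derivation.map_algebraMap,
      mul_zero, Finset.sum_const_zero, zero_add, Finset.univ_unique, Finset.sum_singleton] at h2
    exact h2
  have hone : (v * D z) * (algebraMap L N g * pd hlogz.tb (Sum.inr ()) (algebraMap L N s)) = 1 := by
    have h2 := hdef (D.restrictScalars Z)
    simp only [Derivation.coe_restrictScalars] at h2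
    rw [hDu, hDD (algebraMap L N s)] at h2
    rw [h2]
    ring
  have hg0 : algebraMap L N g ≠ 0 := left_ne_zero_of_mul (right_ne_zero_of_mul_eq_one hone)
  have hval : w (algebraMap L N g) * w (pd hlogz.tb (Sum.inr ()) (algebraMap L N s)) = 1 := by
    have h2 := congrArg w hone
    rw [map_mul, hvz, one_mul, map_mul, map_one] at h2
    exact h2
  set J : N := algebraMap L N (jac hreg.tb
        (Sum.elim (fun i => algebraMap Y L (y i)) (fun _ : Unit => s))) with hJ
  have ht0 : w (algebraMap L N t) ≠ 0 := by
    rw [Valuation.ne_zero_iff]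
    simpa using ht.ne_zero
  have hgJ : 1 ≤ w (algebraMap L N g) * w J := by
    have h3 : w (algebraMap L N g) * w J * w (algebraMap L N t) = w z := by
      rw [mul_assoc, hvol, ← mul_assoc, hval, one_mul]
    have h4 : w (algebraMap L N t) ≤ w z := hz.le _ ht.lt_one
    have h5 : 1 * w (algebraMap L N t) ≤ w (algebraMap L N g) * w J * w (algebraMap L N t) := by
      rw [h3, one_mul]
      exact h4
    exact le_of_mul_le_mul_right h5 (zero_lt_iff.2 ht0)
  have h6 : w (algebraMap L N G) ≤ w (algebraMap L N g) ^ m := by
    calc w (algebraMap L N G) = w (algebraMap L N G) * 1 := (mul_one _).symm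
      _ ≤ w (algebraMap L N G) * (w (algebraMap L N g) * w J) ^ m :=
          mul_le_mul' le_rfl (one_le_pow₀ hgJ)
      _ = (w (algebraMap L N G) * w J ^ m) * w (algebraMap L N g) ^ m := by
          rw [mul_pow, mul_comm (w (algebraMap L N g) ^ m), mul_assoc]
      _ ≤ 1 * w (algebraMap L N g) ^ m := mul_le_mul' h1 le_rfl
      _ = _ := one_mul _
  have h7 : w (algebraMap L N (G / g ^ m)) ≤ 1 := by
    rw [map_div₀, map_pow, map_div₀, map_pow]
    exact div_le_one_of_le₀ h6 zero_le
  exact absurd hwf (not_lt.2 h7)

end Pf72953.Ell
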