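import Mathlib
import Pool.Agent.Lib.Pf72953.Estimate

/-!
MODULE Pf72953e.Place: the invariant differential is regular at the places of the curve.

`w` is a nontrivial valuation of `N`, trivial on `P`; `v² = u³ + a u + b`, `4 a³ + 27 b² ≠ 0`, `N` algebraic over `P(u)`.
PROOF.  `w (n : N) = 1` for `n ≠ 0` (`P` has characteristic zero, `w` is trivial on `P`).  `D u = 1` gives `ρ ≤ w u`.  `v ≠ 0` (otherwise `u` would be a
root of a cubic polynomial over `P`, hence algebraic over `P`, and so `N`, and `w` would be trivial by `val_eq_one_of_isIntegral`, Estimate.lean).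
Case 1, `w u > 1`: `w v ^ 2 = w u ^ 3` (the other terms `a u`, `b` are smaller), so `w v > w u ≥ ρ` (`w u ^ 2 < w u ^ 3 = w v ^ 2`).
Case 2, `w u ≤ 1`; then `w v ≤ 1`.
 2a, `w v < 1`: `f' = 3 u² + a` has `w f' = 1`: `(27 b - 18 a u) f + (4 a² - 9 b u + 6 a u²) f' = 4 a³ + 27 b²` with
   `f = u³ + a u + b = v²` (`ring`), `w f < 1`, `w (4 a³ + 27 b²) = 1`, all other values are `≤ 1`.  `2 v D v = f'`, so
   `w (D v) = 1 / w v` and `ρ ≤ w v ^ 2 < w v`.
 2b, `w v = 1`: to show `ρ < 1`.  `w` is nontrivial on `P(u)` (as above), so there is a nonzero `p ∈ P[X]` with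
   `w (p(u)) < 1` (all nonzero `p(u)` have `w ≤ 1` since `w u ≤ 1`; if all had value `1` then `w` would be trivial on the fractions).  Take one of minimal degree; it is not
   constant, so `p' ≠ 0` has smaller degree and `w (p'(u)) = 1`; `D (p(u)) = p'(u)` (`Derivation.map_aeval`), so
   `ρ = w (D (p(u))) * ρ ≤ w (p(u)) < 1`.
-/

set_option autoImplicit false

open scoped WithZero
open Pf72953

namespace Pf72953.Ell

namespace PlaceAux

open Polynomial

variable {P N : Type*} [Field P] [CharZero P] [Field N] [Algebra P N] {w : Valuation N ℤᵐ⁰}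

omit [CharZero P] in
theorem le_one (htriv : ∀ p : P, p ≠ 0 → w (algebraMap P N p) = 1) (p : P) :
    w (algebraMap P N p) ≤ 1 := by
  by_cases hp : p = 0
  · rw [hp, map_zero, map_zero]
    exact zero_le_one
  · exact (htriv p hp).le

theorem nat_one (htriv : ∀ p : P, p ≠ 0 → w (algebraMap P N p) = 1) {n : ℕ} (hn : n ≠ 0) :
    w (n : N) = 1 := by
  have h := htriv (n : P) (Nat.cast_ne_zero.2 hn)
  rwa [map_natCast] at h

omit [CharZero P] in
theorem aeval_le (htriv : ∀ p : P, p ≠ 0 → w (algebraMap P N p) = 1) {u : N} (hu : w u ≤ 1)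
    (q : P[X]) : w (aeval u q) ≤ 1 := by
  induction q using Polynomial.induction_on' with
  | add p q hp hq =>
    rw [map_add]
    exact (Valuation.map_add w _ _).trans (max_le hp hq)
  | monomial n a =>
    rw [aeval_monomial, map_mul, map_pow]
    exact mul_le_one' (le_one htriv a) (pow_le_one' hu n)

omit [CharZero P] in
/-- the valuation is not trivial on the polynomials in `u` -/
theorem exists_poly (hnt : ∃ z : N, z ≠ 0 ∧ w z ≠ 1) {u : N}
    (halg : ∀ z : N, IsAlgebraic (IntermediateField.adjoin P {u}) z) :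
    ∃ q : P[X], aeval u q ≠ 0 ∧ w (aeval u q) ≠ 1 := by
  by_contra hcon
  push Not at hcon
  obtain ⟨z, hz0, hz1⟩ := hnt
  apply hz1
  refine val_eq_one_of_isIntegral (B := IntermediateField.adjoin P {u}) ?_ hz0
    (halg z).isIntegral
  rintro ⟨b, hb⟩ hb0
  have hb0' : b ≠ 0 := fun h => hb0 (Subtype.ext h)
  rw [IntermediateField.mem_adjoin_simple_iff] at hb
  obtain ⟨r, s, hrs⟩ := hb
  have hr : aeval u r ≠ 0 := by
    intro h
    apply hb0'
    rw [hrs, h, zero_div]
  have hs : aeval u s ≠ 0 := by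
    intro h
    apply hb0'
    rw [hrs, h, div_zero]
  change w b = 1
  rw [hrs, map_div₀, hcon r hr, hcon s hs, div_one]

/-- the differential `du` has no pole where `w` is nonnegative -/
theorem rho_lt_one (htriv : ∀ p : P, p ≠ 0 → w (algebraMap P N p) = 1)
    (hnt : ∃ z : N, z ≠ 0 ∧ w z ≠ 1) {u : N}
    (halg : ∀ z : N, IsAlgebraic (IntermediateField.adjoin P {u}) z) (hu1 : w u ≤ 1)
    (D : Derivation P N N) (hu : D u = 1) {ρ : ℤᵐ⁰}
    (hρ : ∀ g, w (D g) * ρ ≤ w g) : ρ < 1 := by
  classical
  obtain ⟨q0, hq0, hq1⟩ := exists_poly (P := P) hnt halg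
  have hex : ∃ n : ℕ, ∃ q : P[X], q ≠ 0 ∧ w (aeval u q) < 1 ∧ q.natDegree = n := by
    refine ⟨_, q0, ?_, lt_of_le_of_ne (aeval_le htriv hu1 q0) hq1, rfl⟩
    rintro rfl
    exact hq0 (map_zero _)
  obtain ⟨q, hqne, hqlt, hqdeg⟩ := Nat.find_spec hex
  have hmin : ∀ r : P[X], r ≠ 0 → r.natDegree < q.natDegree → w (aeval u r) = 1 := by
    intro r hr hdeg
    refine le_antisymm (aeval_le htriv hu1 r) (not_lt.1 fun h => ?_)
    rw [hqdeg] at hdeg
    exact Nat.find_min hex hdeg ⟨r, hr, h, rfl⟩
  have hq0 : q.natDegree ≠ 0 := by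
    intro h
    obtain ⟨c, hc⟩ := Polynomial.natDegree_eq_zero.1 h
    have hc0 : c ≠ 0 := by
      rintro rfl
      apply hqne
      rw [← hc, map_zero]
    rw [← hc, aeval_C, htriv c hc0] at hqlt
    exact lt_irrefl _ hqlt
  have hd0 : derivative q ≠ 0 := by
    intro h
    exact hq0 (Polynomial.derivative_eq_zero.1 h)
  have hdd : (derivative q).natDegree < q.natDegree := natDegree_derivative_lt hq0
  have h1 := hmin _ hd0 hdd
  have h2 : D (aeval u q) = aeval u (derivative q) := by
    rw [Derivation.map_aeval, hu, smul_eq_mul, mul_one]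
  have h3 := hρ (aeval u q)
  rw [h2, h1, one_mul] at h3
  exact h3.trans_lt hqlt

end PlaceAux

open PlaceAux in
theorem place_bound {P N : Type*} [Field P] [CharZero P] [Field N] [Algebra P N]
    {w : Valuation N ℤᵐ⁰} (htriv : ∀ p : P, p ≠ 0 → w (algebraMap P N p) = 1)
    (hnt : ∃ z : N, z ≠ 0 ∧ w z ≠ 1) {u v : N} {a b : P}
    (halg : ∀ z : N, IsAlgebraic (IntermediateField.adjoin P {u}) z)
    (heq : v ^ 2 = u ^ 3 + algebraMap P N a * u + algebraMap P N b)
    (hdisc : 4 * a ^ 3 + 27 * b ^ 2 ≠ 0) (D : Derivation P N N) (hu : D u = 1) {ρ : ℤᵐ⁰}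
    (hρ : ∀ g, w (D g) * ρ ≤ w g) : ρ < w v := by
  have hDv : 2 * v * D v = 3 * u ^ 2 + algebraMap P N a := by
    have h := congrArg D heq
    simp only [map_add, Derivation.leibniz_pow, Derivation.leibniz, Derivation.map_algebraMap,
      hu, smul_eq_mul, nsmul_eq_mul, Nat.cast_ofNat, mul_one, mul_zero, add_zero] at h
    norm_num at h
    linear_combination h
  have hdiscN : 4 * algebraMap P N a ^ 3 + 27 * algebraMap P N b ^ 2 =
      algebraMap P N (4 * a ^ 3 + 27 * b ^ 2) := by
    rw [map_add, map_mul, map_mul, map_pow, map_pow]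
    congr 2
    · exact (map_ofNat (algebraMap P N) 4).symm
    · exact (map_ofNat (algebraMap P N) 27).symm
  have hid : (27 * algebraMap P N b - 18 * algebraMap P N a * u) * v ^ 2 +
      (4 * algebraMap P N a ^ 2 - 9 * algebraMap P N b * u + 6 * algebraMap P N a * u ^ 2) *
        (3 * u ^ 2 + algebraMap P N a) = algebraMap P N (4 * a ^ 3 + 27 * b ^ 2) := by
    rw [heq, ← hdiscN]
    ring
  have hv0 : v ≠ 0 := by
    intro h
    rw [h] at hDv hid
    rw [← hDv] at hid
    apply hdisc
    apply (algebraMap P N).injective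
    rw [← hid, map_zero]
    simp
  have hwv0 : w v ≠ 0 := (Valuation.ne_zero_iff w).2 hv0
  have hnum : ∀ n : ℕ, n ≠ 0 → w (n : N) = 1 := fun n hn => nat_one htriv hn
  have h2 : w (2 : N) = 1 := by
    have := hnum 2 (by norm_num)
    rwa [Nat.cast_ofNat] at this
  have hnle : ∀ n : ℕ, w (n : N) ≤ 1 := by
    intro n
    by_cases hn : n = 0
    · rw [hn, Nat.cast_zero, map_zero]
      exact zero_le_one
    · exact (hnum n hn).le
  have hple : ∀ p : P, w (algebraMap P N p) ≤ 1 := le_one htriv
  rcases lt_or_ge 1 (w u) with hu1 | hu1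
  · -- a pole of `u`
    have hρu : ρ ≤ w u := by
      have h := hρ u
      rwa [hu, map_one, one_mul] at h
    have hwu : (0 : ℤᵐ⁰) < w u := zero_lt_one.trans hu1
    have h23 : w u ^ 2 < w u ^ 3 := by
      exact pow_lt_pow_right₀ hu1 (by norm_num)
    have h12 : w u < w u ^ 2 := by
      calc w u = w u ^ 1 := (pow_one _).symm
        _ < w u ^ 2 := pow_lt_pow_right₀ hu1 (by norm_num)
    have h3 : w (v ^ 2) = w u ^ 3 := by
      rw [heq, Valuation.map_add_eq_of_lt_left, Valuation.map_add_eq_of_lt_left, map_pow]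
      · rw [map_pow, map_mul]
        refine lt_of_le_of_lt (mul_le_of_le_one_left' (hple a)) (h12.trans h23)
      · rw [Valuation.map_add_eq_of_lt_left, map_pow]
        · exact lt_of_le_of_lt (hple b) (hu1.trans (h12.trans h23))
        · rw [map_pow, map_mul]
          exact lt_of_le_of_lt (mul_le_of_le_one_left' (hple a)) (h12.trans h23)
    refine lt_of_le_of_lt hρu (not_le.1 fun h => ?_)
    rw [map_pow] at h3
    have h4 : w v ^ 2 ≤ w u ^ 2 := pow_le_pow_left' h 2
    rw [h3] at h4
    exact absurd h23 (not_lt.2 h4)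
  · have hvle : w v ≤ 1 := by
      by_contra hcon
      rw [not_le] at hcon
      have h3 : w (v ^ 2) ≤ 1 := by
        rw [heq]
        refine (Valuation.map_add w _ _).trans (max_le ((Valuation.map_add w _ _).trans
          (max_le ?_ ?_)) (hple b))
        · rw [map_pow]
          exact pow_le_one' hu1 3
        · rw [map_mul]
          exact mul_le_one' (hple a) hu1
      rw [map_pow] at h3
      exact absurd (one_lt_pow₀ hcon (by norm_num : (2 : ℕ) ≠ 0)) (not_lt.2 h3)
    rcases hvle.lt_or_eq with hv1 | hv1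
    · -- a ramification point
      have hf' : w (3 * u ^ 2 + algebraMap P N a) ≤ 1 := by
        refine (Valuation.map_add w _ _).trans (max_le ?_ (hple a))
        rw [map_mul, map_pow]
        refine mul_le_one' ?_ (pow_le_one' hu1 2)
        exact_mod_cast hnle 3
      have hg : w (4 * algebraMap P N a ^ 2 - 9 * algebraMap P N b * u +
          6 * algebraMap P N a * u ^ 2) ≤ 1 := by
        refine (Valuation.map_add w _ _).trans (max_le ((Valuation.map_sub w _ _).trans
          (max_le ?_ ?_)) ?_)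
        · rw [map_mul, map_pow]
          exact mul_le_one' (by exact_mod_cast hnle 4) (pow_le_one' (hple a) 2)
        · rw [map_mul, map_mul]
          exact mul_le_one' (mul_le_one' (by exact_mod_cast hnle 9) (hple b)) hu1
        · rw [map_mul, map_mul, map_pow]
          exact mul_le_one' (mul_le_one' (by exact_mod_cast hnle 6) (hple a)) (pow_le_one' hu1 2)
      have hc : w (27 * algebraMap P N b - 18 * algebraMap P N a * u) ≤ 1 := by
        refine (Valuation.map_sub w _ _).trans (max_le ?_ ?_)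
        · rw [map_mul]
          exact mul_le_one' (by exact_mod_cast hnle 27) (hple b)
        · rw [map_mul, map_mul]
          exact mul_le_one' (mul_le_one' (by exact_mod_cast hnle 18) (hple a)) hu1
      have hone : w (algebraMap P N (4 * a ^ 3 + 27 * b ^ 2)) = 1 := htriv _ hdisc
      have hfirst : w ((27 * algebraMap P N b - 18 * algebraMap P N a * u) * v ^ 2) < 1 := by
        rw [map_mul, map_pow]
        refine lt_of_le_of_lt (mul_le_of_le_one_left' hc) ?_
        exact pow_lt_one' hv1 (by norm_num)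
      have hprod : w (4 * algebraMap P N a ^ 2 - 9 * algebraMap P N b * u +
          6 * algebraMap P N a * u ^ 2) * w (3 * u ^ 2 + algebraMap P N a) = 1 := by
        rw [← map_mul]
        refine le_antisymm (by rw [map_mul]; exact mul_le_one' hg hf') (not_lt.1 fun h => ?_)
        have h5 := Valuation.map_add_lt w hfirst h
        rw [hid, hone] at h5
        exact lt_irrefl _ h5
      have hf1 : w (3 * u ^ 2 + algebraMap P N a) = 1 := by
        refine le_antisymm hf' ?_
        calc (1 : ℤᵐ⁰) = _ := hprod.symm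
          _ ≤ 1 * w (3 * u ^ 2 + algebraMap P N a) := mul_le_mul_left hg _
          _ = _ := one_mul _
      rw [← hDv, map_mul, map_mul, h2, one_mul] at hf1
      have h6 := hρ v
      calc ρ = w v * (w (D v) * ρ) := by rw [← mul_assoc, hf1, one_mul]
        _ ≤ w v * w v := by gcongr
        _ < w v * 1 := by
          exact (mul_lt_mul_iff_right₀ (zero_lt_iff.2 hwv0)).2 hv1
        _ = w v := mul_one _
    · rw [hv1]
      exact rho_lt_one htriv hnt halg hu1 D hu hρ

end Pf72953.Ell
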