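import Mathlib
import Pool.Agent.Lib.Pf72953.Bases
import Pool.Agent.Lib.Pf72953m.Star
import Pool.Agent.Lib.Pf72953m.Over

/-!
MODULE Pf72953e.RelU: the relative logarithmic norm of `du` for `N ⊇ P(u)`.

PROOF.
`relU_ne_zero`: `jac_ne_zero`, the transcendence bases have nonzero elements.
`relU_cost`: `D := derOver (pd hz (Sum.inr ())) _` (`derOver`, Pf72953m/Over.lean: a `k`-derivation which vanishes on `P`; it does because
`pd_algebraMap_of_notMem hcP hz Sum.inl ..`, see the proof of `sec_bound` in Pf72953m/Est.lean).  `D u = 1`: `pd_self`.  The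
inequality: `der_cost hc hz (Sum.inr ()) (P := ∏ j, w (algebraMap P N (cP j)))` (Pf72953m/Star.lean), exactly as in `rel_cost` (Pf72953m/Est.lean), here with no
factors to estimate: `∏ over ι ⊕ Unit of w (z) = (∏ j, w (cP j)) * w u`.
`relU_chain`: `jac hc.tb (a, u) = jac hc.tb (cP, u) * jac hz (a, u)` (`jac_chain hz hc.tb`), and `jac hz (a, u)` is the image of
`jac hcP a`: the matrix `pd hz p ((a, u) q)` is block triangular: `pd hz (inl i) (algebraMap (a j)) = algebraMap (pd hcP i (a j))`
(`pd_algebraMap hcP hz Sum.inl ..`), `pd hz (inr ()) (algebraMap (a j)) = 0`, `pd hz p u = 1` or `0` (`pd_self`);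
`Matrix.det_fromBlocks_zero₂₁`, `RingHom.map_det` (see the end of the proof of `jac_lt_one` in Pf72953m/Over.lean, `jac_sum` in DBasis.lean).
Then multiply by `∏ w (c j)` and insert `(∏ w (cP j))⁻¹ * ∏ w (cP j) = 1`.
-/

set_option autoImplicit false
set_option linter.style.haveILetI false

open scoped WithZero
open Pf72953 Pf72953.Mov

namespace Pf72953.Ell

variable {k P N ι : Type*} [Field k] [CharZero k] [Field P] [Field N] [Algebra k P] [Algebra k N]
  [Algebra P N] [IsScalarTower k P N] [Fintype ι] [DecidableEq ι]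

/-- the relative logarithmic norm of `du` -/
noncomputable def relU {w : Valuation N ℤᵐ⁰} (cP : ι → P) {c : ι ⊕ Unit → N}
    (hc : LogBasis k w c) (u : N) : ℤᵐ⁰ :=
  w (jac hc.tb (Sum.elim (fun i => algebraMap P N (cP i)) (fun _ => u))) * (∏ j, w (c j)) *
    (∏ j, w (algebraMap P N (cP j)))⁻¹

namespace RelUAux

omit [CharZero k] [Algebra k N] [IsScalarTower k P N] [DecidableEq ι] in
theorem prod_ne_zero {cP : ι → P} (hcP : IsTranscendenceBasis k cP) (w : Valuation N ℤᵐ⁰) :
    ∏ j, w (algebraMap P N (cP j)) ≠ 0 := by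
  refine Finset.prod_ne_zero_iff.mpr fun j _ => ?_
  rw [Valuation.ne_zero_iff]
  simpa using hcP.1.ne_zero j

end RelUAux

open RelUAux

theorem relU_ne_zero {w : Valuation N ℤᵐ⁰} {cP : ι → P} (hcP : IsTranscendenceBasis k cP)
    {c : ι ⊕ Unit → N} (hc : LogBasis k w c) {u : N}
    (hz : IsTranscendenceBasis k (Sum.elim (fun i => algebraMap P N (cP i)) (fun _ : Unit => u))) :
    relU cP hc u ≠ 0 := by
  rw [relU]
  refine mul_ne_zero (mul_ne_zero ?_ ?_) (inv_ne_zero (prod_ne_zero hcP w))
  · exact (Valuation.ne_zero_iff w).mpr (jac_ne_zero hz hc.tb)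
  · refine Finset.prod_ne_zero_iff.mpr fun j _ => ?_
    rw [Valuation.ne_zero_iff]
    exact hc.tb.1.ne_zero j

theorem relU_cost {w : Valuation N ℤᵐ⁰} {cP : ι → P} (hcP : IsTranscendenceBasis k cP)
    {c : ι ⊕ Unit → N} (hc : LogBasis k w c) {u : N}
    (hz : IsTranscendenceBasis k (Sum.elim (fun i => algebraMap P N (cP i)) (fun _ : Unit => u))) :
    ∃ D : Derivation P N N, D u = 1 ∧ ∀ g, w (D g) * relU cP hc u ≤ w g := by
  classical
  have hkill : ∀ β : P, pd hz (Sum.inr ()) (algebraMap P N β) = 0 := fun β =>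
    pd_algebraMap_of_notMem hcP hz Sum.inl (fun _ => rfl) (Sum.inr ()) (fun _ h => by cases h) β
  refine ⟨derOver (pd hz (Sum.inr ())) hkill, ?_, fun g => ?_⟩
  · rw [derOver_apply]
    have h1 := pd_self hz (Sum.inr ()) (Sum.inr ())
    rw [if_pos rfl] at h1
    exact h1
  · rw [derOver_apply]
    have h3 := prod_ne_zero hcP w
    have h1 := der_cost hc hz (Sum.inr ()) (P := ∏ j, w (algebraMap P N (cP j))) (by
      rw [Fintype.prod_sum_type]
      simp only [Sum.elim_inl, Sum.elim_inr, Finset.univ_unique, Finset.prod_singleton]) g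
    rw [relU]
    calc _ = w (pd hz (Sum.inr ()) g) *
          (w (jac hc.tb (Sum.elim (fun i => algebraMap P N (cP i)) (fun _ => u))) *
            ∏ j, w (c j)) * (∏ j, w (algebraMap P N (cP j)))⁻¹ := by simp only [mul_assoc]
      _ ≤ (w g * ∏ j, w (algebraMap P N (cP j))) * (∏ j, w (algebraMap P N (cP j)))⁻¹ := by
          gcongr
      _ = w g := by rw [mul_assoc, mul_inv_cancel₀ h3, mul_one]

theorem relU_chain {w : Valuation N ℤᵐ⁰} {cP : ι → P} (hcP : IsTranscendenceBasis k cP)
    {c : ι ⊕ Unit → N} (hc : LogBasis k w c) {u : N}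
    (hz : IsTranscendenceBasis k (Sum.elim (fun i => algebraMap P N (cP i)) (fun _ : Unit => u)))
    (a : ι → P) :
    w (jac hc.tb (Sum.elim (fun i => algebraMap P N (a i)) (fun _ => u))) * (∏ j, w (c j)) =
      relU cP hc u * (w (algebraMap P N (jac hcP a)) * ∏ j, w (algebraMap P N (cP j))) := by
  classical
  have h3 := prod_ne_zero hcP w
  have h1 : jac hz (Sum.elim (fun i => algebraMap P N (a i)) (fun _ : Unit => u)) =
      algebraMap P N (jac hcP a) := by
    rw [jac_eq_det, jac_eq_det, RingHom.map_det]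
    have h2 : (Matrix.of fun p q => pd hz p
        ((Sum.elim (fun i => algebraMap P N (a i)) (fun _ : Unit => u)) q)) =
        Matrix.fromBlocks ((algebraMap P N).mapMatrix (Matrix.of fun i j => pd hcP i (a j))) 0 0
          (1 : Matrix Unit Unit N) := by
      ext p q
      rcases p with p | p <;> rcases q with q | q
      · simp only [Matrix.of_apply, Sum.elim_inl, Matrix.fromBlocks_apply₁₁,
          RingHom.mapMatrix_apply, Matrix.map_apply]
        exact pd_algebraMap hcP hz Sum.inl Sum.inl_injective (fun _ => rfl) p (a q)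
      · simp only [Matrix.of_apply, Sum.elim_inr, Matrix.fromBlocks_apply₁₂, Matrix.zero_apply]
        have h4 := pd_self hz (Sum.inl p) (Sum.inr q)
        rw [if_neg (fun h => by cases h)] at h4
        exact h4
      · simp only [Matrix.of_apply, Sum.elim_inl, Matrix.fromBlocks_apply₂₁, Matrix.zero_apply]
        exact pd_algebraMap_of_notMem hcP hz Sum.inl (fun _ => rfl) (Sum.inr p)
          (fun _ h => by cases h) (a q)
      · simp only [Matrix.of_apply, Sum.elim_inr, Matrix.fromBlocks_apply₂₂]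
        have h4 := pd_self hz (Sum.inr p) (Sum.inr q)
        rw [if_pos rfl] at h4
        rw [show p = q from rfl, Matrix.one_apply_eq]
        exact h4
    rw [h2, Matrix.det_fromBlocks_zero₂₁, Matrix.det_one, mul_one]
  rw [jac_chain hz hc.tb, h1, map_mul, relU]
  generalize (∏ j, w (algebraMap P N (cP j))) = q at h3 ⊢
  generalize w (algebraMap P N (jac hcP a)) = s
  generalize w (jac hc.tb (Sum.elim (fun i => algebraMap P N (cP i)) (fun _ => u))) = r
  generalize (∏ j, w (c j)) = d
  calc r * s * d = r * d * (q⁻¹ * q) * s := by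
        rw [inv_mul_cancel₀ h3, mul_one]
        ac_rfl
    _ = _ := by ac_rfl

end Pf72953.Ell
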