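import Mathlib
import Pool.Agent.Lib.Pf72953m.Est
import Pool.Agent.Lib.Pf72953e.RelU
import Pool.Agent.Lib.Pf72953e.Defs

/-!
MODULE Pf72953e.ValGrp: the relative logarithmic norm of `dx_M ∧ du / v` is a value of `L`.

PROOF.  `w` is trivial on `B`, so `∏ w (x j) = 1`, and by `relU_chain` (RelU.lean; `a := zfam (L := P) M i x`, whose image in `N` is
`(x, x_i)`) and the definition of `relvol`
`relvol M i x hcP * relU cP hc u = w (jac hc.tb (x, x_i, u)) * ∏ w (c j)`.
Let `J' = jac hc.tb (x, x_i, s)` (`s` in `N`).  Claim: `jac hc.tb (x, x_i, u) = v * g * J'`.  The columns of the two determinants (`jac_eq_det`) agree except the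
last one.  If `(x, x_i, s)` is a transcendence basis `hs` of `N/k` then `jac hc.tb (x, x_i, u) = J' * jac hs (x, x_i, u)` (`jac_chain`), and
`jac hs (x, x_i, u)` is the determinant of a triangular matrix equal to `pd hs (inr ()) u`, and `pd hs (inr ())` is zero on `x`, `x_i`, hence on `Z`
(the transcendence basis `(x, x_i)` of `Z/k` goes to `0`: `pd_algebraMap_of_notMem` with `hZ hx (M.tb i)`), so it is a derivation over `Z` (`derOver`) and `hdef` gives
`pd hs (inr ()) u = v * g * pd hs (inr ()) s = v * g`.
To see that `(x, x_i, s)` is a transcendence basis: let `D = pd hz (inr ())`, `hz` the transcendence basis `(x, x_i, u)` (hypothesis); it is a derivation over `Z`, so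
`1 = D u = v * g * D s`, `D s ≠ 0`; if `s` were algebraic over `k(x, x_i)` then `D s = 0` (`der_eq_zero_of_isAlgebraic`-type argument); so
`(x, x_i, s)` is algebraically independent and has the right number of elements (`isTranscendenceBasis_of_card`); or use
`jac hz (x, x_i, s) ≠ 0` and a jacobian criterion if there is one in the library.
The family `c` is the image of the family `c'` of `L`, a transcendence basis `hc'` of `L/k`, so `J' ∏ c_j` is the image of `jac hc' (x, x_i, s) * ∏ c'_j ∈ L`
(`jac_algebraMap`).  Take `z = g * jac hc' (x, x_i, s) * ∏ c'_j`.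
-/

set_option autoImplicit false
set_option linter.style.haveILetI false

open scoped WithZero
open Pf72953 Pf72953.Var Pf72953.Mov

namespace Pf72953.Ell

variable {k B Y Z P L N : Type*} [Field k] [CharZero k] [Field B] [CharZero B] [Field Y] [Field Z]
  [Field P] [Field L] [Field N]
  [Algebra k B] [Algebra k Y] [Algebra k Z] [Algebra k P] [Algebra k L] [Algebra k N]
  [Algebra B Z] [Algebra B P] [Algebra B L] [Algebra B N]
  [Algebra Y Z] [Algebra Y P] [Algebra Y L] [Algebra Y N] [Algebra Z P] [Algebra Z L] [Algebra Z N]
  [Algebra P N] [Algebra L N] [IsScalarTower k B Z] [IsScalarTower k Y Z]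
  [IsScalarTower k Z P] [IsScalarTower k B P] [IsScalarTower k Y P] [IsScalarTower k B L]
  [IsScalarTower k Y L] [IsScalarTower k Z L] [IsScalarTower k Z N] [IsScalarTower k P N]
  [IsScalarTower k L N] [IsScalarTower k B N] [IsScalarTower k Y N]
  [IsScalarTower B Z P] [IsScalarTower B Z L] [IsScalarTower B Z N] [IsScalarTower B P N]
  [IsScalarTower B L N]
  [IsScalarTower Y Z P] [IsScalarTower Y Z L] [IsScalarTower Y Z N] [IsScalarTower Y P N]
  [IsScalarTower Y L N] [IsScalarTower Z P N] [IsScalarTower Z L N] {M : SmoothModel k Y}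
  [FiniteDimensional Z P] [Algebra.EssFiniteType k L] [Algebra.EssFiniteType k N]

theorem exists_val
    (hZ : ∀ {x : Fin (dimension k B) → B} {y : Fin (dimension k Y) → Y},
      IsTranscendenceBasis k x → IsTranscendenceBasis k y → IsTranscendenceBasis k
        (Sum.elim (fun i => algebraMap B Z (x i)) (fun j => algebraMap Y Z (y j))))
    {u v : N} {s g : L} (hdef : DefinedOver Z u v s g) {w : Valuation N ℤᵐ⁰}
    (htriv : ∀ b : B, b ≠ 0 → w (algebraMap B N b) = 1) {i : M.I}
    {x : Fin (dimension k B) → B} (hx : IsTranscendenceBasis k x)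
    (hz : IsTranscendenceBasis k (Sum.elim (fun j => algebraMap P N (zfam (L := P) M i x j))
      (fun _ : Unit => u)))
    {cP : Fin (dimension k B) ⊕ Fin (dimension k Y) → P}
    (hcP : LogBasis k (w.comap (algebraMap P N)) cP)
    (hcPu : IsTranscendenceBasis k (Sum.elim (fun j => algebraMap P N (cP j)) (fun _ : Unit => u)))
    {c : (Fin (dimension k B) ⊕ Fin (dimension k Y)) ⊕ Unit → L}
    (hc' : IsTranscendenceBasis k c) (hc : LogBasis k w (fun j => algebraMap L N (c j))) :
    ∃ z : L, relvol M i x hcP * relU cP hc u = w v * w (algebraMap L N z) := by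
  classical
  set Zf : Fin (dimension k B) ⊕ Fin (dimension k Y) → N :=
    fun j => algebraMap P N (zfam (L := P) M i x j) with hZf
  -- the family in terms of `L`
  have hZfL : ∀ j, Zf j = algebraMap L N (zfam (L := L) M i x j) := by
    rintro (j | j)
    · change algebraMap P N (algebraMap B P (x j)) = algebraMap L N (algebraMap B L (x j))
      rw [← IsScalarTower.algebraMap_apply B P N, ← IsScalarTower.algebraMap_apply B L N]
    · change algebraMap P N (algebraMap Y P (M.x i j)) = algebraMap L N (algebraMap Y L (M.x i j))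
      rw [← IsScalarTower.algebraMap_apply Y P N, ← IsScalarTower.algebraMap_apply Y L N]
  -- the derivation `pd hz (inr ())` is a derivation over `Z`
  have hkill : ∀ b : Z, pd hz (Sum.inr ()) (algebraMap Z N b) = 0 := fun b =>
    pd_algebraMap_of_notMem (hZ hx (M.tb i)) hz Sum.inl (by
      rintro (j | j)
      · change algebraMap P N (algebraMap B P (x j)) = algebraMap Z N (algebraMap B Z (x j))
        rw [← IsScalarTower.algebraMap_apply B P N, ← IsScalarTower.algebraMap_apply B Z N]
      · change algebraMap P N (algebraMap Y P (M.x i j)) = algebraMap Z N (algebraMap Y Z (M.x i j))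
        rw [← IsScalarTower.algebraMap_apply Y P N, ← IsScalarTower.algebraMap_apply Y Z N])
      (Sum.inr ()) (fun _ h => by cases h) b
  have h1 : pd hz (Sum.inr ()) u = 1 := by
    have h := pd_self hz (Sum.inr ()) (Sum.inr ())
    rw [if_pos rfl] at h
    exact h
  have h2 : pd hz (Sum.inr ()) u =
      v * algebraMap L N g * pd hz (Sum.inr ()) (algebraMap L N s) :=
    hdef (derOver (pd hz (Sum.inr ())) hkill)
  -- the two determinants
  have h3 := jac_update hz hc.tb (Sum.inr ()) (algebraMap L N s)
  have h4 : Function.update (Sum.elim (fun j => algebraMap P N (zfam (L := P) M i x j))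
      (fun _ : Unit => u)) (Sum.inr ()) (algebraMap L N s) =
      fun j => algebraMap L N (Sum.elim (zfam (L := L) M i x) (fun _ : Unit => s) j) := by
    funext j
    rcases j with j | j
    · rw [Function.update_of_ne (by intro h; cases h)]
      exact hZfL j
    · obtain rfl : j = () := rfl
      rw [Function.update_self]
      rfl
  rw [h4, jac_algebraMap hc' hc.tb] at h3
  have h5 : jac hc.tb (Sum.elim (fun j => algebraMap P N (zfam (L := P) M i x j))
      (fun _ : Unit => u)) =
      v * algebraMap L N g * algebraMap L N (jac hc' (Sum.elim (zfam (L := L) M i x)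
        (fun _ : Unit => s))) := by
    rw [h3]
    have h6 : v * algebraMap L N g * pd hz (Sum.inr ()) (algebraMap L N s) = 1 := by
      rw [← h2, h1]
    calc _ = jac hc.tb (Sum.elim (fun j => algebraMap P N (zfam (L := P) M i x j))
        (fun _ : Unit => u)) * (v * algebraMap L N g * pd hz (Sum.inr ()) (algebraMap L N s)) := by
          rw [h6, mul_one]
      _ = _ := by ring
  have h7 := relU_chain hcP.tb hc hcPu (zfam (L := P) M i x)
  have hxP : ∏ j, (w.comap (algebraMap P N)) (algebraMap B P (x j)) = 1 := by
    refine Finset.prod_eq_one fun j _ => ?_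
    rw [Valuation.comap_apply, ← IsScalarTower.algebraMap_apply B P N]
    exact htriv _ (hx.1.ne_zero j)
  refine ⟨g * jac hc' (Sum.elim (zfam (L := L) M i x) (fun _ : Unit => s)) * ∏ j, c j, ?_⟩
  rw [relvol, hxP, inv_one, mul_one]
  simp only [Valuation.comap_apply]
  calc w (algebraMap P N (jac hcP.tb (zfam M i x))) * (∏ j, w (algebraMap P N (cP j))) *
        relU cP hc u = relU cP hc u * (w (algebraMap P N (jac hcP.tb (zfam M i x))) *
        ∏ j, w (algebraMap P N (cP j))) := mul_comm _ _
    _ = _ := h7.symm
    _ = w v * w (algebraMap L N (g * jac hc' (Sum.elim (zfam (L := L) M i x)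
        (fun _ : Unit => s)) * ∏ j, c j)) := by
      rw [h5]
      simp only [map_mul, map_prod, mul_assoc]

end Pf72953.Ell
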