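import Mathlib

/-!
MODULE Pf72953e.Weier: the basic inequality for the invariant differential of a Weierstrass equation.

PROOF.  Write `f' = 3 u² + a`.  From `v² = u³ + a u + b`: `2 v D v = f'` (apply `D`, `D a = D b = 0`, `D u = 1`), so
`w f' * ρ = w v * (w (D v) * ρ) ≤ w v ^ 2` (`w 2 = 1` by `hn`).  `D f' = 6 u` gives `w u * ρ ≤ w f'`, and `D u = 1` gives `ρ ≤ w u`.  Hence
(1) `w f' * ρ ≤ w v ^ 2`, (2) `w u * ρ ^ 2 ≤ w f' * ρ ≤ w v ^ 2`, (3) `ρ ^ 3 ≤ w u * ρ ^ 2 ≤ w v ^ 2`.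
`a = f' - 3 u²`: `ρ ^ 4 * w a ≤ max (ρ ^ 4 * w f') (ρ ^ 4 * w u ^ 2)` and `ρ ^ 4 * w f' = ρ ^ 3 * (ρ * w f') ≤ w v ^ 4`,
`ρ ^ 4 * w u ^ 2 = (ρ ^ 2 * w u) ^ 2 ≤ w v ^ 4`.
`b = v² - u (f' - 2 u²) = v² - u f' + 2 u³`: `ρ ^ 6 * w v ^ 2 ≤ w v ^ 6` by (3) squared, `ρ ^ 6 * (w u * w f') =
(ρ ^ 2 * w u) * (ρ * w f') * ρ ^ 3 ≤ w v ^ 6`, `ρ ^ 6 * w u ^ 3 = (ρ ^ 2 * w u) ^ 3 ≤ w v ^ 6`.
-/

set_option autoImplicit false

open scoped WithZero

namespace Pf72953.Ell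

theorem weier_bound {k K : Type*} [Field k] [Field K] [Algebra k K] {w : Valuation K ℤᵐ⁰}
    (D : Derivation k K K) {u v a b : K} (heq : v ^ 2 = u ^ 3 + a * u + b) (hu : D u = 1)
    (ha : D a = 0) (hb : D b = 0) (hn : ∀ n : ℕ, n ≠ 0 → w (n : K) = 1) {ρ : ℤᵐ⁰}
    (hρ : ∀ g, w (D g) * ρ ≤ w g) : ρ ^ 4 * w a ≤ w v ^ 4 ∧ ρ ^ 6 * w b ≤ w v ^ 6 := by
  have h2 : w (2 : K) = 1 := by simpa using hn 2 (by norm_num)
  have h3 : w (3 : K) = 1 := by simpa using hn 3 (by norm_num)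
  have h6 : w (6 : K) = 1 := by simpa using hn 6 (by norm_num)
  have hD2 : D (2 : K) = 0 := by simpa using D.map_natCast 2
  have hD3 : D (3 : K) = 0 := by simpa using D.map_natCast 3
  have hsq : ∀ z : K, D (z ^ 2) = 2 * z * D z := fun z => by
    rw [pow_two, D.leibniz, smul_eq_mul]
    ring
  have e1 : 3 * u ^ 2 + a = 2 * v * D v := by
    have h := congrArg D heq
    rw [hsq, map_add, map_add, pow_succ, D.leibniz, D.leibniz, hsq, hu, ha, hb] at h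
    simp only [smul_eq_mul] at h
    rw [h]
    ring
  have e2 : D (3 * u ^ 2 + a) = 6 * u := by
    rw [map_add, D.leibniz, hsq, hu, ha, hD3]
    simp only [smul_eq_mul]
    ring
  set f := 3 * u ^ 2 + a with hf
  have b1 : w f * ρ ≤ w v ^ 2 := by
    rw [e1, map_mul, map_mul, h2, one_mul, mul_assoc, pow_two]
    exact mul_le_mul_right (hρ v) (w v)
  have b2 : w u * ρ ≤ w f := by
    have h := hρ f
    rwa [e2, map_mul, h6, one_mul] at h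
  have b3 : ρ ≤ w u := by
    have h := hρ u
    rwa [hu, map_one, one_mul] at h
  have c2 : ρ ^ 2 * w u ≤ w v ^ 2 := by
    refine le_trans ?_ b1
    calc ρ ^ 2 * w u = (w u * ρ) * ρ := by rw [pow_two]; simp only [mul_comm, mul_left_comm, mul_assoc]
      _ ≤ w f * ρ := by gcongr
  have c3 : ρ ^ 3 ≤ w v ^ 2 := by
    refine le_trans ?_ c2
    calc ρ ^ 3 = ρ ^ 2 * ρ := pow_succ ρ 2
      _ ≤ ρ ^ 2 * w u := by gcongr
  have ea : a = f - 3 * u ^ 2 := by rw [hf]; ring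
  have eb : b = (v ^ 2 - u * f) + 2 * u ^ 3 := by rw [hf, heq]; ring
  constructor
  · have h := w.map_sub f (3 * u ^ 2)
    rw [← ea, map_mul, h3, one_mul, map_pow] at h
    rcases le_max_iff.mp h with h | h
    · calc ρ ^ 4 * w a ≤ ρ ^ 4 * w f := by gcongr
        _ = ρ ^ 3 * (w f * ρ) := by rw [pow_succ ρ 3]; simp only [mul_comm, mul_left_comm, mul_assoc]
        _ ≤ w v ^ 2 * w v ^ 2 := by gcongr
        _ = w v ^ 4 := by rw [← pow_add]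
    · calc ρ ^ 4 * w a ≤ ρ ^ 4 * w u ^ 2 := by gcongr
        _ = (ρ ^ 2 * w u) ^ 2 := by rw [mul_pow, ← pow_mul]
        _ ≤ (w v ^ 2) ^ 2 := by gcongr
        _ = w v ^ 4 := by rw [← pow_mul]
  · have h := w.map_add (v ^ 2 - u * f) (2 * u ^ 3)
    rw [← eb, map_mul, h2, one_mul, map_pow] at h
    rcases le_max_iff.mp h with h | h
    · have h' := h.trans (w.map_sub (v ^ 2) (u * f))
      rw [map_mul, map_pow] at h'
      rcases le_max_iff.mp h' with h' | h'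
      · calc ρ ^ 6 * w b ≤ ρ ^ 6 * w v ^ 2 := by gcongr
          _ = (ρ ^ 3) ^ 2 * w v ^ 2 := by rw [← pow_mul]
          _ ≤ (w v ^ 2) ^ 2 * w v ^ 2 := by gcongr
          _ = w v ^ 6 := by rw [← pow_mul, ← pow_add]
      · calc ρ ^ 6 * w b ≤ ρ ^ 6 * (w u * w f) := by gcongr
          _ = ρ ^ 3 * (ρ ^ 2 * w u) * (w f * ρ) := by
            rw [show (6 : ℕ) = 3 + 2 + 1 from rfl, pow_add ρ (3 + 2) 1, pow_add ρ 3 2, pow_one]
            simp only [mul_comm, mul_left_comm, mul_assoc]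
          _ ≤ w v ^ 2 * w v ^ 2 * w v ^ 2 := by gcongr
          _ = w v ^ 6 := by rw [← pow_add, ← pow_add]
    · calc ρ ^ 6 * w b ≤ ρ ^ 6 * w u ^ 3 := by gcongr
        _ = (ρ ^ 2 * w u) ^ 3 := by rw [mul_pow, ← pow_mul]
        _ ≤ (w v ^ 2) ^ 3 := by gcongr
        _ = w v ^ 6 := by rw [← pow_mul]

end Pf72953.Ell
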