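import Mathlib
import Pool.Agent.Lib.Pf72953v.Defs
import Pool.Agent.Lib.Pf72953e.Weier
import Pool.Agent.Lib.Pf72953e.Place
import Pool.Agent.Lib.Pf72953e.RelU
import Pool.Agent.Lib.Pf72953e.KeyE
import Pool.Agent.Lib.Pf72953e.SqE
import Pool.Agent.Lib.Pf72953e.ValGrp
import Pool.Agent.Lib.Pf72953e.TbE

/-!
MODULE Pf72953e.Mem: the main estimate.

PROOF.  (Compare the proof of `Mov.mem_GoodL`, Pf72953m/Est.lean.)  Let `w, hv, c, t, hc, ht, htb` be as in the definition of `GoodL`; `dimension k N = dimension k E`
and `w` is divisorial on `N/k` (`IsDivisorial.of_comap`).  `hcN = hc.map : Adapted k w (c in N) (t in N)`, `hlog = hcN.logBasis`, `∏ w c = w t`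
(`Adapted.prod`).  Choose the chart `i` with `hA : w ≤ 1` on `M.A i` (`M.cover`).  `w_P = w.comap (algebraMap P N)`.
A log basis `cP` of `P/k` for `w_P`: if `w_P` is nontrivial it is divisorial (`IsDivisorial.restrict`) and `exists_adapted`, `Adapted.logBasis`
(the index type `Fin dB ⊕ Fin dY` has `dimension k P` elements); if it is trivial take `zfam M i x` and `LogBasis.of_trivial`.
`ρ = relU cP hlog u` (`≠ 0`), `D` from `relU_cost`; `D` vanishes on `P`; `weier_bound` (for `a.sec`, `b.sec` in `N`; `w n = 1` for natural `n ≠ 0` by `hwN.const`)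
gives `ρ ^ 4 * w a.sec ≤ w v ^ 4`, `ρ ^ 6 * w b.sec ≤ w v ^ 6`; `v ≠ 0` (otherwise `D` of the equation gives `3 u² + a = 0`, `6 u = 0`, `6 = 0`... or: `u` is
transcendental over `P`), so `σ = ρ / w v` satisfies `σ ^ 4 * w a.sec ≤ 1`, `σ ^ 6 * w b.sec ≤ 1`.
Put `Q = (∏ β j / sec ^ q j) * ν * (a.sec ^ r₁ * b.sec ^ r₂) ∈ P`, `U = h φ Q / v ^ m`, `fam` the family of the statement, `famP = (x, y)` in `P`.
`relU_chain` (`a := famP`): `w (jac htb fam) * w t = ρ * (w_P (jac famP) * ∏ w_P cP)`, and for every transcendence basis `cB` of `B/k`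
`jac hcP.tb famP = jac hcP.tb (zfam M i cB) * (jac hcB x * jac (M.tb i) y)` (as `hchain` in `Mov.mem_GoodL`), hence by the definition of `relvol`
(1) `w (jac htb fam) * w t = ρ * (μ * p * w (jac (M.tb i) y))`, `μ = relvol M i cB hcP`, `p = w (jac hcB x) * ∏ w cB`.
It suffices to show `w U * (w (jac htb fam) * w t) ^ m ≤ w t ^ m`, i.e.
(2) `w h * w φ * w Q * (σ * (μ * p * w (jac (M.tb i) y))) ^ m ≤ w t ^ m`.
CASE `w` nontrivial on `B`: `hh` for the restriction of `w` to `E` gives `cB` with `w h * p ^ m ≤ w t ^ m`; `key` with `α = w t ^ m`, and `μ ≤ 1` (`relvol_le_one`).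
CASE `w` trivial on `B`: take `cB = x`, `p = 1`, `w h ≤ 1`.  By `hunr` (applied to the restriction of `w` to `L`, which is divisorial over `k`) the image `τ` of `t` in `L` is a
uniformizer of the restriction of `w` to `L`: every `z ∈ L` with `w z < 1` has `t' ∈ E` with `w t' < 1`, `w z ≤ w t' ≤ w t`.
 (a) `w (D j).sec < w (gen_j)` for some `j`: then `w` is not trivial on `P` (`sec`, `gen` are nonzero elements of `P`), hence not on `Z` (`P/Z` algebraic,
   `val_eq_one_of_isIntegral`).  `relvol_le_sq` (first alternative, `hram j`): `μ ≤ w t ^ 2`; `key` with `α = 1` and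
   `μ ^ (m - ..) ≤ w t ^ (2 (m - ..)) ≤ w t ^ m` by `hq`.
 (b) `w` is nontrivial on `Z` and `¬ PrimeAt M B Z i w_P`: the same with the second alternative of `relvol_le_sq`.
 (c) otherwise: `w (gen_j) ≤ w (D j).sec` for all `j`, and `w` is trivial on `Z` or `PrimeAt M B Z i w_P`.  Let `X = μ * σ * w (A.gen i)`.
   `exists_val` (ValGrp.lean; `c` in `L` is the image of `c` in `E`): `μ * ρ = w v * w z`, `z ∈ L`, so `X = w (z * gen)` is a value of `L`; if `X < 1` then `X ≤ w t` (`τ` is a uniformizer).
   `X < 1`: if `w` is trivial on `Z` it is trivial on `P`, so `w (gen) = 1`, `μ ≤ 1` and `σ < 1` by `place_bound` (`halg` from `hW.gen`: `v` is algebraic over `P(u)`).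
   If `PrimeAt`: `relvol_le_unif` gives `t_Z ∈ Z` with `w t_Z < 1`, `μ ≤ w t_Z`; by `hW.minimal` (for `w_P`, divisorial) `w a.sec > (gen * w t_Z) ^ 4` or
   `w b.sec > (gen * w t_Z) ^ 6`; as `σ ^ 4 * w a.sec ≤ 1` etc. we get `σ * gen * w t_Z < 1`, so `X < 1`.
   Finally `key2` (all coefficients are algebraic over `B`, so have values `≤ 1`) gives (2): the left hand side is `≤ X ^ m ≤ w t ^ m`.
-/

set_option autoImplicit false
set_option linter.style.haveILetI false

open scoped WithZero
open Pf72953 Pf72953.Var Pf72953.Mov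

namespace Pf72953.Ell

namespace MemAux

/-- elements of `P(u, v)` are algebraic over `P(u)` -/
theorem alg_of_gen {P N : Type*} [Field P] [Field N] [Algebra P N] {u v : N} {a b : P}
    (heq : v ^ 2 = u ^ 3 + algebraMap P N a * u + algebraMap P N b)
    (hgen : ∀ z : N, z ∈ IntermediateField.adjoin P {u, v}) (z : N) :
    IsAlgebraic (IntermediateField.adjoin P {u}) z := by
  have hmem : ∀ w : IntermediateField.adjoin P ({u} : Set N),
      IsAlgebraic (IntermediateField.adjoin P {u}) (w : N) := fun w =>
    isAlgebraic_algebraMap (R := IntermediateField.adjoin P {u}) (A := N) w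
  have hu : u ∈ IntermediateField.adjoin P ({u} : Set N) :=
    IntermediateField.subset_adjoin P _ rfl
  have hv : IsAlgebraic (IntermediateField.adjoin P {u}) v := by
    have h1 : IsAlgebraic (IntermediateField.adjoin P {u}) (v ^ 2) := by
      rw [heq]
      have h2 := hmem ⟨u, hu⟩
      have h3 := hmem (algebraMap P (IntermediateField.adjoin P {u}) a)
      have h4 := hmem (algebraMap P (IntermediateField.adjoin P {u}) b)
      exact ((h2.pow 3).add (h3.mul h2)).add h4
    exact h1.of_pow (by norm_num)
  have h := hgen z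
  induction h using IntermediateField.adjoin_induction with
  | mem x hx =>
    rcases hx with rfl | hx
    · exact hmem ⟨_, hu⟩
    · rw [Set.mem_singleton_iff.mp hx]; exact hv
  | algebraMap r => exact hmem (algebraMap P (IntermediateField.adjoin P {u}) r)
  | add x y _ _ hx hy => exact hx.add hy
  | inv x _ hx => exact hx.inv
  | mul x y _ _ hx hy => exact hx.mul hy

theorem relU_congr {k P N ι : Type*} [Field k] [CharZero k] [Field P] [Field N] [Algebra k P]
    [Algebra k N] [Algebra P N] [IsScalarTower k P N] [Fintype ι] [DecidableEq ι]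
    {w : Valuation N ℤᵐ⁰} (cP : ι → P) {c c' : ι ⊕ Unit → N} (h : c = c')
    (hc : LogBasis k w c) (hc' : LogBasis k w c') (u : N) : relU cP hc u = relU cP hc' u := by
  subst h
  rfl

end MemAux

variable {k B E Y Z P L N J : Type*} [Field k] [CharZero k] [IsAlgClosed k] [Field B] [Field E]
  [Field Y] [Field Z] [Field P] [Field L] [Field N]
  [Algebra k B] [Algebra k E] [Algebra k Y] [Algebra k Z] [Algebra k P] [Algebra k L] [Algebra k N]
  [Algebra B E] [Algebra B Z] [Algebra B P] [Algebra B L] [Algebra B N]
  [Algebra E L] [Algebra E N] [Algebra Y Z] [Algebra Y P] [Algebra Y L] [Algebra Y N]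
  [Algebra Z P] [Algebra Z L] [Algebra Z N] [Algebra P N] [Algebra L N]
  [IsScalarTower k B E] [IsScalarTower k B Z] [IsScalarTower k B P] [IsScalarTower k B L]
  [IsScalarTower k B N] [IsScalarTower k E L] [IsScalarTower k E N]
  [IsScalarTower k Y Z] [IsScalarTower k Y P] [IsScalarTower k Y L] [IsScalarTower k Y N]
  [IsScalarTower k Z P] [IsScalarTower k Z L] [IsScalarTower k Z N] [IsScalarTower k P N]
  [IsScalarTower k L N] [IsScalarTower B E L] [IsScalarTower B E N]
  [IsScalarTower B Z P] [IsScalarTower B Z L] [IsScalarTower B Z N] [IsScalarTower B P N]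
  [IsScalarTower B L N] [IsScalarTower Y Z P] [IsScalarTower Y Z L] [IsScalarTower Y Z N]
  [IsScalarTower Y P N] [IsScalarTower Y L N] [IsScalarTower Z P N] [IsScalarTower Z L N]
  [IsScalarTower E L N]
  [Algebra.EssFiniteType k B] [Algebra.EssFiniteType k Y] [Algebra.EssFiniteType k E]
  [FiniteDimensional E L] [FiniteDimensional E N] [FiniteDimensional L N] [FiniteDimensional Z P]
  [Fintype J] {M : SmoothModel k Y} {A : LineBundle M}

theorem mem_good (hcomp : Twr.IsCompositum k B Y Z)
    (hdim : dimension k B + dimension k Y + 1 = dimension k E) (hunr : Unramified k B E L)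
    {a : MovingSection M A 4 B P} {b : MovingSection M A 6 B P} {u v : N}
    (hW : IsWeierstrass k Z a b u v) {s g : L} (hdef : DefinedOver Z u v s g)
    (D : J → MovingDivisor M B P) (hram : ∀ j, RamifiedOver (N := N) k L (D j)) {C : J → ℕ}
    (hC : ∀ j, Cert (D j) (C j)) {Ce : ℕ} (hCa : SecCost k a Ce) (hCb : SecCost k b Ce)
    {x : Fin (dimension k B) → B} (hx : IsTranscendenceBasis k x)
    {y : Fin (dimension k Y) → Y} (hy : IsTranscendenceBasis k y) {m qA r₁ r₂ : ℕ} {q : J → ℕ}
    (hm : qA + 4 * r₁ + 6 * r₂ = m) (hq : 2 * (∑ j, C j * q j + Ce * qA) ≤ m) {h : B}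
    (hh : h ∈ WOrb k E x m) {φ : Y}
    (hφ : φ ∈ CoefSec M (bundles A fun j => (D j).S) y m (fun o => o.elim qA q)) {β : J → P}
    (hβ : ∀ j, β j ∈ Num (D j) (q j)) {ν : P} (hν : ν ∈ NumA a b qA) :
    algebraMap B N h * algebraMap Y N φ *
      algebraMap P N ((∏ j, β j / (D j).sec ^ q j) * ν * (a.sec ^ r₁ * b.sec ^ r₂)) / v ^ m ∈
      GoodL k E (Sum.elim (Sum.elim (fun i => algebraMap B N (x i))
        (fun j => algebraMap Y N (y j))) (fun _ : Unit => u)) m := by
  classical
  haveI : CharZero B := charZero_of_injective_algebraMap (algebraMap k B).injective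
  haveI : CharZero P := charZero_of_injective_algebraMap (algebraMap k P).injective
  haveI : Algebra.EssFiniteType k L := Algebra.EssFiniteType.comp k E L
  haveI : Algebra.EssFiniteType k N := Algebra.EssFiniteType.comp k E N
  haveI : Algebra.EssFiniteType k Z := essFinite_Z hcomp
  haveI : Algebra.EssFiniteType k P := Algebra.EssFiniteType.comp k Z P
  have halg := MemAux.alg_of_gen hW.eqn hW.gen
  obtain ⟨hZdim, hPdim, hNdim, hZ, hNtb⟩ := bases (P := P) (N := N) (E := E) hcomp hdim (u := u)
    halg
  have hZP : ∀ {x : Fin (dimension k B) → B} {y : Fin (dimension k Y) → Y},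
      IsTranscendenceBasis k x → IsTranscendenceBasis k y → IsTranscendenceBasis k
        (Sum.elim (fun i => algebraMap B P (x i)) (fun j => algebraMap Y P (y j))) := by
    intro x y hx hy
    have h1 : IsTranscendenceBasis k (algebraMap Z P ∘ _) := (hZ hx hy).algebraMap_comp
    convert h1 using 1
    funext j
    rcases j with j | j
    · exact IsScalarTower.algebraMap_apply B Z P _
    · exact IsScalarTower.algebraMap_apply Y Z P _
  intro w hv c t hc ht htb
  have hwN : IsDivisorial k N w := IsDivisorial.of_comap hNdim hv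
  have hcN : Adapted k w (fun i => algebraMap E N (c i)) (algebraMap E N t) := hc.map
  have hcard : Fintype.card ((Fin (dimension k B) ⊕ Fin (dimension k Y)) ⊕ Unit) =
      dimension k N := card_eq_of_isTranscendenceBasis htb
  have hlog := hcN.logBasis hcard
  have hwt : w (algebraMap E N t) ≠ 0 := by
    rw [Valuation.ne_zero_iff]; simpa using ht.ne_zero
  have hwtpos : 0 < w (algebraMap E N t) := zero_lt_iff.mpr hwt
  -- the chart
  obtain ⟨i, hi⟩ := M.cover (w.comap (algebraMap Y N)) (fun κ hκ => by
    rw [Valuation.comap_apply, ← IsScalarTower.algebraMap_apply k Y N]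
    exact hwN.const κ hκ)
  have hA : ∀ f ∈ M.A i, w (algebraMap Y N f) ≤ 1 := hi
  set wP := w.comap (algebraMap P N) with hwP
  have hwPB : ∀ z : B, wP (algebraMap B P z) = w (algebraMap B N z) := fun z => by
    rw [hwP, Valuation.comap_apply, ← IsScalarTower.algebraMap_apply B P N]
  have hwPY : ∀ z : Y, wP (algebraMap Y P z) = w (algebraMap Y N z) := fun z => by
    rw [hwP, Valuation.comap_apply, ← IsScalarTower.algebraMap_apply Y P N]
  have hAP : ∀ f ∈ M.A i, wP (algebraMap Y P f) ≤ 1 := fun f hf => by
    rw [hwPY]; exact hA f hf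
  haveI : Nonempty M.I := ⟨i⟩
  have hsec0 : ∀ j, (D j).sec ≠ 0 := fun j => sec_ne_zero (D j) hZP hx
  -- a log basis of `P`
  obtain ⟨cP, hcP⟩ : ∃ cP : Fin (dimension k B) ⊕ Fin (dimension k Y) → P,
      LogBasis k wP cP := by
    by_cases hnt : ∃ a : P, a ≠ 0 ∧ w (algebraMap P N a) ≠ 1
    · have h1 : IsDivisorial k P wP := hwN.restrict hnt
      have hcard' : Fintype.card (Fin (dimension k B) ⊕ Fin (dimension k Y)) =
          dimension k P := by
        rw [hPdim, hZdim]; simp
      obtain ⟨c', t', ht', hc'⟩ := h1.exists_adapted hcard'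
      exact ⟨c', hc'.logBasis hcard'⟩
    · push Not at hnt
      exact ⟨zfam M i x, LogBasis.of_trivial hnt (hZP hx (M.tb i))⟩
  have hzP := hNtb hcP.tb
  set ρ := relU cP hlog u with hρdef
  have hρ0 : ρ ≠ 0 := relU_ne_zero hcP.tb hlog hzP
  obtain ⟨Du, hDu, hDρ⟩ := relU_cost hcP.tb hlog hzP
  rw [← hρdef] at hDρ
  have hnat : ∀ n : ℕ, n ≠ 0 → w (n : N) = 1 := fun n hn => by
    have h1 := hwN.const (n : k) (by exact_mod_cast hn)
    rwa [map_natCast] at h1
  obtain ⟨hwa, hwb⟩ := weier_bound Du hW.eqn hDu (Du.map_algebraMap _) (Du.map_algebraMap _)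
    hnat hDρ
  have hv0 : v ≠ 0 := by
    rintro rfl
    rw [map_zero, zero_pow (by norm_num), le_zero_iff, mul_eq_zero] at hwa hwb
    have ha0 := hwa.resolve_left (pow_ne_zero _ hρ0)
    have hb0 := hwb.resolve_left (pow_ne_zero _ hρ0)
    rw [map_eq_zero, map_eq_zero] at ha0 hb0
    refine hW.disc ?_
    rw [ha0, hb0]
    ring
  have hwv0 : w v ≠ 0 := (Valuation.ne_zero_iff w).mpr hv0
  have hwvpos : 0 < w v := zero_lt_iff.mpr hwv0
  set σ := ρ / w v with hσ
  have hσa : σ ^ 4 * wP a.sec ≤ 1 := by
    rw [hσ, div_pow, div_mul_eq_mul_div, div_le_one₀ (pow_pos hwvpos 4)]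
    exact hwa
  have hσb : σ ^ 6 * wP b.sec ≤ 1 := by
    rw [hσ, div_pow, div_mul_eq_mul_div, div_le_one₀ (pow_pos hwvpos 6)]
    exact hwb
  set Q : P := (∏ j, β j / (D j).sec ^ q j) * ν * (a.sec ^ r₁ * b.sec ^ r₂) with hQ
  -- the logarithmic volume of the family
  have hfin : ∀ {cB : Fin (dimension k B) → B} (hcB : IsTranscendenceBasis k cB),
      w (algebraMap B N h) * wP (algebraMap Y P φ) * wP Q *
        (σ * (relvol M i cB hcP * (w (algebraMap B N (jac hcB x)) *
          ∏ j, w (algebraMap B N (cB j))) * wP (algebraMap Y P (jac (M.tb i) y)))) ^ m ≤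
        w (algebraMap E N t) ^ m →
      w (algebraMap B N h * algebraMap Y N φ * algebraMap P N Q / v ^ m) *
        w (jac htb (Sum.elim (Sum.elim (fun i => algebraMap B N (x i))
          (fun j => algebraMap Y N (y j))) (fun _ : Unit => u))) ^ m ≤ 1 := by
    intro cB hcB hle
    have hz : IsTranscendenceBasis k (zfam (L := P) M i cB) := hZP hcB (M.tb i)
    have hfam : (Sum.elim (Sum.elim (fun i => algebraMap B N (x i))
          (fun j => algebraMap Y N (y j))) (fun _ : Unit => u)) =
        Sum.elim (fun l => algebraMap P N ((Sum.elim (fun i => algebraMap B P (x i))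
          (fun j => algebraMap Y P (y j))) l)) (fun _ : Unit => u) := by
      funext l
      rcases l with (l | l) | l
      · exact IsScalarTower.algebraMap_apply B P N _
      · exact IsScalarTower.algebraMap_apply Y P N _
      · rfl
    have hchain : jac hcP.tb (Sum.elim (fun i => algebraMap B P (x i))
          (fun j => algebraMap Y P (y j))) =
        jac hcP.tb (zfam M i cB) * (algebraMap B P (jac hcB x) *
          algebraMap Y P (jac (M.tb i) y)) := by
      rw [jac_chain hz hcP.tb]
      congr 1
      exact jac_sum hcB (M.tb i) hz x y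
    have hP0 : ∏ j, wP (algebraMap B P (cB j)) ≠ 0 := prod_cB_ne_zero hcB wP
    have hvol : w (jac htb (Sum.elim (Sum.elim (fun i => algebraMap B N (x i))
          (fun j => algebraMap Y N (y j))) (fun _ : Unit => u))) * w (algebraMap E N t) =
        ρ * (relvol M i cB hcP * (w (algebraMap B N (jac hcB x)) *
          ∏ j, w (algebraMap B N (cB j))) * wP (algebraMap Y P (jac (M.tb i) y))) := by
      have h1 := relU_chain hcP.tb hlog hzP (Sum.elim (fun i => algebraMap B P (x i))
          (fun j => algebraMap Y P (y j)))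
      rw [hcN.prod] at h1
      rw [hfam]
      refine h1.trans ?_
      rw [← hρdef, hchain]
      congr 1
      simp only [← hwPB]
      rw [relvol]
      change wP (jac hcP.tb (zfam M i cB) * (algebraMap B P (jac hcB x) *
          algebraMap Y P (jac (M.tb i) y))) * ∏ j, wP (cP j) = _
      rw [map_mul, map_mul]
      calc _ = wP (jac hcP.tb (zfam M i cB)) * (∏ j, wP (cP j)) *
            ((∏ j, wP (algebraMap B P (cB j)))⁻¹ * ∏ j, wP (algebraMap B P (cB j))) *
            wP (algebraMap B P (jac hcB x)) * wP (algebraMap Y P (jac (M.tb i) y)) := by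
            rw [inv_mul_cancel₀ hP0, mul_one]
            simp only [mul_comm, mul_left_comm, mul_assoc]
        _ = _ := by simp only [mul_comm, mul_left_comm, mul_assoc]
    have hpos : 0 < w (algebraMap E N t) ^ m := pow_pos hwtpos m
    refine le_of_mul_le_mul_right (a := w (algebraMap E N t) ^ m) ?_ hpos
    rw [one_mul, mul_assoc, ← mul_pow, hvol]
    refine le_trans (le_of_eq ?_) hle
    rw [map_div₀, map_mul, map_mul, map_pow, hσ, hwPY φ]
    change _ / _ * _ = w (algebraMap B N h) * w (algebraMap Y N φ) * w (algebraMap P N Q) * _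
    rw [div_mul_eq_mul_div ρ (w v), div_pow, ← mul_div_assoc, div_mul_eq_mul_div]
  change w (algebraMap B N h * algebraMap Y N φ * algebraMap P N Q / v ^ m) * _ ^ m ≤ 1
  by_cases hnt : ∃ a : B, a ≠ 0 ∧ w (algebraMap B N a) ≠ 1
  · -- `w` nontrivial on `B`
    obtain ⟨cB, hcB', hbB'⟩ := hh (w.comap (algebraMap E N)) hv (by
      obtain ⟨a, ha0, ha⟩ := hnt
      refine ⟨a, ha0, ?_⟩
      rwa [Valuation.comap_apply, ← IsScalarTower.algebraMap_apply]) t ht
    have hbB : w (algebraMap B N h) * (w (algebraMap B N (jac hcB'.tb x)) *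
        ∏ i, w (algebraMap B N (cB i))) ^ m ≤ w (algebraMap E N t) ^ m := by
      simp only [Valuation.comap_apply, ← IsScalarTower.algebraMap_apply B E N] at hbB'
      exact hbB'
    refine hfin hcB'.tb ?_
    refine (key D hC hCa hCb hm (by omega) hφ hβ hsec0 hν hcB'.tb (hZP hcB'.tb (M.tb i)) hAP hcP
      hσa hσb hbB).trans ?_
    exact mul_le_of_le_one_right' (pow_le_one' (relvol_le_one hcB'.tb hAP hcP) _)
  · -- `w` trivial on `B`
    push Not at hnt
    have hntP : ∀ b : B, b ≠ 0 → wP (algebraMap B P b) = 1 := fun b hb => by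
      rw [hwPB]; exact hnt b hb
    have hone : ∀ a : B, w (algebraMap B N a) ≤ 1 := by
      intro a
      rcases eq_or_ne a 0 with rfl | ha
      · simp
      · exact (hnt a ha).le
    have hPone : ∏ j, w (algebraMap B N (x j)) = 1 :=
      Finset.prod_eq_one fun j _ => hnt _ (hx.1.ne_zero j)
    have halgone : ∀ z : P, IsAlgebraic B z → wP z ≤ 1 := fun z hz => by
      rcases eq_or_ne z 0 with h0 | h0
      · rw [h0]; simp
      · exact (val_eq_one_of_isIntegral hntP h0 hz.isIntegral).le
    have hμone : relvol M i x hcP ≤ 1 := relvol_le_one hx hAP hcP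
    have hp : w (algebraMap B N (jac hx x)) * ∏ j, w (algebraMap B N (x j)) = 1 := by
      rw [jac_self, map_one, map_one, one_mul, hPone]
    -- the uniformizer of `L`
    set τ := algebraMap E L t with hτdef
    have hwτ : w (algebraMap L N τ) = w (algebraMap E N t) := by
      rw [hτdef, ← IsScalarTower.algebraMap_apply E L N]
    have hwL : IsDivisorial k L (w.comap (algebraMap L N)) := hwN.restrict
      ⟨τ, by simpa [hτdef] using ht.ne_zero, by rw [hwτ]; exact ht.lt_one.ne⟩
    have hτ : IsUnif (w.comap (algebraMap L N)) τ := by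
      refine ⟨by simpa [hτdef] using ht.ne_zero, ?_, fun z hz => ?_⟩
      · rw [Valuation.comap_apply, hwτ]; exact ht.lt_one
      · obtain ⟨t', ht', hzt'⟩ := hunr (w.comap (algebraMap L N)) hwL (fun b hb => by
          rw [Valuation.comap_apply, ← IsScalarTower.algebraMap_apply B L N]
          exact hnt b hb) z hz
        refine hzt'.trans ?_
        rw [Valuation.comap_apply, Valuation.comap_apply, hwτ,
          ← IsScalarTower.algebraMap_apply E L N]
        rw [Valuation.comap_apply, ← IsScalarTower.algebraMap_apply E L N] at ht'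
        exact ht.le t' ht'
    -- the case of small relative volume
    have hsq : relvol M i x hcP ≤ w (algebraMap E N t) ^ 2 →
        w (algebraMap B N h * algebraMap Y N φ * algebraMap P N Q / v ^ m) *
        w (jac htb (Sum.elim (Sum.elim (fun i => algebraMap B N (x i))
          (fun j => algebraMap Y N (y j))) (fun _ : Unit => u))) ^ m ≤ 1 := by
      intro hle
      refine hfin hx ?_
      refine (key D hC hCa hCb hm (by omega) hφ hβ hsec0 hν hx (hZP hx (M.tb i)) hAP hcP
        hσa hσb (α := 1) ?_).trans ?_
      · rw [hp, one_pow, mul_one]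
        exact hone h
      · rw [one_mul]
        calc _ ≤ (w (algebraMap E N t) ^ 2) ^ (m - (∑ j, C j * q j + Ce * qA)) := by gcongr
          _ = w (algebraMap E N t) ^ (2 * (m - (∑ j, C j * q j + Ce * qA))) := by
            rw [← pow_mul]
          _ ≤ w (algebraMap E N t) ^ m :=
            pow_le_pow_right_of_le_one' ht.lt_one.le (by omega)
    -- the remaining case
    have hgood : (∀ j, wP (algebraMap Y P ((D j).S.gen i)) ≤ wP (D j).sec) →
        relvol M i x hcP * σ * wP (algebraMap Y P (A.gen i)) < 1 →
        w (algebraMap B N h * algebraMap Y N φ * algebraMap P N Q / v ^ m) *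
        w (jac htb (Sum.elim (Sum.elim (fun i => algebraMap B N (x i))
          (fun j => algebraMap Y N (y j))) (fun _ : Unit => u))) ^ m ≤ 1 := by
      intro hlt hX
      have hlogL : LogBasis k w (fun j => algebraMap L N (algebraMap E L (c j))) := by
        simp only [← IsScalarTower.algebraMap_apply E L N]
        exact hlog
      have hcL : IsTranscendenceBasis k (fun j => algebraMap E L (c j)) :=
        (IsTranscendenceBasis.of_comp_algebraMap (A' := N) (x := fun j => algebraMap E L (c j)) (by
          convert htb using 1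
          funext j
          exact (IsScalarTower.algebraMap_apply E L N _).symm))
      obtain ⟨z, hz⟩ := exists_val (P := P) hZ hdef hnt hx
        (hNtb (hZP hx (M.tb i))) hcP hzP hcL hlogL
      have hz' : relvol M i x hcP * ρ = w v * w (algebraMap L N z) := by
        rw [← hz, hρdef]
        congr 1
        exact MemAux.relU_congr cP (by
          funext j
          exact IsScalarTower.algebraMap_apply E L N _) hlog hlogL u
      have hXval : relvol M i x hcP * σ * wP (algebraMap Y P (A.gen i)) =
          w.comap (algebraMap L N) (z * algebraMap Y L (A.gen i)) := by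
        have hgenY : wP (algebraMap Y P (A.gen i)) =
            w (algebraMap L N (algebraMap Y L (A.gen i))) := by
          rw [hwPY, ← IsScalarTower.algebraMap_apply Y L N]
        rw [hσ, ← mul_div_assoc, hz', mul_div_cancel_left₀ _ hwv0, hgenY]
        change _ = w (algebraMap L N (z * algebraMap Y L (A.gen i)))
        rw [(algebraMap L N).map_mul, w.map_mul]
      have hXle : relvol M i x hcP * σ * wP (algebraMap Y P (A.gen i)) ≤
          w (algebraMap E N t) := by
        rw [hXval] at hX ⊢
        have h1 := hτ.le _ hX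
        rwa [Valuation.comap_apply (algebraMap L N) w τ, hwτ] at h1
      refine hfin hx ?_
      rw [hp, mul_one]
      refine (key2 D hm hφ hβ hsec0 hν hAP (fun j l => halgone _ ((D j).a_alg l))
        (fun l => halgone _ (a.a_alg l)) (fun l => halgone _ (b.a_alg l)) hlt (hone h)).trans ?_
      exact pow_le_pow_left' hXle m
    by_cases hlt : ∃ j, wP (D j).sec < wP (algebraMap Y P ((D j).S.gen i))
    · -- on one of the divisors
      obtain ⟨j, hj⟩ := hlt
      have hntZ : ∃ s : Z, s ≠ 0 ∧ w (algebraMap Z N s) ≠ 1 := by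
        by_contra hcon
        push Not at hcon
        have h1 : ∀ p : P, p ≠ 0 → wP p = 1 := fun p hp => by
          haveI : Algebra.IsAlgebraic Z P := Algebra.IsAlgebraic.of_finite Z P
          exact val_eq_one_of_isIntegral (B := Z) (fun s hs => by
            rw [hwP, Valuation.comap_apply, ← IsScalarTower.algebraMap_apply Z P N]
            exact hcon s hs) hp (Algebra.IsAlgebraic.isAlgebraic (R := Z) p).isIntegral
        rw [h1 _ (hsec0 j), h1 _ (by simpa using (D j).S.ne i)] at hj
        exact lt_irrefl _ hj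
      refine hsq ?_
      have h1 := relvol_le_sq (P := P) (L := L) hZ hwN hnt hntZ hA hτ hx hcP (Or.inl (by
        intro d hd
        refine hram j w hwN hnt i hA ?_ d hd
        rw [← hwPY]
        exact hj))
      rwa [hwτ] at h1
    · push Not at hlt
      by_cases hntZ : ∃ s : Z, s ≠ 0 ∧ w (algebraMap Z N s) ≠ 1
      · by_cases hprime : Br.PrimeAt M B Z i wP
        · -- a prime divisor of `M` over `B`
          obtain ⟨tZ, htZ0, htZ1, hμtZ⟩ := relvol_le_unif (P := P) hZ hwN hnt hntZ hA
            hx hcP
          have hwtZ : wP (algebraMap Z P tZ) = w (algebraMap Z N tZ) := by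
            rw [hwP, Valuation.comap_apply, ← IsScalarTower.algebraMap_apply Z P N]
          have hwPdiv : IsDivisorial k P wP := by
            refine hwN.restrict ⟨algebraMap Z P tZ, by simpa using htZ0, ?_⟩
            rw [← IsScalarTower.algebraMap_apply Z P N]
            exact htZ1.ne
          have hmin := hW.minimal i wP hwPdiv (fun b hb => hntP b hb) hprime tZ
            (by rw [hwtZ]; exact htZ1)
          refine hgood hlt ?_
          by_contra hX
          rw [not_lt] at hX
          refine hmin ?_
          set G := wP (algebraMap Y P (A.gen i)) * wP (algebraMap Z P tZ) with hG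
          have h1 : 1 ≤ σ * G := by
            refine hX.trans ?_
            calc _ ≤ wP (algebraMap Z P tZ) * σ * wP (algebraMap Y P (A.gen i)) := by
                  rw [hwtZ]
                  gcongr
              _ = _ := by
                  rw [hG, mul_comm (wP (algebraMap Z P tZ)) σ, mul_assoc,
                    mul_comm (wP (algebraMap Z P tZ))]
          constructor
          · calc wP a.sec ≤ (σ * G) ^ 4 * wP a.sec :=
                  le_mul_of_one_le_left' (one_le_pow₀ h1)
              _ = G ^ 4 * (σ ^ 4 * wP a.sec) := by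
                  rw [mul_pow]
                  simp only [mul_comm, mul_left_comm]
              _ ≤ G ^ 4 * 1 := by gcongr
              _ = G ^ 4 := mul_one _
          · calc wP b.sec ≤ (σ * G) ^ 6 * wP b.sec :=
                  le_mul_of_one_le_left' (one_le_pow₀ h1)
              _ = G ^ 6 * (σ ^ 6 * wP b.sec) := by
                  rw [mul_pow]
                  simp only [mul_comm, mul_left_comm]
              _ ≤ G ^ 6 * 1 := by gcongr
              _ = G ^ 6 := mul_one _
        · refine hsq ?_
          have h1 := relvol_le_sq (P := P) (L := L) hZ hwN hnt hntZ hA hτ hx hcP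
            (Or.inr hprime)
          rwa [hwτ] at h1
      · -- `w` trivial on `Z`
        push Not at hntZ
        have htrivP : ∀ p : P, p ≠ 0 → w (algebraMap P N p) = 1 := fun p hp => by
          haveI : Algebra.IsAlgebraic Z P := Algebra.IsAlgebraic.of_finite Z P
          exact val_eq_one_of_isIntegral (B := Z) (w := wP) (fun s hs => by
            rw [hwP, Valuation.comap_apply, ← IsScalarTower.algebraMap_apply Z P N]
            exact hntZ s hs) hp (Algebra.IsAlgebraic.isAlgebraic (R := Z) p).isIntegral
        have hρv : ρ < w v := place_bound htrivP hwN.nontrivial halg hW.eqn hW.disc Du hDu hDρ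
        refine hgood hlt ?_
        have hgen1 : wP (algebraMap Y P (A.gen i)) = 1 :=
          htrivP _ (by simpa using A.ne i)
        rw [hgen1, mul_one]
        calc _ ≤ 1 * σ := by gcongr
          _ = σ := one_mul _
          _ < 1 := by
            rw [hσ, div_lt_one₀ hwvpos]
            exact hρv

end Pf72953.Ell
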