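import Mathlib
import Pool.Agent.Lib.Pf72953b.PosKod
import Pool.Agent.Lib.Pf72953t.GoodUp
import Pool.Agent.Lib.Pf72953t.Ind
import Pool.Agent.Lib.Pf72953e.Mem

/-!
MODULE Pf72953e.CoreE: the Kodaira dimension of the total space (lower bound).

This is `Mov.core` (Pf72953m/Fin.lean; copy its proof) with the Weierstrass equation added.
PROOF.  `bases` (TbE.lean) gives the dimensions and transcendence bases (`hW.gen` implies that `N` is algebraic over `P(u)`).  `fam` = the family of `mem_good`, a transcendence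
basis of `N/k`.  `S' = bundles A fun j => (D j).S`.
Forms on `M`: `hM` and `Br.pos_of_kodaira` (Pf72953b/PosKod.lean; for the family `S'`) give `m₀ ≥ 1` and `g₀ ≠ 0`, `g₀ ∈ CoefSec M S' y m₀ (fun _ => 0)`
(`mem_pluriSections_iff`); `hb` gives `m₂ ≥ 1`, `g₂ ≠ 0`, `φ_i`, with `g₂, φ_i g₂ ∈ CoefSec M S' y m₂ (fun _ => m₂)`.
Certificates: `C j` from `exists_cert (D j)`; `Ce` a common bound from `exists_secCost` for `a` and `b` (`SecCost` is monotone in `C` since `relvol ≤ 1`).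
Some monomial of weight 12 is nonzero: `β₀ ∈ weightTwelve a b`, `β₀ ≠ 0` (otherwise all coefficients, hence `a.sec`, `b.sec` and the discriminant, are `0`).
Weights: `N₁ = 12 * K`, `K = 2 * m₂ * (∑ C j + Ce)`, `m = N₁ * m₀ + 12 * m₂`, `q j = 12 * m₂`, `qA = 12 * m₂`; the section `g = g₀ ^ N₁ * g₂ ^ 12 ∈ CoefSec M S' y m (fun _ => 12 m₂)`
(`CoefSec.mul`, `CoefSec.pow`), `2 * (∑ C j q j + Ce qA) ≤ m`.  `m - qA = 12 K m₀`: if `a.sec ≠ 0` take `r₁ = 3 K m₀`, `r₂ = 0`, otherwise `b.sec ≠ 0`, `r₁ = 0`, `r₂ = 2 K m₀`.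
Everything is then raised to the power `m₁` and multiplied with `h₀ ^ m`: total weight `m₁ * m`, `hh : h₀ ^ m ∈ WOrb k E x (m₁ * m)` (`WOrb.pow`).
The element `U₀ = h₀ ^ m * g ^ m₁ * (∏ j, (D j).a (l₀ j) ^ (m₁ q j) / sec_j ^ (m₁ q j)) * β₀ ^ (m₁ m₂) * (a.sec ^ (m₁ r₁) * b.sec ^ (m₁ r₂)) / v ^ (m₁ m)`, `(D j).a (l₀ j) ≠ 0`, is good by
`mem_good`, and nonzero.  The following variants are good, too, so the corresponding quotients are in `Ratios k E fam` (as in `Mov.core`):
 `(f h₀) ^ m` in place of `h₀ ^ m` (`f` with `f h₀ ∈ WOrb k E x m₁`): `f ^ m`;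
 one factor `g₀ ^ N₁ g₂ ^ 12` replaced by `g₀ ^ N₁ g₂ ^ 11 (φ_i g₂)`: `φ_i`;
 one coefficient `(D j).a l'` replaced by `(D j).a l`: `(D j).a l / (D j).a l'`;
 `β₀ ^ (m₁ m₂)` replaced by `β ^ (m₁ m₂)` resp. `β ^ (m₁ m₂ - 1) α` for `α, β ∈ weightTwelve a b`, `β ≠ 0`: `α / β` (`mem_NumA_twelve`, `NumA.mul`, `NumA.pow`; `α / β = 0` if `β = 0`).
Independence: `Twr.indep3` (Pf72953t/Ind.lean) with `G := IntermediateField.adjoin k {u}` (of transcendence degree one; `u` is transcendental over `k`), `ψ` empty, applied to `ξ'_i = ξ_i ^ m`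
(algebraic over `B`) and `φ`; or any other argument: `ξ'` is algebraically independent over `k` and algebraic over `B`, `φ` is algebraically independent in `Y/k`, hence
over the algebraic closure of `B` in `N` (`tot_indep` as in `Mov.core`).
Conclude by `Twr.of_good'` (Pf72953t/GoodUp.lean).
-/

set_option autoImplicit false
set_option linter.style.haveILetI false

open scoped WithZero
open Pf72953 Pf72953.Var Pf72953.Mov

namespace Pf72953.Ell

namespace CoreEAux

section weier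

variable {P N : Type*} [Field P] [Field N] [Algebra P N] {a b : P} {u v : N}

theorem alg_adjoin (heq : v ^ 2 = u ^ 3 + algebraMap P N a * u + algebraMap P N b)
    (hgen : ∀ z : N, z ∈ IntermediateField.adjoin P {u, v}) (z : N) :
    IsAlgebraic (IntermediateField.adjoin P {u}) z := by
  have hu : u ∈ IntermediateField.adjoin P ({u} : Set N) := IntermediateField.subset_adjoin P _ rfl
  have hv : IsAlgebraic (IntermediateField.adjoin P ({u} : Set N)) v := by
    have hc : v ^ 2 ∈ IntermediateField.adjoin P ({u} : Set N) := by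
      rw [heq]
      exact add_mem (add_mem (pow_mem hu 3) (mul_mem (IntermediateField.algebraMap_mem _ a) hu))
        (IntermediateField.algebraMap_mem _ b)
    have h1 : IsIntegral (IntermediateField.adjoin P ({u} : Set N)) (v ^ 2) :=
      isIntegral_algebraMap (x := (⟨v ^ 2, hc⟩ : IntermediateField.adjoin P ({u} : Set N)))
    exact (IsIntegral.of_pow (n := 2) (by norm_num) h1).isAlgebraic
  have hle : IntermediateField.adjoin P ({u, v} : Set N) ≤
      (algebraicClosure (IntermediateField.adjoin P ({u} : Set N)) N).restrictScalars P := by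
    rw [IntermediateField.adjoin_le_iff]
    rintro z (rfl | hz)
    · exact mem_algebraicClosure_iff.2
        (isAlgebraic_algebraMap (⟨z, hu⟩ : IntermediateField.adjoin P ({z} : Set N)))
    · rw [Set.mem_singleton_iff] at hz
      subst hz
      exact mem_algebraicClosure_iff.2 hv
  exact mem_algebraicClosure_iff.1 (hle (hgen z))

theorem u_trans {k : Type*} [Field k] [Algebra k P] [Algebra k N] [IsScalarTower k P N]
    [Algebra.EssFiniteType k P] (hdim : dimension k P + 1 = dimension k N)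
    (halg : ∀ z : N, IsAlgebraic (IntermediateField.adjoin P {u}) z) : ¬ IsAlgebraic P u := by
  intro hu
  haveI h1 : Algebra.IsAlgebraic P (IntermediateField.adjoin P ({u} : Set N)) :=
    IntermediateField.isAlgebraic_adjoin_simple hu.isIntegral
  haveI h2 : Algebra.IsAlgebraic (IntermediateField.adjoin P ({u} : Set N)) N := ⟨halg⟩
  haveI h3 : Algebra.IsAlgebraic P N :=
    Algebra.IsAlgebraic.trans P (IntermediateField.adjoin P ({u} : Set N)) N
  obtain ⟨z, hz⟩ := exists_tb k P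
  have h4 : IsTranscendenceBasis k (algebraMap P N ∘ z) := hz.algebraMap_comp
  have h5 := card_eq_of_isTranscendenceBasis h4
  rw [Fintype.card_fin] at h5
  omega

theorem v_ne (heq : v ^ 2 = u ^ 3 + algebraMap P N a * u + algebraMap P N b)
    (hu : ¬ IsAlgebraic P u) : v ≠ 0 := by
  intro hv
  apply hu
  open Polynomial in
  refine ⟨X ^ 3 + C a * X + C b, ?_, ?_⟩
  · intro h
    have h1 := congrArg (fun p : P[X] => p.coeff 3) h
    simp [Polynomial.coeff_X, Polynomial.coeff_C] at h1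
  · rw [hv] at heq
    simp only [map_add, map_mul, map_pow, Polynomial.aeval_X, Polynomial.aeval_C]
    rw [← heq]
    ring

end weier

section ratios

variable {k E L ι : Type*} [Field k] [CharZero k] [Field E] [Field L] [Algebra k E] [Algebra k L]
  [Algebra E L] [Fintype ι] [DecidableEq ι]

theorem ratios_pow {a : ι → L} {θ : L} (h : θ ∈ Ratios k E a) {m : ℕ} (hm : 1 ≤ m) :
    θ ^ m ∈ Ratios k E a := by
  obtain ⟨m', hm', V, hV, hVne, hθV⟩ := h
  refine ⟨m * m', Nat.one_le_iff_ne_zero.mpr (Nat.mul_ne_zero (by omega) (by omega)),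
    V ^ m, ?_, pow_ne_zero _ hVne, ?_⟩
  · intro w hw c t hc ht htb
    have h1 := hV w hw c t hc ht htb
    rw [map_pow, mul_comm m m', pow_mul, ← mul_pow]
    exact pow_le_one' h1 m
  · intro w hw c t hc ht htb
    have h1 := hθV w hw c t hc ht htb
    rw [← mul_pow, map_pow, mul_comm m m', pow_mul, ← mul_pow]
    exact pow_le_one' h1 m

theorem ratios_zero {a : ι → L} (h : (1 : L) ∈ Ratios k E a) : (0 : L) ∈ Ratios k E a := by
  obtain ⟨m', hm', V, hV, hVne, -⟩ := h
  refine ⟨m', hm', V, hV, hVne, ?_⟩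
  rw [zero_mul]
  intro w _ c t _ _ htb
  simp

end ratios

theorem secCost_mono {k B Y P : Type*} [Field k] [CharZero k] [Field B] [Field Y] [Field P]
    [Algebra k B] [Algebra k Y] [Algebra k P] [Algebra B P] [Algebra Y P] [IsScalarTower k B P]
    [IsScalarTower k Y P] {M : SmoothModel k Y} {A : LineBundle M} {wt : ℕ}
    {a : MovingSection M A wt B P} {C C' : ℕ} (h : SecCost k a C) (hC : C ≤ C') :
    SecCost k a C' := by
  intro i cB hcB hz w hA c hc l
  refine le_trans ?_ (h i cB hcB hz w hA c hc l)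
  exact mul_le_mul' (pow_le_pow_right_of_le_one' (relvol_le_one hcB hA hc) hC) le_rfl

theorem coefSec_congr {k Y J : Type*} [Field k] [CharZero k] [Field Y] [Algebra k Y] [Fintype J]
    {M : SmoothModel k Y} {S : J → LineBundle M} {y : Fin (dimension k Y) → Y} {m m' : ℕ}
    {q q' : J → ℕ} {g g' : Y} (h : g ∈ CoefSec M S y m q) (hm : m = m') (hq : ∀ j, q j = q' j)
    (hg : g = g') : g' ∈ CoefSec M S y m' q' := by
  obtain rfl : q = q' := funext hq
  subst hm hg
  exact h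

end CoreEAux

open CoreEAux

variable {k B E Y Z P L N J : Type*} [Field k] [CharZero k] [IsAlgClosed k] [Field B] [Field E]
  [Field Y] [Field Z] [Field P] [Field L] [Field N]
  [Algebra k B] [Algebra k E] [Algebra k Y] [Algebra k Z] [Algebra k P] [Algebra k L] [Algebra k N]
  [Algebra B E] [Algebra B Z] [Algebra B P] [Algebra B L] [Algebra B N]
  [Algebra E L] [Algebra E N] [Algebra Y Z] [Algebra Y P] [Algebra Y L] [Algebra Y N]
  [Algebra Z P] [Algebra Z L] [Algebra Z N] [Algebra P N] [Algebra L N]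
  [IsScalarTower k B E] [IsScalarTower k B Z] [IsScalarTower k B P] [IsScalarTower k B L]
  [IsScalarTower k B N] [IsScalarTower k E L] [IsScalarTower k E N]
  [IsScalarTower k Y Z] [IsScalarTower k Y P] [IsScalarTower k Y L] [IsScalarTower k Y N]
  [IsScalarTower k Z P] [IsScalarTower k Z L] [IsScalarTower k Z N] [IsScalarTower k P N]
  [IsScalarTower k L N] [IsScalarTower B E L] [IsScalarTower B E N]
  [IsScalarTower B Z P] [IsScalarTower B Z L] [IsScalarTower B Z N] [IsScalarTower B P N]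
  [IsScalarTower B L N] [IsScalarTower Y Z P] [IsScalarTower Y Z L] [IsScalarTower Y Z N]
  [IsScalarTower Y P N] [IsScalarTower Y L N] [IsScalarTower Z P N] [IsScalarTower Z L N]
  [IsScalarTower E L N]
  [Algebra.EssFiniteType k B] [Algebra.EssFiniteType k Y] [Algebra.EssFiniteType k E]
  [FiniteDimensional E L] [FiniteDimensional E N] [FiniteDimensional L N] [FiniteDimensional Z P]
  [Fintype J] {M : SmoothModel k Y} {A : LineBundle M}

theorem coreE (hcomp : Twr.IsCompositum k B Y Z)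
    (hdim : dimension k B + dimension k Y + 1 = dimension k E) (hunr : Unramified k B E L)
    {a : MovingSection M A 4 B P} {b : MovingSection M A 6 B P} {u v : N}
    (hW : IsWeierstrass k Z a b u v) {s g : L} (hdef : DefinedOver Z u v s g)
    (D : J → MovingDivisor M B P) (hram : ∀ j, RamifiedOver (N := N) k L (D j))
    (hM : KodairaGE k Y 0) {x : Fin (dimension k B) → B} (hx : IsTranscendenceBasis k x) {m₁ : ℕ}
    (hm₁ : 1 ≤ m₁) {h₀ : B} (hh₀ : h₀ ∈ WOrb k E x m₁) (hh₀ne : h₀ ≠ 0) {n n' : ℕ}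
    {ξ : Fin n → N} (hξ : AlgebraicIndependent k ξ)
    (hξ' : ∀ i, (∃ f : B, ξ i = algebraMap B N f ∧ f * h₀ ∈ WOrb k E x m₁) ∨
      (∃ θ ∈ weightRatios a b, ξ i = algebraMap P N θ) ∨
      ∃ j, ∃ θ ∈ (D j).ratios, ξ i = algebraMap P N θ)
    (hb : LogKodairaGE M (bundles A fun j => (D j).S) n') : KodairaGE k E (n + n') := by
  classical
  haveI : Algebra.EssFiniteType k Z := essFinite_Z hcomp
  haveI : Algebra.EssFiniteType k P := Algebra.EssFiniteType.comp k Z P
  haveI : Algebra.EssFiniteType k N := Algebra.EssFiniteType.comp k E N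
  have halgu := alg_adjoin hW.eqn hW.gen
  obtain ⟨hdZ, hdP, hdN, hbZ, hbN⟩ := bases hcomp hdim halgu
  have hdPN : dimension k P + 1 = dimension k N := by omega
  have hvne : v ≠ 0 := v_ne hW.eqn (u_trans hdPN halgu)
  obtain ⟨y, hy⟩ := exists_tb k Y
  have hbP : ∀ {x : Fin (dimension k B) → B} {y : Fin (dimension k Y) → Y},
      IsTranscendenceBasis k x → IsTranscendenceBasis k y → IsTranscendenceBasis k
        (Sum.elim (fun i => algebraMap B P (x i)) (fun j => algebraMap Y P (y j))) := by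
    intro x y hx hy
    have h1 : IsTranscendenceBasis k (algebraMap Z P ∘ (Sum.elim (fun i => algebraMap B Z (x i))
      (fun j => algebraMap Y Z (y j)))) := (hbZ hx hy).algebraMap_comp
    convert h1 using 1
    funext i
    rcases i with i | i
    · exact IsScalarTower.algebraMap_apply B Z P _
    · exact IsScalarTower.algebraMap_apply Y Z P _
  set fam : (Fin (dimension k B) ⊕ Fin (dimension k Y)) ⊕ Unit → N :=
    Sum.elim (Sum.elim (fun i => algebraMap B N (x i)) (fun j => algebraMap Y N (y j)))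
      (fun _ : Unit => u) with hfam
  have hfamtb : IsTranscendenceBasis k fam := by
    have h1 := hbN (hbP hx hy)
    convert h1 using 1
    funext i
    rcases i with (i | i) | i
    · exact IsScalarTower.algebraMap_apply B P N _
    · exact IsScalarTower.algebraMap_apply Y P N _
    · rfl
  haveI hMne : Nonempty M.I := by
    obtain ⟨i, -⟩ := M.cover 1 (fun c hc => Valuation.one_apply_of_ne_zero (by simpa using hc))
    exact ⟨i⟩
  -- the forms on `M`
  obtain ⟨m₀, hm₀, ω₀, hω₀, hω₀ne⟩ := Br.pos_of_kodaira M (bundles A fun j => (D j).S) hM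
  obtain ⟨m₂, hm₂, η₀, hη₀, hη₀ne, φ, hφ, hφη⟩ := hb
  set g₀ := coef hy m₀ ω₀ with hg₀
  set g₂ := coef hy m₂ η₀ with hg₂
  have hg₀mem := (mem_pluriSections_iff hy ω₀).mp hω₀
  have hg₂mem := (mem_pluriSections_iff hy η₀).mp hη₀
  rw [← hg₀] at hg₀mem
  rw [← hg₂] at hg₂mem
  have hg₀ne : g₀ ≠ 0 := fun h0 => hω₀ne (by rw [eq_coef_smul hy m₀ ω₀, ← hg₀, h0, zero_smul])
  have hg₂ne : g₂ ≠ 0 := fun h0 => hη₀ne (by rw [eq_coef_smul hy m₂ η₀, ← hg₂, h0, zero_smul])
  have hφmem : ∀ i, φ i * g₂ ∈ CoefSec M (bundles A fun j => (D j).S) y m₂ (fun _ => m₂) :=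
    fun i => by
    have := (mem_pluriSections_iff hy _).mp (hφη i)
    rwa [map_smul, smul_eq_mul] at this
  -- the certificates
  choose C hC using fun j => exists_cert (D j)
  obtain ⟨Ca, hCa'⟩ := exists_secCost a
  obtain ⟨Cb, hCb'⟩ := exists_secCost b
  obtain ⟨Ce, hCe⟩ : ∃ Ce, Ce = max Ca Cb := ⟨_, rfl⟩
  have hCa : SecCost k a Ce := secCost_mono hCa' (by rw [hCe]; exact le_max_left _ _)
  have hCb : SecCost k b Ce := secCost_mono hCb' (by rw [hCe]; exact le_max_right _ _)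
  -- a nonzero monomial
  obtain ⟨β₀, hβ₀, hβ₀ne⟩ : ∃ β ∈ weightTwelve a b, β ≠ 0 := by
    by_contra hcon
    push Not at hcon
    have ha0 : ∀ l, a.a l = 0 := fun l =>
      (pow_eq_zero_iff (by norm_num)).1 (hcon (a.a l ^ 3) (Or.inl ⟨l, rfl⟩))
    have hb0 : ∀ l, b.a l = 0 := fun l =>
      (pow_eq_zero_iff (by norm_num)).1 (hcon (b.a l ^ 2) (Or.inr ⟨l, rfl⟩))
    refine hW.disc ?_
    have h1 : a.sec = 0 := by simp [MovingSection.sec, ha0]
    have h2 : b.sec = 0 := by simp [MovingSection.sec, hb0]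
    rw [h1, h2]
    ring
  -- the weights
  obtain ⟨K, hK⟩ : ∃ K, K = 2 * m₂ * (∑ j, C j + Ce) := ⟨_, rfl⟩
  obtain ⟨Q, hQ⟩ : ∃ Q, Q = 12 * m₂ := ⟨_, rfl⟩
  obtain ⟨m, hm⟩ : ∃ m, m = 12 * K * m₀ + Q := ⟨_, rfl⟩
  have hQ1 : 1 ≤ Q := by omega
  have hm1 : 1 ≤ m := by omega
  obtain ⟨r₁, r₂, hr, hrne⟩ : ∃ r₁ r₂ : ℕ, 4 * r₁ + 6 * r₂ = 12 * K * m₀ ∧
      a.sec ^ r₁ * b.sec ^ r₂ ≠ 0 := by
    by_cases ha : a.sec = 0
    · have hb : b.sec ≠ 0 := by
        intro hb
        apply hW.disc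
        rw [ha, hb]
        ring
      exact ⟨0, 2 * (K * m₀), by ring, by
        rw [pow_zero, one_mul]
        exact pow_ne_zero _ hb⟩
    · exact ⟨3 * (K * m₀), 0, by ring, by
        rw [pow_zero, mul_one]
        exact pow_ne_zero _ ha⟩
  have hqm : 2 * (∑ j, C j * (m₁ * Q) + Ce * (m₁ * Q)) ≤ m₁ * m := by
    have h1 : 2 * (∑ j, C j * (m₁ * Q) + Ce * (m₁ * Q)) = m₁ * (12 * K * 1) := by
      rw [← Finset.sum_mul, hK, hQ]
      ring
    rw [h1, hm]
    refine Nat.mul_le_mul_left _ (le_trans (Nat.mul_le_mul_left _ hm₀) (Nat.le_add_right _ _))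
  have hmr : m₁ * Q + 4 * (m₁ * r₁) + 6 * (m₁ * r₂) = m₁ * m := by
    rw [hm, ← hr]
    ring
  have hM1 : 1 ≤ m₁ * m := Nat.one_le_iff_ne_zero.mpr (Nat.mul_ne_zero (by omega) (by omega))
  -- the forms
  have hg : g₀ ^ (12 * K) * g₂ ^ 12 ∈ CoefSec M (bundles A fun j => (D j).S) y m (fun _ => Q) :=
    coefSec_congr (CoefSec.mul (CoefSec.pow hg₀mem (12 * K)) (CoefSec.pow hg₂mem 12))
      (by rw [hm, hQ]) (fun _ => by rw [hQ]; ring) rfl
  have hgφ : ∀ i, g₀ ^ (12 * K) * (g₂ ^ 11 * (φ i * g₂)) ∈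
      CoefSec M (bundles A fun j => (D j).S) y m (fun _ => Q) := fun i =>
    coefSec_congr (CoefSec.mul (CoefSec.pow hg₀mem (12 * K))
      (CoefSec.mul (CoefSec.pow hg₂mem 11) (hφmem i)))
      (by rw [hm, hQ]; ring) (fun _ => by rw [hQ]; ring) rfl
  have hgM : (g₀ ^ (12 * K) * g₂ ^ 12) ^ m₁ ∈
      CoefSec M (bundles A fun j => (D j).S) y (m₁ * m) (fun _ => m₁ * Q) := CoefSec.pow hg m₁
  have hh : h₀ ^ m ∈ WOrb k E x (m₁ * m) := WOrb.pow hh₀ m
  choose l₀ hl₀ using fun j => (D j).a_ne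
  have hnum : ∀ j, (D j).a (l₀ j) ^ (m₁ * Q) ∈ Num (D j) (m₁ * Q) := fun j => by
    have := Num.pow (Num.coeff (D := D j) (l₀ j)) (m₁ * Q)
    rwa [one_mul] at this
  have hsec0 : ∀ j, (D j).sec ≠ 0 := fun j => sec_ne_zero (D j) hbP hx
  have hν₀ : β₀ ^ (m₁ * m₂) ∈ NumA a b (m₁ * Q) := by
    have h1 := NumA.pow (mem_NumA_twelve hβ₀) (m₁ * m₂)
    have h2 : 12 * (m₁ * m₂) = m₁ * Q := by rw [hQ]; ring
    rwa [h2] at h1
  set T : B → Y → (J → P) → P → N := fun h g β ν => algebraMap B N h * algebraMap Y N g *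
      algebraMap P N ((∏ j, β j / (D j).sec ^ (m₁ * Q)) * ν *
        (a.sec ^ (m₁ * r₁) * b.sec ^ (m₁ * r₂))) / v ^ (m₁ * m) with hT
  have hopt : (fun _ : Option J => m₁ * Q) = (fun o : Option J => o.elim (m₁ * Q)
      (fun _ => m₁ * Q)) := by
    funext o
    cases o <;> rfl
  have key : ∀ {h : B}, h ∈ WOrb k E x (m₁ * m) → ∀ {g : Y},
      g ∈ CoefSec M (bundles A fun j => (D j).S) y (m₁ * m) (fun _ => m₁ * Q) →
      ∀ {β : J → P}, (∀ j, β j ∈ Num (D j) (m₁ * Q)) → ∀ {ν : P}, ν ∈ NumA a b (m₁ * Q) →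
      T h g β ν ∈ GoodL k E fam (m₁ * m) := by
    intro h hh g hg β hβ ν hν
    rw [hopt] at hg
    exact mem_good hcomp hdim hunr hW hdef D hram hC hCa hCb hx hy hmr hqm hh hg hβ hν
  set b₀ : J → P := fun j => (D j).a (l₀ j) ^ (m₁ * Q) with hb₀
  set G₀ : Y := (g₀ ^ (12 * K) * g₂ ^ 12) ^ m₁ with hG₀
  have hG₀ne : G₀ ≠ 0 := pow_ne_zero _ (mul_ne_zero (pow_ne_zero _ hg₀ne) (pow_ne_zero _ hg₂ne))
  have hb₀ne : ∀ j, b₀ j ≠ 0 := fun j => pow_ne_zero _ (hl₀ j)
  have hrne' : a.sec ^ (m₁ * r₁) * b.sec ^ (m₁ * r₂) ≠ 0 := by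
    have h1 : a.sec ^ (m₁ * r₁) * b.sec ^ (m₁ * r₂) = (a.sec ^ r₁ * b.sec ^ r₂) ^ m₁ := by
      rw [mul_pow, ← pow_mul, ← pow_mul, mul_comm r₁, mul_comm r₂]
    rw [h1]
    exact pow_ne_zero _ hrne
  have hTne : ∀ {β : J → P} {ν : P}, (∀ j, β j ≠ 0) → ν ≠ 0 → T (h₀ ^ m) G₀ β ν ≠ 0 := by
    intro β ν hβ hν
    refine div_ne_zero (mul_ne_zero (mul_ne_zero ?_ ?_) ?_) (pow_ne_zero _ hvne)
    · simpa using pow_ne_zero _ hh₀ne
    · simpa using hG₀ne
    · rw [Ne, map_eq_zero]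
      refine mul_ne_zero (mul_ne_zero (Finset.prod_ne_zero_iff.mpr fun j _ => ?_) hν) hrne'
      exact div_ne_zero (hβ j) (pow_ne_zero _ (hsec0 j))
  have hν₀ne : β₀ ^ (m₁ * m₂) ≠ 0 := pow_ne_zero _ hβ₀ne
  set U : N := T (h₀ ^ m) G₀ b₀ (β₀ ^ (m₁ * m₂)) with hU
  have hUmem : U ∈ GoodL k E fam (m₁ * m) := key hh hgM hnum hν₀
  have hUne : U ≠ 0 := hTne hb₀ne hν₀ne
  -- the ratios
  have hR1 : (1 : N) ∈ Ratios k E fam := ⟨m₁ * m, hM1, U, hUmem, hUne, by rwa [one_mul]⟩
  have hRB : ∀ f : B, f * h₀ ∈ WOrb k E x m₁ → algebraMap B N (f ^ m) ∈ Ratios k E fam := by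
    intro f hf
    refine ⟨m₁ * m, hM1, U, hUmem, hUne, ?_⟩
    have h1 := key (WOrb.pow hf m) hgM hnum hν₀
    have h2 : algebraMap B N (f ^ m) * U = T ((f * h₀) ^ m) G₀ b₀ (β₀ ^ (m₁ * m₂)) := by
      rw [hU, hT]
      simp only
      rw [mul_pow f h₀ m, map_mul (algebraMap B N)]
      ring
    rw [h2]
    exact h1
  have hRY : ∀ i, algebraMap Y N (φ i) ∈ Ratios k E fam := by
    intro i
    refine ⟨m₁ * m, hM1, U, hUmem, hUne, ?_⟩
    obtain ⟨p, hp⟩ : ∃ p, m₁ = p + 1 := ⟨m₁ - 1, by omega⟩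
    have h0 : (g₀ ^ (12 * K) * g₂ ^ 12) ^ p * (g₀ ^ (12 * K) * (g₂ ^ 11 * (φ i * g₂))) ∈
        CoefSec M (bundles A fun j => (D j).S) y (m₁ * m) (fun _ => m₁ * Q) :=
      coefSec_congr (CoefSec.mul (CoefSec.pow hg p) (hgφ i)) (by rw [hp]; ring)
        (fun _ => by rw [hp]; ring) rfl
    have h1 := key hh h0 hnum hν₀
    have h3 : φ i * G₀ = (g₀ ^ (12 * K) * g₂ ^ 12) ^ p *
        (g₀ ^ (12 * K) * (g₂ ^ 11 * (φ i * g₂))) := by
      have h4 : G₀ = (g₀ ^ (12 * K) * g₂ ^ 12) ^ p * (g₀ ^ (12 * K) * g₂ ^ 12) := by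
        rw [hG₀, ← pow_succ, ← hp]
      rw [h4]
      ring
    have h2 : algebraMap Y N (φ i) * U = T (h₀ ^ m) ((g₀ ^ (12 * K) * g₂ ^ 12) ^ p *
        (g₀ ^ (12 * K) * (g₂ ^ 11 * (φ i * g₂)))) b₀ (β₀ ^ (m₁ * m₂)) := by
      rw [← h3, hU, hT]
      simp only
      rw [map_mul (algebraMap Y N)]
      ring
    rw [h2]
    exact h1
  have hRW : ∀ θ ∈ weightRatios a b, algebraMap P N θ ∈ Ratios k E fam := by
    rintro θ ⟨α, hα, β, hβ, rfl⟩
    by_cases hβ0 : β = 0
    · rw [hβ0, div_zero, map_zero]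
      exact ratios_zero hR1
    · have hpos1 : 1 ≤ m₁ * m₂ := Nat.one_le_iff_ne_zero.mpr (Nat.mul_ne_zero (by omega) (by omega))
      obtain ⟨p, hp⟩ : ∃ p, m₁ * m₂ = p + 1 := ⟨m₁ * m₂ - 1, by omega⟩
      have hn : ∀ γ ∈ weightTwelve a b, γ * β ^ p ∈ NumA a b (m₁ * Q) := by
        intro γ hγ
        have h1 := NumA.mul (mem_NumA_twelve hγ) (NumA.pow (mem_NumA_twelve hβ) p)
        have h2 : 12 + 12 * p = m₁ * Q := by
          have h3 : m₁ * Q = 12 * (m₁ * m₂) := by rw [hQ]; ring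
          rw [h3, hp]
          ring
        rwa [h2] at h1
      refine ⟨m₁ * m, hM1, T (h₀ ^ m) G₀ b₀ (β * β ^ p), key hh hgM hnum (hn β hβ),
        hTne hb₀ne (mul_ne_zero hβ0 (pow_ne_zero _ hβ0)), ?_⟩
      have h1 := key hh hgM hnum (hn α hα)
      have h2 : algebraMap P N (α / β) * T (h₀ ^ m) G₀ b₀ (β * β ^ p) =
          T (h₀ ^ m) G₀ b₀ (α * β ^ p) := by
        have h3 : α * β ^ p = (α / β) * (β * β ^ p) := by
          field_simp
        rw [h3, hT]
        simp only [map_mul]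
        ring
      rw [h2]
      exact h1
  have hRD : ∀ θ : P, (∃ j, θ ∈ (D j).ratios) → algebraMap P N θ ∈ Ratios k E fam := by
    rintro θ ⟨j, l, l', rfl⟩
    by_cases hl' : (D j).a l' = 0
    · rw [hl', div_zero, map_zero]
      exact ratios_zero hR1
    · have hpos1 : 1 ≤ m₁ * Q := Nat.one_le_iff_ne_zero.mpr
        (Nat.mul_ne_zero (by omega) (by omega))
      obtain ⟨p, hp⟩ : ∃ p, m₁ * Q = p + 1 := ⟨m₁ * Q - 1, by omega⟩
      have hn1 : ∀ l₁ : Fin ((D j).r + 1),
          (D j).a l₁ * (D j).a l' ^ p ∈ Num (D j) (m₁ * Q) := by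
        intro l₁
        have := Mov.Num.mul (Mov.Num.coeff (D := D j) l₁) (Mov.Num.pow (Mov.Num.coeff (D := D j) l') p)
        rw [one_mul, add_comm 1 p, ← hp] at this
        exact this
      have hbn : ∀ l₁ : Fin ((D j).r + 1), ∀ j', Function.update b₀ j
          ((D j).a l₁ * (D j).a l' ^ p) j' ∈ Num (D j') (m₁ * Q) := by
        intro l₁ j'
        by_cases hj : j' = j
        · subst hj
          rw [Function.update_self]
          exact hn1 l₁
        · rw [Function.update_of_ne hj]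
          exact hnum j'
      have h1 := key hh hgM (hbn l') hν₀
      have h2 := key hh hgM (hbn l) hν₀
      have hprod : ∀ l₁ : Fin ((D j).r + 1), ∏ j', Function.update b₀ j
          ((D j).a l₁ * (D j).a l' ^ p) j' / (D j').sec ^ (m₁ * Q) =
          (D j).a l₁ * ((D j).a l' ^ p / (D j).sec ^ (m₁ * Q) *
            ∏ j' ∈ Finset.univ.erase j, b₀ j' / (D j').sec ^ (m₁ * Q)) := by
        intro l₁
        rw [← Finset.mul_prod_erase Finset.univ _ (Finset.mem_univ j), Function.update_self]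
        have h5 : ∏ j' ∈ Finset.univ.erase j, Function.update b₀ j
            ((D j).a l₁ * (D j).a l' ^ p) j' / (D j').sec ^ (m₁ * Q) =
            ∏ j' ∈ Finset.univ.erase j, b₀ j' / (D j').sec ^ (m₁ * Q) :=
          Finset.prod_congr rfl fun j' hj' => by
            rw [Function.update_of_ne (Finset.ne_of_mem_erase hj')]
        rw [h5]
        ring
      refine ⟨m₁ * m, hM1, _, h1, ?_, ?_⟩
      · refine hTne (fun j' => ?_) hν₀ne
        by_cases hj : j' = j
        · subst hj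
          rw [Function.update_self]
          exact mul_ne_zero hl' (pow_ne_zero _ hl')
        · rw [Function.update_of_ne hj]
          exact hb₀ne j'
      · have h3 : algebraMap P N ((D j).a l / (D j).a l') *
            T (h₀ ^ m) G₀ (Function.update b₀ j ((D j).a l' * (D j).a l' ^ p)) (β₀ ^ (m₁ * m₂)) =
            T (h₀ ^ m) G₀ (Function.update b₀ j ((D j).a l * (D j).a l' ^ p)) (β₀ ^ (m₁ * m₂)) := by
          rw [hT]
          simp only
          rw [hprod, hprod]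
          have h6 : ∀ c : P, (D j).a l * c = ((D j).a l / (D j).a l') * ((D j).a l' * c) := by
            intro c
            field_simp
          rw [h6]
          simp only [map_mul]
          ring
        rw [h3]
        exact h2
  -- the algebraically independent family
  have halg' : ∀ c : N, IsAlgebraic (Algebra.adjoin k
      (Set.range (algebraMap B N) ∪ Set.range (algebraMap Y N) ∪
        ⋃ i : Unit, Set.range ((fun _ _ => u : ∀ i : Unit, Fin 1 → N) i))) c := by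
    intro c
    have h1 : IsAlgebraic (Algebra.adjoin k (Set.range fam)) c := hfamtb.isAlgebraic.isAlgebraic c
    refine IsAlgebraic.tower_top_of_subalgebra_le (Algebra.adjoin_mono ?_) h1
    rintro _ ⟨(i | i) | i, rfl⟩
    · exact Or.inl (Or.inl ⟨x i, rfl⟩)
    · exact Or.inl (Or.inr ⟨y i, rfl⟩)
    · exact Or.inr (Set.mem_iUnion.2 ⟨(), 0, rfl⟩)
  -- replace the elements of the first type by powers
  set ξ' : Fin n → N := fun i => ξ i ^ m with hξ'def
  have hξ'' : AlgebraicIndependent k ξ' := algebraicIndependent_pow hξ hm1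
  have hNalg : ∀ {θ : P}, IsAlgebraic B θ → IsAlgebraic B (algebraMap P N θ) := by
    intro θ hθ
    exact hθ.algebraMap
  have hwalg : ∀ θ ∈ weightTwelve a b, IsAlgebraic B θ := by
    rintro θ (⟨l, rfl⟩ | ⟨l, rfl⟩)
    · exact (a.a_alg l).pow 3
    · exact (b.a_alg l).pow 2
  have hξB : ∀ i, IsAlgebraic B (ξ' i) := by
    intro i
    refine IsAlgebraic.pow ?_ m
    rcases hξ' i with ⟨f, hf, -⟩ | ⟨θ, ⟨α, hα, β, hβ, hθ⟩, hi⟩ | ⟨j, θ, ⟨l, l', hθ⟩, hi⟩
    · rw [hf]; exact isAlgebraic_algebraMap f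
    · rw [hi, hθ, div_eq_mul_inv]
      exact hNalg ((hwalg α hα).mul (hwalg β hβ).inv)
    · rw [hi, hθ, div_eq_mul_inv]
      exact hNalg (((D j).a_alg l).mul ((D j).a_alg l').inv)
  have hjoint := tot_indep (k := k) (B := B) (F := Y) (L := N) (I := Unit)
    (n := fun _ => 1) (fun _ _ => u) (fun _ _ => u) (by simp; omega)
    halg' ∅ (by simp) hξ'' hξB hφ
  set θ : Fin (n + n') → N := (Sum.elim ξ' (fun j => algebraMap Y N (φ j))) ∘ finSumFinEquiv.symm
    with hθ
  have hθind : AlgebraicIndependent k θ := by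
    have h1 := hjoint.comp (Sum.map id Sum.inl : Fin n ⊕ Fin n' → _)
      (Function.Injective.sumMap Function.injective_id Sum.inl_injective)
    have h2 : (Sum.elim ξ' (fun j => algebraMap Y N (φ j))) =
        (Sum.elim ξ' (Sum.elim (fun j => algebraMap Y N (φ j))
          (fun q : Σ i : (∅ : Finset Unit), Fin 1 => u))) ∘
          (Sum.map id Sum.inl : Fin n ⊕ Fin n' → _) := by
      funext i
      rcases i with i | i <;> rfl
    rw [hθ, h2]
    exact h1.comp _ finSumFinEquiv.symm.injective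
  refine Twr.of_good' (a := fam) hfamtb hθind (fun i => ?_) hR1
  rw [hθ]
  simp only [Function.comp_apply]
  rcases finSumFinEquiv.symm i with i' | j'
  · simp only [Sum.elim_inl]
    rw [hξ'def]
    simp only
    rcases hξ' i' with ⟨f, hf, hfm⟩ | ⟨θ', hθ', hi⟩ | ⟨j, θ', hθ', hi⟩
    · rw [hf, ← map_pow]
      exact hRB f hfm
    · rw [hi]
      exact ratios_pow (hRW θ' hθ') hm1
    · rw [hi]
      exact ratios_pow (hRD θ' ⟨j, hθ'⟩) hm1
  · simp only [Sum.elim_inr]
    exact hRY j'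

end Pf72953.Ell
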