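import Mathlib
import Pool.Agent.Lib.Pf72953u.Inst
import Pool.Agent.Lib.Pf72953b.NonVan
import Pool.Agent.Lib.Pf72953e.Defs
import Pool.Agent.Lib.Pf72953e.GaussE

/-!
MODULE Pf72953e.JacE: the curves `v² = u³ + a u + b` over `Z` themselves (Jacobian fibrations, no multiple fibres).

PROOF of `jac_generated` (`P = Z`, `N = L`, `s = u`, `g = v⁻¹`).  Let `i, T` be as in the definition of `GeneratedOutside`.  The coefficients of `a`, `b` are algebraic over `B`, so have `T ≤ 1`, and
`T a.sec ≤ T gen ^ 4`, `T b.sec ≤ T gen ^ 6`, `gen = A.gen i`.  `exists_gaussE` (GaussE.lean) gives `w` on `L` extending `T` with `w u' = 1`, `u' = u / gen²`, `w v = T gen ^ 3`, every value of `w` being a value of `T`; divisorial over `k` by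
`gaussE_divisorial`.  `T` is divisorial over `B` (`Mov.IsDivisorial.over`): take `c₁ : Fin n → Z`, adapted over `B` with uniformizer `t` (`exists_adapted`, `dimension B Z = dimension k Y` from `hyZ`).  `t` is a uniformizer of `w` (same values),
`(c₁, u')` is adapted to `w` over `B` (`gaussE_adapted`), so it is a regular basis of `L/B` (`Adapted.regBasis`); let `d a = pd (c₁, u') a`; they preserve the valuation ring of `w`.
`det (d_a (x_i, u)_b)`: block triangular (`d_(inr) x_i = 0`, `d_(inr) u = gen²`), equal to `jac c₁ x_i * gen ^ 2` (`pd_algebraMap`).  `w (jac c₁ x_i) = 1`: by `PrimeAt` the family `x_i` is a regular basis of `Z/B` for `T` (`Br.PrimeAt.regBasis`-type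
argument: `pd x_i a (x_b) = δ_ab`, so `PrimeAt.der` applies to `pd x_i a`), and so is `c₁`; `jac_mul_jac`, `RegBasis.jac_le`.  So the value in question is `w gen * (w v)⁻¹ * w gen ^ 2 = 1`.
PROOF of `jac_closed`.  `L = Z(u) ⊕ Z(u) v` (`v² ∈ Z(u)`, `v ∉ Z(u)` as `f` has odd degree).  Let `z = r₀ + r₁ v` be algebraic over `Z`.  The conjugate `r₀ - r₁ v` (image under the automorphism `v ↦ -v` of `L/Z(u)`) is algebraic, too, so `r₀` and
`r₁² f(u)` are in `Z(u)` and algebraic over `Z`, hence in `Z` (`Z` is algebraically closed in the rational function field `Z(u)`); if `r₁ ≠ 0`, `r₁² f = c ∈ Z`, `c ≠ 0`, contradicts that `f` has odd degree.  So `z = r₀ ∈ Z`.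
PROOF of `jac_connected`.  By `jac_closed` `z` is the image of `t ∈ Z`, and `t ∈ adjoin k (range B ∪ range Y)` (`hcomp`), which is contained in the field in question (elements of `B` are algebraic over `B`).
-/

set_option autoImplicit false
set_option linter.style.haveILetI false

open scoped WithZero
open Pf72953 Pf72953.Mov

namespace Pf72953.Ell.JacEAux

open Polynomial

section closed

variable {Z L : Type*} [Field Z] [Field L] [Algebra Z L] {u : L}

/-- the embedding of the rational function field -/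
noncomputable def phi (hu : Transcendental Z u) : RatFunc Z →ₐ[Z] L :=
  (IntermediateField.adjoin Z {u}).val.comp (RatFunc.algEquivOfTranscendental u hu).toAlgHom

theorem phi_poly (hu : Transcendental Z u) (p : Z[X]) :
    phi hu (algebraMap Z[X] (RatFunc Z) p) = aeval u p := by
  unfold phi
  rw [AlgHom.comp_apply]
  change (((RatFunc.algEquivOfTranscendental u hu) (algebraMap Z[X] (RatFunc Z) p) :
    IntermediateField.adjoin Z {u}) : L) = _
  rw [RatFunc.algEquivOfTranscendental_algebraMap]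
  simp

/-- the cubic polynomial -/
noncomputable def fh (a b : Z) : Z[X] := X ^ 3 + C a * X + C b

theorem natDegree_fh (a b : Z) : (fh a b).natDegree = 3 := by
  unfold fh
  compute_degree!

theorem fh_ne (a b : Z) : fh a b ≠ 0 := by
  intro h
  have := natDegree_fh a b
  rw [h] at this
  simp at this

theorem fhr_ne (a b : Z) : algebraMap Z[X] (RatFunc Z) (fh a b) ≠ 0 := by
  rw [Ne, FaithfulSMul.algebraMap_eq_zero_iff]
  exact fh_ne a b

theorem deg_odd (a b : Z) {r : RatFunc Z} (hr : r ≠ 0) :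
    RatFunc.intDegree (r ^ 2 * algebraMap Z[X] (RatFunc Z) (fh a b)) =
      2 * RatFunc.intDegree r + 3 := by
  rw [RatFunc.intDegree_mul (pow_ne_zero 2 hr) (fhr_ne a b), RatFunc.intDegree_polynomial,
    natDegree_fh, pow_two, RatFunc.intDegree_mul hr hr]
  push_cast
  ring

theorem ne_sq (a b : Z) {r s : RatFunc Z} (hr : r ≠ 0) :
    s ^ 2 ≠ r ^ 2 * algebraMap Z[X] (RatFunc Z) (fh a b) := by
  intro h
  have h1 : s ≠ 0 := by
    rintro rfl
    have := mul_ne_zero (pow_ne_zero 2 hr) (fhr_ne a b)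
    rw [← h] at this
    simp at this
  have h2 := congrArg RatFunc.intDegree h
  rw [deg_odd a b hr, pow_two, RatFunc.intDegree_mul h1 h1] at h2
  omega

theorem ne_C (a b d : Z) {r : RatFunc Z} (hr : r ≠ 0) :
    r ^ 2 * algebraMap Z[X] (RatFunc Z) (fh a b) ≠ RatFunc.C d := by
  intro h
  have h2 := congrArg RatFunc.intDegree h
  rw [deg_odd a b hr, RatFunc.intDegree_C] at h2
  omega

theorem rep (hu : Transcendental Z u) {v : L} {a b : Z}
    (hgen : ∀ z : L, z ∈ IntermediateField.adjoin Z {u, v})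
    (heq : v ^ 2 = u ^ 3 + algebraMap Z L a * u + algebraMap Z L b) (z : L) :
    ∃ r₀ r₁ : RatFunc Z, z = phi hu r₀ + phi hu r₁ * v := by
  have hv : v ^ 2 = phi hu (algebraMap Z[X] (RatFunc Z) (fh a b)) := by
    rw [phi_poly, heq, fh]
    simp
  induction hgen z using IntermediateField.adjoin_induction with
  | mem x hx =>
    rcases hx with rfl | hx
    · refine ⟨algebraMap Z[X] (RatFunc Z) X, 0, ?_⟩
      rw [phi_poly, map_zero, zero_mul, add_zero, aeval_X]
    · rw [Set.mem_singleton_iff] at hx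
      subst hx
      exact ⟨0, 1, by rw [map_zero, map_one]; ring⟩
  | algebraMap c =>
    exact ⟨algebraMap Z (RatFunc Z) c, 0, by rw [AlgHom.commutes, map_zero]; ring⟩
  | add x y _ _ hx hy =>
    obtain ⟨r₀, r₁, rfl⟩ := hx
    obtain ⟨s₀, s₁, rfl⟩ := hy
    exact ⟨r₀ + s₀, r₁ + s₁, by rw [map_add, map_add]; ring⟩
  | inv x _ hx =>
    obtain ⟨r₀, r₁, hx⟩ := hx
    rcases eq_or_ne x 0 with h0 | h0
    · exact ⟨0, 0, by rw [h0, map_zero, inv_zero]; ring⟩
    · have hD : r₀ ^ 2 - r₁ ^ 2 * algebraMap Z[X] (RatFunc Z) (fh a b) ≠ 0 := by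
        intro h
        rw [sub_eq_zero] at h
        rcases eq_or_ne r₁ 0 with h1 | h1
        · rw [h1] at h hx
          have h2 : r₀ = 0 := by
            rw [zero_pow two_ne_zero, zero_mul] at h
            exact pow_eq_zero_iff two_ne_zero |>.mp h
          rw [h2, map_zero] at hx
          exact h0 (by rw [hx]; ring)
        · exact ne_sq a b h1 h
      set Δ := r₀ ^ 2 - r₁ ^ 2 * algebraMap Z[X] (RatFunc Z) (fh a b) with hΔ
      have hD' : phi hu Δ ≠ 0 := by
        rw [Ne, map_eq_zero]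
        exact hD
      refine ⟨r₀ / Δ, -r₁ / Δ, ?_⟩
      rw [map_div₀, map_div₀, map_neg]
      have h3 : phi hu Δ = (phi hu r₀) ^ 2 - (phi hu r₁) ^ 2 * v ^ 2 := by
        rw [hΔ, map_sub, map_mul, map_pow, map_pow, hv]
      have h4 : x * (phi hu r₀ / phi hu Δ + -phi hu r₁ / phi hu Δ * v) = 1 := by
        rw [hx]
        have : (phi hu r₀ + phi hu r₁ * v) * (phi hu r₀ / phi hu Δ + -phi hu r₁ / phi hu Δ * v) =
            ((phi hu r₀) ^ 2 - (phi hu r₁) ^ 2 * v ^ 2) / phi hu Δ := by ring
        rw [this, ← h3, div_self hD']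
      exact inv_eq_of_mul_eq_one_right h4
  | mul x y _ _ hx hy =>
    obtain ⟨r₀, r₁, rfl⟩ := hx
    obtain ⟨s₀, s₁, rfl⟩ := hy
    refine ⟨r₀ * s₀ + r₁ * s₁ * algebraMap Z[X] (RatFunc Z) (fh a b), r₀ * s₁ + r₁ * s₀, ?_⟩
    rw [map_add, map_add, map_mul, map_mul, map_mul, map_mul, map_mul, ← hv]
    ring

theorem exists_C {r : RatFunc Z} (hr : IsAlgebraic Z r) : ∃ c, r = RatFunc.C c := by
  by_contra h
  exact RatFunc.transcendental_of_ne_C r h hr

end closed

end Pf72953.Ell.JacEAux

namespace Pf72953.Ell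

namespace JacEAux

section gen

/-- the dimension of `L/B` -/
theorem dim_BL {k B Z L ι : Type*} [Field k] [Field B] [Field Z] [Field L] [Algebra k B]
    [Algebra k Z] [Algebra k L] [Algebra B Z] [Algebra B L] [IsScalarTower k B Z]
    [IsScalarTower k B L] [FinTrdeg k Z] [FinTrdeg k L] [Fintype ι] {x : ι → Z}
    (hx : IsTranscendenceBasis B x) (hdim : dimension k L = dimension k Z + 1) :
    Fintype.card (ι ⊕ Unit) = dimension B L := by
  classical
  obtain ⟨sB, hsB⟩ := exists_isTranscendenceBasis k B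
  obtain ⟨sL, hsL⟩ := exists_isTranscendenceBasis B L
  have hZ := hsB.sumElim_comp hx
  have hL := hsB.sumElim_comp hsL
  haveI : Finite (ι ⊕ sB) := finite_of_isTranscendenceBasis hZ
  haveI : Finite (sL ⊕ sB) := finite_of_isTranscendenceBasis hL
  haveI : Finite sB := Finite.of_injective (Sum.inr : sB → ι ⊕ sB) Sum.inr_injective
  haveI : Finite sL := Finite.of_injective (Sum.inl : sL → sL ⊕ sB) Sum.inl_injective
  haveI := Fintype.ofFinite sB
  haveI := Fintype.ofFinite sL
  have h1 := card_eq_of_isTranscendenceBasis hZ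
  have h2 := card_eq_of_isTranscendenceBasis hL
  have h3 := card_eq_of_isTranscendenceBasis hsL
  rw [Fintype.card_sum] at h1 h2
  rw [Fintype.card_sum, Fintype.card_unit]
  omega

/-- the value of a moving section -/
theorem sec_le {k B Y Z : Type*} [Field k] [Field B] [Field Y] [Field Z] [Algebra k Y]
    [Algebra B Z] [Algebra Y Z] {M : SmoothModel k Y} {A : LineBundle M} {m : ℕ}
    (σ : MovingSection M A m B Z) {T : Valuation Z ℤᵐ⁰}
    (htriv : ∀ c : B, c ≠ 0 → T (algebraMap B Z c) = 1) {i : M.I}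
    (hA : ∀ f ∈ M.A i, T (algebraMap Y Z f) ≤ 1) :
    T σ.sec ≤ T (algebraMap Y Z (A.gen i)) ^ m := by
  unfold MovingSection.sec
  refine Valuation.map_sum_le _ fun l _ => ?_
  obtain ⟨f, hf, hs⟩ := σ.s_mem l i
  rw [hs, map_mul, map_mul, map_mul, map_pow, map_pow]
  have h1 : T (σ.a l) ≤ 1 := by
    rcases eq_or_ne (σ.a l) 0 with h | h
    · rw [h]; simp
    · exact (val_eq_one_of_isIntegral htriv h (σ.a_alg l).isIntegral).le
  calc T (σ.a l) * (T (algebraMap Y Z f) * T (algebraMap Y Z (A.gen i)) ^ m)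
      ≤ 1 * (1 * T (algebraMap Y Z (A.gen i)) ^ m) := by
        gcongr
        exact hA f hf
    _ = _ := by rw [one_mul, one_mul]

end gen

end JacEAux

section gen

variable {k B Y Z L : Type*} [Field k] [CharZero k] [Field B] [CharZero B] [Field Y] [Field Z]
  [Field L] [Algebra k B] [Algebra k Y] [Algebra k Z] [Algebra k L] [Algebra B Z] [Algebra B L]
  [Algebra Y Z] [Algebra Y L] [Algebra Z L] [IsScalarTower k B Z] [IsScalarTower k B L]
  [IsScalarTower k Y Z] [IsScalarTower k Y L] [IsScalarTower k Z L] [IsScalarTower B Z L]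
  [IsScalarTower Y Z L] [Algebra.EssFiniteType k Z] [Algebra.EssFiniteType k L]
  {M : SmoothModel k Y} {A : LineBundle M}

open JacEAux in
theorem jac_generated {a : MovingSection M A 4 B Z} {b : MovingSection M A 6 B Z} {u v : L}
    (hW : IsWeierstrass k Z a b u v) (hu : Transcendental Z u)
    (hyZ : ∀ y : Fin (dimension k Y) → Y, IsTranscendenceBasis k y →
      IsTranscendenceBasis B (fun i => algebraMap Y Z (y i)))
    (hdim : dimension k L = dimension k Z + 1) (D : PEmpty.{1} → MovingDivisor M B Z) :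
    GeneratedOutside k Z L A D u v⁻¹ := by
  classical
  intro i T hT htriv hprime _
  have hcenter : ∀ f ∈ M.A i, T (algebraMap Y Z f) ≤ 1 := hprime.center
  set G : Z := algebraMap Y Z (A.gen i) with hGdef
  have hG : G ≠ 0 := by
    rw [hGdef, Ne, map_eq_zero]
    exact A.ne i
  have hTG : T G ≠ 0 := (Valuation.ne_zero_iff T).mpr hG
  obtain ⟨w, hP, hu1, hwv, hGauss, hval⟩ := exists_gaussE hu hW.gen hW.eqn hG
    (sec_le a htriv hcenter) (sec_le b htriv hcenter)
  set u' : L := u / algebraMap Z L (G ^ 2) with hu'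
  haveI : Algebra.EssFiniteType B Z := Algebra.EssFiniteType.of_comp k B Z
  haveI : Algebra.EssFiniteType B L := Algebra.EssFiniteType.of_comp k B L
  have hTB : IsDivisorial B Z T := IsDivisorial.over hT htriv
  have hxi := hyZ (M.x i) (M.tb i)
  have hcardZ : Fintype.card (Fin (dimension k Y)) = dimension B Z :=
    card_eq_of_isTranscendenceBasis hxi
  have hcardL : Fintype.card (Fin (dimension k Y) ⊕ Unit) = dimension B L := dim_BL hxi hdim
  obtain ⟨c₁, t, ht, hc₁⟩ := hTB.exists_adapted hcardZ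
  have hregT := hc₁.regBasis hcardZ ht
  have had := gaussE_adapted hP hu1 hGauss hc₁
  have hunif : IsUnif w (algebraMap Z L t) := by
    refine ⟨by rw [Ne, map_eq_zero]; exact ht.ne_zero, by rw [hP]; exact ht.lt_one, ?_⟩
    intro z hz
    obtain ⟨p, hp⟩ := hval z
    rw [hp] at hz ⊢
    rw [hP]
    exact ht.le p hz
  have hreg := had.regBasis hcardL hunif
  refine ⟨w, gaussE_divisorial hdim hP hu1 hGauss hT, fun p => by rw [hP], fun p => pd hreg.tb p,
    fun p z hz => hreg.der p z hz, ?_⟩
  -- the determinant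
  have hGL : algebraMap Z L (G ^ 2) ≠ 0 := by
    rw [Ne, map_eq_zero]
    exact pow_ne_zero 2 hG
  have hkill : ∀ z : Z, pd hreg.tb (Sum.inr ()) (algebraMap Z L z) = 0 := fun z =>
    pd_algebraMap_of_notMem hregT.tb hreg.tb Sum.inl (fun _ => rfl) (Sum.inr ())
      (fun _ h => by cases h) z
  have huu : pd hreg.tb (Sum.inr ()) u = algebraMap Z L (G ^ 2) := by
    have h1 : u = algebraMap Z L (G ^ 2) * u' := by
      rw [hu', mul_div_cancel₀ _ hGL]
    have h2 := pd_self hreg.tb (Sum.inr ()) (Sum.inr ())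
    rw [if_pos rfl] at h2
    change pd hreg.tb (Sum.inr ()) u' = 1 at h2
    rw [h1, Derivation.leibniz, hkill, h2, smul_zero, add_zero, smul_eq_mul, mul_one]
  have hdet : Matrix.det (Matrix.of fun p q => pd hreg.tb p
      (Sum.elim (fun c => algebraMap Y L (M.x i c)) (fun _ : Unit => u) q)) =
      algebraMap Z L (jac hregT.tb (fun c => algebraMap Y Z (M.x i c))) *
        algebraMap Z L (G ^ 2) := by
    have h3 : (Matrix.of fun p q => pd hreg.tb p
        (Sum.elim (fun c => algebraMap Y L (M.x i c)) (fun _ : Unit => u) q)) =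
        Matrix.fromBlocks ((algebraMap Z L).mapMatrix (Matrix.of fun p q =>
            pd hregT.tb p (algebraMap Y Z (M.x i q))))
          (Matrix.of fun p _ => pd hreg.tb (Sum.inl p) u) 0
          (Matrix.of fun _ _ => algebraMap Z L (G ^ 2)) := by
      ext p q
      rcases p with p | p <;> rcases q with q | q
      · simp only [Matrix.of_apply, Sum.elim_inl, Matrix.fromBlocks_apply₁₁,
          RingHom.mapMatrix_apply, Matrix.map_apply]
        rw [IsScalarTower.algebraMap_apply Y Z L]
        exact pd_algebraMap hregT.tb hreg.tb Sum.inl Sum.inl_injective (fun _ => rfl) p _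
      · rfl
      · simp only [Matrix.of_apply, Sum.elim_inl, Matrix.fromBlocks_apply₂₁, Matrix.zero_apply]
        rw [IsScalarTower.algebraMap_apply Y Z L]
        exact hkill _
      · simp only [Matrix.of_apply, Sum.elim_inr, Matrix.fromBlocks_apply₂₂]
        exact huu
    rw [h3, Matrix.det_fromBlocks_zero₂₁, jac_eq_det, RingHom.map_det, Matrix.det_unique
      (Matrix.of fun _ _ => algebraMap Z L (G ^ 2))]
    rfl
  -- the Jacobian is a unit
  have hregx : RegBasis B T (fun c => algebraMap Y Z (M.x i c)) := by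
    refine ⟨hxi, fun c => hcenter _ (M.mem i c), fun c z hz => ?_⟩
    refine hprime.der (pd hxi c) (fun c' => ?_) z hz
    change T (pd hxi c (algebraMap Y Z (M.x i c'))) ≤ 1
    rw [pd_self hxi c c']
    split_ifs <;> simp
  have hjac : 1 ≤ T (jac hregT.tb (fun c => algebraMap Y Z (M.x i c))) := by
    have h1 := jac_mul_jac hxi hregT.tb
    have h2 := hregx.jac_le c₁ hregT.le_one
    have h3 := congrArg T h1
    rw [map_mul, map_one] at h3
    calc (1 : ℤᵐ⁰) = T (jac hregT.tb (fun c => algebraMap Y Z (M.x i c))) * T (jac hxi c₁) := h3.symm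
      _ ≤ T (jac hregT.tb (fun c => algebraMap Y Z (M.x i c))) * 1 := by
        gcongr
      _ = _ := mul_one _
  change 1 ≤ w (algebraMap Y L (A.gen i)) * w (v⁻¹ * Matrix.det (Matrix.of fun p q =>
    pd hreg.tb p (Sum.elim (fun c => algebraMap Y L (M.x i c)) (fun _ : Unit => u) q)))
  rw [hdet, IsScalarTower.algebraMap_apply Y Z L, map_mul, map_mul, map_inv₀, hwv, hP, hP, hP,
    map_pow, ← hGdef]
  have h4 : T G * ((T G ^ 3)⁻¹ * (T (jac hregT.tb fun c => algebraMap Y Z (M.x i c)) * T G ^ 2)) =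
      T (jac hregT.tb fun c => algebraMap Y Z (M.x i c)) := by
    have h5 : T G ^ 3 ≠ 0 := pow_ne_zero 3 hTG
    have h6 : ∀ x y z : ℤᵐ⁰, x * (y * (z * x ^ 2)) = z * (y * (x ^ 2 * x)) := fun x y z => by
      simp only [mul_comm, mul_left_comm]
    rw [h6, ← pow_succ, inv_mul_cancel₀ h5, mul_one]
  rw [h4]
  exact hjac

end gen

open Polynomial JacEAux in
theorem jac_closed {Z L : Type*} [Field Z] [CharZero Z] [Field L] [Algebra Z L] {u v : L} {a b : Z}
    (hu : Transcendental Z u) (hgen : ∀ z : L, z ∈ IntermediateField.adjoin Z {u, v})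
    (heq : v ^ 2 = u ^ 3 + algebraMap Z L a * u + algebraMap Z L b) {z : L}
    (hz : IsAlgebraic Z z) : ∃ t : Z, algebraMap Z L t = z := by
  obtain ⟨r₀, r₁, hzr⟩ := rep hu hgen heq z
  have hv : v ^ 2 = phi hu (algebraMap Z[X] (RatFunc Z) (fh a b)) := by
    rw [phi_poly, heq, fh]
    simp
  have hinj : Function.Injective (phi hu) := (phi hu).toRingHom.injective
  rcases eq_or_ne r₁ 0 with h1 | h1
  · rw [h1, map_zero, zero_mul, add_zero] at hzr
    rw [hzr, isAlgebraic_algHom_iff (phi hu) hinj] at hz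
    obtain ⟨c, hc⟩ := exists_C hz
    refine ⟨c, ?_⟩
    rw [hzr, hc, ← RatFunc.algebraMap_eq_C, AlgHom.commutes]
  · exfalso
    letI : Algebra (RatFunc Z) L := (phi hu).toRingHom.toAlgebra
    haveI : IsScalarTower Z (RatFunc Z) L :=
      IsScalarTower.of_algebraMap_eq fun c => ((phi hu).commutes c).symm
    have halg : ∀ r : RatFunc Z, algebraMap (RatFunc Z) L r = phi hu r := fun _ => rfl
    set Δ := r₀ ^ 2 - r₁ ^ 2 * algebraMap Z[X] (RatFunc Z) (fh a b) with hΔ
    set q : (RatFunc Z)[X] := X ^ 2 + C (-(2 * r₀)) * X + C Δ with hq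
    have hqd : q.natDegree = 2 := by
      rw [hq]
      compute_degree!
    have hqm : q.Monic := by
      rw [hq]
      monicity!
    have hq0 : aeval z q = 0 := by
      rw [hq]
      simp only [map_add, map_mul, map_pow, aeval_X, aeval_C, halg, map_neg]
      have h3 : phi hu Δ = (phi hu r₀) ^ 2 - (phi hu r₁) ^ 2 * v ^ 2 := by
        rw [hΔ, map_sub, map_mul, map_pow, map_pow, hv]
      rw [h3, hzr, map_ofNat]
      ring
    have hzint : IsIntegral (RatFunc Z) z := ⟨q, hqm, by rw [← aeval_def]; exact hq0⟩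
    have hdvd : minpoly (RatFunc Z) z ∣ q := minpoly.dvd _ _ hq0
    have hnot : z ∉ (algebraMap (RatFunc Z) L).range := by
      rintro ⟨c, hc⟩
      rw [halg] at hc
      have h2 : v = phi hu ((c - r₀) / r₁) := by
        have h3 : phi hu r₁ ≠ 0 := by
          rw [Ne, map_eq_zero]
          exact h1
        rw [map_div₀, map_sub, eq_div_iff h3, hc, hzr]
        ring
      have h4 : phi hu (((c - r₀) / r₁) ^ 2) = phi hu (algebraMap Z[X] (RatFunc Z) (fh a b)) := by
        rw [map_pow, ← h2, hv]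
      have h5 := hinj h4
      refine ne_sq a b (one_ne_zero (α := RatFunc Z)) (s := (c - r₀) / r₁) ?_
      rw [h5]
      ring
    have h2 : 2 ≤ (minpoly (RatFunc Z) z).natDegree := (minpoly.two_le_natDegree_iff hzint).mpr hnot
    have hmq : minpoly (RatFunc Z) z = q :=
      (Polynomial.eq_of_monic_of_dvd_of_natDegree_le (minpoly.monic hzint) hqm hdvd
        (by rw [hqd]; exact h2)).symm
    have hdvd2 : q ∣ (minpoly Z z).map (algebraMap Z (RatFunc Z)) := by
      rw [← hmq]
      exact minpoly.dvd_map_of_isScalarTower Z (RatFunc Z) z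
    have hzZ : IsIntegral Z z := hz.isIntegral
    have hc1 := isIntegral_coeff_of_dvd _ _ (minpoly.monic hzZ) hqm hdvd2 1
    have hc0 := isIntegral_coeff_of_dvd _ _ (minpoly.monic hzZ) hqm hdvd2 0
    have e1 : q.coeff 1 = -(2 * r₀) := by
      rw [hq]
      simp [coeff_C]
    have e0 : q.coeff 0 = Δ := by
      rw [hq]
      simp
    rw [e1] at hc1
    rw [e0] at hc0
    obtain ⟨c1, hc1⟩ := exists_C hc1.isAlgebraic
    obtain ⟨c0, hc0⟩ := exists_C hc0.isAlgebraic
    haveI : CharZero (RatFunc Z) := charZero_of_injective_algebraMap (algebraMap Z (RatFunc Z)).injective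
    refine ne_C a b ((-c1 / 2) ^ 2 - c0) h1 ?_
    have h6 : r₀ = RatFunc.C (-c1 / 2) := by
      rw [map_div₀, map_neg, ← hc1, map_ofNat]
      field_simp
    rw [map_sub, map_pow, ← h6, ← hc0, hΔ]
    ring

theorem jac_connected {k B Y Z L : Type*} [Field k] [Field B] [Field Y] [Field Z] [CharZero Z]
    [Field L]
    [Algebra k B] [Algebra k Y] [Algebra k Z] [Algebra B Z] [Algebra Y Z] [Algebra Z L]
    [IsScalarTower k B Z] [IsScalarTower k Y Z]
    (hcomp : ∀ z : Z, z ∈ IntermediateField.adjoin k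
      (Set.range (algebraMap B Z) ∪ Set.range (algebraMap Y Z))) {u v : L} {a b : Z}
    (hu : Transcendental Z u) (hgen : ∀ z : L, z ∈ IntermediateField.adjoin Z {u, v})
    (heq : v ^ 2 = u ^ 3 + algebraMap Z L a * u + algebraMap Z L b) :
    ConnectedFibres k B Y Z Z L L := by
  intro z hz
  obtain ⟨t, ht⟩ := jac_closed hu hgen heq hz
  refine ⟨t, ?_, ht⟩
  refine IntermediateField.adjoin.mono k _ _ ?_ (hcomp t)
  rintro _ (⟨c, rfl⟩ | ⟨y, rfl⟩)
  · exact Or.inl (isAlgebraic_algebraMap c)
  · exact Or.inr ⟨y, rfl⟩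

end Pf72953.Ell
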