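import Mathlib
import Pool.Agent.Lib.Pf72953.Reduction
import Pool.Agent.Lib.Pf72953u.Inst
import Pool.Agent.Lib.Pf72953e.TbE
import Pool.Agent.Lib.Pf72953e.ConstE
import Pool.Agent.Lib.Pf72953e.LocalE
import Pool.Agent.Lib.Pf72953e.CountE

/-!
The upper bound for the Kodaira dimension of a family of curves of genus one over a constant variety.
-/

set_option autoImplicit false
set_option linter.style.haveILetI false

open scoped WithZero
open Pf72953 Pf72953.Mov Pf72953.Up Pf72953.Twr

namespace Pf72953.Ell

section coord

variable {B Z P L N ι : Type*} [Field B] [Field Z] [Field P] [Field L] [Field N]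
  [Algebra B P] [Algebra B L] [Algebra B N] [Algebra Z P] [Algebra Z N] [Algebra P N] [Algebra L N]
  [IsScalarTower B P N] [IsScalarTower B L N] [IsScalarTower Z P N]

/-- `s` is transcendental over `P` -/
theorem transcendental_s {u v : N} (hu : Transcendental P u)
    (halg : ∀ z : N, IsAlgebraic (IntermediateField.adjoin P {u}) z) {s g : L}
    (hdef : DefinedOver Z u v s g) [CharZero P] : Transcendental P (algebraMap L N s) := by
  classical
  have htb : IsTranscendenceBasis P (fun _ : Unit => u) := by
    haveI : Algebra.IsAlgebraic (Algebra.adjoin P (Set.range (fun _ : Unit => u))) N := by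
      refine ⟨fun z => ?_⟩
      have h1 := halg z
      rw [IntermediateField.isAlgebraic_adjoin_iff] at h1
      have h2 : Set.range (fun _ : Unit => u) = {u} := Set.range_const
      rw [h2]
      exact h1
    have h3 : AlgebraicIndependent P (fun _ : Unit => u) :=
      algebraicIndependent_unique_type_iff.mpr hu
    exact h3.isTranscendenceBasis_iff_isAlgebraic.mpr inferInstance
  intro hs
  set D : Derivation P N N := pd htb () with hD
  have h1 : D (algebraMap L N s) = 0 := der_eq_zero_of_isAlgebraic D hs
  let DZ : Derivation Z N N := D.restrictScalars Z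
  have h2 := hdef DZ
  have h3 : DZ (algebraMap L N s) = 0 := h1
  have h4 : DZ u = 1 := by
    have := pd_self htb () ()
    change D u = 1
    rw [hD]
    simpa using this
  rw [h3, mul_zero, h4] at h2
  exact one_ne_zero h2

/-- `g` is not zero -/
theorem g_ne_zero {u v : N} (hu : Transcendental P u)
    (halg : ∀ z : N, IsAlgebraic (IntermediateField.adjoin P {u}) z) {s g : L}
    (hdef : DefinedOver Z u v s g) [CharZero P] : g ≠ 0 := by
  classical
  have htb : IsTranscendenceBasis P (fun _ : Unit => u) := by
    haveI : Algebra.IsAlgebraic (Algebra.adjoin P (Set.range (fun _ : Unit => u))) N := by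
      refine ⟨fun z => ?_⟩
      have h1 := halg z
      rw [IntermediateField.isAlgebraic_adjoin_iff] at h1
      have h2 : Set.range (fun _ : Unit => u) = {u} := Set.range_const
      rw [h2]
      exact h1
    have h3 : AlgebraicIndependent P (fun _ : Unit => u) :=
      algebraicIndependent_unique_type_iff.mpr hu
    exact h3.isTranscendenceBasis_iff_isAlgebraic.mpr inferInstance
  rintro rfl
  set D : Derivation P N N := pd htb () with hD
  let DZ : Derivation Z N N := D.restrictScalars Z
  have h2 := hdef DZ
  have h4 : DZ u = 1 := by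
    have := pd_self htb () ()
    change D u = 1
    rw [hD]
    simpa using this
  rw [map_zero, mul_zero, zero_mul, h4] at h2
  exact one_ne_zero h2

theorem tb_ys {u v : N} (hu : Transcendental P u)
    (halg : ∀ z : N, IsAlgebraic (IntermediateField.adjoin P {u}) z) {s g : L}
    (hdef : DefinedOver Z u v s g) [CharZero P] [Algebra.EssFiniteType P N] {y : ι → P}
    {y' : ι → L} (hyy : ∀ i, algebraMap P N (y i) = algebraMap L N (y' i))
    (hy : IsTranscendenceBasis B y) [Algebra.IsAlgebraic L N] :
    IsTranscendenceBasis B (Sum.elim y' (fun _ : Unit => s)) := by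
  classical
  have htb : IsTranscendenceBasis P (fun _ : Unit => u) := by
    haveI : Algebra.IsAlgebraic (Algebra.adjoin P (Set.range (fun _ : Unit => u))) N := by
      refine ⟨fun z => ?_⟩
      have h1 := halg z
      rw [IntermediateField.isAlgebraic_adjoin_iff] at h1
      have h2 : Set.range (fun _ : Unit => u) = {u} := Set.range_const
      rw [h2]
      exact h1
    have h3 : AlgebraicIndependent P (fun _ : Unit => u) :=
      algebraicIndependent_unique_type_iff.mpr hu
    exact h3.isTranscendenceBasis_iff_isAlgebraic.mpr inferInstance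
  have hs : IsTranscendenceBasis P (fun _ : Unit => algebraMap L N s) := by
    refine isTranscendenceBasis_of_card (card_eq_of_isTranscendenceBasis htb) ?_
    exact algebraicIndependent_unique_type_iff.mpr (transcendental_s hu halg hdef)
  have h1 := hy.sumElim_comp hs
  have h2 := (isTranscendenceBasis_equiv (Equiv.sumComm ι Unit)).mpr h1
  have h3 : (Sum.elim (fun _ : Unit => algebraMap L N s) (fun i => algebraMap P N (y i))) ∘
      (Equiv.sumComm ι Unit) = (algebraMap L N) ∘ (Sum.elim y' (fun _ : Unit => s)) := by
    funext i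
    rcases i with i | i
    · exact hyy i
    · rfl
  have h4 : IsTranscendenceBasis B ((algebraMap L N) ∘ (Sum.elim y' (fun _ : Unit => s))) := by
    rw [← h3]
    exact h2
  exact IsTranscendenceBasis.of_comp_algebraMap h4

end coord

section alg

variable {k B Y Z P N : Type*} [Field k] [Field B] [Field Y] [Field Z] [Field P] [Field N]
  [Algebra k Y] [Algebra k P] [Algebra B Z] [Algebra B P] [Algebra Y Z] [Algebra Y P]
  [Algebra Z P] [Algebra P N] {M : SmoothModel k Y} {A : LineBundle M}

/-- `N` is algebraic over `P(u)` -/
theorem isAlgebraic_adjoin_u {a : MovingSection M A 4 B P} {b : MovingSection M A 6 B P} {u v : N}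
    (hW : IsWeierstrass k Z a b u v) (z : N) :
    IsAlgebraic (IntermediateField.adjoin P {u}) z := by
  classical
  set R := IntermediateField.adjoin P ({u} : Set N) with hR
  have huR : u ∈ R := IntermediateField.subset_adjoin P _ rfl
  have hv : IsAlgebraic R v := by
    have h1 : IsAlgebraic R (v ^ 2) := by
      rw [hW.eqn]
      exact isAlgebraic_algebraMap (⟨u ^ 3 + algebraMap P N a.sec * u + algebraMap P N b.sec,
        add_mem (add_mem (pow_mem huR 3) (mul_mem (R.algebraMap_mem _) huR))
          (R.algebraMap_mem _)⟩ : R)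
    exact h1.of_pow (by norm_num)
  have hz := hW.gen z
  induction hz using IntermediateField.adjoin_induction with
  | mem x hx =>
    rcases hx with rfl | hx
    · exact isAlgebraic_algebraMap (⟨x, huR⟩ : R)
    · rw [Set.mem_singleton_iff.mp hx]
      exact hv
  | algebraMap r => exact isAlgebraic_algebraMap (⟨algebraMap P N r, R.algebraMap_mem r⟩ : R)
  | add x y _ _ hx hy => exact hx.add hy
  | inv x _ hx => exact hx.inv
  | mul x y _ _ hx hy => exact hx.mul hy

end alg

section main

variable {k B E Y Z P L N J : Type*} [Field k] [CharZero k] [IsAlgClosed k] [Field B] [Field E]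
  [Field Y] [Field Z] [Field P] [Field L] [Field N]
  [Algebra k B] [Algebra k E] [Algebra k Y] [Algebra k Z] [Algebra k P] [Algebra k L] [Algebra k N]
  [Algebra B E] [Algebra B Z] [Algebra B P] [Algebra B L] [Algebra B N]
  [Algebra E L] [Algebra E N] [Algebra Y Z] [Algebra Y P] [Algebra Y L] [Algebra Y N]
  [Algebra Z P] [Algebra Z L] [Algebra Z N] [Algebra P N] [Algebra L N]
  [IsScalarTower k B E] [IsScalarTower k B Z] [IsScalarTower k B P] [IsScalarTower k B L]
  [IsScalarTower k B N] [IsScalarTower k E L] [IsScalarTower k E N]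
  [IsScalarTower k Y Z] [IsScalarTower k Y P] [IsScalarTower k Y L] [IsScalarTower k Y N]
  [IsScalarTower k Z P] [IsScalarTower k Z L] [IsScalarTower k Z N] [IsScalarTower k P N]
  [IsScalarTower k L N] [IsScalarTower B E L] [IsScalarTower B E N]
  [IsScalarTower B Z P] [IsScalarTower B Z L] [IsScalarTower B Z N] [IsScalarTower B P N]
  [IsScalarTower B L N] [IsScalarTower Y Z P] [IsScalarTower Y Z L] [IsScalarTower Y Z N]
  [IsScalarTower Y P N] [IsScalarTower Y L N] [IsScalarTower Z P N] [IsScalarTower Z L N]
  [IsScalarTower E L N]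
  [Algebra.EssFiniteType k B] [Algebra.EssFiniteType k Y] [Algebra.EssFiniteType k E]
  [FiniteDimensional E L] [FiniteDimensional E N] [FiniteDimensional L N] [FiniteDimensional Z P]
  [Fintype J] {M : SmoothModel k Y} {A : LineBundle M}

omit [CharZero k] [IsAlgClosed k] [Algebra k L] [Algebra B L] [Algebra Y L] [Algebra Z L]
  [IsScalarTower k B L] [IsScalarTower k E L] [IsScalarTower k Y L] [IsScalarTower k Z L]
  [IsScalarTower k L N] [IsScalarTower B E L] [IsScalarTower B Z L] [IsScalarTower B L N]
  [IsScalarTower Y Z L] [IsScalarTower Y L N] [IsScalarTower Z L N] [IsScalarTower E L N]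
  [FiniteDimensional E L] [FiniteDimensional L N] [Algebra E L] [Algebra L N] in
/-- `u` is transcendental over `P` -/
theorem transcendental_u (hcomp : IsCompositum k B Y Z)
    (hdim : dimension k B + dimension k Y + 1 = dimension k E) {u : N}
    (halgu : ∀ z : N, IsAlgebraic (IntermediateField.adjoin P {u}) z) : Transcendental P u := by
  classical
  obtain ⟨hdZ, hdP, hdN, hZ, hPu⟩ := bases (Z := Z) hcomp hdim halgu
  intro hu
  have h1 : Algebra.IsAlgebraic P N := by
    haveI : Algebra.IsAlgebraic P (IntermediateField.adjoin P ({u} : Set N)) :=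
      IntermediateField.isAlgebraic_adjoin (fun x hx => by
        rw [Set.mem_singleton_iff.mp hx]
        exact hu.isIntegral)
    exact ⟨fun z => (halgu z).restrictScalars P⟩
  obtain ⟨x, hx⟩ := exists_tb k B
  obtain ⟨y, hy⟩ := exists_tb k Y
  have h2 : IsTranscendenceBasis k (algebraMap Z P ∘
    (Sum.elim (fun i => algebraMap B Z (x i)) (fun j => algebraMap Y Z (y j)))) :=
    (hZ hx hy).algebraMap_comp
  have h3 := card_eq_of_isTranscendenceBasis (hPu h2)
  have h4 := card_eq_of_isTranscendenceBasis (h2.algebraMap_comp (A := N))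
  simp only [Fintype.card_sum, Fintype.card_unit] at h3 h4
  omega

theorem upper_aux (hcomp : IsCompositum k B Y Z)
    (hdim : dimension k B + dimension k Y + 1 = dimension k E)
    {a : MovingSection M A 4 B P} {b : MovingSection M A 6 B P} {u v : N}
    (hW : IsWeierstrass k Z a b u v) {s g : L} (hdef : DefinedOver Z u v s g)
    (D : J → MovingDivisor M B P) (hconn : ConnectedFibres k B Y Z P L N)
    (hout : GeneratedOutside k Z N A D s g) {c : ℕ} (hc : KodairaGE B E c)
    (κ K : Type*) [Field κ] [Field K] [Algebra B κ] [Algebra κ K] [Algebra κ P] [Algebra Y K]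
    [Algebra Z K] [Algebra K P] [IsScalarTower B κ P] [IsScalarTower κ K P] [IsScalarTower Y K P]
    [IsScalarTower Z K P] [Algebra.IsAlgebraic B κ]
    (hgen : ∀ z : K, z ∈ IntermediateField.adjoin κ (Set.range (algebraMap Y K)))
    (hin : ∀ t ∈ IntermediateField.adjoin k ({p : P | IsAlgebraic B p} ∪
      Set.range (algebraMap Y P)), ∃ f : K, algebraMap K P f = t)
    (hκ : ∀ p : P, IsAlgebraic B p → ∃ e : κ, algebraMap κ P e = p) :
    LogKodairaGE M (bundles A fun j => (D j).S) c := by
  classical
  letI : Algebra k κ := ((algebraMap B κ).comp (algebraMap k B)).toAlgebra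
  haveI : IsScalarTower k B κ := IsScalarTower.of_algebraMap_eq fun _ => rfl
  letI : Algebra k K := ((algebraMap κ K).comp (algebraMap k κ)).toAlgebra
  haveI : IsScalarTower k κ K := IsScalarTower.of_algebraMap_eq fun _ => rfl
  letI : Algebra B K := ((algebraMap κ K).comp (algebraMap B κ)).toAlgebra
  haveI : IsScalarTower B κ K := IsScalarTower.of_algebraMap_eq fun _ => rfl
  letI : Algebra κ N := ((algebraMap P N).comp (algebraMap κ P)).toAlgebra
  haveI : IsScalarTower κ P N := IsScalarTower.of_algebraMap_eq fun _ => rfl
  letI : Algebra K N := ((algebraMap P N).comp (algebraMap K P)).toAlgebra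
  haveI : IsScalarTower K P N := IsScalarTower.of_algebraMap_eq fun _ => rfl
  haveI : IsScalarTower k κ P := IsScalarTower.of_algebraMap_eq fun c => by
    change _ = algebraMap κ P (algebraMap B κ (algebraMap k B c))
    rw [← IsScalarTower.algebraMap_apply B κ P, ← IsScalarTower.algebraMap_apply k B P]
  haveI : IsScalarTower k κ N := IsScalarTower.of_algebraMap_eq fun c => by
    rw [IsScalarTower.algebraMap_apply κ P N, ← IsScalarTower.algebraMap_apply k κ P,
      ← IsScalarTower.algebraMap_apply k P N]
  haveI : IsScalarTower k K P := IsScalarTower.of_algebraMap_eq fun c => by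
    rw [IsScalarTower.algebraMap_apply k κ K, ← IsScalarTower.algebraMap_apply κ K P,
      ← IsScalarTower.algebraMap_apply k κ P]
  haveI : IsScalarTower k K N := IsScalarTower.of_algebraMap_eq fun c => by
    rw [IsScalarTower.algebraMap_apply K P N, ← IsScalarTower.algebraMap_apply k K P,
      ← IsScalarTower.algebraMap_apply k P N]
  haveI : IsScalarTower k Y K := IsScalarTower.of_algebraMap_eq fun c =>
    (algebraMap K P).injective (by
      rw [← IsScalarTower.algebraMap_apply k K P, ← IsScalarTower.algebraMap_apply Y K P,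
        ← IsScalarTower.algebraMap_apply k Y P])
  haveI : IsScalarTower B κ N := IsScalarTower.of_algebraMap_eq fun c => by
    rw [IsScalarTower.algebraMap_apply κ P N, ← IsScalarTower.algebraMap_apply B κ P,
      ← IsScalarTower.algebraMap_apply B P N]
  haveI : IsScalarTower B K P := IsScalarTower.of_algebraMap_eq fun c => by
    rw [IsScalarTower.algebraMap_apply B κ K, ← IsScalarTower.algebraMap_apply κ K P,
      ← IsScalarTower.algebraMap_apply B κ P]
  haveI : IsScalarTower B K N := IsScalarTower.of_algebraMap_eq fun c => by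
    rw [IsScalarTower.algebraMap_apply K P N, ← IsScalarTower.algebraMap_apply B K P,
      ← IsScalarTower.algebraMap_apply B P N]
  haveI : IsScalarTower B Z K := IsScalarTower.of_algebraMap_eq fun c =>
    (algebraMap K P).injective (by
      rw [← IsScalarTower.algebraMap_apply B K P, ← IsScalarTower.algebraMap_apply Z K P,
        ← IsScalarTower.algebraMap_apply B Z P])
  haveI : IsScalarTower Y Z K := IsScalarTower.of_algebraMap_eq fun c =>
    (algebraMap K P).injective (by
      rw [← IsScalarTower.algebraMap_apply Y K P, ← IsScalarTower.algebraMap_apply Z K P,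
        ← IsScalarTower.algebraMap_apply Y Z P])
  haveI : IsScalarTower κ K N := IsScalarTower.of_algebraMap_eq fun c => by
    rw [IsScalarTower.algebraMap_apply K P N, ← IsScalarTower.algebraMap_apply κ K P,
      ← IsScalarTower.algebraMap_apply κ P N]
  haveI : IsScalarTower Y K N := IsScalarTower.of_algebraMap_eq fun c => by
    rw [IsScalarTower.algebraMap_apply K P N, ← IsScalarTower.algebraMap_apply Y K P,
      ← IsScalarTower.algebraMap_apply Y P N]
  haveI : IsScalarTower Z K N := IsScalarTower.of_algebraMap_eq fun c => by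
    rw [IsScalarTower.algebraMap_apply K P N, ← IsScalarTower.algebraMap_apply Z K P,
      ← IsScalarTower.algebraMap_apply Z P N]
  haveI : FiniteDimensional K P := FiniteDimensional.right Z K P
  haveI : CharZero B := charZero_of_injective_algebraMap (algebraMap k B).injective
  haveI : CharZero κ := charZero_of_injective_algebraMap (algebraMap B κ).injective
  haveI : CharZero P := charZero_of_injective_algebraMap (algebraMap k P).injective
  haveI : Algebra.EssFiniteType k Z := essFinite_Z hcomp
  haveI : Algebra.EssFiniteType k P := Algebra.EssFiniteType.comp k Z P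
  haveI : Algebra.EssFiniteType k L := Algebra.EssFiniteType.comp k E L
  haveI : Algebra.EssFiniteType k N := Algebra.EssFiniteType.comp k E N
  haveI : Algebra.EssFiniteType B E := Algebra.EssFiniteType.of_comp k B E
  haveI : Algebra.EssFiniteType B L := Algebra.EssFiniteType.of_comp k B L
  haveI : Algebra.EssFiniteType B N := Algebra.EssFiniteType.of_comp k B N
  haveI : Algebra.EssFiniteType B P := Algebra.EssFiniteType.of_comp k B P
  haveI : Algebra.EssFiniteType P N := Algebra.EssFiniteType.of_comp k P N
  haveI : Algebra.EssFiniteType κ K := Up.essFiniteType_of_gen (k := k) (Y := Y) hgen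
  haveI hMne : Nonempty M.I := by
    obtain ⟨i, -⟩ := M.cover 1 (fun c hc => Valuation.one_apply_of_ne_zero (by simpa using hc))
    exact ⟨i⟩
  have halgu : ∀ z : N, IsAlgebraic (IntermediateField.adjoin P {u}) z := isAlgebraic_adjoin_u hW
  obtain ⟨hdZ, hdP, hdN, hZ, hPu⟩ := bases (Z := Z) hcomp hdim halgu
  have hu : Transcendental P u := transcendental_u hcomp hdim halgu
  -- transcendence bases
  have halgZ : ∀ a : Z, IsAlgebraic (Algebra.adjoin k
      (Set.range (algebraMap B Z) ∪ Set.range (algebraMap Y Z))) a := by
    intro a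
    rw [← IntermediateField.isAlgebraic_adjoin_iff]
    exact isAlgebraic_algebraMap (⟨a, hcomp a⟩ : IntermediateField.adjoin k
      (Set.range (algebraMap B Z) ∪ Set.range (algebraMap Y Z)))
  have hyZ : ∀ y : Fin (dimension k Y) → Y, IsTranscendenceBasis k y →
      IsTranscendenceBasis B (fun i => algebraMap Y Z (y i)) := fun y hy =>
    Up.tb_over hdZ.symm halgZ hy
  have hyP : ∀ y : Fin (dimension k Y) → Y, IsTranscendenceBasis k y →
      IsTranscendenceBasis B (fun i => algebraMap Y P (y i)) := by
    intro y hy
    have h1 := (hyZ y hy).algebraMap_comp (A := P)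
    refine (iff_of_eq (congrArg _ ?_)).mp h1
    funext i
    exact (IsScalarTower.algebraMap_apply Y Z P (y i)).symm
  have hyK : ∀ y : Fin (dimension k Y) → Y, IsTranscendenceBasis k y →
      IsTranscendenceBasis κ (fun i => algebraMap Y K (y i)) := by
    intro y hy
    obtain ⟨x, hx⟩ := exists_tb k B
    have hdimκ : dimension k κ = dimension k B := by
      have h1 : IsTranscendenceBasis k (algebraMap B κ ∘ x) := hx.algebraMap_comp
      have h2 := card_eq_of_isTranscendenceBasis h1
      rw [Fintype.card_fin] at h2
      exact h2.symm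
    have halgP : ∀ c : P, IsAlgebraic (Algebra.adjoin k
        (Set.range (algebraMap κ P) ∪ Set.range (algebraMap Y P))) c := by
      intro c
      have hle : ∀ z : Z, algebraMap Z P z ∈ IntermediateField.adjoin k
          (Set.range (algebraMap κ P) ∪ Set.range (algebraMap Y P)) := by
        intro z
        have h1 : IntermediateField.adjoin k
            (Set.range (algebraMap B Z) ∪ Set.range (algebraMap Y Z)) ≤
            (IntermediateField.adjoin k
              (Set.range (algebraMap κ P) ∪ Set.range (algebraMap Y P))).comap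
              (IsScalarTower.toAlgHom k Z P) := by
          rw [IntermediateField.adjoin_le_iff]
          rintro _ (⟨b, rfl⟩ | ⟨b, rfl⟩)
          · refine IntermediateField.subset_adjoin k _ (Or.inl ⟨algebraMap B κ b, ?_⟩)
            change _ = algebraMap Z P (algebraMap B Z b)
            rw [← IsScalarTower.algebraMap_apply B κ P, ← IsScalarTower.algebraMap_apply B Z P]
          · refine IntermediateField.subset_adjoin k _ (Or.inr ⟨b, ?_⟩)
            change _ = algebraMap Z P (algebraMap Y Z b)
            rw [← IsScalarTower.algebraMap_apply Y Z P]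
        exact h1 (hcomp z)
      rw [← IntermediateField.isAlgebraic_adjoin_iff]
      letI : Algebra Z (IntermediateField.adjoin k
          (Set.range (algebraMap κ P) ∪ Set.range (algebraMap Y P))) :=
        ((algebraMap Z P).codRestrict (IntermediateField.adjoin k
          (Set.range (algebraMap κ P) ∪ Set.range (algebraMap Y P))).toSubring
          (fun z => hle z)).toAlgebra
      haveI : IsScalarTower Z (IntermediateField.adjoin k
          (Set.range (algebraMap κ P) ∪ Set.range (algebraMap Y P))) P :=
        IsScalarTower.of_algebraMap_eq fun _ => rfl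
      exact (Algebra.IsAlgebraic.isAlgebraic (R := Z) c).extendScalars
        (algebraMap Z (IntermediateField.adjoin k
          (Set.range (algebraMap κ P) ∪ Set.range (algebraMap Y P)))).injective
    have htbP : IsTranscendenceBasis κ (fun i => algebraMap Y P (y i)) :=
      Up.tb_over (by rw [hdimκ, hdP, hdZ]) halgP hy
    obtain ⟨z, hz⟩ := exists_tb κ K
    have h1 : IsTranscendenceBasis κ (algebraMap K P ∘ z) := hz.algebraMap_comp
    have h2 := card_eq_of_isTranscendenceBasis h1
    have h3 := card_eq_of_isTranscendenceBasis htbP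
    rw [Fintype.card_fin] at h2
    refine isTranscendenceBasis_of_card (by rw [h3, h2]) ?_
    refine AlgebraicIndependent.of_comp (IsScalarTower.toAlgHom κ K P) ?_
    have h4 : (⇑(IsScalarTower.toAlgHom κ K P) ∘ fun i => algebraMap Y K (y i)) =
        fun i => algebraMap Y P (y i) :=
      funext fun i => (IsScalarTower.algebraMap_apply Y K P (y i)).symm
    rw [h4]
    exact htbP.1
  have hyL : ∀ y : Fin (dimension k Y) → Y, IsTranscendenceBasis k y →
      IsTranscendenceBasis B (Sum.elim (fun i => algebraMap Y L (y i)) (fun _ : Unit => s)) :=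
    fun y hy => tb_ys hu halgu hdef (fun i => by
      rw [← IsScalarTower.algebraMap_apply Y P N, ← IsScalarTower.algebraMap_apply Y L N])
      (hyP y hy)
  -- the equations of the divisors
  choose α hα using fun j l => hκ ((D j).a l) ((D j).a_alg l)
  set sK : J → K := fun j => ∑ l, algebraMap κ K (α j l) * algebraMap Y K ((D j).s l) with hs
  have hsK : ∀ j, algebraMap K P (sK j) = (D j).sec := by
    intro j
    rw [hs, MovingDivisor.sec, map_sum]
    refine Finset.sum_congr rfl fun l _ => ?_
    rw [map_mul, ← IsScalarTower.algebraMap_apply κ K P, ← IsScalarTower.algebraMap_apply Y K P,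
      hα]
  obtain ⟨x, hx⟩ := exists_tb k B
  obtain ⟨y, hy⟩ := exists_tb k Y
  have hBYP : ∀ {x : Fin (dimension k B) → B} {y : Fin (dimension k Y) → Y},
      IsTranscendenceBasis k x → IsTranscendenceBasis k y → IsTranscendenceBasis k
        (Sum.elim (fun i => algebraMap B P (x i)) (fun j => algebraMap Y P (y j))) := by
    intro x y hx hy
    have h1 := (hZ hx hy).algebraMap_comp (A := P)
    refine (iff_of_eq (congrArg _ ?_)).mp h1
    funext i
    rcases i with i | i
    · exact (IsScalarTower.algebraMap_apply B Z P (x i)).symm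
    · exact (IsScalarTower.algebraMap_apply Y Z P (y i)).symm
  have hsec0 : ∀ j, (D j).sec ≠ 0 := fun j => sec_ne_zero (D j) hBYP hx
  have hsK0 : ∀ j, sK j ≠ 0 := by
    intro j h0
    apply hsec0 j
    rw [← hsK, h0, map_zero]
  -- the forms
  obtain ⟨z, hz⟩ := exists_tb B E
  obtain ⟨m, hm, f₀, hf₀, hf₀ne, f, hf, hff⟩ := hc.exists_coord hz
  have hzL : IsTranscendenceBasis B (fun i => algebraMap E L (z i)) := hz.algebraMap_comp
  have hn : Fintype.card (Fin (dimension k Y) ⊕ Unit) = dimension B E := by
    have h1 := card_eq_of_isTranscendenceBasis hzL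
    have h2 := card_eq_of_isTranscendenceBasis (hyL y hy)
    rw [Fintype.card_fin] at h1
    rw [h1, h2]
  let e : Fin (dimension k Y) ⊕ Unit ≃ Fin (dimension B E) := Fintype.equivFinOfCardEq hn
  have hzL' : IsTranscendenceBasis B ((fun i => algebraMap E L (z i)) ∘ e) :=
    (isTranscendenceBasis_equiv e).mpr hzL
  set j₀ : L := jac (hyL y hy) ((fun i => algebraMap E L (z i)) ∘ e) with hj₀
  have hj₀ne : j₀ ≠ 0 := jac_ne_zero hzL' (hyL y hy)
  have hpull : ∀ g ∈ WReg B z m, algebraMap E L g * j₀ ^ m ∈
      WReg B (Sum.elim (fun i => algebraMap Y L (y i)) (fun _ : Unit => s)) m := by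
    intro g hg
    exact WReg.change hzL' (hyL y hy) (Pf72953.WReg.reindex (WReg.pull hz hg) e)
  have hg0 : g ≠ 0 := g_ne_zero hu halgu hdef
  have hdown : ∀ G ∈ WReg B (Sum.elim (fun i => algebraMap Y L (y i)) (fun _ : Unit => s)) m,
      ∃ F : K, algebraMap K N F = algebraMap L N (G / g ^ m) ∧
        F ∈ LocBd κ A (fun j => (D j).S) sK y m := by
    intro G hG
    have h1 : IsAlgebraic P (algebraMap L N (G / g ^ m)) :=
      const_alg hu hW.gen hW.eqn hW.disc hdef (hyP y hy) (hyL y hy) hG
    have h2 : IsAlgebraic Z (G / g ^ m) := by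
      have h3 : IsAlgebraic Z (algebraMap L N (G / g ^ m)) := h1.restrictScalars Z
      exact (isAlgebraic_algebraMap_iff (algebraMap L N).injective).mp h3
    obtain ⟨t, ht, htN⟩ := hconn _ h2
    obtain ⟨F, hF⟩ := hin t ht
    have hFN : algebraMap K N F = algebraMap L N (G / g ^ m) := by
      rw [IsScalarTower.algebraMap_apply K P N, hF, htN]
    refine ⟨F, hFN, fun v hv i hvx hvA => ?_⟩
    exact local_bound hW hdef D hout hu hyZ hyK hyL hsK hsec0 hy hG hFN hv hvx hvA
  obtain ⟨F₀, hF₀, hF₀mem⟩ := hdown _ (hpull f₀ hf₀)
  have hF₀ne : F₀ ≠ 0 := by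
    rintro rfl
    rw [map_zero] at hF₀
    have h3 : algebraMap E L f₀ * j₀ ^ m / g ^ m = 0 := by
      rwa [eq_comm, map_eq_zero] at hF₀
    refine div_ne_zero (mul_ne_zero (by simpa using hf₀ne) (pow_ne_zero _ hj₀ne))
      (pow_ne_zero _ hg0) h3
  choose F hF hFmem using fun i => hdown _ (hpull _ (hff i))
  have hratio : ∀ i, algebraMap K N (F i / F₀) = algebraMap E N (f i) := by
    intro i
    have h4 : algebraMap E L f₀ ≠ 0 := by simpa using hf₀ne
    rw [map_div₀, hF, hF₀, ← map_div₀, IsScalarTower.algebraMap_apply E L N]
    congr 1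
    rw [map_mul]
    field_simp
  have hind : AlgebraicIndependent κ (fun i => F i / F₀) := by
    have h4 : AlgebraicIndependent B (fun i => algebraMap E N (f i)) :=
      hf.map' (f := IsScalarTower.toAlgHom B E N) (algebraMap E N).injective
    refine AlgebraicIndependent.of_comp (IsScalarTower.toAlgHom κ K N) ?_
    have h5 : (⇑(IsScalarTower.toAlgHom κ K N) ∘ fun i => F i / F₀) =
        fun i => algebraMap E N (f i) := funext fun i => hratio i
    rw [h5]
    exact h4.extendScalars κ
  refine countE (κ := κ) A (fun j => (D j).S) hsK0 hyK hgen hy hm hF₀mem hF₀ne hind fun i => ?_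
  rw [div_mul_cancel₀ _ hF₀ne]
  exact hFmem i

theorem upperE_GE (hcomp : IsCompositum k B Y Z)
    (hdim : dimension k B + dimension k Y + 1 = dimension k E)
    {a : MovingSection M A 4 B P} {b : MovingSection M A 6 B P} {u v : N}
    (hW : IsWeierstrass k Z a b u v) {s g : L} (hdef : DefinedOver Z u v s g)
    (D : J → MovingDivisor M B P) (hconn : ConnectedFibres k B Y Z P L N)
    (hout : GeneratedOutside k Z N A D s g) {c : ℕ} (hc : KodairaGE B E c) :
    LogKodairaGE M (bundles A fun j => (D j).S) c := by
  classical
  let κ := algebraicClosure B P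
  let K := IntermediateField.adjoin κ (Set.range (algebraMap Y P))
  have hKk : ∀ t ∈ IntermediateField.adjoin k ({p : P | IsAlgebraic B p} ∪
      Set.range (algebraMap Y P)), t ∈ K := by
    intro t ht
    have h1 : IntermediateField.adjoin k ({p : P | IsAlgebraic B p} ∪
        Set.range (algebraMap Y P)) ≤ (IntermediateField.restrictScalars B K).restrictScalars k := by
      rw [IntermediateField.adjoin_le_iff]
      rintro x (hx | hx)
      · exact K.algebraMap_mem (⟨x, mem_algebraicClosure_iff.mpr hx⟩ : κ)
      · exact IntermediateField.subset_adjoin κ _ hx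
    exact h1 ht
  letI algYK : Algebra Y K := ((algebraMap Y P).codRestrict K.toSubring
    (fun a => IntermediateField.subset_adjoin κ _ ⟨a, rfl⟩)).toAlgebra
  haveI : IsScalarTower Y K P := IsScalarTower.of_algebraMap_eq fun _ => rfl
  have hZK : ∀ z : Z, algebraMap Z P z ∈ K := by
    intro z
    refine hKk _ ?_
    have h1 : IntermediateField.adjoin k
        (Set.range (algebraMap B Z) ∪ Set.range (algebraMap Y Z)) ≤
        (IntermediateField.adjoin k ({p : P | IsAlgebraic B p} ∪
          Set.range (algebraMap Y P))).comap (IsScalarTower.toAlgHom k Z P) := by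
      rw [IntermediateField.adjoin_le_iff]
      rintro _ (⟨b, rfl⟩ | ⟨b, rfl⟩)
      · refine IntermediateField.subset_adjoin k _ (Or.inl ?_)
        change IsAlgebraic B (algebraMap Z P (algebraMap B Z b))
        rw [← IsScalarTower.algebraMap_apply B Z P]
        exact isAlgebraic_algebraMap b
      · refine IntermediateField.subset_adjoin k _ (Or.inr ⟨b, ?_⟩)
        change _ = algebraMap Z P (algebraMap Y Z b)
        rw [← IsScalarTower.algebraMap_apply Y Z P]
    exact h1 (hcomp z)
  letI algZK : Algebra Z K := ((algebraMap Z P).codRestrict K.toSubring hZK).toAlgebra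
  haveI : IsScalarTower Z K P := IsScalarTower.of_algebraMap_eq fun _ => rfl
  haveI : Algebra.IsAlgebraic B κ := inferInstance
  refine upper_aux hcomp hdim hW hdef D hconn hout hc κ K (fun z => ?_)
    (fun t ht => ⟨⟨t, hKk t ht⟩, rfl⟩)
    (fun z hz => ⟨⟨z, mem_algebraicClosure_iff.mpr hz⟩, rfl⟩)
  set N' := IntermediateField.adjoin κ (Set.range (algebraMap Y K)) with hN
  have h1 : K ≤ N'.map K.val := by
    rw [IntermediateField.adjoin_le_iff]
    rintro _ ⟨b, rfl⟩
    exact ⟨algebraMap Y K b, IntermediateField.subset_adjoin κ _ ⟨b, rfl⟩, rfl⟩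
  obtain ⟨n, hn, hnz⟩ := h1 z.2
  have h2 : n = z := Subtype.ext hnz
  rwa [← h2]

/-- The upper bound. -/
theorem upperE (hcomp : IsCompositum k B Y Z)
    (hdim : dimension k B + dimension k Y + 1 = dimension k E)
    {a : MovingSection M A 4 B P} {b : MovingSection M A 6 B P} {u v : N}
    (hW : IsWeierstrass k Z a b u v) {s g : L} (hdef : DefinedOver Z u v s g)
    (D : J → MovingDivisor M B P) (hconn : ConnectedFibres k B Y Z P L N)
    (hout : GeneratedOutside k Z N A D s g) :
    kodairaDim B E ≤ logKodairaDim M (bundles A fun j => (D j).S) :=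
  iSup₂_le fun _ hc => le_iSup₂_of_le _ (upperE_GE hcomp hdim hW hdef D hconn hout hc) le_rfl

end main

end Pf72953.Ell
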