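import Mathlib
import Pool.Agent.Lib.Pf72953.Reduction
import Pool.Agent.Lib.Pf72953t.Main
import Pool.Agent.Lib.Pf72953e.UpperE
import Pool.Agent.Lib.Pf72953e.CoreE
import Pool.Agent.Lib.Pf72953e.JacE

/-!
Families of curves of genus one over a constant variety: the main theorem.
-/

set_option autoImplicit false
set_option linter.style.haveILetI false

open scoped WithZero
open Pf72953 Pf72953.Var Pf72953.Mov Pf72953.Up Pf72953.Twr

namespace Pf72953.Ell

theorem kodairaGE_zero {k Y : Type*} [Field k] [CharZero k] [Field Y] [Algebra k Y]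
    [Algebra.EssFiniteType k Y] (hM : kodairaDim k Y ≠ ⊥) : KodairaGE k Y 0 := by
  rcases kodairaDim_eq (k := k) (K := Y) with h | ⟨c, ⟨m, hm, ω, hω, hω0, -⟩, -⟩
  · exact absurd h hM
  · exact ⟨m, hm, ω, hω, hω0, Fin.elim0, by
      rw [algebraicIndependent_empty_type_iff]
      exact (algebraMap k Y).injective, fun i => i.elim0⟩

section main

variable {k B E Y Z P L N J : Type*} [Field k] [CharZero k] [IsAlgClosed k] [Field B] [Field E]
  [Field Y] [Field Z] [Field P] [Field L] [Field N]
  [Algebra k B] [Algebra k E] [Algebra k Y] [Algebra k Z] [Algebra k P] [Algebra k L] [Algebra k N]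
  [Algebra B E] [Algebra B Z] [Algebra B P] [Algebra B L] [Algebra B N]
  [Algebra E L] [Algebra E N] [Algebra Y Z] [Algebra Y P] [Algebra Y L] [Algebra Y N]
  [Algebra Z P] [Algebra Z L] [Algebra Z N] [Algebra P N] [Algebra L N]
  [IsScalarTower k B E] [IsScalarTower k B Z] [IsScalarTower k B P] [IsScalarTower k B L]
  [IsScalarTower k B N] [IsScalarTower k E L] [IsScalarTower k E N]
  [IsScalarTower k Y Z] [IsScalarTower k Y P] [IsScalarTower k Y L] [IsScalarTower k Y N]
  [IsScalarTower k Z P] [IsScalarTower k Z L] [IsScalarTower k Z N] [IsScalarTower k P N]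
  [IsScalarTower k L N] [IsScalarTower B E L] [IsScalarTower B E N]
  [IsScalarTower B Z P] [IsScalarTower B Z L] [IsScalarTower B Z N] [IsScalarTower B P N]
  [IsScalarTower B L N] [IsScalarTower Y Z P] [IsScalarTower Y Z L] [IsScalarTower Y Z N]
  [IsScalarTower Y P N] [IsScalarTower Y L N] [IsScalarTower Z P N] [IsScalarTower Z L N]
  [IsScalarTower E L N]
  [Algebra.EssFiniteType k B] [Algebra.EssFiniteType k Y] [Algebra.EssFiniteType k E]
  [FiniteDimensional E L] [FiniteDimensional E N] [FiniteDimensional L N] [FiniteDimensional Z P]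
  [Fintype J] {M : SmoothModel k Y} {A : LineBundle M}

theorem main_GE (hcomp : IsCompositum k B Y Z)
    (hdim : dimension k B + dimension k Y + 1 = dimension k E) (hunr : Unramified k B E L)
    {a : MovingSection M A 4 B P} {b : MovingSection M A 6 B P} {u v : N}
    (hW : IsWeierstrass k Z a b u v) {s g : L} (hdef : DefinedOver Z u v s g)
    (D : J → MovingDivisor M B P) (hram : ∀ j, RamifiedOver (N := N) k L (D j))
    (hM : KodairaGE k Y 0) {c₁ c₂ r : ℕ} (ha : OrbCoord k B E c₁) (hr : r = variation k a b D)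
    (hb : LogKodairaGE M (bundles A fun j => (D j).S) c₂) :
    KodairaGE k E (c₁ + c₂) ∧ KodairaGE k E (r + c₂) := by
  classical
  obtain ⟨x, hx, m₁, hm₁, h₀, hh₀, hh₀ne, f, hf, hff⟩ := ha
  constructor
  · refine coreE hcomp hdim hunr hW hdef D hram hM hx hm₁ hh₀ hh₀ne
      (ξ := fun i => algebraMap B N (f i)) ?_ (fun i => Or.inl ⟨f i, rfl, hff i⟩) hb
    exact hf.map' (f := IsScalarTower.toAlgHom k B N) (algebraMap B N).injective
  · haveI : Algebra.EssFiniteType k Z := essFinite_Z hcomp
    haveI : Algebra.EssFiniteType k P := Algebra.EssFiniteType.comp k Z P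
    set V := IntermediateField.adjoin k (weightRatios a b ∪ ⋃ j, (D j).ratios) with hV
    have hle : Algebra.trdeg k V ≤ Algebra.trdeg k P :=
      trdeg_le_of_injective V.val V.val.injective
    have hVr : (r : Cardinal) = Algebra.trdeg k V := by
      rw [hr, variation, dimension, Cardinal.cast_toNat_of_lt_aleph0]
      exact hle.trans_lt (trdeg_lt_aleph0 k P)
    obtain ⟨θ, hθ⟩ := exists_algebraicIndependent_of_le_trdeg hVr.le
    have hθL : AlgebraicIndependent k (fun i => (θ i : P)) :=
      hθ.map' (f := V.val) V.val.injective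
    obtain ⟨ψ, hψ, hψS⟩ := exists_indep_in_set (weightRatios a b ∪ ⋃ j, (D j).ratios) _ hθL
      (fun i => by
        rw [← IntermediateField.isAlgebraic_adjoin_iff]
        exact isAlgebraic_algebraMap (θ i))
    refine coreE hcomp hdim hunr hW hdef D hram hM hx hm₁ hh₀ hh₀ne
      (ξ := fun i => algebraMap P N (ψ i)) ?_ (fun i => ?_) hb
    · exact hψ.map' (f := IsScalarTower.toAlgHom k P N) (algebraMap P N).injective
    · rcases hψS i with h | h
      · exact Or.inr (Or.inl ⟨ψ i, h, rfl⟩)
      · obtain ⟨j, hj⟩ := Set.mem_iUnion.mp h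
        exact Or.inr (Or.inr ⟨j, ψ i, hj, rfl⟩)

/-- The lower bound. -/
theorem lowerE (hcomp : IsCompositum k B Y Z)
    (hdim : dimension k B + dimension k Y + 1 = dimension k E) (hunr : Unramified k B E L)
    {a : MovingSection M A 4 B P} {b : MovingSection M A 6 B P} {u v : N}
    (hW : IsWeierstrass k Z a b u v) {s g : L} (hdef : DefinedOver Z u v s g)
    (D : J → MovingDivisor M B P) (hram : ∀ j, RamifiedOver (N := N) k L (D j))
    (hM : kodairaDim k Y ≠ ⊥) :
    kodairaDim k B + logKodairaDim M (bundles A fun j => (D j).S) ≤ kodairaDim k E ∧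
      (orbKodairaDim k B E ≠ ⊥ →
        max (orbKodairaDim k B E) (((variation k a b D : ℕ) : ℕ∞) : WithBot ℕ∞) +
          logKodairaDim M (bundles A fun j => (D j).S) ≤ kodairaDim k E) := by
  have h1 : kodairaDim k B ≤ orbKodairaDim k B E := by
    refine iSup₂_le fun c hc => ?_
    exact le_iSup₂_of_le c hc.orb le_rfl
  have main2 : orbKodairaDim k B E ≠ ⊥ →
        max (orbKodairaDim k B E) (((variation k a b D : ℕ) : ℕ∞) : WithBot ℕ∞) +
          logKodairaDim M (bundles A fun j => (D j).S) ≤ kodairaDim k E := by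
    intro hne
    rcases orbKodairaDim_eq (k := k) (B := B) (E := E) with hB | ⟨c₁, ha, ha'⟩
    · exact absurd hB hne
    rcases logKodairaDim_eq (M := M) (bundles A fun j => (D j).S) with hF | ⟨c₂, hb, hb'⟩
    · rw [hF]; simp
    obtain ⟨h2, h3⟩ := main_GE hcomp hdim hunr hW hdef D hram (kodairaGE_zero hM) ha.orbCoord
      rfl hb
    have h4 : KodairaGE k E (max c₁ (variation k a b D) + c₂) := by
      rcases max_cases c₁ (variation k a b D) with ⟨h, -⟩ | ⟨h, -⟩
      · rw [h]; exact h2
      · rw [h]; exact h3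
    have h5 : ((((max c₁ (variation k a b D) + c₂ : ℕ) : ℕ∞)) : WithBot ℕ∞) ≤
        kodairaDim k E := le_iSup₂_of_le _ h4 le_rfl
    rw [ha', hb']
    refine le_trans (le_of_eq ?_) h5
    push_cast
    rfl
  refine ⟨?_, main2⟩
  by_cases hne : orbKodairaDim k B E = ⊥
  · have : kodairaDim k B = ⊥ := by
      rw [hne] at h1
      exact le_bot_iff.mp h1
    rw [this]
    simp
  · refine le_trans ?_ (main2 hne)
    gcongr
    exact h1.trans (le_max_left _ _)

/-- Iitaka's inequality and `C⁺` -/
theorem iitakaE (hcomp : IsCompositum k B Y Z)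
    (hdim : dimension k B + dimension k Y + 1 = dimension k E) (hunr : Unramified k B E L)
    {a : MovingSection M A 4 B P} {b : MovingSection M A 6 B P} {u v : N}
    (hW : IsWeierstrass k Z a b u v) {s g : L} (hdef : DefinedOver Z u v s g)
    (D : J → MovingDivisor M B P) (hram : ∀ j, RamifiedOver (N := N) k L (D j))
    (hM : kodairaDim k Y ≠ ⊥) (hconn : ConnectedFibres k B Y Z P L N)
    (hout : GeneratedOutside k Z N A D s g) :
    kodairaDim B E ≤ logKodairaDim M (bundles A fun j => (D j).S) ∧
    kodairaDim k B + kodairaDim B E ≤ kodairaDim k E ∧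
      (orbKodairaDim k B E ≠ ⊥ →
        max (orbKodairaDim k B E) (((variation k a b D : ℕ) : ℕ∞) : WithBot ℕ∞) +
          kodairaDim B E ≤ kodairaDim k E) := by
  obtain ⟨h1, h2⟩ := lowerE hcomp hdim hunr hW hdef D hram hM
  have h3 := upperE hcomp hdim hW hdef D hconn hout
  refine ⟨h3, le_trans ?_ h1, fun hne => le_trans ?_ (h2 hne)⟩
  · gcongr
  · gcongr

end main

section jac

variable {k B E Y Z L : Type*} [Field k] [CharZero k] [IsAlgClosed k] [Field B] [Field E]
  [Field Y] [Field Z] [Field L]
  [Algebra k B] [Algebra k E] [Algebra k Y] [Algebra k Z] [Algebra k L]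
  [Algebra B E] [Algebra B Z] [Algebra B L] [Algebra E L] [Algebra Y Z] [Algebra Y L]
  [Algebra Z L]
  [IsScalarTower k B E] [IsScalarTower k B Z] [IsScalarTower k B L] [IsScalarTower k E L]
  [IsScalarTower k Y Z] [IsScalarTower k Y L] [IsScalarTower k Z L]
  [IsScalarTower B E L] [IsScalarTower B Z L] [IsScalarTower Y Z L]
  [Algebra.EssFiniteType k B] [Algebra.EssFiniteType k Y] [Algebra.EssFiniteType k E]
  [FiniteDimensional E L] {M : SmoothModel k Y} {A : LineBundle M}

/-- Iitaka's inequality and `C⁺` for elliptic fibre spaces with a section over a constant variety -/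
theorem jacE (hcomp : IsCompositum k B Y Z)
    (hdim : dimension k B + dimension k Y + 1 = dimension k E) (hunr : Unramified k B E L)
    {a : MovingSection M A 4 B Z} {b : MovingSection M A 6 B Z} {u v : L}
    (hW : IsWeierstrass k Z a b u v) (hM : kodairaDim k Y ≠ ⊥) :
    kodairaDim B E ≤ logKodairaDim M (bundles A (PEmpty.elim : PEmpty.{1} → LineBundle M)) ∧
    kodairaDim k B + kodairaDim B E ≤ kodairaDim k E ∧
      (orbKodairaDim k B E ≠ ⊥ →
        max (orbKodairaDim k B E) (((variation k a b
          (PEmpty.elim : PEmpty.{1} → MovingDivisor M B Z) : ℕ) : ℕ∞) : WithBot ℕ∞) +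
          kodairaDim B E ≤ kodairaDim k E) := by
  classical
  haveI : CharZero B := charZero_of_injective_algebraMap (algebraMap k B).injective
  haveI : CharZero Z := charZero_of_injective_algebraMap (algebraMap k Z).injective
  haveI : Algebra.EssFiniteType k Z := essFinite_Z hcomp
  haveI : Algebra.EssFiniteType k L := Algebra.EssFiniteType.comp k E L
  have halgu : ∀ z : L, IsAlgebraic (IntermediateField.adjoin Z {u}) z := isAlgebraic_adjoin_u hW
  obtain ⟨hdZ, -, hdN, hZ, hPu⟩ := bases (Z := Z) (P := Z) (N := L) hcomp hdim halgu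
  have hu : Transcendental Z u := transcendental_u hcomp hdim halgu
  have hv : v ≠ 0 := by
    rintro rfl
    have h1 := hW.eqn
    refine hu ⟨Polynomial.X ^ 3 + Polynomial.C a.sec * Polynomial.X + Polynomial.C b.sec, ?_, ?_⟩
    · intro h0
      have h2 := congrArg (fun p => Polynomial.coeff p 3) h0
      simp [Polynomial.coeff_X, Polynomial.coeff_C] at h2
    · simp only [map_add, map_mul, map_pow, Polynomial.aeval_X, Polynomial.aeval_C]
      rw [← h1]
      simp
  have hdef : DefinedOver Z (L := L) u v u v⁻¹ := by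
    intro D
    rw [Algebra.algebraMap_self_apply, Algebra.algebraMap_self_apply, mul_inv_cancel₀ hv, one_mul]
  have hyZ : ∀ y : Fin (dimension k Y) → Y, IsTranscendenceBasis k y →
      IsTranscendenceBasis B (fun i => algebraMap Y Z (y i)) := fun y hy =>
    Up.tb_over hdZ.symm (fun a => by
      rw [← IntermediateField.isAlgebraic_adjoin_iff]
      exact isAlgebraic_algebraMap (⟨a, hcomp a⟩ : IntermediateField.adjoin k
        (Set.range (algebraMap B Z) ∪ Set.range (algebraMap Y Z)))) hy
  have hconn : ConnectedFibres k B Y Z Z L L := jac_connected hcomp hu hW.gen hW.eqn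
  have hout := jac_generated hW hu hyZ (by omega)
    (PEmpty.elim : PEmpty.{1} → MovingDivisor M B Z)
  have h := iitakaE (P := Z) (N := L) hcomp hdim hunr hW hdef
    (PEmpty.elim : PEmpty.{1} → MovingDivisor M B Z) (fun j => j.elim) hM hconn hout
  have hb : (bundles A fun j => ((PEmpty.elim : PEmpty.{1} → MovingDivisor M B Z) j).S) =
      bundles A (PEmpty.elim : PEmpty.{1} → LineBundle M) := by
    congr 1
    funext j
    exact j.elim
  rw [hb] at h
  exact h

end jac

end Pf72953.Ell
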